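import Pool.Agent.H25.NM.Chain
import Pool.Agent.H25.NM.Moment

/-! Unions of random complete multipartite graphs contain no large cliques. -/

set_option autoImplicit false
set_option linter.unusedSectionVars false

namespace Pool.Agent.H58.LG

open Finset
open Pool.Agent.H25.NM (nc nc_eq nc_congr nc_mono nc_le_card nc_false nc_true nc_bex_le nc_equiv
  sum_update ed card_ed mem_ed pre nc_eq_sum_nat choose_two_mono)

/-- The number of colourings which are injective on a set. -/
theorem nc_inj {V γ : Type} [Fintype V] [DecidableEq V] [Fintype γ] [DecidableEq γ] [Nonempty γ]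
    (S : Finset V) :
    nc (fun y : V → γ => Set.InjOn y S) * Fintype.card γ ^ (S.card.choose 2) ≤
      (Fintype.card γ - 1) ^ (S.card.choose 2) * Fintype.card (V → γ) := by
  classical
  obtain ⟨q, hq⟩ : ∃ q, q = Fintype.card γ := ⟨_, rfl⟩
  rw [← hq]
  have hq1 : 1 ≤ q := by
    rw [hq]
    exact Fintype.card_pos
  -- Bernoulli
  have hbern : ∀ r : ℕ, (q - r) * q ^ r ≤ (q - 1) ^ r * q := by
    intro r
    rcases Nat.lt_or_ge q r with h | h
    · rw [Nat.sub_eq_zero_of_le h.le, zero_mul]
      exact Nat.zero_le _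
    · have hq0 : (0 : ℝ) < q := by exact_mod_cast hq1
      have h1 := one_add_mul_le_pow (a := -(1 : ℝ) / q) (by
        have : (1 : ℝ) / q ≤ 1 := by
          rw [div_le_one hq0]
          exact_mod_cast hq1
        rw [neg_div]
        linarith) r
      have h2 : ((q : ℝ) - r) / q ≤ (((q : ℝ) - 1) / q) ^ r := by
        refine le_trans (le_of_eq ?_) (h1.trans (le_of_eq ?_))
        · field_simp
          ring
        · congr 1
          field_simp
          ring
      rw [div_pow, div_le_div_iff₀ hq0 (by positivity)] at h2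
      have h3 : ((q - r : ℕ) : ℝ) = (q : ℝ) - r := Nat.cast_sub h
      have h4 : ((q - 1 : ℕ) : ℝ) = (q : ℝ) - 1 := by
        rw [Nat.cast_sub hq1, Nat.cast_one]
      rw [← h3, ← h4] at h2
      exact_mod_cast h2
  induction S using Finset.induction_on with
  | empty =>
    simp only [Finset.card_empty, Nat.choose_zero_succ, pow_zero, mul_one, one_mul]
    exact nc_le_card _
  | insert a S ha ih =>
    have hch : (insert a S).card.choose 2 = S.card.choose 2 + S.card := by
      rw [Finset.card_insert_of_notMem ha, Nat.choose_succ_succ, Nat.choose_one_right, add_comm]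
    -- double counting
    have h1 : q * nc (fun y : V → γ => Set.InjOn y (insert a S : Finset V)) ≤
        (q - S.card) * nc (fun y : V → γ => Set.InjOn y S) := by
      have h2 := sum_update (R := ℕ) a fun y : V → γ =>
        if Set.InjOn y (insert a S : Finset V) then 1 else 0
      rw [smul_eq_mul, ← hq, ← nc_eq_sum_nat fun y : V → γ =>
        Set.InjOn y (insert a S : Finset V)] at h2
      rw [← h2, nc_eq_sum_nat (fun y : V → γ => Set.InjOn y S), Finset.mul_sum]
      refine Finset.sum_le_sum fun y _ => ?_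
      rw [← nc_eq_sum_nat fun c : γ => Set.InjOn (Function.update y a c) (insert a S : Finset V)]
      by_cases hy : Set.InjOn y (S : Set V)
      · rw [if_pos hy, mul_one, nc_eq]
        have h3 : (univ.filter fun c : γ => Set.InjOn (Function.update y a c)
            (insert a S : Finset V)) ⊆ univ \ S.image y := by
          intro c hc
          rw [Finset.mem_sdiff]
          refine ⟨Finset.mem_univ _, fun hc' => ?_⟩
          obtain ⟨b, hb, hbc⟩ := Finset.mem_image.mp hc'
          have h4 := (Finset.mem_filter.mp hc).2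
          have hba : b ≠ a := fun h => ha (h ▸ hb)
          refine hba (h4 (Finset.mem_coe.mpr (Finset.mem_insert_of_mem hb))
            (Finset.mem_coe.mpr (Finset.mem_insert_self _ _)) ?_)
          rw [Function.update_self, Function.update_of_ne hba, hbc]
        refine (Finset.card_le_card h3).trans ?_
        rw [Finset.card_sdiff_of_subset (Finset.subset_univ _), Finset.card_univ, ← hq,
          Finset.card_image_of_injOn hy]
      · rw [if_neg hy, mul_zero, nc_false]
        intro c hc
        refine hy fun b hb b' hb' hbb => ?_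
        have hb1 := Finset.mem_coe.mp hb
        have hb2 := Finset.mem_coe.mp hb'
        have n1 : b ≠ a := fun h => ha (h ▸ hb1)
        have n2 : b' ≠ a := fun h => ha (h ▸ hb2)
        refine hc (Finset.mem_coe.mpr (Finset.mem_insert_of_mem hb1))
          (Finset.mem_coe.mpr (Finset.mem_insert_of_mem hb2)) ?_
        rw [Function.update_of_ne n1, Function.update_of_ne n2, hbb]
    rw [hch]
    refine Nat.le_of_mul_le_mul_left ?_ (show 0 < q by omega)
    calc q * (nc (fun y : V → γ => Set.InjOn y (insert a S : Finset V)) *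
          q ^ (S.card.choose 2 + S.card))
        = (q * nc (fun y : V → γ => Set.InjOn y (insert a S : Finset V))) *
          q ^ (S.card.choose 2 + S.card) := by ring
      _ ≤ ((q - S.card) * nc (fun y : V → γ => Set.InjOn y S)) *
          q ^ (S.card.choose 2 + S.card) := Nat.mul_le_mul_right _ h1
      _ = ((q - S.card) * q ^ S.card) *
          (nc (fun y : V → γ => Set.InjOn y S) * q ^ (S.card.choose 2)) := by
          rw [pow_add]
          ring
      _ ≤ ((q - 1) ^ S.card * q) *
          ((q - 1) ^ (S.card.choose 2) * Fintype.card (V → γ)) :=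
          Nat.mul_le_mul (hbern _) ih
      _ = q * ((q - 1) ^ (S.card.choose 2 + S.card) * Fintype.card (V → γ)) := by
          rw [pow_add]
          ring

theorem nc_pi {J Ω : Type} [Fintype J] [DecidableEq J] [Fintype Ω] (p : J → Ω → Prop) :
    nc (fun ω : J → Ω => ∀ j, p j (ω j)) = ∏ j, nc (p j) := by
  classical
  have h1 : (univ.filter fun ω : J → Ω => ∀ j, p j (ω j)) =
      Fintype.piFinset fun j => univ.filter (p j) := by
    ext ω
    simp
  rw [nc_eq, h1, Fintype.card_piFinset]
  exact Finset.prod_congr rfl fun j _ => (nc_eq _).symm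

variable {ι α γ : Type} [Fintype ι] [DecidableEq ι] [Fintype α] [DecidableEq α] [Fintype γ]
  [DecidableEq γ]

/-- The complete multipartite graph of a colouring. -/
def mp (y : ι → α → γ) : SimpleGraph (ι × α) where
  Adj v w := y v.1 v.2 ≠ y w.1 w.2
  symm := ⟨fun _ _ h => h.symm⟩
  loopless := ⟨fun _ h => h rfl⟩

variable {n J : ℕ}

theorem nc_isClique_le [Nonempty γ] (φ : Fin J → ι × α ↪ Fin n)
    (hφ : ∀ i j u v u' v', u ≠ v → φ i u = φ j u' → φ i v = φ j v' → i = j)
    (K : Finset (Fin n)) :
    nc (fun ω : Fin J → (ι → α → γ) => (pre φ mp ω J).IsClique K) *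
      Fintype.card γ ^ (K.card.choose 2) ≤
      (Fintype.card γ - 1) ^ (K.card.choose 2) * Fintype.card (Fin J → (ι → α → γ)) := by
  classical
  obtain ⟨q, hq⟩ : ∃ q, q = Fintype.card γ := ⟨_, rfl⟩
  rw [← hq]
  have hq1 : 1 ≤ q := by
    rw [hq]
    exact Fintype.card_pos
  by_cases hne : ∃ ω : Fin J → (ι → α → γ), (pre φ mp ω J).IsClique K
  swap
  · push Not at hne
    rw [nc_false hne, zero_mul]
    exact Nat.zero_le _
  obtain ⟨ω0, hω0⟩ := hne
  let S : Fin J → Finset (ι × α) := fun j => univ.filter fun v => φ j v ∈ K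
  -- the pairs are covered
  have hcov : K.card.choose 2 ≤ ∑ j, (S j).card.choose 2 := by
    rw [← card_ed K]
    have h1 : ed K ⊆ univ.biUnion fun j => (ed (S j)).image (Sym2.map (φ j)) := by
      intro e he
      induction e using Sym2.ind with
      | _ x y =>
        rw [mem_ed] at he
        obtain ⟨hxy, hx, hy⟩ := he
        obtain ⟨j, -, hadj⟩ := hω0 (Finset.mem_coe.mpr hx) (Finset.mem_coe.mpr hy) hxy
        rw [SimpleGraph.map_adj] at hadj
        obtain ⟨v, w, hvw, rfl, rfl⟩ := hadj
        refine Finset.mem_biUnion.mpr ⟨j, Finset.mem_univ _, Finset.mem_image.mpr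
          ⟨s(v, w), ?_, by rw [Sym2.map_mk]⟩⟩
        rw [mem_ed]
        refine ⟨fun h => hxy (by rw [h]), ?_, ?_⟩
        · exact Finset.mem_filter.mpr ⟨Finset.mem_univ _, hx⟩
        · exact Finset.mem_filter.mpr ⟨Finset.mem_univ _, hy⟩
    refine (Finset.card_le_card h1).trans (Finset.card_biUnion_le.trans ?_)
    refine Finset.sum_le_sum fun j _ => ?_
    refine Finset.card_image_le.trans (le_of_eq (card_ed _))
  -- cliques give injective colourings
  have h1 : nc (fun ω : Fin J → (ι → α → γ) => (pre φ mp ω J).IsClique K) ≤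
      ∏ j, nc fun y : ι → α → γ => Set.InjOn (fun v : ι × α => y v.1 v.2) (S j) := by
    rw [← nc_pi]
    refine nc_mono fun ω hω j v hv w hw hvw => ?_
    by_contra hne
    have hv' := (Finset.mem_filter.mp (Finset.mem_coe.mp hv)).2
    have hw' := (Finset.mem_filter.mp (Finset.mem_coe.mp hw)).2
    have hne' : φ j v ≠ φ j w := fun h => hne ((φ j).injective h)
    obtain ⟨i, -, hadj⟩ := hω (Finset.mem_coe.mpr hv') (Finset.mem_coe.mpr hw') hne'
    rw [SimpleGraph.map_adj] at hadj
    obtain ⟨a, b, hab, ha, hb⟩ := hadj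
    have hab' : a ≠ b := fun h => hab.ne h
    have hij : i = j := hφ i j a b v w hab' ha hb
    subst hij
    rw [(φ i).injective ha, (φ i).injective hb] at hab
    exact hab hvw
  have h2 : ∀ j, nc (fun y : ι → α → γ => Set.InjOn (fun v : ι × α => y v.1 v.2) (S j)) *
      q ^ ((S j).card.choose 2) ≤ (q - 1) ^ ((S j).card.choose 2) *
      Fintype.card (ι → α → γ) := by
    intro j
    have h3 := nc_inj (γ := γ) (S j)
    rw [← hq] at h3
    have h4 := nc_equiv (Equiv.curry ι α γ).symm fun y : ι × α → γ => Set.InjOn y (S j)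
    have h5 : Fintype.card (ι × α → γ) = Fintype.card (ι → α → γ) :=
      Fintype.card_congr (Equiv.curry ι α γ)
    rw [← h4, h5] at h3
    exact h3
  -- the product
  obtain ⟨M, hM⟩ : ∃ M, M = ∑ j, (S j).card.choose 2 := ⟨_, rfl⟩
  rw [← hM] at hcov
  have h3 : nc (fun ω : Fin J → (ι → α → γ) => (pre φ mp ω J).IsClique K) * q ^ M ≤
      (q - 1) ^ M * Fintype.card (Fin J → (ι → α → γ)) := by
    rw [hM, ← Finset.prod_pow_eq_pow_sum, ← Finset.prod_pow_eq_pow_sum]
    calc nc (fun ω : Fin J → (ι → α → γ) => (pre φ mp ω J).IsClique K) *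
          ∏ j, q ^ ((S j).card.choose 2)
        ≤ (∏ j, nc fun y : ι → α → γ => Set.InjOn (fun v : ι × α => y v.1 v.2) (S j)) *
          ∏ j, q ^ ((S j).card.choose 2) := Nat.mul_le_mul_right _ h1
      _ = ∏ j, (nc (fun y : ι → α → γ => Set.InjOn (fun v : ι × α => y v.1 v.2) (S j)) *
          q ^ ((S j).card.choose 2)) := Finset.prod_mul_distrib.symm
      _ ≤ ∏ j, ((q - 1) ^ ((S j).card.choose 2) * Fintype.card (ι → α → γ)) :=
          Finset.prod_le_prod' fun j _ => h2 j
      _ = _ := by
          rw [Finset.prod_mul_distrib, Finset.prod_const, Finset.card_univ, Fintype.card_fin,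
            Fintype.card_fun (α := Fin J), Fintype.card_fin]
  obtain ⟨c, hc⟩ := Nat.exists_eq_add_of_le hcov
  rw [hc, pow_add, pow_add] at h3
  refine Nat.le_of_mul_le_mul_right ?_ (show 0 < q ^ c by positivity)
  calc nc (fun ω : Fin J → (ι → α → γ) => (pre φ mp ω J).IsClique K) *
        q ^ (K.card.choose 2) * q ^ c
      = nc (fun ω : Fin J → (ι → α → γ) => (pre φ mp ω J).IsClique K) *
        (q ^ (K.card.choose 2) * q ^ c) := by ring
    _ ≤ (q - 1) ^ (K.card.choose 2) * (q - 1) ^ c * Fintype.card (Fin J → (ι → α → γ)) := h3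
    _ ≤ (q - 1) ^ (K.card.choose 2) * q ^ c * Fintype.card (Fin J → (ι → α → γ)) := by
        gcongr
        exact Nat.sub_le _ _
    _ = _ := by ring

theorem nc_not_cliqueFree_le [Nonempty γ] (φ : Fin J → ι × α ↪ Fin n)
    (hφ : ∀ i j u v u' v', u ≠ v → φ i u = φ j u' → φ i v = φ j v' → i = j) (k : ℕ)
    (hk : 2 * n ^ k * (Fintype.card γ - 1) ^ (k.choose 2) ≤ Fintype.card γ ^ (k.choose 2)) :
    2 * nc (fun ω : Fin J → (ι → α → γ) => ¬ (pre φ mp ω J).CliqueFree k) ≤
      Fintype.card (Fin J → (ι → α → γ)) := by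
  classical
  have hq : 0 < Fintype.card γ ^ (k.choose 2) := by
    have : 0 < Fintype.card γ := Fintype.card_pos
    positivity
  have h1 : nc (fun ω : Fin J → (ι → α → γ) => ¬ (pre φ mp ω J).CliqueFree k) ≤
      ∑ U ∈ powersetCard k (univ : Finset (Fin n)),
        nc (fun ω : Fin J → (ι → α → γ) => (pre φ mp ω J).IsClique U) := by
    refine le_trans (nc_mono fun ω hω => ?_) (nc_bex_le _ _)
    unfold SimpleGraph.CliqueFree at hω
    push Not at hω
    obtain ⟨U, hU⟩ := hω
    exact ⟨U, Finset.mem_powersetCard.2 ⟨Finset.subset_univ _, hU.card_eq⟩, hU.isClique⟩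
  refine Nat.le_of_mul_le_mul_right ?_ hq
  calc 2 * nc (fun ω : Fin J → (ι → α → γ) => ¬ (pre φ mp ω J).CliqueFree k) *
      Fintype.card γ ^ (k.choose 2)
      ≤ 2 * (∑ U ∈ powersetCard k (univ : Finset (Fin n)),
        nc (fun ω : Fin J → (ι → α → γ) => (pre φ mp ω J).IsClique U)) *
        Fintype.card γ ^ (k.choose 2) := by gcongr
    _ = 2 * ∑ U ∈ powersetCard k (univ : Finset (Fin n)),
        nc (fun ω : Fin J → (ι → α → γ) => (pre φ mp ω J).IsClique U) *
        Fintype.card γ ^ (k.choose 2) := by
        rw [mul_assoc, Finset.sum_mul]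
    _ ≤ 2 * ∑ U ∈ powersetCard k (univ : Finset (Fin n)),
        (Fintype.card γ - 1) ^ (k.choose 2) * Fintype.card (Fin J → (ι → α → γ)) := by
        refine Nat.mul_le_mul_left _ (Finset.sum_le_sum fun U hU => ?_)
        have hk := (Finset.mem_powersetCard.1 hU).2
        have := nc_isClique_le (γ := γ) φ hφ U
        rwa [hk] at this
    _ = 2 * n.choose k * (Fintype.card γ - 1) ^ (k.choose 2) *
        Fintype.card (Fin J → (ι → α → γ)) := by
        rw [Finset.sum_const, Finset.card_powersetCard, Finset.card_univ, Fintype.card_fin,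
          smul_eq_mul]
        ring
    _ ≤ 2 * n ^ k * (Fintype.card γ - 1) ^ (k.choose 2) *
        Fintype.card (Fin J → (ι → α → γ)) := by
        gcongr
        exact Nat.choose_le_pow n k
    _ ≤ Fintype.card γ ^ (k.choose 2) * Fintype.card (Fin J → (ι → α → γ)) :=
        Nat.mul_le_mul_right _ hk
    _ = _ := mul_comm _ _

end Pool.Agent.H58.LG
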