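import Pool.Agent.H58.LG.Gate

/-! Linear programmes: renaming of the wires, AND and OR. -/

set_option autoImplicit false
set_option linter.unusedSectionVars false

namespace Pool.Agent.H58.LG

open Finset

theorem bit_nonneg (P : Prop) : 0 ≤ bit P := by
  by_cases h : P
  · rw [bit_true h]; norm_num
  · rw [bit_false h]

theorem bit_mono {P Q : Prop} (h : P → Q) : bit P ≤ bit Q := by
  by_cases hP : P
  · rw [bit_true hP, bit_true (h hP)]
  · rw [bit_false hP]
    exact bit_nonneg Q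

variable {T T' : Type}

theorem Program.Accepts.mono {P : Program T} {S : Finset T} {v v' : T → Prop}
    (h : P.Accepts S v) (hv : ∀ j ∈ S, v j → v' j) : P.Accepts S v' := by
  obtain ⟨p, h1, h2⟩ := h
  exact ⟨p, h1, fun j hj => (h2 j hj).trans (bit_mono (hv j hj))⟩

theorem Program.accepts_congr {P : Program T} {S : Finset T} {v v' : T → Prop}
    (hv : ∀ j ∈ S, v j ↔ v' j) : P.Accepts S v ↔ P.Accepts S v' :=
  ⟨fun h => h.mono fun j hj => (hv j hj).mp, fun h => h.mono fun j hj => (hv j hj).mpr⟩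

theorem Program.Margin.mono {P : Program T} {S : Finset T} {ε ε' : ℝ} (h : P.Margin S ε)
    (hε : ε' ≤ ε) : P.Margin S ε' := fun v hv p hp => hε.trans (h v hv p hp)

open Classical in
/-- renaming of the wires -/
noncomputable def Program.map (P : Program T) (e : T ↪ T') : Program T' where
  dim := P.dim
  num := P.num
  eqs := P.eqs
  ineq := P.ineq
  wire := Function.extend e P.wire (fun _ => 0)

theorem Program.map_wire (P : Program T) (e : T ↪ T') (t : T) :
    (P.map e).wire (e t) = P.wire t :=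
  e.injective.extend_apply P.wire (fun _ => (0 : (Fin P.dim → ℝ) →ᵃ[ℝ] ℝ)) t

theorem Program.map_accepts (P : Program T) (e : T ↪ T') (S : Finset T) (v : T' → Prop) :
    (P.map e).Accepts (S.map e) v ↔ P.Accepts S fun t => v (e t) := by
  constructor
  · rintro ⟨p, h1, h2⟩
    refine ⟨p, h1, fun j hj => ?_⟩
    have := h2 (e j) (Finset.mem_map_of_mem e hj)
    rwa [Program.map_wire] at this
  · rintro ⟨p, h1, h2⟩
    refine ⟨p, h1, fun j hj => ?_⟩
    obtain ⟨t, ht, rfl⟩ := Finset.mem_map.mp hj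
    rw [Program.map_wire]
    exact h2 t ht

theorem Program.Margin.map {P : Program T} {S : Finset T} {ε : ℝ} (h : P.Margin S ε)
    (e : T ↪ T') : (P.map e).Margin (S.map e) ε := by
  intro v hv p hp
  rw [Program.map_accepts] at hv
  have h1 := h _ hv p hp
  rw [Finset.sum_map]
  refine h1.trans (le_of_eq (Finset.sum_congr rfl fun j _ => ?_))
  rw [Program.map_wire]
  rfl

/-- AND as a linear programme without inequalities -/
theorem exists_and (S : Finset T) : ∃ P : Program T, P.num = 0 ∧ P.Margin S 1 ∧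
    ∀ v, P.Accepts S v ↔ ∀ j ∈ S, v j := by
  classical
  have hacc : ∀ v : T → Prop, (∃ p : Fin 0 → ℝ, (p ∈ (⊤ : AffineSubspace ℝ (Fin 0 → ℝ)) ∧
      ∀ r : Fin 0, (0 : ℝ) ≤ (Fin.elim0 r : (Fin 0 → ℝ) →ᵃ[ℝ] ℝ) p) ∧
      ∀ j ∈ S, AffineMap.const ℝ (Fin 0 → ℝ) (1 : ℝ) p ≤ bit (v j)) ↔ ∀ j ∈ S, v j := by
    intro v
    constructor
    · rintro ⟨p, -, h⟩ j hj
      by_contra hv
      have := h j hj
      rw [bit_false hv, AffineMap.const_apply] at this
      linarith
    · intro h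
      refine ⟨Fin.elim0, ⟨AffineSubspace.mem_top _ _ _, fun r => r.elim0⟩, fun j hj => ?_⟩
      rw [bit_true (h j hj), AffineMap.const_apply]
  refine ⟨⟨0, 0, ⊤, fun r => r.elim0, fun _ => AffineMap.const ℝ _ 1⟩, rfl, ?_, hacc⟩
  intro v hv p _
  have hv' : ¬ ∀ j ∈ S, v j := fun h => hv ((hacc v).mpr h)
  push Not at hv'
  obtain ⟨j, hj, hvj⟩ := hv'
  refine le_trans ?_ (Finset.single_le_sum
    (f := fun j => max (AffineMap.const ℝ (Fin 0 → ℝ) (1 : ℝ) p - bit (v j)) 0)
    (fun i _ => le_max_right _ _) hj)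
  rw [bit_false hvj, AffineMap.const_apply]
  norm_num

/-- OR as a linear programme without inequalities -/
theorem exists_or [Fintype T] (S : Finset T) : ∃ P : Program T, P.num = 0 ∧ P.Margin S 1 ∧
    ∀ v, P.Accepts S v ↔ ∃ j ∈ S, v j := by
  classical
  obtain ⟨e⟩ : Nonempty (T ≃ Fin (Fintype.card T)) := ⟨Fintype.equivFin T⟩
  let w : T → (Fin (Fintype.card T) → ℝ) →ᵃ[ℝ] ℝ := fun j =>
    (LinearMap.proj (e j) : (Fin (Fintype.card T) → ℝ) →ₗ[ℝ] ℝ).toAffineMap
  have hw : ∀ j p, w j p = p (e j) := fun _ _ => rfl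
  let E : AffineSubspace ℝ (Fin (Fintype.card T) → ℝ) :=
    { carrier := {p | ∑ j ∈ S, p (e j) = 1}
      smul_vsub_vadd_mem' := by
        intro c p1 p2 p3 h1 h2 h3
        simp only [Set.mem_ofPred_eq] at h1 h2 h3 ⊢
        simp only [vsub_eq_sub, vadd_eq_add, Pi.add_apply, Pi.smul_apply, Pi.sub_apply,
          smul_eq_mul]
        rw [Finset.sum_add_distrib, ← Finset.mul_sum, Finset.sum_sub_distrib, h1, h2, h3]
        ring }
  have hE : ∀ p, p ∈ E ↔ ∑ j ∈ S, p (e j) = 1 := fun _ => Iff.rfl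
  have hacc : ∀ v : T → Prop, (∃ p : Fin (Fintype.card T) → ℝ, (p ∈ E ∧
      ∀ r : Fin 0, (0 : ℝ) ≤ (Fin.elim0 r : (Fin (Fintype.card T) → ℝ) →ᵃ[ℝ] ℝ) p) ∧
      ∀ j ∈ S, w j p ≤ bit (v j)) ↔ ∃ j ∈ S, v j := by
    intro v
    constructor
    · rintro ⟨p, ⟨h1, -⟩, h⟩
      by_contra hv
      push Not at hv
      rw [hE] at h1
      have : ∑ j ∈ S, p (e j) ≤ 0 := Finset.sum_nonpos fun j hj => by
        have := h j hj
        rwa [bit_false (hv j hj), hw] at this
      linarith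
    · rintro ⟨j, hj, hv⟩
      refine ⟨fun i => if i = e j then 1 else 0, ⟨?_, fun r => r.elim0⟩, fun j' _ => ?_⟩
      · rw [hE]
        simp only [EmbeddingLike.apply_eq_iff_eq]
        rw [Finset.sum_ite_eq' S j, if_pos hj]
      · rw [hw]
        simp only [EmbeddingLike.apply_eq_iff_eq]
        split_ifs with h
        · rw [h, bit_true hv]
        · exact bit_nonneg _
  refine ⟨⟨Fintype.card T, 0, E, fun r => r.elim0, w⟩, rfl, ?_, hacc⟩
  intro v hv p hp
  have hv' : ¬ ∃ j ∈ S, v j := fun h => hv ((hacc v).mpr h)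
  push Not at hv'
  have h1 : ∑ j ∈ S, p (e j) = 1 := (hE p).mp hp.1
  show (1 : ℝ) ≤ ∑ j ∈ S, max (w j p - bit (v j)) 0
  rw [← h1]
  refine Finset.sum_le_sum fun j hj => ?_
  rw [bit_false (hv' j hj), sub_zero, hw]
  exact le_max_left _ _

/-- the graph properties computed by monotone gates -/
def Plain {n s : ℕ} (R : ℕ) (ε : ℝ) (f : Fin s → SimpleGraph (Fin n) → Prop) (i : Fin s) : Prop :=
  (∃ u v, ∀ G, f i G ↔ G.Adj u v) ∨ (∃ b : Prop, ∀ G, f i G ↔ b) ∨
  ∃ (P : Program (Fin s)) (S : Finset (Fin s)), P.num ≤ R ∧ (∀ j ∈ S, j < i) ∧ P.Margin S ε ∧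
    ∀ G, f i G ↔ P.Accepts S fun j => f j G

end Pool.Agent.H58.LG
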