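import Pool.Agent.H58.LG.Par
import Pool.Agent.H58.LG.Prog
import Pool.Agent.H25.NM.Nc

/-! Families of graphs and monotone gates. -/

set_option autoImplicit false
set_option linter.unusedSectionVars false

namespace Pool.Agent.H58.LG

open Finset
open Pool.Agent.H25.NM (nc nc_eq)

variable {ι α γ : Type} [Fintype ι] [DecidableEq ι] [Fintype α] [DecidableEq α] [Fintype γ]
  [DecidableEq γ]

/-- **Block lemma.** No gate accepts a noticeable part of the graphs `a x` and rejects a part of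
the graphs `b y` which is not exponentially small. -/
theorem block {n s R u l : ℕ} {ε : ℝ} (f : Fin s → SimpleGraph (Fin n) → Prop)
    (hf : ∀ i, Plain R ε f i) (hα : Fintype.card α = 2 ^ (10 * u))
    (hu : 10 ≤ u) (hl : 2 ≤ l) (hk : 5 * Fintype.card ι ≤ 2 ^ u)
    (hkl : 2 * l + 2 ≤ Fintype.card ι) (hq : 34 * l + 22 ≤ Fintype.card γ)
    (hs : s ≤ (2 ^ u) ^ l) (hN : R + 1 + 2 * s ≤ (2 ^ u) ^ l) (hε : 1 ≤ ε * ((2 : ℝ) ^ u) ^ l)
    (a : (ι → α) → SimpleGraph (Fin n)) (b : (ι → α → γ) → SimpleGraph (Fin n))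
    (hab : ∀ x v w, (a x).Adj v w → ∃ J : Finset ι, J.card ≤ 2 ∧
      ∀ y, ¬ (b y).Adj v w → ¬ Set.InjOn (zz x y) J) (o : Fin s)
    (hX : 2 * Fintype.card (ι → α) ≤ nc (fun x => f o (a x)) * ((2 : ℝ) ^ u) ^ 4)
    (hY : (Fintype.card (ι → α → γ) : ℝ) ≤
      nc (fun y => ¬ f o (b y)) * (2 : ℝ) ^ (2 ^ (2 * u - 5))) : False := by
  classical
  rw [nc_eq] at hX hY
  refine core hα hu hl hk hkl hq hs hN hε (fun i x => f i (a x)) (fun i y => ¬ f i (b y)) ?_ o
    (univ.filter fun x => f o (a x)) (univ.filter fun y => ¬ f o (b y))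
    (fun x hx => (Finset.mem_filter.mp hx).2) (fun y hy => (Finset.mem_filter.mp hy).2) hX hY
  intro i
  rcases hf i with ⟨v, w, h⟩ | ⟨c, h⟩ | ⟨P, S, h1, h2, h3, h4⟩
  · left
    intro x hx
    obtain ⟨J, hJ, hJ'⟩ := hab x v w ((h _).mp hx)
    exact ⟨J, hJ, fun y hy => hJ' y fun hy' => hy ((h _).mpr hy')⟩
  · left
    intro x hx
    exact ⟨∅, by simp, fun y hy => absurd ((h _).mpr ((h _).mp hx)) hy⟩
  · right
    exact (rel_of_program P S h3 (fun i x => f i (a x)) (fun i y => f i (b y)) i h2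
      (fun x => h4 _) (fun y => h4 _)).mono (by omega)

end Pool.Agent.H58.LG
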