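import Pool.Agent.H58.LG.Dag

/-! The choice of the parameters. -/

set_option autoImplicit false
set_option linter.unusedSectionVars false

namespace Pool.Agent.H58.LG

open Finset

theorem u_le (u : ℕ) (hu : 8 ≤ u) : 28 * u ≤ 2 ^ u := by
  induction u, hu using Nat.le_induction with
  | base => norm_num
  | succ u hu ih =>
    rw [pow_succ]
    omega

/-- The parameters. -/
noncomputable def par {u l k q s N : ℕ} {ε : ℝ} (hu : 10 ≤ u) (hl : 2 ≤ l) (hk : 5 * k ≤ 2 ^ u)
    (hkl : 2 * l + 2 ≤ k) (hq : 34 * l + 22 ≤ q) (hs : s ≤ (2 ^ u) ^ l) (hN : N ≤ (2 ^ u) ^ l)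
    (hε : 1 ≤ ε * ((2 : ℝ) ^ u) ^ l) :
    Par k q (2 ^ (10 * u)) s N ε := by
  have hz0 : (1024 : ℝ) ≤ 2 ^ u := by
    calc (1024 : ℝ) = 2 ^ 10 := by norm_num
      _ ≤ 2 ^ u := pow_le_pow_right₀ (by norm_num) hu
  have hm : ((2 ^ (10 * u) : ℕ) : ℝ) = (2 ^ u : ℝ) ^ 10 := by
    push_cast
    rw [← pow_mul, mul_comm]
  have hkz : 5 * (k : ℝ) ≤ 2 ^ u := by exact_mod_cast hk
  have hsz : (s : ℝ) ≤ (2 ^ u : ℝ) ^ l := by exact_mod_cast hs
  have hNz : (N : ℝ) ≤ (2 ^ u : ℝ) ^ l := by exact_mod_cast hN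
  have huz : 28 * (u : ℝ) ≤ 2 ^ u := by exact_mod_cast u_le u (by omega)
  have htp2 : (2 : ℝ) ^ (2 ^ (2 * u - 4)) * (1 / 2) ^ (2 ^ (2 * u - 4) + u * (19 * l + 13)) =
      1 / (2 ^ u : ℝ) ^ (19 * l + 13) := by
    rw [pow_add, one_div_pow, one_div_pow, pow_mul]
    have h1 : (2 : ℝ) ^ (2 ^ (2 * u - 4)) ≠ 0 := by positivity
    rw [← mul_assoc, mul_one_div_cancel h1, one_mul]
  have hpu : ((2 ^ (2 * u - 4) + u * (19 * l + 13) : ℕ) : ℝ) * 112 ≤ 15 * (2 ^ u) ^ 2 := by
    have h1 : ((2 ^ (2 * u - 4) : ℕ) : ℝ) * 16 = (2 ^ u) ^ 2 := by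
      have : (2 : ℕ) ^ (2 * u - 4) * 16 = (2 ^ u) ^ 2 := by
        calc (2 : ℕ) ^ (2 * u - 4) * 16 = 2 ^ (2 * u - 4) * 2 ^ 4 := by norm_num
          _ = 2 ^ (2 * u) := by rw [← pow_add]; congr 1; omega
          _ = (2 ^ u) ^ 2 := by rw [← pow_mul, mul_comm]
      exact_mod_cast this
    have h2 : ((u * (19 * l + 13) : ℕ) : ℝ) * 14 ≤ (2 ^ u) ^ 2 := by
      have h3 : ((u * (19 * l + 13) : ℕ) : ℝ) ≤ 10 * (u * k) := by
        have : u * (19 * l + 13) ≤ 10 * (u * k) := by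
          calc u * (19 * l + 13) ≤ u * (10 * k) := Nat.mul_le_mul_left _ (by omega)
            _ = 10 * (u * k) := by ring
        exact_mod_cast this
      have h4 : (28 * (u : ℝ)) * (5 * k) ≤ 2 ^ u * 2 ^ u :=
        mul_le_mul huz hkz (by positivity) (by positivity)
      nlinarith
    push_cast at h1 h2 ⊢
    linarith
  have hk0 : (1 : ℝ) ≤ k := by
    have : 1 ≤ k := by omega
    exact_mod_cast this
  generalize hz : (2 : ℝ) ^ u = z at *
  have hz1 : (1 : ℝ) ≤ z := by linarith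
  have hzp : (0 : ℝ) < z := by linarith
  have hε0 : 0 < ε := by
    by_contra hcon
    push Not at hcon
    have : ε * z ^ l ≤ 0 := mul_nonpos_of_nonpos_of_nonneg hcon (by positivity)
    linarith
  have hκm : 1 / z ^ 6 * ((2 ^ (10 * u) : ℕ) : ℝ) = z ^ 4 := by
    rw [hm]
    field_simp
  -- 4 X ≤ 1/16 ε-type bounds
  have h1k : (1 + (k : ℝ)) ^ l ≤ z ^ l := pow_le_pow_left₀ (by positivity) (by linarith) _
  have h4k : (1 + (k : ℝ) * 4) ^ (12 * l + 8) ≤ z ^ (12 * l + 8) :=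
    pow_le_pow_left₀ (by positivity) (by linarith) _
  have hεz : 1 / z ^ l ≤ ε := by
    rw [div_le_iff₀ (by positivity)]
    exact hε
  have hε16 : 1 / z ^ (l + 1) ≤ ε / 16 := by
    have e1 : 1 / z ^ (l + 1) = 1 / z ^ l * (1 / z) := by
      rw [pow_succ]
      field_simp
    have e2 : 1 / z ≤ 1 / 16 := one_div_le_one_div_of_le (by norm_num) (by linarith)
    rw [e1]
    calc 1 / z ^ l * (1 / z) ≤ ε * (1 / 16) :=
          mul_le_mul hεz e2 (by positivity) hε0.le
      _ = ε / 16 := by ring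
  have hpw : ∀ a b : ℕ, a + l + 1 ≤ b → z ^ a / z ^ b ≤ ε / 16 := by
    intro a b hab
    refine le_trans ?_ hε16
    rw [div_le_div_iff₀ (by positivity) (by positivity), one_mul, ← pow_add]
    exact pow_le_pow_right₀ hz1 (by omega)
  have h4z : (4 : ℝ) ≤ z := by linarith
  -- the first term
  have hT0 : (1 + (k : ℝ)) ^ l * (4 * (1 / z) ^ (12 * l + 8 + 1 - l)) ≤ z ^ (l + 1) /
      z ^ (12 * l + 8 + 1 - l) := by
    rw [one_div_pow]
    calc (1 + (k : ℝ)) ^ l * (4 * (1 / z ^ (12 * l + 8 + 1 - l)))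
        ≤ z ^ l * (z * (1 / z ^ (12 * l + 8 + 1 - l))) := by gcongr
      _ = _ := by rw [pow_succ]; ring
  have herr : err k (4 * l + 3) (12 * l + 8) (2 ^ (2 * u - 4))
      (2 ^ (2 * u - 4) + u * (19 * l + 13)) (1 / z) ≤ z ^ (4 * l + 3 + 1) / z ^ (8 * l + 6) +
        z ^ (16 * l + 11) / z ^ (19 * l + 13) := by
    unfold err
    rw [htp2, one_div_pow]
    have e8 : (8 : ℝ) ^ (4 * l + 3) ≤ z ^ (4 * l + 3) :=
      pow_le_pow_left₀ (by norm_num) (by linarith) _
    have e2 : (2 : ℝ) ^ (4 * l + 3) ≤ z ^ (4 * l + 3) :=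
      pow_le_pow_left₀ (by norm_num) (by linarith) _
    have e3 : 12 * l + 8 + 1 - (4 * l + 3) = 8 * l + 6 := by omega
    rw [e3]
    refine add_le_add ?_ ?_
    · calc 4 * 8 ^ (4 * l + 3) * (1 / z ^ (8 * l + 6))
          ≤ z * z ^ (4 * l + 3) * (1 / z ^ (8 * l + 6)) := by gcongr
        _ = _ := by rw [pow_succ z (4 * l + 3)]; ring
    · calc 1 / z ^ (19 * l + 13) * 2 ^ (4 * l + 3) * (1 + (k : ℝ) * 4) ^ (12 * l + 8)
          ≤ 1 / z ^ (19 * l + 13) * z ^ (4 * l + 3) * z ^ (12 * l + 8) := by gcongr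
        _ = _ := by
          have : 16 * l + 11 = (4 * l + 3) + (12 * l + 8) := by ring
          rw [this, pow_add]
          ring
  exact
    { p := 2 ^ (2 * u - 4) + u * (19 * l + 13)
      t := 2 ^ (2 * u - 4)
      d := l
      d' := 4 * l + 3
      D := 12 * l + 8
      κ := 1 / z ^ 6
      κ1 := 1 / z ^ (15 * l + 9)
      η := 1 / z ^ (l + 4)
      h := 1 / (k * z)
      ρ := 1 / z
      hp := le_trans Nat.one_le_two_pow (Nat.le_add_right _ _)
      htp := Nat.le_add_right _ _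
      hdD := by omega
      hdD' := by omega
      hq := by omega
      hκ := by positivity
      hκ1 := by positivity
      hη := by positivity
      hκm := by
        rw [hκm]
        exact one_le_pow₀ hz1
      hηκ := by
        rw [hκm, one_div_mul_eq_div, div_le_one (by positivity)]
        exact pow_le_pow_right₀ hz1 (by omega)
      hd := by
        rw [hκm, mul_one_div, one_le_div (by positivity), ← pow_mul]
        exact pow_le_pow_right₀ hz1 (by omega)
      hd' := by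
        rw [hκm, div_mul_div_comm, one_mul, mul_one_div, one_le_div (by positivity), ← pow_mul,
          ← pow_add]
        exact pow_le_pow_right₀ hz1 (by omega)
      hh0 := by positivity
      hh := by
        rw [div_pow, one_pow, mul_one_div, div_le_div_iff₀ (by positivity) (by positivity),
          one_mul, mul_pow]
        have e1 : (k : ℝ) ^ 2 * 25 ≤ z ^ 2 := by
          have := pow_le_pow_left₀ (by positivity) hkz 2
          calc (k : ℝ) ^ 2 * 25 = (5 * k) ^ 2 := by ring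
            _ ≤ z ^ 2 := this
        obtain ⟨pp, hpp⟩ : ∃ pp : ℝ, pp = ((2 ^ (2 * u - 4) + u * (19 * l + 13) : ℕ) : ℝ) :=
          ⟨_, rfl⟩
        rw [← hpp] at hpu ⊢
        have hpp0 : 0 ≤ pp := by
          rw [hpp]
          positivity
        calc 128 * pp * (k ^ 2 * z ^ 2) = 128 / 2800 * (pp * 112) * (k ^ 2 * 25) * z ^ 2 := by
              ring
          _ ≤ 128 / 2800 * (15 * z ^ 2) * z ^ 2 * z ^ 2 := by gcongr
          _ = 1920 / 2800 * z ^ 6 := by ring
          _ ≤ 1 * z ^ 6 := by gcongr; norm_num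
          _ = z ^ 6 := one_mul _
      hρ := by
        have hk0' : (k : ℝ) ≠ 0 := by positivity
        have : (k : ℝ) * (1 / (k * z)) = 1 / z := by
          field_simp
        rw [this]
      hρ1 := one_div_le_one_div_of_le (by norm_num) (by linarith)
      hε := hε0.le
      n1 := by
        refine lt_of_le_of_lt hT0 ?_
        have e1 : z ^ (l + 1) / z ^ (12 * l + 8 + 1 - l) ≤ 1 / z := by
          rw [div_le_div_iff₀ (by positivity) (by positivity), one_mul, ← pow_succ]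
          exact pow_le_pow_right₀ hz1 (by omega)
        have e2 : 1 / z ≤ 1 / 16 := one_div_le_one_div_of_le (by norm_num) (by linarith)
        linarith
      n2 := by
        have t1 : (s : ℝ) * ((1 + (k : ℝ)) ^ l * (4 * (1 / z) ^ (12 * l + 8 + 1 - l))) ≤
            ε / 16 := by
          calc (s : ℝ) * ((1 + (k : ℝ)) ^ l * (4 * (1 / z) ^ (12 * l + 8 + 1 - l)))
              ≤ z ^ l * (z ^ (l + 1) / z ^ (12 * l + 8 + 1 - l)) := by gcongr
            _ = z ^ (l + (l + 1)) / z ^ (12 * l + 8 + 1 - l) := by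
                rw [pow_add z l (l + 1)]
                ring
            _ ≤ ε / 16 := hpw _ _ (by omega)
        have t2 : (N : ℝ) * (s * (err k (4 * l + 3) (12 * l + 8) (2 ^ (2 * u - 4))
            (2 ^ (2 * u - 4) + u * (19 * l + 13)) (1 / z) + 1 / z ^ (15 * l + 9) *
              (1 + (k : ℝ) * 4) ^ (12 * l + 8))) ≤ ε / 16 + ε / 16 + ε / 16 := by
          calc (N : ℝ) * (s * (err k (4 * l + 3) (12 * l + 8) (2 ^ (2 * u - 4))
                (2 ^ (2 * u - 4) + u * (19 * l + 13)) (1 / z) + 1 / z ^ (15 * l + 9) *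
                (1 + (k : ℝ) * 4) ^ (12 * l + 8)))
              ≤ z ^ l * (z ^ l * ((z ^ (4 * l + 3 + 1) / z ^ (8 * l + 6) +
                z ^ (16 * l + 11) / z ^ (19 * l + 13)) + 1 / z ^ (15 * l + 9) *
                z ^ (12 * l + 8))) := by
                have := err_nonneg k (4 * l + 3) (12 * l + 8) (2 ^ (2 * u - 4))
                  (2 ^ (2 * u - 4) + u * (19 * l + 13)) (show 0 ≤ 1 / z by positivity)
                gcongr
            _ = z ^ (l + l + (4 * l + 3 + 1)) / z ^ (8 * l + 6) +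
                z ^ (l + l + (16 * l + 11)) / z ^ (19 * l + 13) +
                z ^ (l + l + (12 * l + 8)) / z ^ (15 * l + 9) := by
                rw [pow_add z (l + l) (4 * l + 3 + 1), pow_add z (l + l) (16 * l + 11),
                  pow_add z (l + l) (12 * l + 8), pow_add z l l]
                ring
            _ ≤ ε / 16 + ε / 16 + ε / 16 :=
                add_le_add (add_le_add (hpw _ _ (by omega)) (hpw _ _ (by omega)))
                  (hpw _ _ (by omega))
        linarith }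

variable {ι α γ : Type*} [Fintype ι] [DecidableEq ι] [Fintype α] [DecidableEq α] [Fintype γ]
  [DecidableEq γ]

theorem Dead.mono {d d' : ℕ} (h : d ≤ d') {U : (ι → α) → Prop} {V : (ι → α → γ) → Prop}
    (H : Dead d U V) : Dead d' U V := by
  intro x hx
  obtain ⟨J, h1, h2⟩ := H x hx
  exact ⟨J, h1.trans h, h2⟩

/-- **Core.** No gate accepts a noticeable part of the transversals and rejects a part of the
colourings which is not exponentially small. -/
theorem core {u l s N : ℕ} {ε : ℝ} (hα : Fintype.card α = 2 ^ (10 * u))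
    (hu : 10 ≤ u) (hl : 2 ≤ l) (hk : 5 * Fintype.card ι ≤ 2 ^ u)
    (hkl : 2 * l + 2 ≤ Fintype.card ι) (hq : 34 * l + 22 ≤ Fintype.card γ)
    (hs : s ≤ (2 ^ u) ^ l) (hN : N ≤ (2 ^ u) ^ l) (hε : 1 ≤ ε * ((2 : ℝ) ^ u) ^ l)
    (U : Fin s → (ι → α) → Prop) (V : Fin s → (ι → α → γ) → Prop)
    (hgate : ∀ i, Dead 2 (U i) (V i) ∨ Rel N ε U V i) (o : Fin s)
    (X : Finset (ι → α)) (Y : Finset (ι → α → γ)) (hXU : ∀ x ∈ X, U o x) (hYV : ∀ y ∈ Y, V o y)
    (hX : 2 * Fintype.card (ι → α) ≤ X.card * ((2 : ℝ) ^ u) ^ 4)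
    (hY : (Fintype.card (ι → α → γ) : ℝ) ≤ Y.card * (2 : ℝ) ^ (2 ^ (2 * u - 5))) : False := by
  have hγ : Nonempty γ := Fintype.card_pos_iff.mp (by omega)
  have hz0 : (1024 : ℝ) ≤ 2 ^ u := by
    calc (1024 : ℝ) = 2 ^ 10 := by norm_num
      _ ≤ 2 ^ u := pow_le_pow_right₀ (by norm_num) hu
  have hm : (Fintype.card α : ℝ) = (2 ^ u : ℝ) ^ 10 := by
    rw [hα]
    push_cast
    rw [← pow_mul, mul_comm]
  have hsz : (s : ℝ) ≤ (2 ^ u : ℝ) ^ l := by exact_mod_cast hs
  have P0 : ∃ P : Par (Fintype.card ι) (Fintype.card γ) (Fintype.card α) s N ε,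
      P.d = l ∧ P.t = 2 ^ (2 * u - 4) ∧ P.κ = 1 / (2 ^ u) ^ 6 ∧
      P.η = 1 / (2 ^ u) ^ (l + 4) := by
    rw [hα]
    exact ⟨par hu hl hk hkl hq hs hN hε, rfl, rfl, rfl, rfl⟩
  obtain ⟨P, hPd, hPt, hPκ, hPη⟩ := P0
  obtain ⟨k, hkdef⟩ : ∃ k, k = Fintype.card ι := ⟨_, rfl⟩
  have h77 : ∀ w, 10 ≤ w → 77 * w ≤ 2 ^ w := by
    intro w hw
    induction w, hw using Nat.le_induction with
    | base => norm_num
    | succ w hw ih =>
      rw [pow_succ]
      omega
  -- the exponent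
  have hexp : u * (l + 11 * k + 1) ≤ 2 ^ (2 * u - 5) := by
    have h1 : l + 11 * k + 1 ≤ 12 * k := by omega
    have h2 : 32 * 2 ^ (2 * u - 5) = 2 ^ u * 2 ^ u := by
      calc 32 * 2 ^ (2 * u - 5) = 2 ^ 5 * 2 ^ (2 * u - 5) := by norm_num
        _ = 2 ^ (u + u) := by rw [← pow_add]; congr 1; omega
        _ = 2 ^ u * 2 ^ u := pow_add _ _ _
    have h3 : (77 * u) * (5 * k) ≤ 2 ^ u * 2 ^ u := by
      refine Nat.mul_le_mul (h77 u hu) ?_
      rw [hkdef]
      exact hk
    have h4 : u * (l + 11 * k + 1) ≤ 12 * (u * k) := by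
      calc u * (l + 11 * k + 1) ≤ u * (12 * k) := Nat.mul_le_mul_left _ h1
        _ = 12 * (u * k) := by ring
    have h5 : (77 * u) * (5 * k) = 385 * (u * k) := by ring
    omega
  have hexp2 : (2 : ℝ) ^ (2 ^ (2 * u - 4)) = 2 ^ (2 ^ (2 * u - 5)) * 2 ^ (2 ^ (2 * u - 5)) := by
    rw [← pow_add]
    congr 1
    calc 2 ^ (2 * u - 4) = 2 ^ (2 * u - 5 + 1) := by congr 1; omega
      _ = 2 ^ (2 * u - 5) + 2 ^ (2 * u - 5) := by rw [pow_succ]; ring
  have hexp3 : ((2 : ℝ) ^ u) ^ (l + 11 * k + 1) ≤ 2 ^ (2 ^ (2 * u - 5)) := by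
    rw [← pow_mul]
    exact pow_le_pow_right₀ (by norm_num) hexp
  rw [Fintype.card_fun, Nat.cast_pow] at hX
  have h2 : (0 : ℝ) < Fintype.card (ι → α → γ) := by
    have : Nonempty (ι → α → γ) := ⟨fun _ _ => hγ.some⟩
    exact_mod_cast Fintype.card_pos
  generalize hz : (2 : ℝ) ^ u = z at *
  have hz1 : (1 : ℝ) ≤ z := by linarith
  have hzp : (0 : ℝ) < z := by linarith
  refine dag P U V (fun i => (hgate i).imp_left fun h => h.mono (by omega)) o X Y hXU hYV ?_ ?_
  · rw [hPκ, hPη]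
    have e1 : 1 / (1 / z ^ 6 * (Fintype.card α : ℝ)) = 1 / z ^ 4 := by
      rw [hm]
      field_simp
    rw [e1]
    have e2 : (s : ℝ) * (1 / z ^ (l + 4)) ≤ 1 / z ^ 4 := by
      rw [mul_one_div, div_le_div_iff₀ (by positivity) (by positivity), one_mul, pow_add]
      exact mul_le_mul_of_nonneg_right hsz (by positivity)
    calc (1 / z ^ 4 + s * (1 / z ^ (l + 4))) * (Fintype.card α : ℝ) ^ Fintype.card ι
        ≤ (1 / z ^ 4 + 1 / z ^ 4) * (Fintype.card α : ℝ) ^ Fintype.card ι := by gcongr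
      _ = (2 * (Fintype.card α : ℝ) ^ Fintype.card ι) / z ^ 4 := by ring
      _ ≤ X.card := by
          rw [div_le_iff₀ (by positivity)]
          exact hX
  · rw [hPt, one_div_pow, hexp2]
    rw [← hkdef]
    have e1 : 1 + (s : ℝ) * (2 ^ k * (Fintype.card α : ℝ) ^ k) ≤ z ^ (l + 11 * k + 1) := by
      rw [hm, ← pow_mul]
      have e3 : (2 : ℝ) ^ k ≤ z ^ k := pow_le_pow_left₀ (by norm_num) (by linarith) _
      calc 1 + (s : ℝ) * (2 ^ k * z ^ (10 * k)) ≤ z ^ (l + 11 * k) +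
            z ^ l * (z ^ k * z ^ (10 * k)) := by
            gcongr
            exact one_le_pow₀ hz1
        _ = 2 * z ^ (l + 11 * k) := by
            rw [show l + 11 * k = l + (k + 10 * k) by ring, pow_add z l, pow_add z k]
            ring
        _ ≤ z * z ^ (l + 11 * k) := by
            gcongr
            linarith
        _ = _ := by rw [pow_succ]; ring
    generalize (2 : ℝ) ^ (2 ^ (2 * u - 5)) = E at *
    have hE : 0 < E := lt_of_lt_of_le (by positivity) hexp3
    calc (1 + (s : ℝ) * (2 ^ k * (Fintype.card α : ℝ) ^ k)) *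
          (1 / (E * E) * Fintype.card (ι → α → γ))
        ≤ E * (1 / (E * E) * Fintype.card (ι → α → γ)) := by
          gcongr
          exact e1.trans hexp3
      _ = Fintype.card (ι → α → γ) / E := by
          field_simp
      _ ≤ Y.card := by
          rw [div_le_iff₀ hE]
          exact hY

end Pool.Agent.H58.LG
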