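import Pool.Agent.H58.LG.Chain
import Pool.Agent.H58.LG.Comb
import Pool.Agent.H25.NP.Main

/-! The choice of the parameters and the main theorem. -/

set_option autoImplicit false
set_option linter.unusedSectionVars false

namespace Pool.Agent.H58.LG

open Finset
open Pool.Agent.H25.NM (nc nc_eq nc_add_nc_not pre pre_mono)
open Pool.Agent.H25.NP (uni emb cliqueFree_uni clique_count)

theorem tq_not_cliqueFree {k m n : ℕ} (φ : Fin k × Fin m ↪ Fin n) (x : Fin k → Fin m)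
    (G : SimpleGraph (Fin n)) : ¬ (G ⊔ (tq x).map φ).CliqueFree k := by
  classical
  intro h
  let ψ : Fin k ↪ Fin n := ⟨fun i => φ (i, x i), fun i j hij => (Prod.ext_iff.1 (φ.injective hij)).1⟩
  refine h (univ.map ψ) ⟨?_, by rw [Finset.card_map, Finset.card_univ, Fintype.card_fin]⟩
  intro a ha b hb hab
  obtain ⟨i, -, rfl⟩ := Finset.mem_map.1 (Finset.mem_coe.1 ha)
  obtain ⟨j, -, rfl⟩ := Finset.mem_map.1 (Finset.mem_coe.1 hb)
  refine Or.inr ?_
  rw [SimpleGraph.map_adj]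
  refine ⟨(i, x i), (j, x j), ⟨?_, rfl, rfl⟩, rfl, rfl⟩
  intro hij
  exact hab (by show φ (i, x i) = φ (j, x j); rw [hij])

/-- A monotone or antitone property changes at most once along a chain. -/
theorem change_unique {n k : ℕ} {f : SimpleGraph (Fin n) → Prop}
    (hf : (∀ G, f G ↔ ¬ G.CliqueFree k) ∨ (∀ G, f G ↔ G.CliqueFree k))
    {X : ℕ → SimpleGraph (Fin n)} (hX : Monotone X) {a b : ℕ}
    (ha : ¬ (f (X a) ↔ f (X (a + 1)))) (hb : ¬ (f (X b) ↔ f (X (b + 1)))) : a = b := by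
  have key : ∀ j, ¬ (f (X j) ↔ f (X (j + 1))) →
      (X j).CliqueFree k ∧ ¬ (X (j + 1)).CliqueFree k := by
    intro j hj
    have h1 : (X (j + 1)).CliqueFree k → (X j).CliqueFree k :=
      fun h => h.anti (hX (Nat.le_succ _))
    rcases hf with hf | hf
    · rw [hf, hf] at hj
      tauto
    · rw [hf, hf] at hj
      tauto
  have key2 : ∀ a b, ¬ (f (X a) ↔ f (X (a + 1))) → ¬ (f (X b) ↔ f (X (b + 1))) → a < b →
      False := by
    intro a b ha hb hab
    exact (key a ha).2 ((key b hb).1.anti (hX hab))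
  rcases lt_trichotomy a b with h | h | h
  · exact (key2 a b ha hb h).elim
  · exact h
  · exact (key2 b a hb ha h).elim

/-- Removing one step of a chain. -/
theorem drop_step {n s R : ℕ} {ε : ℝ} (C : Circuit n s R ε) (out : Fin s) {k J : ℕ}
    (hf : (∀ G, C.fn out G ↔ ¬ G.CliqueFree k) ∨ (∀ G, C.fn out G ↔ G.CliqueFree k))
    {X : ℕ → SimpleGraph (Fin n)} (hX : Monotone X)
    (hch : ∀ j < J, ∃ i ∈ insert out C.watched, ¬ (C.fn i (X j) ↔ C.fn i (X (j + 1)))) :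
    ∃ y : ℕ → SimpleGraph (Fin n), Monotone y ∧
      ∀ a < J - 1, ∃ i ∈ C.watched, ¬ (C.fn i (y a) ↔ C.fn i (y (a + 1))) := by
  classical
  obtain ⟨g, hg, _, _, hg3⟩ := exists_subchain C C.watched X
    (fun J => @Finset.filter _ (fun j => ∃ i ∈ C.watched,
      ¬ (C.fn i (X j) ↔ C.fn i (X (j + 1)))) (Classical.decPred _) (range J))
    (fun J => rfl) J
  have hcard : J - 1 ≤ (@Finset.filter _ (fun j => ∃ i ∈ C.watched,
      ¬ (C.fn i (X j) ↔ C.fn i (X (j + 1)))) (Classical.decPred _) (range J)).card := by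
    have h1 := Finset.card_filter_add_card_filter_not (s := range J)
      (fun j => ∃ i ∈ C.watched, ¬ (C.fn i (X j) ↔ C.fn i (X (j + 1))))
    have h2 : ((range J).filter fun j => ¬ ∃ i ∈ C.watched,
        ¬ (C.fn i (X j) ↔ C.fn i (X (j + 1)))).card ≤ 1 := by
      rw [Finset.card_le_one]
      intro a ha b hb
      obtain ⟨ha1, ha2⟩ := Finset.mem_filter.1 ha
      obtain ⟨hb1, hb2⟩ := Finset.mem_filter.1 hb
      obtain ⟨i, hi, hne⟩ := hch a (Finset.mem_range.1 ha1)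
      obtain ⟨i', hi', hne'⟩ := hch b (Finset.mem_range.1 hb1)
      rcases Finset.mem_insert.1 hi with rfl | hi
      · rcases Finset.mem_insert.1 hi' with rfl | hi'
        · exact change_unique hf hX hne hne'
        · exact absurd ⟨i', hi', hne'⟩ hb2
      · exact absurd ⟨i, hi, hne⟩ ha2
    rw [Finset.card_range] at h1
    have h3 : ((range J).filter fun j => ∃ i ∈ C.watched,
        ¬ (C.fn i (X j) ↔ C.fn i (X (j + 1)))).card = (@Finset.filter _ (fun j => ∃ i ∈ C.watched,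
        ¬ (C.fn i (X j) ↔ C.fn i (X (j + 1)))) (Classical.decPred _) (range J)).card := by
      congr 1
      ext j
      simp only [Finset.mem_filter]
    omega
  refine ⟨fun a => X (g a), fun a b hab => hX (hg hab), fun a ha => hg3 a (by omega)⟩

/-- **Main theorem.** In every circuit of size at most `2 ^ l` which decides `k`-clique the
watched gates change many times along some chain of graphs. -/
theorem main {n L l k s : ℕ} (hL : 1 ≤ L) (hLl : L ≤ l) (hnL : n ≤ 2 ^ L)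
    (hk1 : 11 * l * L ≤ k) (hk2 : 2 * k ≤ n) (hln : (110 * l * L) ^ 22 ≤ n)
    (hs : s ≤ 2 ^ l) (C : Circuit n s (2 ^ l) (1 / 2 ^ l)) (out : Fin s)
    (hC : (∀ G : SimpleGraph (Fin n), C.fn out G ↔ ¬ G.CliqueFree k) ∨
      (∀ G : SimpleGraph (Fin n), C.fn out G ↔ G.CliqueFree k)) :
    ∃ A : ℕ, n ^ 2 ≤ (110 * l * L) ^ 22 * A ∧ ∃ y : ℕ → SimpleGraph (Fin n), Monotone y ∧
      ∀ a < A, ∃ i ∈ C.watched, ¬ (C.fn i (y a) ↔ C.fn i (y (a + 1))) := by
  classical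
  have hl : 1 ≤ l := hL.trans hLl
  have hε : (1 : ℝ) / 2 ^ l ≤ 1 := by
    rw [div_le_one (by positivity)]
    exact one_le_pow₀ (by norm_num)
  obtain ⟨X, hX⟩ : ∃ X, X = l * L := ⟨_, rfl⟩
  have hX1 : 1 ≤ X := by
    rw [hX]
    exact Nat.one_le_iff_ne_zero.2 (Nat.mul_ne_zero (by omega) (by omega))
  have e110 : 110 * l * L = 110 * X := by rw [hX]; ring
  have e11 : 11 * l * L = 11 * X := by rw [hX]; ring
  rw [e110] at hln ⊢
  rw [e11] at hk1
  -- L and l are large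
  have hLbig : 132 ≤ L := by
    by_contra hcon
    push Not at hcon
    have h1 : 2 ^ 132 ≤ 2 ^ L := by
      calc 2 ^ 132 = (2 ^ 6) ^ 22 := by norm_num
        _ ≤ (110 * X) ^ 22 := Nat.pow_le_pow_left (by omega) _
        _ ≤ n := hln
        _ ≤ 2 ^ L := hnL
    have h2 := (Nat.pow_le_pow_iff_right (by norm_num : 1 < 2)).1 h1
    omega
  have hlbig : 132 ≤ l := hLbig.trans hLl
  have hXbig : 132 ≤ X := by
    rw [hX]
    calc 132 = 132 * 1 := rfl
      _ ≤ l * L := Nat.mul_le_mul hlbig hL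
  have hXl : l ≤ X := by
    rw [hX]
    calc l = l * 1 := (mul_one _).symm
      _ ≤ l * L := Nat.mul_le_mul_left _ hL
  -- parameters
  obtain ⟨lam, hlam1, hlam2⟩ : ∃ lam, l + 3 ≤ 8 * lam ∧ 8 * lam ≤ l + 11 :=
    ⟨(l + 3) / 8 + 1, by omega, by omega⟩
  obtain ⟨q, hq⟩ : ∃ q, q = 34 * lam + 22 := ⟨_, rfl⟩
  have hq5 : q ≤ 5 * l := by omega
  obtain ⟨k₀, hk₀⟩ : ∃ k₀, k₀ = 11 * X := ⟨_, rfl⟩
  have hk₀q : 2 * q * (L + 1) + 1 ≤ k₀ := by
    rw [hk₀, hX]
    have h1 : 2 * q * (L + 1) ≤ 2 * (5 * l) * (L + 1) := by gcongr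
    have h2 : 2 * (5 * l) * (L + 1) = 10 * (l * L) + 10 * l := by ring
    have h3 : l * 132 ≤ l * L := Nat.mul_le_mul_left _ hLbig
    omega
  -- the power of two
  obtain ⟨u, hu1, hu2⟩ : ∃ u, 55 * X ≤ 2 ^ u ∧ 2 ^ u ≤ 110 * X := by
    refine ⟨Nat.clog 2 (55 * X), Nat.le_pow_clog (by norm_num) _, ?_⟩
    have h1 := Nat.pow_pred_clog_lt_self (b := 2) (by norm_num) (x := 55 * X) (by omega)
    have h2 : 0 < Nat.clog 2 (55 * X) := Nat.clog_pos (by norm_num) (by omega)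
    obtain ⟨c, hc⟩ : ∃ c, Nat.clog 2 (55 * X) = c + 1 := ⟨Nat.clog 2 (55 * X) - 1, by omega⟩
    rw [hc] at h1 ⊢
    have h3 : 2 ^ c < 55 * X := by simpa using h1
    rw [pow_succ]
    omega
  have hu10 : 10 ≤ u := by
    by_contra hcon
    push Not at hcon
    have : 2 ^ u ≤ 2 ^ 9 := Nat.pow_le_pow_right (by norm_num) (by omega)
    omega
  have hu8 : 8 ≤ u := by omega
  obtain ⟨m, hm⟩ : ∃ m, m = 2 ^ (10 * u) := ⟨_, rfl⟩
  have hmX : m ≤ (110 * X) ^ 10 := by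
    rw [hm, mul_comm, pow_mul]
    exact Nat.pow_le_pow_left hu2 _
  set n₀ : ℕ := n - (k - k₀) with hn₀
  have hn₀n : n₀ ≤ n := Nat.sub_le _ _
  have hn₀2 : n ≤ 2 * n₀ := by omega
  have hkk : k = k₀ + (n - n₀) := by omega
  obtain ⟨v, hv⟩ : ∃ v, v = k₀ * m := ⟨_, rfl⟩
  have hm1 : 1 ≤ m := by
    rw [hm]
    exact Nat.one_le_two_pow
  have hv1 : 1 ≤ v := by
    rw [hv]
    exact Nat.one_le_iff_ne_zero.2 (Nat.mul_ne_zero (by omega) (by omega))
  have hvk : k₀ ≤ v := by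
    rw [hv]
    calc k₀ = k₀ * 1 := (mul_one _).symm
      _ ≤ k₀ * m := Nat.mul_le_mul_left _ hm1
  have hv11 : 10 * v ≤ (110 * X) ^ 11 := by
    rw [hv, hk₀]
    calc 10 * (11 * X * m) = (110 * X) * m := by ring
      _ ≤ (110 * X) * (110 * X) ^ 10 := Nat.mul_le_mul_left _ hmX
      _ = (110 * X) ^ 11 := by ring
  obtain ⟨Y, hY⟩ : ∃ Y, Y = (110 * X) ^ 22 := ⟨_, rfl⟩
  have hv22 : 100 * v ^ 2 ≤ Y := by
    rw [hY]
    calc 100 * v ^ 2 = (10 * v) ^ 2 := by ring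
      _ ≤ ((110 * X) ^ 11) ^ 2 := Nat.pow_le_pow_left hv11 2
      _ = (110 * X) ^ 22 := by rw [← pow_mul]
  rw [← hY] at hln ⊢
  have h4v : 100 * v ^ 2 ≤ n := hv22.trans hln
  set N : ℕ := n₀ / v with hN
  have hvN : v * N ≤ n₀ := Nat.mul_div_le _ _
  have hvN2 : n₀ < v * (N + 1) := Nat.lt_mul_div_succ _ (by omega)
  have hvbig : 1452 ≤ v := by omega
  have hNbig : 2 * v ≤ N := by
    by_contra hcon
    push Not at hcon
    have h1 : v * (N + 1) ≤ v * (2 * v) := Nat.mul_le_mul_left _ (by omega)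
    have h2 : v * (2 * v) = 2 * v ^ 2 := by ring
    omega
  obtain ⟨p, hp, hp1, hp2⟩ := Nat.exists_prime_lt_and_le_two_mul (N / 2) (by omega)
  have hpN : p ≤ N := by omega
  have hvp : v * p ≤ n₀ := (Nat.mul_le_mul_left _ hpN).trans hvN
  have hpv : n < 4 * (p * v) := by
    have h1 : v * (N + 1) ≤ v * (2 * p) := Nat.mul_le_mul_left _ (by omega)
    have h2 : v * (2 * p) = 2 * (p * v) := by ring
    omega
  have hvlep : v ≤ p := by omega
  have hpn : p ≤ 2 ^ L := by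
    have : 1 * p ≤ v * p := Nat.mul_le_mul_right _ hv1
    omega
  -- blocks
  have hVc : Fintype.card (Fin k₀ × Fin m) = v := by
    rw [Fintype.card_prod, Fintype.card_fin, Fintype.card_fin, hv]
  obtain ⟨φ, hφ⟩ := Pool.Agent.H25.NM.exists_blocks (V := Fin k₀ × Fin m) (n := n₀) hp
    (by rw [hVc]; exact hvlep) (by rw [hVc]; exact hvp)
  -- sizes
  have h2u : 2 ^ (l + 3) ≤ (2 ^ u) ^ lam := by
    rw [← pow_mul]
    refine Nat.pow_le_pow_right (by norm_num) ?_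
    calc l + 3 ≤ 8 * lam := hlam1
      _ ≤ u * lam := Nat.mul_le_mul_right _ hu8
  have h2l : 1 ≤ 2 ^ l := Nat.one_le_two_pow
  have h2l3 : 2 ^ (l + 3) = 8 * 2 ^ l := by ring
  have hsz : s + 1 ≤ (2 ^ u) ^ lam := by omega
  have hRz : 2 ^ l + 1 + 2 * (s + 1) ≤ (2 ^ u) ^ lam := by omega
  have hεz : (1 : ℝ) ≤ 1 / 2 ^ l * ((2 : ℝ) ^ u) ^ lam := by
    rw [one_div_mul_eq_div, one_le_div (by positivity)]
    have : 2 ^ l ≤ (2 ^ u) ^ lam := by omega
    exact_mod_cast this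
  have hJz : 2 * p ^ 2 < 2 ^ (2 ^ (2 * u - 5)) := by
    calc 2 * p ^ 2 ≤ 2 * (2 ^ L) ^ 2 := by gcongr
      _ = 2 ^ (2 * L + 1) := by rw [← pow_mul]; ring
      _ < 2 ^ (2 ^ (2 * u - 5)) := by
        refine Nat.pow_lt_pow_right (by norm_num) ?_
        have h1 : 32 * 2 ^ (2 * u - 5) = 2 ^ u * 2 ^ u := by
          calc 32 * 2 ^ (2 * u - 5) = 2 ^ 5 * 2 ^ (2 * u - 5) := by norm_num
            _ = 2 ^ (u + u) := by rw [← pow_add]; congr 1; omega
            _ = 2 ^ u * 2 ^ u := pow_add _ _ _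
        have h2 : 2 ^ 10 * (55 * X) ≤ 2 ^ u * 2 ^ u :=
          Nat.mul_le_mul (Nat.pow_le_pow_right (by norm_num) hu10) hu1
        have h3 : L ≤ X := by
          rw [hX]
          calc L = 1 * L := (one_mul _).symm
            _ ≤ l * L := Nat.mul_le_mul_right _ hl
        omega
  -- detectors
  set I : Finset (Fin s) := insert out C.watched with hI
  set U : SimpleGraph (Fin n₀) → SimpleGraph (Fin n) := fun G => uni n n₀ ⊔ G.map (emb hn₀n)
    with hU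
  have hUmono : ∀ G H, G ≤ H → U G ≤ U H := by
    intro G H hGH
    refine sup_le_sup_left ?_ _
    exact SimpleGraph.map_monotone _ hGH
  have : Nonempty (Fin q) := ⟨⟨0, by omega⟩⟩
  have hcl : 2 * n₀ ^ k₀ * (Fintype.card (Fin q) - 1) ^ (k₀.choose 2) ≤
      Fintype.card (Fin q) ^ (k₀.choose 2) := by
    rw [Fintype.card_fin]
    exact clique_count (l := L) (by omega) (hn₀n.trans hnL) hk₀q
  have hbad := nc_not_cliqueFree_le (γ := Fin q) φ hφ k₀ hcl
  have hgoodbad := nc_add_nc_not fun ω : Fin (p ^ 2) → (Fin k₀ → Fin m → Fin q) =>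
    (pre φ mp ω (p ^ 2)).CliqueFree k₀
  obtain ⟨ω, hω1, hω2⟩ := chain (ι := Fin k₀) (α := Fin m) (γ := Fin q) (u := u) (l := lam)
    (s := s + 1) (R := 2 ^ l) (ε := 1 / 2 ^ l)
    (by rw [Fintype.card_fin, hm]) hu10 (by omega)
    (by rw [Fintype.card_fin]; omega) (by rw [Fintype.card_fin]; omega)
    (by rw [Fintype.card_fin]; omega) hsz hRz hεz (uni n n₀) (emb hn₀n) φ
    (fun G H => ∃ i ∈ I, ¬ (C.fn i (U G) ↔ C.fn i (U H))) (by
      intro G
      obtain ⟨f, hf1, -, hf3⟩ := C.exists_detector hε I (Finset.subset_insert _ _) (U G)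
      exact ⟨f, Fin.last s, hf1, fun H hGH => hf3 (U H) (hUmono G H hGH)⟩)
    (fun G => G.CliqueFree k₀) (fun x y hxy hy => hy.anti hxy) (by
      intro j x G hG
      refine ⟨out, Finset.mem_insert_self _ _, ?_⟩
      have h1 : ¬ (U (G ⊔ (tq x).map (φ j))).CliqueFree k := by
        rw [hkk]
        exact (cliqueFree_uni hn₀n _).2 (tq_not_cliqueFree (φ j) x G)
      have h2 : (U G).CliqueFree k := by
        by_contra h3
        rw [hkk] at h3
        exact (cliqueFree_uni hn₀n G).1 h3 hG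
      rcases hC with hC | hC
      · rw [hC, hC]
        tauto
      · rw [hC, hC]
        tauto) (by omega) hJz
  obtain ⟨y, hy1, hy2⟩ := drop_step C out (k := k) (J := p ^ 2) hC
    (X := fun j => U (pre φ mp ω j)) (fun a b hab => hUmono _ _ (pre_mono ω hab))
    (fun j hj => hω2 ⟨j, hj⟩)
  refine ⟨p ^ 2 - 1, ?_, y, hy1, hy2⟩
  -- conclusion
  have h1 : n ^ 2 < (4 * (p * v)) ^ 2 := Nat.pow_lt_pow_left hpv (by norm_num)
  have h2 : (4 * (p * v)) ^ 2 = 16 * v ^ 2 * p ^ 2 := by ring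
  have h3 : p ^ 2 ≤ 2 * (p ^ 2 - 1) := by
    have : 2 ^ 2 ≤ p ^ 2 := Nat.pow_le_pow_left hp.two_le 2
    omega
  calc n ^ 2 ≤ 16 * v ^ 2 * p ^ 2 := by omega
    _ ≤ 16 * v ^ 2 * (2 * (p ^ 2 - 1)) := Nat.mul_le_mul_left _ h3
    _ = 32 * v ^ 2 * (p ^ 2 - 1) := by ring
    _ ≤ 100 * v ^ 2 * (p ^ 2 - 1) := by gcongr; norm_num
    _ ≤ Y * (p ^ 2 - 1) := Nat.mul_le_mul_right _ hv22

end Pool.Agent.H58.LG
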