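import Mathlib

/-! Circuits with linear programming gates: the definitions used in the statements. -/

set_option autoImplicit false

namespace Pool.Agent.H58.LG

open Classical in
/-- The number 1 if `P` is true and 0 if it is false. -/
noncomputable def bit (P : Prop) : ℝ := if P then 1 else 0

/-- A linear programme with any number `dim` of real unknowns and `num` inequalities: its feasible
points are the points of the affine subspace `eqs` at which all the affine functions `ineq r` are
nonnegative.  The affine functions `wire j` are compared with the values of the wires `j`. -/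
structure Program (T : Type) where
  /-- the number of unknowns -/
  dim : ℕ
  /-- the number of inequalities -/
  num : ℕ
  /-- the linear equations -/
  eqs : AffineSubspace ℝ (Fin dim → ℝ)
  /-- the linear inequalities `0 ≤ ineq r p` -/
  ineq : Fin num → (Fin dim → ℝ) →ᵃ[ℝ] ℝ
  /-- the functions which are compared with the wires -/
  wire : T → (Fin dim → ℝ) →ᵃ[ℝ] ℝ

/-- `p` is a feasible point. -/
def Program.Feasible {T : Type} (P : Program T) (p : Fin P.dim → ℝ) : Prop :=
  p ∈ P.eqs ∧ ∀ r, 0 ≤ P.ineq r p

/-- The programme accepts the values `v` of the wires in `S` if some feasible point `p` satisfies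
`wire j p ≤ v j` for all `j` in `S`. -/
def Program.Accepts {T : Type} (P : Program T) (S : Finset T) (v : T → Prop) : Prop :=
  ∃ p, P.Feasible p ∧ ∀ j ∈ S, P.wire j p ≤ bit (v j)

/-- If the programme does not accept the values `v` of the wires in `S`, then at every feasible
point the functions `wire j` exceed the values `v j` by at least `ε` in total. -/
def Program.Margin {T : Type} (P : Program T) (S : Finset T) (ε : ℝ) : Prop :=
  ∀ v : T → Prop, ¬ P.Accepts S v → ∀ p, P.Feasible p →
    ε ≤ ∑ j ∈ S, max (P.wire j p - bit (v j)) 0

/-- A circuit with `s` gates on graphs with vertex set `Fin n`, in topological order: gate `i`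
reads the earlier gates in `ins i` and computes the property `fn i` of the input graph. Each gate
tests whether two fixed vertices are adjacent, is the AND or the OR of the gates it reads, is a
linear programme with at most `R` inequalities and margin `ε`, or is one of the special gates,
which compute arbitrary functions of the gates they read. -/
structure Circuit (n s R : ℕ) (ε : ℝ) where
  /-- the property computed by a gate -/
  fn : Fin s → SimpleGraph (Fin n) → Prop
  /-- the gates read by a gate -/
  ins : Fin s → Finset (Fin s)
  /-- the special gates -/
  special : Finset (Fin s)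
  lt : ∀ i, ∀ j ∈ ins i, j < i
  gate : ∀ i,
    (∃ u v, ∀ G, fn i G ↔ G.Adj u v) ∨
    (∀ G, fn i G ↔ ∀ j ∈ ins i, fn j G) ∨
    (∀ G, fn i G ↔ ∃ j ∈ ins i, fn j G) ∨
    (∃ P : Program (Fin s), P.num ≤ R ∧ P.Margin (ins i) ε ∧
      ∀ G, fn i G ↔ P.Accepts (ins i) fun j => fn j G) ∨
    (i ∈ special ∧ ∀ G H, (∀ j ∈ ins i, fn j G ↔ fn j H) → (fn i G ↔ fn i H))

/-- The gates that are read by a special gate. -/
def Circuit.watched {n s R : ℕ} {ε : ℝ} (C : Circuit n s R ε) : Finset (Fin s) :=
  C.special.biUnion C.ins

/-- `Quantified q Q f` is the statement `Q₀ y₀ Q₁ y₁ ... f y` about the bits `y`, where `Q i` is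
an existential quantifier if it is true and a universal quantifier if it is false. -/
def Quantified : (q : ℕ) → (Fin q → Bool) → ((Fin q → Bool) → Prop) → Prop
  | 0, _, f => f Fin.elim0
  | q + 1, Q, f =>
    if Q 0 then ∃ b, Quantified q (fun i => Q i.succ) (fun y => f (Fin.cons b y))
    else ∀ b, Quantified q (fun i => Q i.succ) (fun y => f (Fin.cons b y))

end Pool.Agent.H58.LG
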