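import Pool.Agent.H58.LG.Bon

/-! The level inequality for random transversals. -/

set_option autoImplicit false
set_option linter.unusedSectionVars false

namespace Pool.Agent.H58.LG

open Finset

variable {ι α γ : Type*} [Fintype ι] [DecidableEq ι] [Fintype α] [DecidableEq α] [Fintype γ]
  [DecidableEq γ]

/-- the colours of the transversal `x` under the colouring `y` -/
def zz (x : ι → α) (y : ι → α → γ) : ι → γ := fun i => y i (x i)

/-- `Φ` has mean zero in each of the coordinates in `S` -/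
def Pure (S : Finset ι) (Φ : (ι → γ) → ℝ) : Prop :=
  ∀ i ∈ S, ∀ z : ι → γ, ∑ c : γ, Φ (Function.update z i c) = 0

/-- the transversals which agree with `x0` outside `S` -/
def slice (S : Finset ι) (x0 : ι → α) : Finset (ι → α) := univ.filter fun x => ∀ i, i ∉ S → x i = x0 i

theorem mem_slice {S : Finset ι} {x0 x : ι → α} : x ∈ slice S x0 ↔ ∀ i, i ∉ S → x i = x0 i := by
  simp [slice]

/-- mixture of two colour vectors -/
def mix (T : Finset ι) (z z' : ι → γ) : ι → γ := fun i => if i ∈ T then z' i else z i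

/-- iterated difference -/
def dif (S : Finset ι) (Φ : (ι → γ) → ℝ) (z z' : ι → γ) : ℝ :=
  ∑ T ∈ S.powerset, (-1 : ℝ) ^ T.card * Φ (mix T z z')

/-- averaging over the colour of one vertex -/
theorem sum_upd (F : (ι → α → γ) → ℝ) (i : ι) (a : α) :
    ∑ y : ι → α → γ, ∑ c : γ, F (Function.update y i (Function.update (y i) a c)) =
      Fintype.card γ * ∑ y : ι → α → γ, F y := by
  rw [← Fintype.sum_prod_type' fun (y : ι → α → γ) (c : γ) =>
    F (Function.update y i (Function.update (y i) a c))]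
  have h1 : (Fintype.card γ : ℝ) * ∑ y : ι → α → γ, F y =
      ∑ w : (ι → α → γ) × γ, F w.1 := by
    rw [Fintype.sum_prod_type, Finset.mul_sum]
    refine Finset.sum_congr rfl fun y _ => ?_
    simp only [Finset.sum_const, Finset.card_univ, nsmul_eq_mul]
  rw [h1]
  refine Finset.sum_nbij' (fun w => (Function.update w.1 i (Function.update (w.1 i) a w.2), w.1 i a))
    (fun w => (Function.update w.1 i (Function.update (w.1 i) a w.2), w.1 i a))
    (fun _ _ => Finset.mem_univ _) (fun _ _ => Finset.mem_univ _) ?_ ?_ (fun _ _ => rfl)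
  · rintro ⟨y, c⟩ _
    simp
  · rintro ⟨y, c⟩ _
    simp

theorem zz_upd (x : ι → α) (y : ι → α → γ) (i : ι) (c : γ) :
    zz x (Function.update y i (Function.update (y i) (x i) c)) =
      Function.update (zz x y) i c := by
  funext j
  unfold zz
  by_cases h : j = i
  · subst h
    simp
  · rw [Function.update_of_ne h, Function.update_of_ne h]

theorem mix_empty (z z' : ι → γ) : mix ∅ z z' = z := by
  funext i
  simp [mix]

theorem mix_update {T : Finset ι} {i : ι} (hi : i ∈ T) (z z' : ι → γ) (c : γ) :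
    mix T z (Function.update z' i c) = Function.update (mix T z z') i c := by
  funext j
  unfold mix
  by_cases h : j = i
  · subst h
    simp [hi]
  · rw [Function.update_of_ne h, Function.update_of_ne h]

/-- the difference operator does not change the conditional mean -/
theorem sum_dif [Nonempty γ] {S : Finset ι} {Φ : (ι → γ) → ℝ} (hΦ : Pure S Φ) (x : ι → α)
    (z : ι → γ) :
    ∑ y' : ι → α → γ, dif S Φ z (zz x y') = Fintype.card (ι → α → γ) * Φ z := by
  unfold dif
  rw [Finset.sum_comm]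
  have h1 : ∀ T ∈ S.powerset, ∑ y' : ι → α → γ, (-1 : ℝ) ^ T.card * Φ (mix T z (zz x y')) =
      if T = ∅ then Fintype.card (ι → α → γ) * Φ z else 0 := by
    intro T hT
    split_ifs with h
    · subst h
      simp only [mix_empty, Finset.card_empty, pow_zero, one_mul, Finset.sum_const,
        Finset.card_univ, nsmul_eq_mul]
    · obtain ⟨i, hi⟩ := Finset.nonempty_iff_ne_empty.mpr h
      have h2 := sum_upd (fun y' : ι → α → γ => (-1 : ℝ) ^ T.card * Φ (mix T z (zz x y'))) i (x i)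
      have h3 : ∀ y' : ι → α → γ, ∑ c : γ, (-1 : ℝ) ^ T.card *
          Φ (mix T z (zz x (Function.update y' i (Function.update (y' i) (x i) c)))) = 0 := by
        intro y'
        rw [← Finset.mul_sum]
        simp only [zz_upd, mix_update hi]
        rw [hΦ i (Finset.mem_powerset.mp hT hi), mul_zero]
      simp only [h3, Finset.sum_const_zero] at h2
      have h4 : (Fintype.card γ : ℝ) ≠ 0 := by exact_mod_cast Fintype.card_ne_zero
      rcases mul_eq_zero.mp h2.symm with h5 | h5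
      · exact absurd h5 h4
      · exact h5
  rw [Finset.sum_congr rfl h1, Finset.sum_ite_eq']
  rw [if_pos (Finset.empty_mem_powerset S)]

theorem abs_dif_le {S : Finset ι} {Φ : (ι → γ) → ℝ} {M : ℝ} (hM : ∀ z, |Φ z| ≤ M)
    (z z' : ι → γ) : |dif S Φ z z'| ≤ 2 ^ S.card * M := by
  unfold dif
  refine (Finset.abs_sum_le_sum_abs _ _).trans ?_
  have h : ∀ T ∈ S.powerset, |(-1 : ℝ) ^ T.card * Φ (mix T z z')| ≤ M := by
    intro T _
    rw [abs_mul, abs_pow, abs_neg, abs_one, one_pow, one_mul]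
    exact hM _
  refine (Finset.sum_le_sum h).trans ?_
  rw [Finset.sum_const, Finset.card_powerset, nsmul_eq_mul]
  push_cast
  exact le_rfl

/-- exchange of the two colourings at the places given by `r` -/
def swp (S : Finset ι) (r : ι × α → Bool) (y y' : ι → α → γ) : ι → α → γ :=
  fun i a => if i ∈ S ∧ r (i, a) = true then y' i a else y i a

theorem swp_swp (S : Finset ι) (r : ι × α → Bool) (y y' : ι → α → γ) :
    swp S r (swp S r y y') (swp S r y' y) = y := by
  funext i a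
  unfold swp
  by_cases h : i ∈ S ∧ r (i, a) = true
  · rw [if_pos h, if_pos h]
  · rw [if_neg h, if_neg h]

theorem dif_swp (S : Finset ι) (r : ι × α → Bool) (Φ : (ι → γ) → ℝ) (x : ι → α)
    (y y' : ι → α → γ) :
    dif S Φ (zz x (swp S r y y')) (zz x (swp S r y' y)) =
      (∏ i ∈ S, sg (r (i, x i))) * dif S Φ (zz x y) (zz x y') := by
  obtain ⟨R, hR⟩ : ∃ R : Finset ι, R = S.filter fun i => r (i, x i) = true := ⟨_, rfl⟩
  have hRS : R ⊆ S := by rw [hR]; exact Finset.filter_subset _ _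
  have hmR : ∀ i, i ∈ R ↔ i ∈ S ∧ r (i, x i) = true := by
    intro i
    rw [hR, Finset.mem_filter]
  have hprod : ∏ i ∈ S, sg (r (i, x i)) = (-1 : ℝ) ^ R.card := by
    rw [hR, Finset.card_eq_sum_ones, Finset.sum_filter]
    rw [← Finset.prod_pow_eq_pow_sum]
    refine Finset.prod_congr rfl fun i _ => ?_
    unfold sg
    split_ifs <;> simp
  have hmix : ∀ T : Finset ι, mix T (zz x (swp S r y y')) (zz x (swp S r y' y)) =
      mix (symmDiff T R) (zz x y) (zz x y') := by
    intro T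
    funext i
    unfold mix zz swp
    simp only [Finset.mem_symmDiff, ← hmR]
    by_cases h1 : i ∈ T <;> by_cases h2 : i ∈ R <;> simp [h1, h2]
  rw [hprod]
  unfold dif
  rw [Finset.mul_sum]
  refine Finset.sum_nbij' (fun T => symmDiff T R) (fun T => symmDiff T R) ?_ ?_ ?_ ?_ ?_
  · intro T hT
    rw [Finset.mem_powerset] at hT ⊢
    intro i hi
    rcases Finset.mem_symmDiff.mp hi with h | h
    · exact hT h.1
    · exact hRS h.1
  · intro T hT
    rw [Finset.mem_powerset] at hT ⊢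
    intro i hi
    rcases Finset.mem_symmDiff.mp hi with h | h
    · exact hT h.1
    · exact hRS h.1
  · intro T _
    rw [symmDiff_assoc, symmDiff_self]
    simp
  · intro T _
    rw [symmDiff_assoc, symmDiff_self]
    simp
  · intro T _
    rw [hmix, ← mul_assoc]
    congr 1
    -- parity of the symmetric difference
    have h1 : (symmDiff T R).card + 2 * (T ∩ R).card = T.card + R.card := by
      have e1 : symmDiff T R = (T \ R) ∪ (R \ T) := rfl
      have e2 : Disjoint (T \ R) (R \ T) := by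
        rw [Finset.disjoint_left]
        intro i hi hi'
        exact (Finset.mem_sdiff.mp hi').2 (Finset.mem_sdiff.mp hi).1
      rw [e1, Finset.card_union_of_disjoint e2]
      have e3 := Finset.card_sdiff_add_card_inter T R
      have e4 := Finset.card_sdiff_add_card_inter R T
      rw [Finset.inter_comm R T] at e4
      omega
    have h2 : (-1 : ℝ) ^ R.card * (-1 : ℝ) ^ (symmDiff T R).card =
        (-1 : ℝ) ^ (R.card + (symmDiff T R).card) := (pow_add _ _ _).symm
    rw [h2]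
    have h3 : R.card + (symmDiff T R).card + 2 * (T ∩ R).card = T.card + 2 * R.card := by omega
    have h4 : (-1 : ℝ) ^ (R.card + (symmDiff T R).card + 2 * (T ∩ R).card) =
        (-1 : ℝ) ^ (T.card + 2 * R.card) := by rw [h3]
    rw [pow_add, pow_mul, pow_add _ T.card, pow_mul] at h4
    simpa using h4.symm

/-- The Rademacher polynomial of a family of transversals. -/
theorem rademacher (p : ℕ) (S : Finset ι) (x0 : ι → α) (c : (ι → α) → ℝ) :
    ∑ r : ι × α → Bool, (∑ x ∈ slice S x0, c x * ∏ i ∈ S, sg (r (i, x i))) ^ (2 * p) ≤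
      2 ^ Fintype.card (ι × α) * ((2 * p) ^ S.card * ∑ x ∈ slice S x0, c x ^ 2) ^ p := by
  classical
  obtain ⟨A, hA⟩ : ∃ A : (ι → α) → Finset (ι × α), ∀ x, A x = S.map
    ⟨fun i => (i, x i), fun i j h => (Prod.ext_iff.mp h).1⟩ := ⟨_, fun _ => rfl⟩
  have hAinj : ∀ x ∈ slice S x0, ∀ x' ∈ slice S x0, A x = A x' → x = x' := by
    intro x hx x' hx' h
    funext i
    by_cases hi : i ∈ S
    · have h1 : (i, x i) ∈ A x := by
        rw [hA, Finset.mem_map]
        exact ⟨i, hi, rfl⟩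
      rw [h, hA, Finset.mem_map] at h1
      obtain ⟨j, _, hj⟩ := h1
      have h2 := Prod.ext_iff.mp hj
      simp only [Function.Embedding.coeFn_mk] at h2
      rw [← h2.2, h2.1]
    · rw [mem_slice.mp hx i hi, mem_slice.mp hx' i hi]
  obtain ⟨C, hC⟩ : ∃ C : Finset (ι × α) → ℝ, ∀ B, C B =
    ∑ x ∈ (slice S x0).filter (fun x => A x = B), c x := ⟨_, fun _ => rfl⟩
  have hpol : ∀ r : ι × α → Bool, pol univ C r =
      ∑ x ∈ slice S x0, c x * ∏ i ∈ S, sg (r (i, x i)) := by
    intro r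
    unfold pol
    have h1 : ∀ B : Finset (ι × α), C B * ∏ v ∈ B, sg (r v) =
        ∑ x ∈ (slice S x0).filter (fun x => A x = B), c x * ∏ i ∈ S, sg (r (i, x i)) := by
      intro B
      rw [hC, Finset.sum_mul]
      refine Finset.sum_congr rfl fun x hx => ?_
      rw [← (Finset.mem_filter.mp hx).2, hA, Finset.prod_map]
      rfl
    rw [Finset.sum_congr rfl fun B _ => h1 B, Finset.powerset_univ]
    exact Finset.sum_fiberwise (slice S x0) A _
  have hwn : wn p univ C = (2 * p) ^ S.card * ∑ x ∈ slice S x0, c x ^ 2 := by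
    unfold wn
    have h1 : ∀ B : Finset (ι × α), (2 * p : ℝ) ^ B.card * C B ^ 2 =
        ∑ x ∈ (slice S x0).filter (fun x => A x = B), (2 * p : ℝ) ^ S.card * c x ^ 2 := by
      intro B
      rw [hC]
      rcases ((slice S x0).filter (fun x => A x = B)).eq_empty_or_nonempty with h | ⟨x, hx⟩
      · rw [h]
        simp
      · have h2 : (slice S x0).filter (fun x => A x = B) = {x} := by
          rw [Finset.eq_singleton_iff_unique_mem]
          refine ⟨hx, fun x' hx' => ?_⟩
          obtain ⟨h3, h4⟩ := Finset.mem_filter.mp hx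
          obtain ⟨h5, h6⟩ := Finset.mem_filter.mp hx'
          exact hAinj x' h5 x h3 (h6.trans h4.symm)
        rw [h2, Finset.sum_singleton, Finset.sum_singleton]
        congr 2
        rw [← (Finset.mem_filter.mp hx).2, hA, Finset.card_map]
    rw [Finset.sum_congr rfl fun B _ => h1 B, Finset.powerset_univ,
      Finset.sum_fiberwise (slice S x0) A fun x => (2 * p : ℝ) ^ S.card * c x ^ 2, Finset.mul_sum]
  have := bonami p (univ : Finset (ι × α)) C
  rw [hwn] at this
  simp only [hpol] at this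
  exact this

/-- The moment inequality. -/
theorem moment [Nonempty γ] (p : ℕ) {S : Finset ι} {Φ : (ι → γ) → ℝ} (hΦ : Pure S Φ) {M : ℝ}
    (hM : ∀ z, |Φ z| ≤ M) (x0 : ι → α) (b : (ι → α) → ℝ) :
    ∑ y : ι → α → γ, (∑ x ∈ slice S x0, b x * Φ (zz x y)) ^ (2 * p) ≤
      Fintype.card (ι → α → γ) * ((8 * p) ^ S.card * M ^ 2 * ∑ x ∈ slice S x0, b x ^ 2) ^ p := by
  have hY : (0 : ℝ) < Fintype.card (ι → α → γ) := by exact_mod_cast Fintype.card_pos
  obtain ⟨Q, hQ⟩ : ∃ Q : (ι → α → γ) → (ι → α → γ) → ℝ, ∀ y y', Q y y' =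
    ∑ x ∈ slice S x0, b x * dif S Φ (zz x y) (zz x y') := ⟨_, fun _ _ => rfl⟩
  -- Jensen
  have h1 : ∀ y : ι → α → γ, (∑ x ∈ slice S x0, b x * Φ (zz x y)) ^ (2 * p) ≤
      (Fintype.card (ι → α → γ) : ℝ)⁻¹ * ∑ y' : ι → α → γ, Q y y' ^ (2 * p) := by
    intro y
    have e1 : ∑ y' : ι → α → γ, (Fintype.card (ι → α → γ) : ℝ)⁻¹ * Q y y' =
        ∑ x ∈ slice S x0, b x * Φ (zz x y) := by
      rw [← Finset.mul_sum]
      simp only [hQ]
      rw [Finset.sum_comm]
      simp only [← Finset.mul_sum, sum_dif hΦ]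
      rw [Finset.mul_sum]
      refine Finset.sum_congr rfl fun x _ => ?_
      field_simp
    have e2 := Real.pow_arith_mean_le_arith_mean_pow_of_even (univ : Finset (ι → α → γ))
      (fun _ => (Fintype.card (ι → α → γ) : ℝ)⁻¹) (Q y) (fun _ _ => by positivity) (by
        rw [Finset.sum_const, Finset.card_univ, nsmul_eq_mul, mul_inv_cancel₀ hY.ne'])
      (even_two_mul p)
    rw [e1, ← Finset.mul_sum] at e2
    exact e2
  -- symmetrisation
  have h2 : ∀ r : ι × α → Bool, ∑ y : ι → α → γ, ∑ y' : ι → α → γ, Q y y' ^ (2 * p) =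
      ∑ y : ι → α → γ, ∑ y' : ι → α → γ,
        (∑ x ∈ slice S x0, (b x * dif S Φ (zz x y) (zz x y')) * ∏ i ∈ S, sg (r (i, x i))) ^
          (2 * p) := by
    intro r
    rw [← Fintype.sum_prod_type' fun y y' => Q y y' ^ (2 * p), ← Fintype.sum_prod_type'
      fun y y' => (∑ x ∈ slice S x0, (b x * dif S Φ (zz x y) (zz x y')) *
        ∏ i ∈ S, sg (r (i, x i))) ^ (2 * p)]
    refine Finset.sum_nbij' (fun w => (swp S r w.1 w.2, swp S r w.2 w.1))
      (fun w => (swp S r w.1 w.2, swp S r w.2 w.1)) (fun _ _ => Finset.mem_univ _)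
      (fun _ _ => Finset.mem_univ _) ?_ ?_ ?_
    · rintro ⟨y, y'⟩ _
      simp only [swp_swp]
    · rintro ⟨y, y'⟩ _
      simp only [swp_swp]
    · rintro ⟨y, y'⟩ _
      simp only
      rw [hQ]
      congr 1
      refine Finset.sum_congr rfl fun x _ => ?_
      have := dif_swp S r Φ x (swp S r y y') (swp S r y' y)
      rw [swp_swp, swp_swp] at this
      rw [this]
      ring
  have h3 : (2 : ℝ) ^ Fintype.card (ι × α) *
      ∑ y : ι → α → γ, ∑ y' : ι → α → γ, Q y y' ^ (2 * p) ≤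
      2 ^ Fintype.card (ι × α) * (∑ y : ι → α → γ, ∑ y' : ι → α → γ,
        ((8 * p) ^ S.card * M ^ 2 * ∑ x ∈ slice S x0, b x ^ 2) ^ p) := by
    have e1 : (2 : ℝ) ^ Fintype.card (ι × α) *
        ∑ y : ι → α → γ, ∑ y' : ι → α → γ, Q y y' ^ (2 * p) =
        ∑ r : ι × α → Bool, ∑ y : ι → α → γ, ∑ y' : ι → α → γ,
        (∑ x ∈ slice S x0, (b x * dif S Φ (zz x y) (zz x y')) * ∏ i ∈ S, sg (r (i, x i))) ^
          (2 * p) := by
      rw [← Finset.sum_congr rfl fun r _ => h2 r, Finset.sum_const, Finset.card_univ,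
        Fintype.card_fun, Fintype.card_bool, nsmul_eq_mul]
      push_cast
      ring
    rw [e1, Finset.sum_comm, Finset.mul_sum]
    refine Finset.sum_le_sum fun y _ => ?_
    rw [Finset.sum_comm, Finset.mul_sum]
    refine Finset.sum_le_sum fun y' _ => ?_
    refine (rademacher p S x0 fun x => b x * dif S Φ (zz x y) (zz x y')).trans ?_
    refine mul_le_mul_of_nonneg_left ?_ (by positivity)
    refine pow_le_pow_left₀ (by positivity) ?_ p
    have e2 : ∑ x ∈ slice S x0, (b x * dif S Φ (zz x y) (zz x y')) ^ 2 ≤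
        (2 ^ S.card * M) ^ 2 * ∑ x ∈ slice S x0, b x ^ 2 := by
      rw [Finset.mul_sum]
      refine Finset.sum_le_sum fun x _ => ?_
      rw [mul_pow, mul_comm]
      refine mul_le_mul_of_nonneg_right ?_ (sq_nonneg _)
      exact sq_le_sq.mpr ((abs_dif_le hM _ _).trans (le_abs_self _))
    calc (2 * (p : ℝ)) ^ S.card * ∑ x ∈ slice S x0, (b x * dif S Φ (zz x y) (zz x y')) ^ 2
        ≤ (2 * (p : ℝ)) ^ S.card * ((2 ^ S.card * M) ^ 2 * ∑ x ∈ slice S x0, b x ^ 2) :=
          mul_le_mul_of_nonneg_left e2 (by positivity)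
      _ = (8 * (p : ℝ)) ^ S.card * M ^ 2 * ∑ x ∈ slice S x0, b x ^ 2 := by
          have : (8 * (p : ℝ)) ^ S.card = (2 * (p : ℝ)) ^ S.card * (2 ^ S.card) ^ 2 := by
            rw [← pow_mul, mul_comm S.card 2, pow_mul, ← mul_pow]
            congr 1
            ring
          rw [this]
          ring
  have h4 := le_of_mul_le_mul_left h3 (by positivity)
  calc ∑ y : ι → α → γ, (∑ x ∈ slice S x0, b x * Φ (zz x y)) ^ (2 * p)
      ≤ ∑ y : ι → α → γ, (Fintype.card (ι → α → γ) : ℝ)⁻¹ *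
        ∑ y' : ι → α → γ, Q y y' ^ (2 * p) := Finset.sum_le_sum fun y _ => h1 y
    _ = (Fintype.card (ι → α → γ) : ℝ)⁻¹ *
        ∑ y : ι → α → γ, ∑ y' : ι → α → γ, Q y y' ^ (2 * p) := by rw [Finset.mul_sum]
    _ ≤ (Fintype.card (ι → α → γ) : ℝ)⁻¹ * (∑ y : ι → α → γ, ∑ y' : ι → α → γ,
        ((8 * p) ^ S.card * M ^ 2 * ∑ x ∈ slice S x0, b x ^ 2) ^ p) :=
          mul_le_mul_of_nonneg_left h4 (by positivity)
    _ = _ := by
        simp only [Finset.sum_const, Finset.card_univ, nsmul_eq_mul]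
        field_simp

/-- The level inequality. -/
theorem level [Nonempty γ] {p : ℕ} (hp : 1 ≤ p) {S : Finset ι} {Φ : (ι → γ) → ℝ}
    (hΦ : Pure S Φ) {M : ℝ} (hM : ∀ z, |Φ z| ≤ M) (x0 : ι → α) (g : (ι → α → γ) → ℝ) {b0 G : ℝ}
    (hg0 : ∀ y, 0 ≤ g y) (hgb : ∀ y, g y ≤ b0) (hG : ∑ y, g y ≤ G)
    (hb : b0 * Fintype.card (ι → α → γ) ≤ 2 ^ p * G) :
    ∑ x ∈ slice S x0, (∑ y, g y * Φ (zz x y)) ^ 2 ≤ 2 * G ^ 2 * M ^ 2 * (8 * p) ^ S.card := by
  obtain ⟨b, hbx⟩ : ∃ b : (ι → α) → ℝ, ∀ x, b x = ∑ y, g y * Φ (zz x y) := ⟨_, fun _ => rfl⟩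
  obtain ⟨N, hN⟩ : ∃ N : ℝ, N = ∑ x ∈ slice S x0, b x ^ 2 := ⟨_, rfl⟩
  have hN0 : 0 ≤ N := by rw [hN]; positivity
  simp only [← hbx]
  rw [← hN]
  have hσ0 : 0 ≤ ∑ y, g y := Finset.sum_nonneg fun y _ => hg0 y
  have hG0 : 0 ≤ G := hσ0.trans hG
  have hb00 : ∀ y : ι → α → γ, 0 ≤ b0 := fun y => (hg0 y).trans (hgb y)
  rcases hN0.eq_or_lt with h0 | hNpos
  · rw [← h0]
    positivity
  have hNQ : N = ∑ y, g y * (∑ x ∈ slice S x0, b x * Φ (zz x y)) := by
    rw [hN]
    simp only [Finset.mul_sum]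
    rw [Finset.sum_comm]
    refine Finset.sum_congr rfl fun x _ => ?_
    rw [sq]
    nth_rewrite 2 [hbx]
    rw [Finset.mul_sum]
    exact Finset.sum_congr rfl fun y _ => by ring
  have hσ : 0 < ∑ y, g y := by
    rcases hσ0.eq_or_lt with h | h
    · exfalso
      have h1 := (Finset.sum_eq_zero_iff_of_nonneg fun y _ => hg0 y).mp h.symm
      rw [hNQ] at hNpos
      rw [Finset.sum_eq_zero fun y hy => by rw [h1 y hy, zero_mul]] at hNpos
      exact lt_irrefl _ hNpos
    · exact h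
  obtain ⟨σ, hσd⟩ : ∃ σ : ℝ, σ = ∑ y, g y := ⟨_, rfl⟩
  rw [← hσd] at hσ hG
  have hJ : N ^ (2 * p) ≤ σ ^ (2 * p - 1) *
      ∑ y, g y * (∑ x ∈ slice S x0, b x * Φ (zz x y)) ^ (2 * p) := by
    have e1 := Real.pow_arith_mean_le_arith_mean_pow_of_even (univ : Finset (ι → α → γ))
      (fun y => g y / σ) (fun y => ∑ x ∈ slice S x0, b x * Φ (zz x y))
      (fun y _ => div_nonneg (hg0 y) hσ.le) (by
        rw [← Finset.sum_div, ← hσd, div_self hσ.ne']) (even_two_mul p)
    have e2 : ∑ y, g y / σ * (∑ x ∈ slice S x0, b x * Φ (zz x y)) = N / σ := by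
      rw [hNQ, Finset.sum_div]
      exact Finset.sum_congr rfl fun y _ => by ring
    have e3 : ∑ y, g y / σ * (∑ x ∈ slice S x0, b x * Φ (zz x y)) ^ (2 * p) =
        (∑ y, g y * (∑ x ∈ slice S x0, b x * Φ (zz x y)) ^ (2 * p)) / σ := by
      rw [Finset.sum_div]
      exact Finset.sum_congr rfl fun y _ => by ring
    rw [e2, e3, div_pow, div_le_div_iff₀ (by positivity) hσ] at e1
    have e4 : σ ^ (2 * p) = σ ^ (2 * p - 1) * σ := by
      rw [← pow_succ]
      congr 1
      omega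
    rw [e4] at e1
    have e5 : N ^ (2 * p) * σ ≤ (σ ^ (2 * p - 1) *
        ∑ y, g y * (∑ x ∈ slice S x0, b x * Φ (zz x y)) ^ (2 * p)) * σ := by linarith
    exact le_of_mul_le_mul_right e5 hσ
  have h1 : ∑ y, g y * (∑ x ∈ slice S x0, b x * Φ (zz x y)) ^ (2 * p) ≤
      b0 * (Fintype.card (ι → α → γ) * ((8 * p) ^ S.card * M ^ 2 * N) ^ p) := by
    have e1 := moment p hΦ hM x0 b
    rw [← hN] at e1
    calc ∑ y, g y * (∑ x ∈ slice S x0, b x * Φ (zz x y)) ^ (2 * p)
        ≤ ∑ y, b0 * (∑ x ∈ slice S x0, b x * Φ (zz x y)) ^ (2 * p) :=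
          Finset.sum_le_sum fun y _ => mul_le_mul_of_nonneg_right (hgb y)
            ((even_two_mul p).pow_nonneg _)
      _ = b0 * ∑ y, (∑ x ∈ slice S x0, b x * Φ (zz x y)) ^ (2 * p) := by rw [Finset.mul_sum]
      _ ≤ _ := by
          rcases isEmpty_or_nonempty (ι → α → γ) with he | ⟨⟨y⟩⟩
          · simp
          · exact mul_le_mul_of_nonneg_left e1 (hb00 y)
  have h2 : N ^ (2 * p) ≤ (2 * G ^ 2 * ((8 * p) ^ S.card * M ^ 2 * N)) ^ p := by
    calc N ^ (2 * p) ≤ σ ^ (2 * p - 1) *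
          (b0 * (Fintype.card (ι → α → γ) * ((8 * p) ^ S.card * M ^ 2 * N) ^ p)) :=
            hJ.trans (mul_le_mul_of_nonneg_left h1 (by positivity))
      _ = (b0 * Fintype.card (ι → α → γ)) *
          (σ ^ (2 * p - 1) * ((8 * p) ^ S.card * M ^ 2 * N) ^ p) := by ring
      _ ≤ (2 ^ p * G) * (σ ^ (2 * p - 1) * ((8 * p) ^ S.card * M ^ 2 * N) ^ p) :=
          mul_le_mul_of_nonneg_right hb (by positivity)
      _ ≤ (2 ^ p * G) * (G ^ (2 * p - 1) * ((8 * p) ^ S.card * M ^ 2 * N) ^ p) := by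
          refine mul_le_mul_of_nonneg_left ?_ (by positivity)
          refine mul_le_mul_of_nonneg_right ?_ (by positivity)
          exact pow_le_pow_left₀ hσ.le hG _
      _ = 2 ^ p * (G * G ^ (2 * p - 1)) * ((8 * p) ^ S.card * M ^ 2 * N) ^ p := by ring
      _ = 2 ^ p * (G ^ 2) ^ p * ((8 * p) ^ S.card * M ^ 2 * N) ^ p := by
          rw [← pow_succ', ← pow_mul]
          congr 3
          omega
      _ = _ := by rw [← mul_pow, ← mul_pow]
  rw [pow_mul] at h2
  have h3 : N ^ 2 ≤ 2 * G ^ 2 * ((8 * p) ^ S.card * M ^ 2 * N) :=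
    (pow_le_pow_iff_left₀ (by positivity) (by positivity) (by omega)).mp h2
  have h4 : N * N ≤ (2 * G ^ 2 * M ^ 2 * (8 * p) ^ S.card) * N := by
    calc N * N = N ^ 2 := (sq N).symm
      _ ≤ _ := h3
      _ = _ := by ring
  exact le_of_mul_le_mul_right h4 hNpos

end Pool.Agent.H58.LG
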