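import Pool.Agent.H58.LG.Cone

/-! The induction along a circuit. -/

set_option autoImplicit false
set_option linter.unusedSectionVars false

namespace Pool.Agent.H58.LG

open Finset

variable {ι α γ : Type*} [Fintype ι] [DecidableEq ι] [Fintype α] [DecidableEq α] [Fintype γ]
  [DecidableEq γ]

/-- every accepted transversal sees a coincidence of colours in all rejected colourings -/
def Dead (d : ℕ) (U : (ι → α) → Prop) (V : (ι → α → γ) → Prop) : Prop :=
  ∀ x, U x → ∃ J : Finset ι, J.card ≤ d ∧ ∀ y, V y → ¬ Set.InjOn (zz x y) J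

/-- the relation between a gate and the gates before it -/
def Rel {s : ℕ} (N : ℕ) (ε : ℝ) (U : Fin s → (ι → α) → Prop) (V : Fin s → (ι → α → γ) → Prop)
    (i : Fin s) : Prop :=
  ∃ (w : Fin s → (ι → α → γ) → ℝ) (A : Fin N → (ι → α) → ℝ) (B : Fin N → (ι → α → γ) → ℝ),
    (∀ j y, V i y → 0 ≤ w j y ∧ w j y ≤ 1) ∧ (∀ r x, U i x → 0 ≤ A r x) ∧
    (∀ r y, V i y → 0 ≤ B r y) ∧
    ∀ x y, U i x → V i y →
      (∑ j, @ite ℝ ((j < i ∧ U j x) ∧ V j y) (Classical.dec _) (w j y) 0) =
        ε + ∑ r, A r x * B r y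

/-- the numerical parameters -/
structure Par (k q m s N : ℕ) (ε : ℝ) where
  p : ℕ
  t : ℕ
  d : ℕ
  d' : ℕ
  D : ℕ
  κ : ℝ
  κ1 : ℝ
  η : ℝ
  h : ℝ
  ρ : ℝ
  hp : 1 ≤ p
  htp : t ≤ p
  hdD : d ≤ D
  hdD' : d' ≤ D
  hq : 2 * (d + d' + D) ≤ q
  hκ : 0 < κ
  hκ1 : 0 < κ1
  hη : 0 < η
  hκm : 1 ≤ κ * m
  hηκ : η * (κ * m) ≤ 1
  hd : 1 ≤ (κ * m) ^ (d + 1) * η
  hd' : 1 ≤ (κ * m) ^ (d' + 1) * (κ1 * η)
  hh0 : 0 ≤ h
  hh : 128 * p * κ ≤ h ^ 2
  hρ : k * h ≤ ρ
  hρ1 : ρ ≤ 1 / 8
  hε : 0 ≤ ε
  n1 : (1 + k) ^ d * (4 * ρ ^ (D + 1 - d)) < 1 / 2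
  n2 : s * ((1 + k) ^ d * (4 * ρ ^ (D + 1 - d))) +
    N * (s * (err k d' D t p ρ + κ1 * (1 + k * 4) ^ D)) < 1 / 2 * ε

theorem spread_of_select {f : (ι → α) → ℝ} {F J : Finset ι} {b : ι → α} {κ : ℝ}
    (X : Finset (ι → α)) (hX : ∀ x, (if x ∈ X then (1 : ℝ) else 0) = if x ∈ agr J b then f x else 0)
    (h : Spread F κ (∑ x ∈ agr J b, f x) (fun x => if x ∈ agr J b then f x else 0)) :
    Spread F κ X.card (fun x => if x ∈ X then 1 else 0) := by
  have h1 : (X.card : ℝ) = ∑ x ∈ agr J b, f x := by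
    have e1 : (X.card : ℝ) = ∑ x, if x ∈ X then (1 : ℝ) else 0 := by
      rw [Finset.sum_ite_mem, Finset.univ_inter, Finset.sum_const, nsmul_eq_mul, mul_one]
    rw [e1, Finset.sum_congr rfl fun x _ => hX x, Finset.sum_ite_mem, Finset.univ_inter]
  rw [h1]
  intro T hT c
  simp only [hX]
  exact h T hT c

/-- the part of a set which is not covered by spread pieces is small -/
theorem cover {κ η : ℝ} {d : ℕ} (hκ : 0 < κ) (hη : 0 < η) (hκm : 1 ≤ κ * Fintype.card α)
    (hd : 1 ≤ (κ * Fintype.card α) ^ (d + 1) * η) (U : Finset (ι → α)) :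
    ∃ E : Finset (ι → α), (E.card : ℝ) ≤ η * Fintype.card α ^ Fintype.card ι ∧
      ∀ x ∈ U, x ∉ E → ∃ (I : Finset ι) (X : Finset (ι → α)), I.card ≤ d ∧ x ∈ X ∧ X ⊆ U ∧
        (∀ x' ∈ X, ∀ i ∈ I, x' i = x i) ∧
        Spread I κ X.card (fun x => if x ∈ X then (1 : ℝ) else 0) ∧
        η * Fintype.card α ^ Fintype.card ι ≤ X.card * Fintype.card α ^ I.card := by
  classical
  obtain ⟨P, hP⟩ : ∃ P : (ι → α) → Prop, ∀ x, P x ↔ ∃ (I : Finset ι) (X : Finset (ι → α)),
      I.card ≤ d ∧ x ∈ X ∧ X ⊆ U ∧ (∀ x' ∈ X, ∀ i ∈ I, x' i = x i) ∧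
        Spread I κ X.card (fun x => if x ∈ X then (1 : ℝ) else 0) ∧
        η * Fintype.card α ^ Fintype.card ι ≤ X.card * Fintype.card α ^ I.card :=
    ⟨_, fun _ => Iff.rfl⟩
  refine ⟨U.filter fun x => ¬ P x, ?_, fun x hx hxE => ?_⟩
  · by_contra hcon
    push Not at hcon
    obtain ⟨E, hE⟩ : ∃ E, E = U.filter fun x => ¬ P x := ⟨_, rfl⟩
    rw [← hE] at hcon
    obtain ⟨m, hm⟩ : ∃ m : ℝ, m = Fintype.card α := ⟨_, rfl⟩
    rw [← hm] at hcon hκm hd
    have hm0 : 0 < m := by
      by_contra h3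
      push Not at h3
      have : κ * m ≤ 0 := mul_nonpos_of_nonneg_of_nonpos hκ.le h3
      linarith
    have hEne : E.Nonempty := by
      rw [← Finset.card_pos]
      have h1 : (0 : ℝ) < E.card := lt_trans (by positivity) hcon
      exact_mod_cast h1
    obtain ⟨x0, hx0⟩ := hEne
    obtain ⟨J, b, -, h1, h2⟩ := select (F := ∅) hκ x0
      (f := fun x => if x ∈ E then (1 : ℝ) else 0) (fun x => by split_ifs <;> norm_num)
    rw [Finset.empty_union] at h2
    have e1 : ∑ x : ι → α, (if x ∈ E then (1 : ℝ) else 0) = E.card := by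
      rw [Finset.sum_ite_mem, Finset.univ_inter, Finset.sum_const, nsmul_eq_mul, mul_one]
    have e2 : ∑ x ∈ agr J b, (if x ∈ E then (1 : ℝ) else 0) = (agr J b ∩ E).card := by
      rw [Finset.sum_ite_mem, Finset.sum_const, nsmul_eq_mul, mul_one]
    have h3 := spread_of_select (agr J b ∩ E) (fun x => by
      by_cases h4 : x ∈ agr J b <;> by_cases h5 : x ∈ E <;> simp [h4, h5]) h2
    rw [e1, e2] at h1
    have hEc : (0 : ℝ) < E.card := lt_trans (by positivity) hcon
    have hXc : (0 : ℝ) < (agr J b ∩ E).card := lt_of_lt_of_le (by positivity) h1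
    have h5 : ((agr J b).card : ℝ) * m ^ J.card = m ^ Fintype.card ι := by
      rw [hm]
      exact_mod_cast card_agr J b
    have h6 : ((agr J b ∩ E).card : ℝ) ≤ (agr J b).card := by
      exact_mod_cast Finset.card_le_card Finset.inter_subset_left
    have h7 : (κ * m) ^ J.card * E.card ≤ (agr J b ∩ E).card * m ^ J.card := by
      rw [mul_pow]
      have := mul_le_mul_of_nonneg_right h1 (show 0 ≤ m ^ J.card by positivity)
      linarith
    have hJd : J.card ≤ d := by
      by_contra hcon2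
      push Not at hcon2
      have h8 : (κ * m) ^ (d + 1) ≤ (κ * m) ^ J.card := pow_le_pow_right₀ hκm hcon2
      have h9 : (κ * m) ^ J.card * E.card ≤ m ^ Fintype.card ι := by
        refine h7.trans ?_
        rw [← h5]
        exact mul_le_mul_of_nonneg_right h6 (by positivity)
      have h10 : (κ * m) ^ J.card * (η * m ^ Fintype.card ι) < m ^ Fintype.card ι :=
        lt_of_lt_of_le (mul_lt_mul_of_pos_left hcon (by positivity)) h9
      have h11 : 1 ≤ (κ * m) ^ J.card * η := hd.trans (mul_le_mul_of_nonneg_right h8 hη.le)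
      have h12 : 0 < m ^ Fintype.card ι := by positivity
      nlinarith
    obtain ⟨x, hx⟩ : (agr J b ∩ E).Nonempty := by
      rw [← Finset.card_pos]
      exact_mod_cast hXc
    have hxE := (Finset.mem_inter.mp hx).2
    rw [hE, Finset.mem_filter] at hxE
    apply hxE.2
    rw [hP]
    refine ⟨J, agr J b ∩ E, hJd, hx, ?_, ?_, h3, ?_⟩
    · intro x' hx'
      have := (Finset.mem_inter.mp hx').2
      rw [hE] at this
      exact (Finset.mem_filter.mp this).1
    · intro x' hx' i hi
      rw [mem_agr.mp (Finset.mem_inter.mp hx').1 i hi, mem_agr.mp (Finset.mem_inter.mp hx).1 i hi]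
    · rw [← hm]
      have h8 : (1 : ℝ) ≤ (κ * m) ^ J.card := one_le_pow₀ hκm
      have h9 : 1 * (E.card : ℝ) ≤ (κ * m) ^ J.card * E.card :=
        mul_le_mul_of_nonneg_right h8 hEc.le
      linarith
  · have : P x := by
      by_contra hcon
      exact hxE (Finset.mem_filter.mpr ⟨hx, hcon⟩)
    exact (hP x).mp this

/-- The induction along the circuit. -/
theorem dead_all [Nonempty γ] {s N : ℕ} {ε : ℝ}
    (P : Par (Fintype.card ι) (Fintype.card γ) (Fintype.card α) s N ε)
    (U : Fin s → (ι → α) → Prop) (V : Fin s → (ι → α → γ) → Prop)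
    (hgate : ∀ i, Dead P.d (U i) (V i) ∨ Rel N ε U V i) :
    ∀ n : ℕ, ∃ (E : Finset (ι → α)) (F : Finset (ι → α → γ)),
      (E.card : ℝ) ≤ n * (P.η * Fintype.card α ^ Fintype.card ι) ∧
      (F.card : ℝ) ≤ n * (2 ^ Fintype.card ι * Fintype.card α ^ Fintype.card ι *
        ((1 / 2) ^ P.t * Fintype.card (ι → α → γ))) ∧
      ∀ i : Fin s, i.1 < n → Dead P.d (fun x => U i x ∧ x ∉ E) (fun y => V i y ∧ y ∉ F) := by
  classical
  intro n
  induction n with
  | zero =>
    refine ⟨∅, ∅, by simp, by simp, fun i hi => ?_⟩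
    exact absurd hi (Nat.not_lt_zero _)
  | succ n ih =>
    obtain ⟨E, F, hE, hF, hdead⟩ := ih
    have hmono : ∀ (E' : Finset (ι → α)) (F' : Finset (ι → α → γ)), E ⊆ E' → F ⊆ F' →
        ∀ i : Fin s, i.1 < n → Dead P.d (fun x => U i x ∧ x ∉ E') (fun y => V i y ∧ y ∉ F') := by
      intro E' F' hEE hFF i hi x hx
      obtain ⟨J, hJ1, hJ2⟩ := hdead i hi x ⟨hx.1, fun h => hx.2 (hEE h)⟩
      exact ⟨J, hJ1, fun y hy => hJ2 y ⟨hy.1, fun h => hy.2 (hFF h)⟩⟩
    have hη0 : 0 ≤ P.η * (Fintype.card α : ℝ) ^ Fintype.card ι := by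
      have := P.hη
      positivity
    by_cases hns : n < s
    · rcases hgate ⟨n, hns⟩ with hg | hg
      · -- an input
        refine ⟨E, F, ?_, ?_, fun i hi => ?_⟩
        · push_cast
          nlinarith
        · push_cast
          have : (0 : ℝ) ≤ 2 ^ Fintype.card ι * Fintype.card α ^ Fintype.card ι *
            ((1 / 2) ^ P.t * Fintype.card (ι → α → γ)) := by positivity
          nlinarith
        · rcases Nat.lt_succ_iff_lt_or_eq.mp hi with hi | hi
          · exact hdead i hi
          · have : i = ⟨n, hns⟩ := Fin.ext hi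
            rw [this]
            intro x hx
            obtain ⟨J, hJ1, hJ2⟩ := hg x hx.1
            exact ⟨J, hJ1, fun y hy => hJ2 y hy.1⟩
      · -- a linear programme
        obtain ⟨w, A, B, hw, hA, hB, hrel⟩ := hg
        obtain ⟨E1, hE1, hcov⟩ := cover P.hκ P.hη P.hκm P.hd
          (univ.filter fun x => U ⟨n, hns⟩ x ∧ x ∉ E)
        obtain ⟨Yf, hYf⟩ : ∃ Yf : Finset ι → (ι → α) → Finset (ι → α → γ), ∀ I a, Yf I a =
          univ.filter fun y => (V ⟨n, hns⟩ y ∧ y ∉ F) ∧ Set.InjOn (zz a y) I := ⟨_, fun _ _ => rfl⟩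
        obtain ⟨F1, hF1⟩ : ∃ F1 : Finset (ι → α → γ), F1 =
          (univ.filter fun w : Finset ι × (ι → α) =>
            2 ^ P.t * ((Yf w.1 w.2).card : ℝ) < Fintype.card (ι → α → γ)).biUnion
            fun w => Yf w.1 w.2 := ⟨_, rfl⟩
        have hF1c : (F1.card : ℝ) ≤ 2 ^ Fintype.card ι * Fintype.card α ^ Fintype.card ι *
            ((1 / 2) ^ P.t * Fintype.card (ι → α → γ)) := by
          have h1 : (F1.card : ℝ) ≤ ∑ w ∈ (univ.filter fun w : Finset ι × (ι → α) =>
            2 ^ P.t * ((Yf w.1 w.2).card : ℝ) < Fintype.card (ι → α → γ)),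
            ((Yf w.1 w.2).card : ℝ) := by
            rw [hF1]
            exact_mod_cast Finset.card_biUnion_le
          refine h1.trans ?_
          have h2 : ∀ w ∈ (univ.filter fun w : Finset ι × (ι → α) =>
            2 ^ P.t * ((Yf w.1 w.2).card : ℝ) < Fintype.card (ι → α → γ)),
            ((Yf w.1 w.2).card : ℝ) ≤ (1 / 2) ^ P.t * Fintype.card (ι → α → γ) := by
            intro w hw
            have h3 := (Finset.mem_filter.mp hw).2
            have h4 : (1 / 2 : ℝ) ^ P.t * 2 ^ P.t = 1 := by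
              rw [← mul_pow]
              norm_num
            calc ((Yf w.1 w.2).card : ℝ) = (1 / 2) ^ P.t * (2 ^ P.t * (Yf w.1 w.2).card) := by
                  rw [← mul_assoc, h4, one_mul]
              _ ≤ _ := mul_le_mul_of_nonneg_left h3.le (by positivity)
          refine (Finset.sum_le_sum h2).trans ?_
          rw [Finset.sum_const, nsmul_eq_mul]
          refine mul_le_mul_of_nonneg_right ?_ (by positivity)
          have h3 : ((univ.filter fun w : Finset ι × (ι → α) =>
            2 ^ P.t * ((Yf w.1 w.2).card : ℝ) < Fintype.card (ι → α → γ)).card : ℝ) ≤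
            Fintype.card (Finset ι × (ι → α)) := by
            exact_mod_cast Finset.card_le_univ _
          refine h3.trans (le_of_eq ?_)
          rw [Fintype.card_prod, Fintype.card_finset, Fintype.card_fun]
          push_cast
          ring
        refine ⟨E ∪ E1, F ∪ F1, ?_, ?_, fun i hi => ?_⟩
        · have h1 : ((E ∪ E1).card : ℝ) ≤ E.card + E1.card := by
            exact_mod_cast Finset.card_union_le E E1
          push_cast
          linarith
        · have h1 : ((F ∪ F1).card : ℝ) ≤ F.card + F1.card := by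
            exact_mod_cast Finset.card_union_le F F1
          push_cast
          linarith
        · rcases Nat.lt_succ_iff_lt_or_eq.mp hi with hi | hi
          · exact hmono _ _ Finset.subset_union_left Finset.subset_union_left i hi
          · have hin : i = ⟨n, hns⟩ := Fin.ext hi
            rw [hin]
            rintro x ⟨hxU, hxE⟩
            rw [Finset.mem_union, not_or] at hxE
            obtain ⟨I, X, hId, hxX, hXU, hXI, hXs, hXη⟩ := hcov x
              (Finset.mem_filter.mpr ⟨Finset.mem_univ _, hxU, hxE.1⟩) hxE.2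
            refine ⟨I, hId, ?_⟩
            rintro y ⟨hyV, hyF⟩ hinj
            rw [Finset.mem_union, not_or] at hyF
            have hyY : y ∈ Yf I x := by
              rw [hYf, Finset.mem_filter]
              exact ⟨Finset.mem_univ _, ⟨hyV, hyF.1⟩, hinj⟩
            have hbig : (Fintype.card (ι → α → γ) : ℝ) ≤ 2 ^ P.t * (Yf I x).card := by
              by_contra hcon
              push Not at hcon
              apply hyF.2
              rw [hF1, Finset.mem_biUnion]
              exact ⟨(I, x), Finset.mem_filter.mpr ⟨Finset.mem_univ _, hcon⟩, hyY⟩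
            have hYm : ∀ y ∈ Yf I x, (V ⟨n, hns⟩ y ∧ y ∉ F) ∧ Set.InjOn (zz x y) I := by
              intro y hy
              rw [hYf, Finset.mem_filter] at hy
              exact hy.2
            have hXm : ∀ x' ∈ X, U ⟨n, hns⟩ x' ∧ x' ∉ E := by
              intro x' hx'
              exact (Finset.mem_filter.mp (hXU hx')).2
            have hfin := node (C := Fin s) (R := Fin N) P.hp P.htp (I := I) (x0 := x) P.hdD P.hdD'
              hId P.hq P.hκ P.hκ1 P.hη P.hκm P.hd' X ⟨x, hxX⟩ hXI hXs hXη (Yf I x)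
              (fun y hy => (hYm y hy).2) hbig P.hh0 P.hh P.hρ P.hρ1
              (fun j x => j < ⟨n, hns⟩ ∧ U j x) V w
              (fun j y hy => (hw j y (hYm y hy).1.1).1) (fun j y hy => (hw j y (hYm y hy).1.1).2)
              (fun j x' hx' hj => by
                obtain ⟨J, hJ1, hJ2⟩ := hdead j (by exact hj.1) x' ⟨hj.2, (hXm x' hx').2⟩
                exact ⟨J, hJ1, fun y hy hjy => hJ2 y ⟨hjy, (hYm y hy).1.2⟩⟩)
              A B (fun r x' hx' => hA r x' (hXm x' hx').1)
              (fun r y hy => hB r y (hYm y hy).1.1) P.hε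
              (fun x' hx' y hy => hrel x' y (hXm x' hx').1 (hYm y hy).1.1)
            rw [Fintype.card_fin, Fintype.card_fin] at hfin
            have := P.n2
            linarith
    · refine ⟨E, F, ?_, ?_, fun i hi => ?_⟩
      · push_cast
        nlinarith
      · push_cast
        have : (0 : ℝ) ≤ 2 ^ Fintype.card ι * Fintype.card α ^ Fintype.card ι *
          ((1 / 2) ^ P.t * Fintype.card (ι → α → γ)) := by positivity
        nlinarith
      · exact hdead i (by have := i.2; omega)

/-- No small circuit accepts many transversals and rejects many colourings. -/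
theorem dag [Nonempty γ] {s N : ℕ} {ε : ℝ}
    (P : Par (Fintype.card ι) (Fintype.card γ) (Fintype.card α) s N ε)
    (U : Fin s → (ι → α) → Prop) (V : Fin s → (ι → α → γ) → Prop)
    (hgate : ∀ i, Dead P.d (U i) (V i) ∨ Rel N ε U V i) (o : Fin s)
    (X : Finset (ι → α)) (Y : Finset (ι → α → γ)) (hXU : ∀ x ∈ X, U o x) (hYV : ∀ y ∈ Y, V o y)
    (hX : (1 / (P.κ * Fintype.card α) + s * P.η) * (Fintype.card α : ℝ) ^ Fintype.card ι ≤ X.card)
    (hY : (1 + (s : ℝ) * (2 ^ Fintype.card ι * (Fintype.card α : ℝ) ^ Fintype.card ι)) *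
      ((1 / 2) ^ P.t * Fintype.card (ι → α → γ)) ≤ Y.card) : False := by
  classical
  obtain ⟨E, F, hE, hF, hdead⟩ := dead_all P U V hgate s
  obtain ⟨X', hX'⟩ : ∃ X', X' = X \ E := ⟨_, rfl⟩
  obtain ⟨Y', hY'⟩ : ∃ Y', Y' = Y \ F := ⟨_, rfl⟩
  have hκm := P.hκm
  obtain ⟨M, hM⟩ : ∃ M : ℝ, M = Fintype.card α ^ Fintype.card ι := ⟨_, rfl⟩
  rw [← hM] at hX hE hY hF
  have hαpos : (0 : ℝ) < Fintype.card α := by
    by_contra h3
    push Not at h3
    have : P.κ * Fintype.card α ≤ 0 := mul_nonpos_of_nonneg_of_nonpos P.hκ.le h3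
    linarith
  have hM0 : 0 < M := by rw [hM]; positivity
  have hX'c : 1 / (P.κ * Fintype.card α) * M ≤ X'.card := by
    have h1 : (X.card : ℝ) ≤ X'.card + E.card := by
      rw [hX']
      have h2 : X.card ≤ (X \ E).card + E.card := by
        have := Finset.card_le_card (show X ⊆ (X \ E) ∪ E by
          intro x hx
          by_cases h : x ∈ E
          · exact Finset.mem_union_right _ h
          · exact Finset.mem_union_left _ (Finset.mem_sdiff.mpr ⟨hx, h⟩))
        exact this.trans (Finset.card_union_le _ _)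
      exact_mod_cast h2
    have h2 : (1 / (P.κ * Fintype.card α) + s * P.η) * M =
      1 / (P.κ * Fintype.card α) * M + s * (P.η * M) := by ring
    rw [h2] at hX
    linarith
  have hX'M : M ≤ (P.κ * Fintype.card α) * X'.card := by
    have h1 : 0 < P.κ * (Fintype.card α : ℝ) := by linarith
    have h2 := mul_le_mul_of_nonneg_left hX'c h1.le
    rw [← mul_assoc, mul_one_div_cancel h1.ne', one_mul] at h2
    exact h2
  have hX'ne : X'.Nonempty := by
    rw [← Finset.card_pos]
    by_contra hcon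
    have h0 : X'.card = 0 := by omega
    rw [h0, Nat.cast_zero, mul_zero] at hX'M
    linarith
  have hY'c : (Fintype.card (ι → α → γ) : ℝ) ≤ 2 ^ P.t * Y'.card := by
    have h1 : (Y.card : ℝ) ≤ Y'.card + F.card := by
      rw [hY']
      have h2 : Y.card ≤ (Y \ F).card + F.card := by
        have := Finset.card_le_card (show Y ⊆ (Y \ F) ∪ F by
          intro x hx
          by_cases h : x ∈ F
          · exact Finset.mem_union_right _ h
          · exact Finset.mem_union_left _ (Finset.mem_sdiff.mpr ⟨hx, h⟩))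
        exact this.trans (Finset.card_union_le _ _)
      exact_mod_cast h2
    have h2 : (1 + s * (2 ^ Fintype.card ι * M)) * ((1 / 2) ^ P.t * Fintype.card (ι → α → γ)) =
      (1 / 2) ^ P.t * Fintype.card (ι → α → γ) +
        s * (2 ^ Fintype.card ι * M * ((1 / 2) ^ P.t * Fintype.card (ι → α → γ))) := by ring
    rw [h2] at hY
    have h3 : (1 / 2 : ℝ) ^ P.t * Fintype.card (ι → α → γ) ≤ Y'.card := by linarith
    have h4 : (2 : ℝ) ^ P.t * (1 / 2) ^ P.t = 1 := by
      rw [← mul_pow]
      norm_num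
    have h5 := mul_le_mul_of_nonneg_left h3 (show (0 : ℝ) ≤ 2 ^ P.t by positivity)
    rw [← mul_assoc, h4, one_mul] at h5
    exact h5
  obtain ⟨x0, hx0⟩ := hX'ne
  have hsp : Spread ∅ P.κ X'.card (fun x => if x ∈ X' then (1 : ℝ) else 0) := by
    intro T _ b
    rw [Finset.sum_ite_mem, Finset.sum_const, nsmul_eq_mul, mul_one]
    rcases T.eq_empty_or_nonempty with h0 | h0
    · subst h0
      rw [Finset.card_empty, pow_zero, one_mul]
      exact_mod_cast Finset.card_le_card Finset.inter_subset_right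
    · have h1 : ((agr T b).card : ℝ) * Fintype.card α ^ T.card = M := by
        rw [hM]
        exact_mod_cast card_agr T b
      have h2 : ((agr T b ∩ X').card : ℝ) ≤ (agr T b).card := by
        exact_mod_cast Finset.card_le_card Finset.inter_subset_left
      refine h2.trans ?_
      have h3 : (P.κ * Fintype.card α) ^ 1 ≤ (P.κ * Fintype.card α) ^ T.card :=
        pow_le_pow_right₀ hκm (Finset.card_pos.mpr h0)
      rw [pow_one] at h3
      have h4 : (0 : ℝ) < (Fintype.card α : ℝ) ^ T.card := by positivity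
      have h5 : ((agr T b).card : ℝ) * Fintype.card α ^ T.card ≤
          (P.κ ^ T.card * X'.card) * Fintype.card α ^ T.card := by
        rw [h1]
        calc M ≤ (P.κ * Fintype.card α) * X'.card := hX'M
          _ ≤ (P.κ * Fintype.card α) ^ T.card * X'.card :=
            mul_le_mul_of_nonneg_right h3 (Nat.cast_nonneg _)
          _ = _ := by rw [mul_pow]; ring
      exact le_of_mul_le_mul_right h5 h4
  have hs : 0 < s := by
    have := o.2
    omega
  have hη : P.η * Fintype.card α ^ Fintype.card ι ≤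
      X'.card * Fintype.card α ^ (∅ : Finset ι).card := by
    rw [Finset.card_empty, pow_zero, mul_one, ← hM]
    refine le_trans ?_ hX'c
    have h1 : 0 < P.κ * (Fintype.card α : ℝ) := by linarith
    refine mul_le_mul_of_nonneg_right ?_ hM0.le
    rw [le_div_iff₀ h1]
    exact P.hηκ
  have hs : (o : ℕ) < s := o.2
  have hfin := node (C := Unit) (R := Fin 0) P.hp P.htp (I := ∅) (x0 := x0) P.hdD P.hdD'
    (by simp) P.hq P.hκ P.hκ1 P.hη P.hκm P.hd' X' ⟨x0, hx0⟩ (by simp) hsp hη Y'
    (by simp) hY'c P.hh0 P.hh P.hρ P.hρ1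
    (fun _ x => U o x) (fun _ y => V o y) (fun _ _ => 1) (fun _ _ _ => by norm_num)
    (fun _ _ _ => le_rfl)
    (fun _ x' hx' hU => by
      have h1 : x' ∈ X ∧ x' ∉ E := by
        rw [hX'] at hx'
        exact Finset.mem_sdiff.mp hx'
      obtain ⟨J, hJ1, hJ2⟩ := hdead o hs x' ⟨hU, h1.2⟩
      refine ⟨J, hJ1, fun y hy hyV => hJ2 y ⟨hyV, ?_⟩⟩
      rw [hY'] at hy
      exact (Finset.mem_sdiff.mp hy).2)
    (fun _ _ => 0) (fun _ _ => 0) (fun _ _ _ => le_rfl) (fun _ _ _ => le_rfl) (ε := 1)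
    (by norm_num)
    (fun x' hx' y hy => by
      have h1 : U o x' := by
        rw [hX'] at hx'
        exact hXU x' (Finset.mem_sdiff.mp hx').1
      have h2 : V o y := by
        rw [hY'] at hy
        exact hYV y (Finset.mem_sdiff.mp hy).1
      simp [h1, h2])
  rw [Fintype.card_unit, Fintype.card_fin, Nat.cast_zero, zero_mul, Nat.cast_one, one_mul,
    add_zero] at hfin
  have := P.n1
  linarith

end Pool.Agent.H58.LG
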