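import Pool.Agent.H58.LG.Blk
import Pool.Agent.H25.NM.Count

/-! Averaging over embeddings. -/

set_option autoImplicit false
set_option linter.unusedSectionVars false

namespace Pool.Agent.H58.LG

open Finset
open Pool.Agent.H25.NM (nc nc_eq nc_congr nc_mono nc_le_card nc_false nc_true nc_equiv nc_prod
  nc_prod_and)

/-- the number of permutations which map a `k`-set to a set with a given property does not depend
on the set -/
theorem nc_perm_eq {v : ℕ} (P : Finset (Fin v) → Prop) {K K' : Finset (Fin v)}
    (h : K.card = K'.card) :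
    nc (fun σ : Equiv.Perm (Fin v) => P (K.map σ.toEmbedding)) =
      nc (fun σ : Equiv.Perm (Fin v) => P (K'.map σ.toEmbedding)) := by
  classical
  obtain ⟨τ, hτ⟩ : ∃ τ : Equiv.Perm (Fin v), K'.map τ.toEmbedding = K := by
    have e : {x // x ∈ K'} ≃ {x // x ∈ K} := Fintype.equivOfCardEq (by
      rw [Fintype.card_coe, Fintype.card_coe, h])
    refine ⟨e.extendSubtype, ?_⟩
    refine Finset.eq_of_subset_of_card_le ?_ (by rw [Finset.card_map, h])
    intro a ha
    obtain ⟨b, hb, rfl⟩ := Finset.mem_map.mp ha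
    exact e.extendSubtype_mem b hb
  have h1 := nc_equiv (Equiv.mulRight τ) fun σ : Equiv.Perm (Fin v) => P (K'.map σ.toEmbedding)
  rw [← h1]
  refine nc_congr fun σ => ?_
  have : K'.map ((Equiv.mulRight τ) σ).toEmbedding = K.map σ.toEmbedding := by
    rw [← hτ, Finset.map_map]
    congr 1
  rw [this]

/-- a good permutation -/
theorem exists_perm {v k m : ℕ} (P : Finset (Fin v) → Prop) (T : (Fin k → Fin m) → Finset (Fin v))
    (hT : ∀ x, (T x).card = k) :
    ∃ σ : Equiv.Perm (Fin v),
      nc (fun K : Finset (Fin v) => K ∈ powersetCard k univ ∧ P K) * m ^ k ≤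
        nc (fun x : Fin k → Fin m => P ((T x).map σ.toEmbedding)) * v.choose k := by
  classical
  by_contra hcon
  push Not at hcon
  obtain ⟨A, hA⟩ : ∃ A, A = nc (fun K : Finset (Fin v) => K ∈ powersetCard k univ ∧ P K) :=
    ⟨_, rfl⟩
  rw [← hA] at hcon
  obtain ⟨N, hN⟩ : ∃ N, N = Fintype.card (Equiv.Perm (Fin v)) := ⟨_, rfl⟩
  have hNpos : 0 < N := by
    rw [hN]
    exact Fintype.card_pos
  -- the number of permutations for a k-set
  obtain ⟨S, hS⟩ : ∃ S, ∀ K : Finset (Fin v), K.card = k →
      nc (fun σ : Equiv.Perm (Fin v) => P (K.map σ.toEmbedding)) = S := by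
    by_cases hk : ∃ K0 : Finset (Fin v), K0.card = k
    · obtain ⟨K0, hK0⟩ := hk
      exact ⟨_, fun K hK => nc_perm_eq P (hK.trans hK0.symm)⟩
    · push Not at hk
      exact ⟨0, fun K hK => absurd hK (hk K)⟩
  have h1 : v.choose k * S = N * A := by
    have e1 : ∑ K ∈ powersetCard k (univ : Finset (Fin v)),
        nc (fun σ : Equiv.Perm (Fin v) => P (K.map σ.toEmbedding)) = v.choose k * S := by
      rw [Finset.sum_congr rfl fun K hK => hS K (Finset.mem_powersetCard.mp hK).2,
        Finset.sum_const, Finset.card_powersetCard, Finset.card_univ, Fintype.card_fin,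
        smul_eq_mul]
    rw [← e1]
    have e2 : ∑ K ∈ powersetCard k (univ : Finset (Fin v)),
        nc (fun σ : Equiv.Perm (Fin v) => P (K.map σ.toEmbedding)) =
        ∑ K : Finset (Fin v), nc (fun σ : Equiv.Perm (Fin v) =>
          K ∈ powersetCard k univ ∧ P (K.map σ.toEmbedding)) := by
      rw [← Finset.sum_subset (Finset.subset_univ (powersetCard k (univ : Finset (Fin v))))]
      · refine Finset.sum_congr rfl fun K hK => nc_congr fun σ => ?_
        simp [hK]
      · intro K _ hK
        exact nc_false fun σ h => hK h.1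
    rw [e2, ← nc_prod, ← nc_equiv (Equiv.prodComm (Equiv.Perm (Fin v)) (Finset (Fin v)))]
    have e3 : nc (fun x : Equiv.Perm (Fin v) × Finset (Fin v) =>
        ((Equiv.prodComm _ _) x).1 ∈ powersetCard k univ ∧
          P (((Equiv.prodComm _ _) x).1.map ((Equiv.prodComm _ _) x).2.toEmbedding)) =
        ∑ σ : Equiv.Perm (Fin v), nc (fun K : Finset (Fin v) =>
          K ∈ powersetCard k univ ∧ P (K.map σ.toEmbedding)) :=
      nc_prod fun (σ : Equiv.Perm (Fin v)) (K : Finset (Fin v)) =>
        K ∈ powersetCard k univ ∧ P (K.map σ.toEmbedding)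
    rw [e3, hA, hN]
    have e4 : ∀ σ : Equiv.Perm (Fin v), nc (fun K : Finset (Fin v) =>
        K ∈ powersetCard k univ ∧ P (K.map σ.toEmbedding)) =
        nc (fun K : Finset (Fin v) => K ∈ powersetCard k univ ∧ P K) := by
      intro σ
      rw [← nc_equiv σ.finsetCongr fun K : Finset (Fin v) => K ∈ powersetCard k univ ∧ P K]
      refine nc_congr fun K => ?_
      rw [Equiv.finsetCongr_apply, Finset.mem_powersetCard, Finset.mem_powersetCard,
        Finset.card_map]
      simp
    rw [Finset.sum_congr rfl fun σ _ => e4 σ, Finset.sum_const, Finset.card_univ, smul_eq_mul]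
  have h2 : ∑ σ : Equiv.Perm (Fin v), nc (fun x : Fin k → Fin m =>
      P ((T x).map σ.toEmbedding)) = m ^ k * S := by
    rw [← nc_prod fun (σ : Equiv.Perm (Fin v)) (x : Fin k → Fin m) =>
      P ((T x).map σ.toEmbedding),
      ← nc_equiv (Equiv.prodComm (Fin k → Fin m) (Equiv.Perm (Fin v)))]
    have e3 : nc (fun x : (Fin k → Fin m) × Equiv.Perm (Fin v) =>
          P ((T ((Equiv.prodComm _ _) x).2).map ((Equiv.prodComm _ _) x).1.toEmbedding)) =
        ∑ x : Fin k → Fin m, nc (fun σ : Equiv.Perm (Fin v) =>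
          P ((T x).map σ.toEmbedding)) :=
      nc_prod fun (x : Fin k → Fin m) (σ : Equiv.Perm (Fin v)) => P ((T x).map σ.toEmbedding)
    rw [e3, Finset.sum_congr rfl fun x _ => hS (T x) (hT x), Finset.sum_const,
      Finset.card_univ, Fintype.card_fun, Fintype.card_fin, Fintype.card_fin, smul_eq_mul]
  have h3 : ∑ σ : Equiv.Perm (Fin v), nc (fun x : Fin k → Fin m =>
      P ((T x).map σ.toEmbedding)) * v.choose k < ∑ _σ : Equiv.Perm (Fin v), A * m ^ k :=
    Finset.sum_lt_sum_of_nonempty Finset.univ_nonempty fun σ _ => hcon σ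
  rw [← Finset.sum_mul, h2, Finset.sum_const, Finset.card_univ, ← hN, smul_eq_mul] at h3
  have h4 : m ^ k * S * v.choose k = N * (A * m ^ k) := by
    calc m ^ k * S * v.choose k = m ^ k * (v.choose k * S) := by ring
      _ = m ^ k * (N * A) := by rw [h1]
      _ = _ := by ring
  omega

/-- a good colouring outside a block -/
theorem exists_outside {V W γ : Type} [Fintype V] [DecidableEq V] [Fintype W] [DecidableEq W]
    [Fintype γ] [DecidableEq γ] [Nonempty γ] (φ : V ↪ W) (Q : (W → γ) → Prop) :
    ∃ c : W → γ, nc Q * Fintype.card (V → γ) ≤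
      nc (fun y : V → γ => Q (Function.extend φ y c)) * Fintype.card (W → γ) := by
  classical
  by_contra hcon
  push Not at hcon
  have hne : Nonempty (W → γ) := ⟨fun _ => Classical.arbitrary γ⟩
  have h3 : ∑ c : W → γ, nc (fun y : V → γ => Q (Function.extend φ y c)) *
      Fintype.card (W → γ) < ∑ _c : W → γ, nc Q * Fintype.card (V → γ) :=
    Finset.sum_lt_sum_of_nonempty Finset.univ_nonempty fun c _ => hcon c
  let F : (W → γ) × (V → γ) → (W → γ) × (V → γ) := fun p =>
    (Function.extend φ p.2 p.1, fun a => p.1 (φ a))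
  have hF : Function.Involutive F := by
    rintro ⟨c, y⟩
    refine Prod.ext ?_ ?_
    · funext a
      show Function.extend φ (fun b => c (φ b)) (Function.extend φ y c) a = c a
      by_cases h : ∃ b, φ b = a
      · obtain ⟨b, rfl⟩ := h
        rw [φ.injective.extend_apply]
      · rw [Function.extend_apply' _ _ _ h, Function.extend_apply' _ _ _ h]
    · funext b
      show Function.extend φ y c (φ b) = y b
      rw [φ.injective.extend_apply]
  have h1 : nc (fun p : (W → γ) × (V → γ) => Q (Function.extend φ p.2 p.1)) =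
      nc Q * Fintype.card (V → γ) := by
    have e1 := nc_equiv hF.toPerm fun p : (W → γ) × (V → γ) => Q p.1
    have e2 : nc (fun p : (W → γ) × (V → γ) => Q p.1) = nc Q * Fintype.card (V → γ) := by
      have e3 := nc_prod_and Q fun _ : V → γ => True
      rw [nc_true (p := fun _ : V → γ => True) fun _ => trivial] at e3
      rw [← e3]
      exact nc_congr fun p => by simp
    rw [← e2, ← e1]
    exact nc_congr fun p => Iff.rfl
  rw [← Finset.sum_mul, ← nc_prod fun (c : W → γ) (y : V → γ) => Q (Function.extend φ y c), h1,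
    Finset.sum_const, Finset.card_univ, smul_eq_mul, mul_comm] at h3
  exact lt_irrefl _ h3

end Pool.Agent.H58.LG
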