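import Pool.Agent.H58.LG.Cq
import Mathlib.Combinatorics.Additive.AP.Three.Behrend

/-! Many edge-disjoint blocks such that every triangle lies in one block. -/

set_option autoImplicit false
set_option linter.unusedSectionVars false

namespace Pool.Agent.H58.LG

open Finset
open Pool.Agent.H25.NM (pre)

/-- strict convexity of the sphere -/
theorem sphere_convex {d r : ℕ} {x y z : Fin d → ℕ} (hx : ∑ i, x i ^ 2 = r)
    (hy : ∑ i, y i ^ 2 = r) (hz : ∑ i, z i ^ 2 = r) {α β : ℕ} (hα : 0 < α) (hβ : 0 < β)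
    (h : ∀ i, α * x i + β * y i = (α + β) * z i) : x = y ∧ y = z := by
  have hx' : ∑ i, (x i : ℤ) ^ 2 = r := by exact_mod_cast hx
  have hy' : ∑ i, (y i : ℤ) ^ 2 = r := by exact_mod_cast hy
  have hz' : ∑ i, (z i : ℤ) ^ 2 = r := by exact_mod_cast hz
  have h' : ∀ i, (α : ℤ) * x i + β * y i = (α + β) * z i := fun i => by exact_mod_cast h i
  have h1 : ∑ i, ((α : ℤ) * x i + β * y i) ^ 2 = (α + β) ^ 2 * r := by
    rw [← hz', Finset.mul_sum]
    exact Finset.sum_congr rfl fun i _ => by rw [h' i]; ring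
  have h2 : ∑ i, ((α : ℤ) * x i + β * y i) ^ 2 =
      α ^ 2 * r + β ^ 2 * r + 2 * α * β * ∑ i, (x i : ℤ) * y i := by
    rw [← hx', Finset.mul_sum, hx', ← hy', Finset.mul_sum, Finset.mul_sum,
      ← Finset.sum_add_distrib, ← Finset.sum_add_distrib]
    exact Finset.sum_congr rfl fun i _ => by ring
  have hαβ : (0 : ℤ) < α * β := by positivity
  have h3 : ∑ i, (x i : ℤ) * y i = r := by
    have : (2 * (α * β) : ℤ) * (∑ i, (x i : ℤ) * y i - r) = 0 := by linear_combination h1 - h2
    rcases mul_eq_zero.mp this with h4 | h4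
    · omega
    · linarith
  have h4 : ∑ i, ((x i : ℤ) - y i) ^ 2 = 0 := by
    have : ∑ i, ((x i : ℤ) - y i) ^ 2 = ∑ i, (x i : ℤ) ^ 2 + ∑ i, (y i : ℤ) ^ 2 -
        2 * ∑ i, (x i : ℤ) * y i := by
      rw [Finset.mul_sum, ← Finset.sum_add_distrib, ← Finset.sum_sub_distrib]
      exact Finset.sum_congr rfl fun i _ => by ring
    rw [this, hx', hy', h3]
    ring
  have h5 : x = y := by
    funext i
    have h6 := (Finset.sum_eq_zero_iff_of_nonneg fun i _ => sq_nonneg ((x i : ℤ) - y i)).mp h4 i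
      (Finset.mem_univ _)
    have h7 : (x i : ℤ) - y i = 0 := by
      rcases pow_eq_zero_iff (two_ne_zero) |>.mp h6 with h
      exact h
    omega
  refine ⟨h5, ?_⟩
  funext i
  have h6 := h i
  rw [h5, ← add_mul] at h6
  exact Nat.eq_of_mul_eq_mul_left (by omega) h6

/-- a large set of slopes without nontrivial convex combinations -/
theorem exists_slopes {w d : ℕ} (hw : 1 ≤ w) (hd : 2 ≤ d) :
    ∃ A : Finset ℕ, w ^ (d * (d - 2)) ≤ d * A.card ∧ (∀ a ∈ A, a < w ^ (d * (d + 1))) ∧
      ∀ a ∈ A, ∀ b ∈ A, ∀ c ∈ A, ∀ α β : ℕ, 0 < α → 0 < β → α + β < w →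
        α * a + β * b = (α + β) * c → a = b ∧ b = c := by
  classical
  obtain ⟨D, hD⟩ : ∃ D, D = w ^ d := ⟨_, rfl⟩
  have hD1 : 1 ≤ D := by
    rw [hD]
    exact Nat.one_le_pow _ _ hw
  obtain ⟨r, -, hr⟩ := Behrend.exists_large_sphere_aux d D
  obtain ⟨B, hB⟩ : ∃ B, B = w * D := ⟨_, rfl⟩
  have hBD : D ≤ B := by
    rw [hB]
    calc D = 1 * D := (one_mul D).symm
      _ ≤ w * D := Nat.mul_le_mul_right _ hw
  have hbox : ∀ x ∈ Behrend.sphere d D r, (∀ i, x i < D) ∧ ∑ i, x i ^ 2 = r := by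
    intro x hx
    unfold Behrend.sphere at hx
    rw [Finset.mem_filter] at hx
    exact ⟨Behrend.mem_box.mp hx.1, hx.2⟩
  have hinj : Set.InjOn (Behrend.map B) (Behrend.sphere d D r : Set (Fin d → ℕ)) := by
    refine Behrend.map_injOn.mono ?_
    intro x hx i
    exact ((hbox x (Finset.mem_coe.mp hx)).1 i).trans_le hBD
  have hlt : ∀ (m : ℕ) (x : Fin m → ℕ), (∀ i, x i < B) → Behrend.map B x < B ^ m := by
    intro m
    induction m with
    | zero =>
      intro x _
      rw [Behrend.map_zero, pow_zero]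
      exact Nat.one_pos
    | succ m ih =>
      intro x hx
      rw [Behrend.map_succ']
      have h1 := ih (x ∘ Fin.succ) fun i => hx _
      have h2 := hx 0
      calc x 0 + Behrend.map B (x ∘ Fin.succ) * B
          < B + Behrend.map B (x ∘ Fin.succ) * B := by omega
        _ = (Behrend.map B (x ∘ Fin.succ) + 1) * B := by ring
        _ ≤ B ^ m * B := Nat.mul_le_mul_right _ h1
        _ = B ^ (m + 1) := (pow_succ _ _).symm
  refine ⟨(Behrend.sphere d D r).image (Behrend.map B), ?_, ?_, ?_⟩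
  · rw [Finset.card_image_of_injOn hinj]
    have h1 : (D ^ d : ℕ) ≤ (Behrend.sphere d D r).card * (d * (D - 1) ^ 2 + 1) := by
      rw [div_le_iff₀ (by positivity)] at hr
      have h2 : ((D ^ d : ℕ) : ℝ) ≤
          (((Behrend.sphere d D r).card * (d * (D - 1) ^ 2 + 1) : ℕ) : ℝ) := by
        refine hr.trans (le_of_eq ?_)
        push_cast [Nat.cast_sub hD1]
        ring
      exact_mod_cast h2
    have h2 : d * (D - 1) ^ 2 + 1 ≤ d * D ^ 2 := by
      obtain ⟨E, rfl⟩ : ∃ E, D = E + 1 := ⟨D - 1, by omega⟩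
      rw [Nat.add_sub_cancel]
      nlinarith
    have h3 : D ^ (d - 2) * D ^ 2 ≤ d * (Behrend.sphere d D r).card * D ^ 2 := by
      calc D ^ (d - 2) * D ^ 2 = D ^ d := by
            rw [← pow_add]
            congr 1
            omega
        _ ≤ (Behrend.sphere d D r).card * (d * (D - 1) ^ 2 + 1) := h1
        _ ≤ (Behrend.sphere d D r).card * (d * D ^ 2) := Nat.mul_le_mul_left _ h2
        _ = _ := by ring
    have h4 := Nat.le_of_mul_le_mul_right h3 (by positivity)
    rw [hD, ← pow_mul] at h4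
    rw [hD]
    exact h4
  · intro a ha
    obtain ⟨x, hx, rfl⟩ := Finset.mem_image.mp ha
    have h1 := hlt d x fun i => ((hbox x hx).1 i).trans_le hBD
    refine h1.trans_le (le_of_eq ?_)
    rw [hB, hD, ← pow_succ', ← pow_mul, mul_comm]
  · intro a ha b hb c hc α β hα hβ hαβ habc
    obtain ⟨x, hx, rfl⟩ := Finset.mem_image.mp ha
    obtain ⟨y, hy, rfl⟩ := Finset.mem_image.mp hb
    obtain ⟨z, hz, rfl⟩ := Finset.mem_image.mp hc
    obtain ⟨hx1, hx2⟩ := hbox x hx
    obtain ⟨hy1, hy2⟩ := hbox y hy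
    obtain ⟨hz1, hz2⟩ := hbox z hz
    have h1 : Behrend.map B (α • x + β • y) = Behrend.map B ((α + β) • z) := by
      rw [map_add, map_nsmul, map_nsmul, map_nsmul, smul_eq_mul, smul_eq_mul, smul_eq_mul]
      exact habc
    have hdig : ∀ t : ℕ, t < D → ∀ c : ℕ, c < w → c * t < B := by
      intro t ht c hc
      rw [hB]
      exact Nat.mul_lt_mul'' hc ht
    have h2 := Behrend.map_injOn (show ∀ i, (α • x + β • y) i < B by
      intro i
      show α * x i + β * y i < B
      have h3 : max (x i) (y i) < D := max_lt (hx1 i) (hy1 i)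
      calc α * x i + β * y i ≤ α * max (x i) (y i) + β * max (x i) (y i) := by
            gcongr
            · exact le_max_left _ _
            · exact le_max_right _ _
        _ = (α + β) * max (x i) (y i) := by ring
        _ < B := hdig _ h3 _ hαβ) (show ∀ i, ((α + β) • z) i < B by
      intro i
      show (α + β) * z i < B
      exact hdig _ (hz1 i) _ hαβ) h1
    obtain ⟨h3, h4⟩ := sphere_convex hx2 hy2 hz2 hα hβ fun i => congrFun h2 i
    exact ⟨by rw [h3], by rw [h4]⟩

/-- blocks -/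
theorem exists_blocks_free {V : Type} [Fintype V] {n w d : ℕ} (hV : Fintype.card V ≤ w)
    (hw : 2 ≤ w) (hd : 2 ≤ d) (hdw : d ≤ w) (hn : w ^ (d ^ 2 + d + 3) ≤ n) :
    ∃ φ : Fin (w ^ (2 * d ^ 2 - d)) → V ↪ Fin n,
      (∀ i j u v u' v', u ≠ v → φ i u = φ j u' → φ i v = φ j v' → i = j) ∧
      (∀ i j l a a' b b' c c', φ i a = φ l a' → φ i b = φ j b' → φ j c = φ l c' →
        φ i a ≠ φ i b → φ i b ≠ φ j c → φ i a ≠ φ j c → i = j ∧ j = l) := by
  classical
  obtain ⟨A, hA1, hA2, hA3⟩ := exists_slopes (w := w) (d := d) (by omega) hd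
  obtain ⟨p, hp⟩ : ∃ p, p = w ^ (d * (d + 1)) * w := ⟨_, rfl⟩
  have hp0 : 0 < p := by rw [hp]; positivity
  -- coordinates
  let c : V → ℕ := fun v => (Fintype.equivFin V v).1
  have hc : Function.Injective c := fun u v huv =>
    (Fintype.equivFin V).injective (Fin.ext huv)
  have hcw : ∀ v, c v < w := fun v => (Fintype.equivFin V v).2.trans_le hV
  -- the points
  obtain ⟨e⟩ : Nonempty (V × Fin (2 * p) ↪ Fin n) := by
    rw [Function.Embedding.nonempty_iff_card_le, Fintype.card_prod, Fintype.card_fin,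
      Fintype.card_fin]
    calc Fintype.card V * (2 * p) ≤ w * (2 * p) := Nat.mul_le_mul_right _ hV
      _ ≤ w * (w * p) := by gcongr
      _ = w ^ (d ^ 2 + d + 3) := by
        rw [hp, show d ^ 2 + d + 3 = d * (d + 1) + 1 + 1 + 1 by ring, pow_succ, pow_succ,
          pow_succ]
        ring
      _ ≤ n := hn
  -- the lines
  obtain ⟨b⟩ : Nonempty (Fin (w ^ (2 * d ^ 2 - d)) ↪ A × Fin p) := by
    rw [Function.Embedding.nonempty_iff_card_le, Fintype.card_prod, Fintype.card_fin,
      Fintype.card_fin, Fintype.card_coe]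
    refine Nat.le_of_mul_le_mul_left ?_ (show 0 < d by omega)
    obtain ⟨d', rfl⟩ : ∃ d', d = d' + 2 := ⟨d - 2, by omega⟩
    have e1 : 2 * (d' + 2) ^ 2 - (d' + 2) = (d' + 2) * d' + (d' + 2) * (d' + 2 + 1) := by
      have : 2 * (d' + 2) ^ 2 = (d' + 2) * d' + (d' + 2) * (d' + 2 + 1) + (d' + 2) := by ring
      omega
    rw [Nat.add_sub_cancel] at hA1
    calc (d' + 2) * w ^ (2 * (d' + 2) ^ 2 - (d' + 2))
        ≤ w * w ^ (2 * (d' + 2) ^ 2 - (d' + 2)) := Nat.mul_le_mul_right _ hdw
      _ = w ^ ((d' + 2) * d') * (w ^ ((d' + 2) * (d' + 2 + 1)) * w) := by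
        rw [e1, pow_add]
        ring
      _ ≤ ((d' + 2) * A.card) * p := by
        rw [← hp]
        exact Nat.mul_le_mul_right _ hA1
      _ = _ := by ring
  have hrow : ∀ i v, ((b i).1 : ℕ) * c v + (b i).2.1 < 2 * p := by
    intro i v
    have h1 : ((b i).1 : ℕ) * c v < p := by
      have h0 : ((b i).1 : ℕ) * c v < w ^ (d * (d + 1)) * w :=
        Nat.mul_lt_mul'' (hA2 _ (b i).1.2) (hcw v)
      omega
    have h2 := (b i).2.2
    omega
  let φ : Fin (w ^ (2 * d ^ 2 - d)) → V ↪ Fin n := fun i =>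
    ⟨fun v => e (v, ⟨((b i).1 : ℕ) * c v + (b i).2.1, hrow i v⟩), fun u v huv =>
      (Prod.ext_iff.1 (e.injective huv)).1⟩
  have key : ∀ i j u v, φ i u = φ j v → u = v ∧
      ((b i).1 : ℕ) * c u + (b i).2.1 = ((b j).1 : ℕ) * c u + (b j).2.1 := by
    intro i j u v h
    have h1 := Prod.ext_iff.1 (e.injective h)
    obtain ⟨h2, h3⟩ := h1
    simp only at h2 h3
    subst h2
    exact ⟨rfl, congrArg Fin.val h3⟩
  have hline : ∀ i j u, ((b i).1 : ℕ) = (b j).1 →
      ((b i).1 : ℕ) * c u + (b i).2.1 = ((b j).1 : ℕ) * c u + (b j).2.1 → i = j := by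
    intro i j u h1 h2
    rw [h1] at h2
    exact b.injective (Prod.ext (Subtype.ext h1) (Fin.ext (by omega)))
  refine ⟨φ, ?_, ?_⟩
  · intro i j u v u' v' huv h1 h2
    obtain ⟨-, h3⟩ := key i j u u' h1
    obtain ⟨-, h4⟩ := key i j v v' h2
    refine hline i j u ?_ h3
    have h5 : (c u : ℤ) - c v ≠ 0 := by
      intro h
      exact huv (hc (by omega))
    have h3' : ((b i).1 : ℤ) * c u + (b i).2.1 = ((b j).1 : ℤ) * c u + (b j).2.1 := by
      exact_mod_cast h3
    have h4' : ((b i).1 : ℤ) * c v + (b i).2.1 = ((b j).1 : ℤ) * c v + (b j).2.1 := by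
      exact_mod_cast h4
    have h6 : (((b i).1 : ℤ) - (b j).1) * ((c u : ℤ) - c v) = 0 := by
      linear_combination h3' - h4'
    rcases mul_eq_zero.mp h6 with h7 | h7
    · have : ((b i).1 : ℤ) = (b j).1 := by linarith
      exact_mod_cast this
    · exact absurd h7 h5
  · intro i j l a a' b₁ b₁' c₁ c₁' h1 h2 h3 n1 n2 n3
    obtain ⟨-, g1⟩ := key i l a a' h1
    obtain ⟨rfl, g2⟩ := key i j b₁ b₁' h2
    obtain ⟨-, g3⟩ := key j l c₁ c₁' h3
    have m1 : a ≠ b₁ := fun h => n1 (by rw [h])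
    have m2 : b₁ ≠ c₁ := fun h => n2 (by rw [h2, h])
    have m3 : a ≠ c₁ := by
      rintro rfl
      obtain ⟨ha, -⟩ := key i l a a' h1
      obtain ⟨hc', -⟩ := key j l a c₁' h3
      exact n3 (by rw [h1, h3, ← ha, ← hc'])
    have k1 : c a ≠ c b₁ := fun h => m1 (hc h)
    have k2 : c b₁ ≠ c c₁ := fun h => m2 (hc h)
    have k3 : c a ≠ c c₁ := fun h => m3 (hc h)
    have w1 := hcw a
    have w2 := hcw b₁
    have w3 := hcw c₁
    have hAi := (b i).1.2
    have hAj := (b j).1.2
    have hAl := (b l).1.2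
    have g1' : ((b i).1 : ℤ) * c a + (b i).2.1 = ((b l).1 : ℤ) * c a + (b l).2.1 := by
      exact_mod_cast g1
    have g2' : ((b i).1 : ℤ) * c b₁ + (b i).2.1 = ((b j).1 : ℤ) * c b₁ + (b j).2.1 := by
      exact_mod_cast g2
    have g3' : ((b j).1 : ℤ) * c c₁ + (b j).2.1 = ((b l).1 : ℤ) * c c₁ + (b l).2.1 := by
      exact_mod_cast g3
    have hsum : ((b i).1 : ℤ) * (c a - c b₁) + (b j).1 * (c b₁ - c c₁) +
        (b l).1 * (c c₁ - c a) = 0 := by
      linear_combination g1' - g2' - g3'
    have hfin : ((b i).1 : ℕ) = (b j).1 ∧ ((b j).1 : ℕ) = (b l).1 := by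
      clear g1 g2 g3 g1' g2' g3'
      generalize ((b i).1 : ℕ) = p1 at *
      generalize ((b j).1 : ℕ) = p2 at *
      generalize ((b l).1 : ℕ) = p3 at *
      rcases lt_or_gt_of_ne k1 with q1 | q1
      · rcases lt_or_gt_of_ne k2 with q2 | q2
        · -- a < b < c
          have := hA3 p1 hAi p2 hAj p3 hAl (c b₁ - c a) (c c₁ - c b₁) (by omega) (by omega)
            (by omega) (by
              zify [q1.le, q2.le]
              linear_combination -hsum)
          exact this
        · rcases lt_or_gt_of_ne k3 with q3 | q3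
          · -- a < c < b
            have := hA3 p2 hAj p3 hAl p1 hAi (c b₁ - c c₁) (c c₁ - c a) (by omega) (by omega)
              (by omega) (by
                zify [q2.le, q3.le]
                linear_combination hsum)
            exact ⟨by rw [← this.2, this.1], this.1⟩
          · -- c < a < b
            have := hA3 p1 hAi p3 hAl p2 hAj (c b₁ - c a) (c a - c c₁) (by omega) (by omega)
              (by omega) (by
                zify [q1.le, q3.le]
                linear_combination -hsum)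
            exact ⟨this.1.trans this.2, this.2.symm⟩
      · rcases lt_or_gt_of_ne k2 with q2 | q2
        · rcases lt_or_gt_of_ne k3 with q3 | q3
          · -- b < a < c
            have := hA3 p1 hAi p3 hAl p2 hAj (c a - c b₁) (c c₁ - c a) (by omega) (by omega)
              (by omega) (by
                zify [q1.le, q3.le]
                linear_combination hsum)
            exact ⟨this.1.trans this.2, this.2.symm⟩
          · -- b < c < a
            have := hA3 p2 hAj p3 hAl p1 hAi (c c₁ - c b₁) (c a - c c₁) (by omega) (by omega)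
              (by omega) (by
                zify [q2.le, q3.le]
                linear_combination -hsum)
            exact ⟨by rw [← this.2, this.1], this.1⟩
        · -- c < b < a
          have := hA3 p1 hAi p2 hAj p3 hAl (c a - c b₁) (c b₁ - c c₁) (by omega) (by omega)
            (by omega) (by
              zify [q1.le, q2.le]
              linear_combination hsum)
          exact this
    exact ⟨hline i j b₁ hfin.1 g2, hline j l c₁ hfin.2 g3⟩

end Pool.Agent.H58.LG
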