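import Mathlib

/-! The moment inequality of Bonami for even exponents. -/

set_option autoImplicit false

namespace Pool.Agent.H58.LG

open Finset

theorem choose_two_mul (p j : ℕ) : (2 * p).choose (2 * j) ≤ p.choose j * (2 * p) ^ j := by
  induction j with
  | zero => simp
  | succ j ih =>
    rcases Nat.lt_or_ge j p with hj | hj
    · obtain ⟨e, rfl⟩ : ∃ e, p = j + 1 + e := ⟨p - (j + 1), by omega⟩
      have h1 := Nat.choose_succ_right_eq (2 * (j + 1 + e)) (2 * j)
      have h2 := Nat.choose_succ_right_eq (2 * (j + 1 + e)) (2 * j + 1)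
      have h3 := Nat.choose_succ_right_eq (j + 1 + e) j
      rw [show 2 * (j + 1 + e) - 2 * j = 2 * (e + 1) by omega] at h1
      rw [show 2 * (j + 1 + e) - (2 * j + 1) = 2 * e + 1 by omega] at h2
      rw [show (j + 1 + e) - j = e + 1 by omega] at h3
      rw [show 2 * (j + 1) = 2 * j + 1 + 1 by ring]
      set X := (2 * (j + 1 + e)).choose (2 * j + 1 + 1)
      set Y := (2 * (j + 1 + e)).choose (2 * j + 1)
      set Z := (2 * (j + 1 + e)).choose (2 * j)
      set C := (j + 1 + e).choose (j + 1)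
      set C0 := (j + 1 + e).choose j
      set q := (2 * (j + 1 + e)) ^ j with hq
      have h4 : X * (2 * j + 1) * (2 * j + 2) ≤ C * (2 * (j + 1 + e)) ^ (j + 1) * (2 * j + 2) := by
        calc X * (2 * j + 1) * (2 * j + 2) = (X * (2 * j + 1 + 1)) * (2 * j + 1) := by ring
          _ = Y * (2 * j + 1) * (2 * e + 1) := by rw [h2]; ring
          _ = Z * (2 * (e + 1)) * (2 * e + 1) := by rw [h1]
          _ ≤ (C0 * q) * (2 * (e + 1)) * (2 * e + 1) :=
            Nat.mul_le_mul_right _ (Nat.mul_le_mul_right _ ih)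
          _ = 2 * (C0 * (e + 1)) * q * (2 * e + 1) := by ring
          _ = (C * (2 * j + 2)) * q * (2 * e + 1) := by rw [← h3]; ring
          _ ≤ (C * (2 * j + 2)) * q * (2 * (j + 1 + e)) := Nat.mul_le_mul_left _ (by omega)
          _ = _ := by rw [hq, pow_succ]; ring
      have h5 := Nat.le_of_mul_le_mul_right h4 (by omega)
      calc X = X * 1 := (mul_one _).symm
        _ ≤ X * (2 * j + 1) := Nat.mul_le_mul_left _ (by omega)
        _ ≤ _ := h5
    · rw [Nat.choose_eq_zero_of_lt (by omega)]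
      exact Nat.zero_le _

theorem sum_range_even_odd (F : ℕ → ℝ) (p : ℕ) :
    ∑ i ∈ range (2 * p + 1), F i =
      ∑ j ∈ range (p + 1), F (2 * j) + ∑ j ∈ range p, F (2 * j + 1) := by
  induction p with
  | zero => simp
  | succ p ih =>
    rw [show 2 * (p + 1) + 1 = 2 * p + 1 + 1 + 1 by ring, Finset.sum_range_succ,
      Finset.sum_range_succ, ih, Finset.sum_range_succ (fun j => F (2 * j)) (p + 1),
      Finset.sum_range_succ (fun j => F (2 * j + 1)) p]
    rw [show 2 * p + 1 + 1 = 2 * (p + 1) by ring]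
    ring

/-- The two point inequality. -/
theorem two_point (p : ℕ) (a b : ℝ) :
    (a + b) ^ (2 * p) + (a - b) ^ (2 * p) ≤
      2 * ∑ j ∈ range (p + 1), (p.choose j : ℝ) * (2 * p) ^ j * ((a ^ 2) ^ (p - j) * (b ^ 2) ^ j) := by
  have e1 : ∀ b : ℝ, (a + b) ^ (2 * p) =
      ∑ j ∈ range (p + 1), a ^ (2 * p - 2 * j) * b ^ (2 * j) * ((2 * p).choose (2 * j) : ℝ) +
      ∑ j ∈ range p, a ^ (2 * p - (2 * j + 1)) * b ^ (2 * j + 1) *
        ((2 * p).choose (2 * j + 1) : ℝ) := by
    intro b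
    rw [add_comm a b, add_pow, sum_range_even_odd]
    congr 1
    · exact Finset.sum_congr rfl fun j _ => by ring
    · exact Finset.sum_congr rfl fun j _ => by ring
  have e2 := e1 (-b)
  rw [← sub_eq_add_neg] at e2
  rw [e1 b, e2]
  have e3 : ∑ j ∈ range p, a ^ (2 * p - (2 * j + 1)) * (-b) ^ (2 * j + 1) *
        ((2 * p).choose (2 * j + 1) : ℝ) = - ∑ j ∈ range p, a ^ (2 * p - (2 * j + 1)) *
        b ^ (2 * j + 1) * ((2 * p).choose (2 * j + 1) : ℝ) := by
    rw [← Finset.sum_neg_distrib]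
    refine Finset.sum_congr rfl fun j _ => ?_
    rw [Odd.neg_pow ⟨j, rfl⟩]
    ring
  have e4 : ∑ j ∈ range (p + 1), a ^ (2 * p - 2 * j) * (-b) ^ (2 * j) *
      ((2 * p).choose (2 * j) : ℝ) = ∑ j ∈ range (p + 1), a ^ (2 * p - 2 * j) * b ^ (2 * j) *
      ((2 * p).choose (2 * j) : ℝ) := by
    refine Finset.sum_congr rfl fun j _ => ?_
    rw [Even.neg_pow (even_two_mul j)]
  rw [e3, e4]
  have e5 : ∑ j ∈ range (p + 1), a ^ (2 * p - 2 * j) * b ^ (2 * j) * ((2 * p).choose (2 * j) : ℝ) ≤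
      ∑ j ∈ range (p + 1), (p.choose j : ℝ) * (2 * p) ^ j * ((a ^ 2) ^ (p - j) * (b ^ 2) ^ j) := by
    refine Finset.sum_le_sum fun j hj => ?_
    have hj' : j ≤ p := Nat.lt_succ_iff.mp (Finset.mem_range.mp hj)
    have h1 : ((2 * p).choose (2 * j) : ℝ) ≤ (p.choose j : ℝ) * (2 * p) ^ j := by
      exact_mod_cast choose_two_mul p j
    have h2 : a ^ (2 * p - 2 * j) * b ^ (2 * j) = (a ^ 2) ^ (p - j) * (b ^ 2) ^ j := by
      rw [← pow_mul, ← pow_mul, ← Nat.mul_sub]
    rw [h2]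
    have h3 : 0 ≤ (a ^ 2) ^ (p - j) * (b ^ 2) ^ j := by positivity
    calc (a ^ 2) ^ (p - j) * (b ^ 2) ^ j * ((2 * p).choose (2 * j) : ℝ)
        ≤ (a ^ 2) ^ (p - j) * (b ^ 2) ^ j * ((p.choose j : ℝ) * (2 * p) ^ j) :=
          mul_le_mul_of_nonneg_left h1 h3
      _ = _ := by ring
  linarith

/-- AM-GM. -/
theorem amgm {p j : ℕ} (hj : j ≤ p) (hp : 0 < p) {x y : ℝ} (hx : 0 ≤ x) (hy : 0 ≤ y) :
    x ^ (p - j) * y ^ j ≤ ((p : ℝ) - j) / p * x ^ p + (j : ℝ) / p * y ^ p := by
  have hp' : (0 : ℝ) < p := by exact_mod_cast hp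
  have hjp : (j : ℝ) ≤ p := by exact_mod_cast hj
  have h := Real.geom_mean_le_arith_mean2_weighted (w₁ := ((p : ℝ) - j) / p) (w₂ := (j : ℝ) / p)
    (p₁ := x ^ p) (p₂ := y ^ p) (by apply div_nonneg _ hp'.le; linarith) (by positivity)
    (by positivity) (by positivity) (by field_simp; ring)
  have h1 : (x ^ p) ^ (((p : ℝ) - j) / p) = x ^ (p - j) := by
    rw [← Real.rpow_natCast x p, ← Real.rpow_mul hx, mul_div_cancel₀ _ hp'.ne',
      ← Nat.cast_sub hj, Real.rpow_natCast]
  have h2 : (y ^ p) ^ ((j : ℝ) / p) = y ^ j := by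
    rw [← Real.rpow_natCast y p, ← Real.rpow_mul hy, mul_div_cancel₀ _ hp'.ne', Real.rpow_natCast]
  rw [h1, h2] at h
  exact h

/-- Hölder's inequality. -/
theorem holder {Ω : Type*} (s : Finset Ω) {p j : ℕ} (hj : j ≤ p) (G H : Ω → ℝ)
    (hG : ∀ ω, 0 ≤ G ω) (hH : ∀ ω, 0 ≤ H ω) {W a b : ℝ} (hW : 0 ≤ W) (ha : 0 ≤ a) (hb : 0 ≤ b)
    (h1 : ∑ ω ∈ s, G ω ^ p ≤ W * a ^ p) (h2 : ∑ ω ∈ s, H ω ^ p ≤ W * b ^ p) :
    ∑ ω ∈ s, G ω ^ (p - j) * H ω ^ j ≤ W * (a ^ (p - j) * b ^ j) := by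
  rcases Nat.eq_zero_or_pos p with hp | hp
  · subst hp
    have : j = 0 := by omega
    subst this
    simpa using h1
  rcases Nat.eq_zero_or_pos j with hj0 | hj0
  · subst hj0
    simpa using h1
  rcases hj.eq_or_lt with hjp | hjp
  · subst hjp
    simpa using h2
  have hzero : ∀ (F : Ω → ℝ) (c : ℝ), (∀ ω, 0 ≤ F ω) → ∑ ω ∈ s, F ω ^ p ≤ W * c ^ p → c = 0 →
      ∀ ω ∈ s, F ω = 0 := by
    intro F c hF h hc ω hω
    rw [hc, zero_pow (by omega), mul_zero] at h
    have h3 := (Finset.sum_eq_zero_iff_of_nonneg fun ω _ => pow_nonneg (hF ω) p).mp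
      (le_antisymm h (Finset.sum_nonneg fun ω _ => pow_nonneg (hF ω) p)) ω hω
    exact (pow_eq_zero_iff (by omega)).mp h3
  rcases ha.eq_or_lt with ha0 | ha0
  · have : ∑ ω ∈ s, G ω ^ (p - j) * H ω ^ j = 0 := by
      refine Finset.sum_eq_zero fun ω hω => ?_
      rw [hzero G a hG h1 ha0.symm ω hω, zero_pow (by omega), zero_mul]
    rw [this]
    positivity
  rcases hb.eq_or_lt with hb0 | hb0
  · have : ∑ ω ∈ s, G ω ^ (p - j) * H ω ^ j = 0 := by
      refine Finset.sum_eq_zero fun ω hω => ?_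
      rw [hzero H b hH h2 hb0.symm ω hω, zero_pow (by omega), mul_zero]
    rw [this]
    positivity
  have hp' : (0 : ℝ) < p := by exact_mod_cast hp
  have hjp' : (j : ℝ) ≤ p := by exact_mod_cast hj
  have h3 : ∀ ω ∈ s, G ω ^ (p - j) * H ω ^ j ≤ (a ^ (p - j) * b ^ j) *
      (((p : ℝ) - j) / p * ((G ω ^ p) / a ^ p) + (j : ℝ) / p * ((H ω ^ p) / b ^ p)) := by
    intro ω _
    have h4 := amgm hj hp (div_nonneg (hG ω) ha0.le) (div_nonneg (hH ω) hb0.le)
    rw [div_pow, div_pow, div_pow, div_pow] at h4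
    have h5 : G ω ^ (p - j) * H ω ^ j = (a ^ (p - j) * b ^ j) *
        (G ω ^ (p - j) / a ^ (p - j) * (H ω ^ j / b ^ j)) := by
      field_simp
    rw [h5]
    exact mul_le_mul_of_nonneg_left h4 (by positivity)
  refine (Finset.sum_le_sum h3).trans ?_
  rw [← Finset.mul_sum, Finset.sum_add_distrib, ← Finset.mul_sum, ← Finset.mul_sum,
    ← Finset.sum_div, ← Finset.sum_div]
  have h6 : (∑ ω ∈ s, G ω ^ p) / a ^ p ≤ W := by
    rw [div_le_iff₀ (by positivity)]
    exact h1
  have h7 : (∑ ω ∈ s, H ω ^ p) / b ^ p ≤ W := by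
    rw [div_le_iff₀ (by positivity)]
    exact h2
  have h8 : ((p : ℝ) - j) / p * ((∑ ω ∈ s, G ω ^ p) / a ^ p) +
      (j : ℝ) / p * ((∑ ω ∈ s, H ω ^ p) / b ^ p) ≤ W := by
    calc ((p : ℝ) - j) / p * ((∑ ω ∈ s, G ω ^ p) / a ^ p) +
      (j : ℝ) / p * ((∑ ω ∈ s, H ω ^ p) / b ^ p) ≤ ((p : ℝ) - j) / p * W + (j : ℝ) / p * W :=
          add_le_add (mul_le_mul_of_nonneg_left h6 (div_nonneg (by linarith) hp'.le))
            (mul_le_mul_of_nonneg_left h7 (by positivity))
      _ = W := by field_simp; ring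
  calc a ^ (p - j) * b ^ j * (((p : ℝ) - j) / p * ((∑ ω ∈ s, G ω ^ p) / a ^ p) +
      (j : ℝ) / p * ((∑ ω ∈ s, H ω ^ p) / b ^ p)) ≤ a ^ (p - j) * b ^ j * W :=
        mul_le_mul_of_nonneg_left h8 (by positivity)
    _ = _ := by ring

section bonami

variable {ν : Type*} [Fintype ν] [DecidableEq ν]

/-- the sign of a bit -/
def sg (b : Bool) : ℝ := if b then -1 else 1

theorem sg_not (b : Bool) : sg (!b) = - sg b := by
  cases b <;> simp [sg]

theorem sg_sq (b : Bool) : sg b * sg b = 1 := by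
  cases b <;> simp [sg]

/-- the polynomial with coefficients `c` over the subsets of `U` -/
def pol (U : Finset ν) (c : Finset ν → ℝ) (r : ν → Bool) : ℝ :=
  ∑ A ∈ U.powerset, c A * ∏ v ∈ A, sg (r v)

/-- its weighted norm -/
def wn (p : ℕ) (U : Finset ν) (c : Finset ν → ℝ) : ℝ :=
  ∑ A ∈ U.powerset, (2 * p : ℝ) ^ A.card * c A ^ 2

theorem wn_nonneg (p : ℕ) (U : Finset ν) (c : Finset ν → ℝ) : 0 ≤ wn p U c :=
  Finset.sum_nonneg fun A _ => by positivity

theorem pol_insert {v : ν} {U : Finset ν} (hv : v ∉ U) (c : Finset ν → ℝ) (r : ν → Bool) :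
    pol (insert v U) c r = pol U c r + sg (r v) * pol U (fun A => c (insert v A)) r := by
  unfold pol
  rw [Finset.sum_powerset_insert hv, Finset.mul_sum]
  congr 1
  refine Finset.sum_congr rfl fun A hA => ?_
  have hvA : v ∉ A := fun h => hv (Finset.mem_powerset.mp hA h)
  rw [Finset.prod_insert hvA]
  ring

theorem wn_insert {v : ν} {U : Finset ν} (hv : v ∉ U) (p : ℕ) (c : Finset ν → ℝ) :
    wn p (insert v U) c = wn p U c + 2 * p * wn p U (fun A => c (insert v A)) := by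
  unfold wn
  rw [Finset.sum_powerset_insert hv, Finset.mul_sum]
  congr 1
  refine Finset.sum_congr rfl fun A hA => ?_
  have hvA : v ∉ A := fun h => hv (Finset.mem_powerset.mp hA h)
  rw [Finset.card_insert_of_notMem hvA]
  ring

theorem pol_flip {v : ν} {U : Finset ν} (hv : v ∉ U) (c : Finset ν → ℝ) (r : ν → Bool) (b : Bool) :
    pol U c (Function.update r v b) = pol U c r := by
  unfold pol
  refine Finset.sum_congr rfl fun A hA => ?_
  congr 1
  refine Finset.prod_congr rfl fun w hw => ?_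
  rw [Function.update_of_ne]
  rintro rfl
  exact hv (Finset.mem_powerset.mp hA hw)

/-- Bonami's inequality. -/
theorem bonami (p : ℕ) (U : Finset ν) : ∀ c : Finset ν → ℝ,
    ∑ r : ν → Bool, pol U c r ^ (2 * p) ≤ 2 ^ Fintype.card ν * wn p U c ^ p := by
  induction U using Finset.induction_on with
  | empty =>
    intro c
    have h1 : ∀ r : ν → Bool, pol ∅ c r ^ (2 * p) = (c ∅ ^ 2) ^ p := by
      intro r
      unfold pol
      rw [Finset.powerset_empty, Finset.sum_singleton, Finset.prod_empty, mul_one, pow_mul]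
    have h2 : wn p ∅ c = c ∅ ^ 2 := by
      unfold wn
      rw [Finset.powerset_empty, Finset.sum_singleton, Finset.card_empty, pow_zero, one_mul]
    simp only [h1, h2, Finset.sum_const, Finset.card_univ, Fintype.card_fun, Fintype.card_bool,
      nsmul_eq_mul]
    push_cast
    exact le_rfl
  | insert v U hv ih =>
    intro c
    obtain ⟨g, hg⟩ : ∃ g, g = pol U c := ⟨_, rfl⟩
    obtain ⟨h, hh⟩ : ∃ h, h = pol U (fun A => c (insert v A)) := ⟨_, rfl⟩
    have ihg := ih c
    have ihh := ih (fun A => c (insert v A))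
    rw [← hg] at ihg
    rw [← hh] at ihh
    have hflip : ∑ r : ν → Bool, pol (insert v U) c r ^ (2 * p) =
        ∑ r : ν → Bool, (g r - sg (r v) * h r) ^ (2 * p) := by
      refine Finset.sum_nbij' (fun r => Function.update r v (!r v))
        (fun r => Function.update r v (!r v)) (fun _ _ => Finset.mem_univ _)
        (fun _ _ => Finset.mem_univ _) (fun r _ => ?_) (fun r _ => ?_) (fun r _ => ?_)
      · simp
      · simp
      · simp only [Function.update_self]
        rw [pol_insert hv, sg_not, ← hg, ← hh]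
        have e1 : g (Function.update r v (!r v)) = g r := by rw [hg]; exact pol_flip hv _ _ _
        have e2 : h (Function.update r v (!r v)) = h r := by rw [hh]; exact pol_flip hv _ _ _
        rw [e1, e2]
        ring
    have h1 : 2 * ∑ r : ν → Bool, pol (insert v U) c r ^ (2 * p) ≤
        ∑ r : ν → Bool, 2 * ∑ j ∈ range (p + 1), (p.choose j : ℝ) * (2 * p) ^ j *
          ((g r ^ 2) ^ (p - j) * (h r ^ 2) ^ j) := by
      have e : 2 * ∑ r : ν → Bool, pol (insert v U) c r ^ (2 * p) =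
          ∑ r : ν → Bool, ((g r + sg (r v) * h r) ^ (2 * p) +
            (g r - sg (r v) * h r) ^ (2 * p)) := by
        rw [Finset.sum_add_distrib, ← hflip, two_mul]
        congr 1
        refine Finset.sum_congr rfl fun r _ => ?_
        rw [pol_insert hv, ← hg, ← hh]
      rw [e]
      refine Finset.sum_le_sum fun r _ => ?_
      refine (two_point p (g r) (sg (r v) * h r)).trans (le_of_eq ?_)
      congr 1
      refine Finset.sum_congr rfl fun j _ => ?_
      congr 3
      have := sg_sq (r v)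
      calc (sg (r v) * h r) ^ 2 = (sg (r v) * sg (r v)) * h r ^ 2 := by ring
        _ = h r ^ 2 := by rw [this, one_mul]
    rw [← Finset.mul_sum] at h1
    have h2 : ∑ r : ν → Bool, pol (insert v U) c r ^ (2 * p) ≤
        ∑ r : ν → Bool, ∑ j ∈ range (p + 1), (p.choose j : ℝ) * (2 * p) ^ j *
          ((g r ^ 2) ^ (p - j) * (h r ^ 2) ^ j) := by linarith
    refine h2.trans ?_
    rw [Finset.sum_comm, wn_insert hv]
    have h3 : ∀ j ∈ range (p + 1), ∑ r : ν → Bool, (p.choose j : ℝ) * (2 * p) ^ j *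
          ((g r ^ 2) ^ (p - j) * (h r ^ 2) ^ j) ≤ (p.choose j : ℝ) * (2 * p) ^ j *
          (2 ^ Fintype.card ν * (wn p U c ^ (p - j) * wn p U (fun A => c (insert v A)) ^ j)) := by
      intro j hj
      have hj' : j ≤ p := Nat.lt_succ_iff.mp (Finset.mem_range.mp hj)
      rw [← Finset.mul_sum]
      refine mul_le_mul_of_nonneg_left ?_ (by positivity)
      refine holder univ hj' (fun r => g r ^ 2) (fun r => h r ^ 2) (fun _ => sq_nonneg _)
        (fun _ => sq_nonneg _) (by positivity) (wn_nonneg _ _ _) (wn_nonneg _ _ _) ?_ ?_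
      · simp only [← pow_mul]
        exact ihg
      · simp only [← pow_mul]
        exact ihh
    refine (Finset.sum_le_sum h3).trans (le_of_eq ?_)
    rw [add_comm (wn p U c), add_pow, Finset.mul_sum]
    refine Finset.sum_congr rfl fun j _ => ?_
    ring

end bonami

end Pool.Agent.H58.LG
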