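import Pool.Agent.H58.LG.Blk
import Pool.Agent.H58.LG.Cq

/-! Chains of graphs along which every step is detected. -/

set_option autoImplicit false
set_option linter.unusedSectionVars false

namespace Pool.Agent.H58.LG

open Finset
open Pool.Agent.H25.NM (nc nc_eq nc_congr nc_mono nc_le_card nc_false nc_true nc_bex_le nc_update
  pre pre_mono pre_succ pre_update)

variable {ι α γ : Type} [Fintype ι] [DecidableEq ι] [Fintype α] [DecidableEq α] [Fintype γ]
  [DecidableEq γ]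

/-- The clique on a transversal. -/
def tq (x : ι → α) : SimpleGraph (ι × α) where
  Adj v w := v ≠ w ∧ v.2 = x v.1 ∧ w.2 = x w.1
  symm := ⟨fun _ _ h => ⟨h.1.symm, h.2.2, h.2.1⟩⟩
  loopless := ⟨fun _ h => h.1 rfl⟩

variable {n n₀ s R u l : ℕ} {ε : ℝ}

/-- the block lemma for embedded blocks -/
theorem block_map (hα : Fintype.card α = 2 ^ (10 * u))
    (hu : 10 ≤ u) (hl : 2 ≤ l) (hk : 5 * Fintype.card ι ≤ 2 ^ u)
    (hkl : 2 * l + 2 ≤ Fintype.card ι) (hq : 34 * l + 22 ≤ Fintype.card γ)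
    (hs : s ≤ (2 ^ u) ^ l) (hN : R + 1 + 2 * s ≤ (2 ^ u) ^ l) (hε : 1 ≤ ε * ((2 : ℝ) ^ u) ^ l)
    (f : Fin s → SimpleGraph (Fin n) → Prop) (hf : ∀ i, Plain R ε f i) (o : Fin s)
    (W : SimpleGraph (Fin n)) (e : Fin n₀ ↪ Fin n) (φ : ι × α ↪ Fin n₀)
    (G : SimpleGraph (Fin n₀))
    (hX : 2 * Fintype.card (ι → α) ≤
      nc (fun x => f o (W ⊔ (G ⊔ (tq x).map φ).map e)) * ((2 : ℝ) ^ u) ^ 4) :
    nc (fun y : ι → α → γ => ¬ f o (W ⊔ (G ⊔ (mp y).map φ).map e)) *
      2 ^ (2 ^ (2 * u - 5)) < Fintype.card (ι → α → γ) := by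
  by_contra hcon
  push Not at hcon
  refine block f hf hα hu hl hk hkl hq hs hN hε
    (fun x => W ⊔ (G ⊔ (tq x).map φ).map e) (fun y => W ⊔ (G ⊔ (mp y).map φ).map e) ?_ o hX
    (by exact_mod_cast hcon)
  intro x v w hvw
  rw [SimpleGraph.sup_adj] at hvw
  rcases hvw with hvw | hvw
  · exact ⟨∅, by simp, fun y hy => absurd (Or.inl hvw) hy⟩
  · rw [SimpleGraph.map_adj] at hvw
    obtain ⟨v', w', hvw', rfl, rfl⟩ := hvw
    rw [SimpleGraph.sup_adj] at hvw'
    rcases hvw' with hvw' | hvw'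
    · refine ⟨∅, by simp, fun y hy => absurd (Or.inr ?_) hy⟩
      rw [SimpleGraph.map_adj]
      exact ⟨v', w', Or.inl hvw', rfl, rfl⟩
    · rw [SimpleGraph.map_adj] at hvw'
      obtain ⟨a, b, hab, rfl, rfl⟩ := hvw'
      obtain ⟨h1, h2, h3⟩ := hab
      have hne : a.1 ≠ b.1 := by
        intro h
        refine h1 (Prod.ext h ?_)
        rw [h2, h3, h]
      refine ⟨{a.1, b.1}, Finset.card_le_two, fun y hy hinj => ?_⟩
      refine hne (hinj (by simp) (by simp) ?_)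
      by_contra hz
      refine hy (Or.inr ?_)
      rw [SimpleGraph.map_adj]
      refine ⟨φ a, φ b, Or.inr ?_, rfl, rfl⟩
      rw [SimpleGraph.map_adj]
      refine ⟨a, b, ?_, rfl, rfl⟩
      show y a.1 a.2 ≠ y b.1 b.2
      rw [h2, h3]
      exact hz

/-- **Chain theorem.** -/
theorem chain (hα : Fintype.card α = 2 ^ (10 * u))
    (hu : 10 ≤ u) (hl : 2 ≤ l) (hk : 5 * Fintype.card ι ≤ 2 ^ u)
    (hkl : 2 * l + 2 ≤ Fintype.card ι) (hq : 34 * l + 22 ≤ Fintype.card γ)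
    (hs : s ≤ (2 ^ u) ^ l) (hN : R + 1 + 2 * s ≤ (2 ^ u) ^ l) (hε : 1 ≤ ε * ((2 : ℝ) ^ u) ^ l)
    (W : SimpleGraph (Fin n)) (e : Fin n₀ ↪ Fin n) {J : ℕ} (φ : Fin J → ι × α ↪ Fin n₀)
    (F : SimpleGraph (Fin n₀) → SimpleGraph (Fin n₀) → Prop)
    (hF : ∀ G, ∃ (f : Fin s → SimpleGraph (Fin n) → Prop) (o : Fin s), (∀ i, Plain R ε f i) ∧
      ∀ H, G ≤ H → (f o (W ⊔ H.map e) ↔ F G H))
    (good : SimpleGraph (Fin n₀) → Prop) (hmono : ∀ x y, x ≤ y → good y → good x)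
    (hgood : ∀ (j : Fin J) (x : ι → α) (G : SimpleGraph (Fin n₀)), good G →
      F G (G ⊔ (tq x).map (φ j)))
    (hhalf : Fintype.card (Fin J → (ι → α → γ)) ≤
      2 * nc (fun ω : Fin J → (ι → α → γ) => good (pre φ mp ω J)))
    (hJ : 2 * J < 2 ^ (2 ^ (2 * u - 5))) :
    ∃ ω : Fin J → (ι → α → γ), good (pre φ mp ω J) ∧
      ∀ j : Fin J, F (pre φ mp ω j.1) (pre φ mp ω (j.1 + 1)) := by
  classical
  by_contra hcon
  push Not at hcon
  have hγ : Nonempty γ := Fintype.card_pos_iff.mp (by omega)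
  obtain ⟨K, hK⟩ : ∃ K, K = Fintype.card (Fin J → (ι → α → γ)) := ⟨_, rfl⟩
  obtain ⟨Ω, hΩ⟩ : ∃ Ω, Ω = Fintype.card (ι → α → γ) := ⟨_, rfl⟩
  obtain ⟨Z, hZ⟩ : ∃ Z, Z = 2 ^ (2 ^ (2 * u - 5)) := ⟨_, rfl⟩
  have hK0 : 0 < K := by
    rw [hK]
    have : Nonempty (Fin J → (ι → α → γ)) := ⟨fun _ _ _ => hγ.some⟩
    exact Fintype.card_pos
  have hΩ0 : 0 < Ω := by
    rw [hΩ]
    have : Nonempty (ι → α → γ) := ⟨fun _ _ => hγ.some⟩
    exact Fintype.card_pos
  rw [← hK] at hhalf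
  rw [← hZ] at hJ
  -- one block
  have hone : ∀ (j : Fin J) (G : SimpleGraph (Fin n₀)), good G →
      Z * nc (fun y : ι → α → γ => ¬ F G (G ⊔ (mp y).map (φ j))) ≤ Ω := by
    intro j G hG
    obtain ⟨f, o, hf, hfF⟩ := hF G
    have h1 := block_map (γ := γ) hα hu hl hk hkl hq hs hN hε f hf o W e (φ j) G (by
      rw [nc_true fun x => (hfF _ le_sup_left).mpr (hgood j x G hG), mul_comm (2 : ℝ)]
      refine mul_le_mul_of_nonneg_left ?_ (by positivity)
      calc (2 : ℝ) = 2 ^ 1 := by norm_num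
        _ ≤ 2 ^ (u * 4) := pow_le_pow_right₀ (by norm_num) (by omega)
        _ = (2 ^ u) ^ 4 := pow_mul _ _ _)
    rw [← hZ, ← hΩ, nc_congr fun y => not_congr (hfF _ le_sup_left), mul_comm] at h1
    exact h1.le
  -- one step
  have hstep : ∀ j : Fin J, Z * nc (fun ω : Fin J → (ι → α → γ) => good (pre φ mp ω J) ∧
      ¬ F (pre φ mp ω j.1) (pre φ mp ω (j.1 + 1))) ≤ K := by
    intro j
    have h1 := nc_update j fun ω : Fin J → (ι → α → γ) => good (pre φ mp ω J) ∧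
      ¬ F (pre φ mp ω j.1) (pre φ mp ω (j.1 + 1))
    rw [← hΩ] at h1
    refine Nat.le_of_mul_le_mul_left ?_ hΩ0
    calc Ω * (Z * nc (fun ω : Fin J → (ι → α → γ) => good (pre φ mp ω J) ∧
          ¬ F (pre φ mp ω j.1) (pre φ mp ω (j.1 + 1))))
        = Z * (Ω * nc (fun ω : Fin J → (ι → α → γ) => good (pre φ mp ω J) ∧
          ¬ F (pre φ mp ω j.1) (pre φ mp ω (j.1 + 1)))) := by ring
      _ = ∑ ω : Fin J → (ι → α → γ), Z * nc (fun y : ι → α → γ =>
          good (pre φ mp (Function.update ω j y) J) ∧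
          ¬ F (pre φ mp (Function.update ω j y) j.1)
            (pre φ mp (Function.update ω j y) (j.1 + 1))) := by
          rw [h1, Finset.mul_sum]
      _ ≤ ∑ ω : Fin J → (ι → α → γ), Ω := by
          refine Finset.sum_le_sum fun ω _ => ?_
          by_cases hG : good (pre φ mp ω j.1)
          · refine le_trans (Nat.mul_le_mul_left _ (nc_mono fun y hy => ?_))
              (hone j (pre φ mp ω j.1) hG)
            obtain ⟨-, hy⟩ := hy
            rw [pre_succ, pre_update, Function.update_self] at hy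
            exact hy
          · rw [nc_false, mul_zero]
            · exact Nat.zero_le _
            · intro y hy
              refine hG ?_
              have h2 := hmono _ _ (pre_mono (φ := φ) (R := mp) (Function.update ω j y)
                (le_of_lt j.2)) hy.1
              rwa [pre_update] at h2
      _ = Ω * K := by
          rw [Finset.sum_const, Finset.card_univ, smul_eq_mul, ← hK, mul_comm]
  -- all steps
  have hall : nc (fun ω : Fin J → (ι → α → γ) => good (pre φ mp ω J)) ≤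
      ∑ j : Fin J, nc (fun ω : Fin J → (ι → α → γ) => good (pre φ mp ω J) ∧
        ¬ F (pre φ mp ω j.1) (pre φ mp ω (j.1 + 1))) := by
    refine le_trans (nc_mono fun ω hω => ?_) (nc_bex_le _ _)
    obtain ⟨j, hj⟩ := hcon ω hω
    exact ⟨j, Finset.mem_univ _, hω, hj⟩
  have h1 : Z * K ≤ 2 * J * K := by
    calc Z * K ≤ Z * (2 * nc (fun ω : Fin J → (ι → α → γ) => good (pre φ mp ω J))) :=
          Nat.mul_le_mul_left _ hhalf
      _ ≤ Z * (2 * ∑ j : Fin J, nc (fun ω : Fin J → (ι → α → γ) => good (pre φ mp ω J) ∧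
          ¬ F (pre φ mp ω j.1) (pre φ mp ω (j.1 + 1)))) := by gcongr
      _ = 2 * ∑ j : Fin J, Z * nc (fun ω : Fin J → (ι → α → γ) => good (pre φ mp ω J) ∧
          ¬ F (pre φ mp ω j.1) (pre φ mp ω (j.1 + 1))) := by
          rw [← Finset.mul_sum]
          ring
      _ ≤ 2 * ∑ _j : Fin J, K := by
          gcongr with j
          exact hstep j
      _ = 2 * J * K := by
          rw [Finset.sum_const, Finset.card_univ, Fintype.card_fin, smul_eq_mul]
          ring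
  have h2 := Nat.le_of_mul_le_mul_right h1 hK0
  omega

end Pool.Agent.H58.LG
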