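import Pool.Agent.H58.LG.Blk

/-! Circuits with linear programming gates and arbitrary special gates. -/

set_option autoImplicit false
set_option linter.unusedSectionVars false

namespace Pool.Agent.H58.LG

open Finset

variable {n s R : ℕ} {ε : ℝ}

/-- tests of adjacency and linear programming gates -/
def Circuit.IsPlain (C : Circuit n s R ε) (i : Fin s) : Prop :=
  (∃ u v, ∀ G, C.fn i G ↔ G.Adj u v) ∨
  (∃ P : Program (Fin s), P.num ≤ R ∧ P.Margin (C.ins i) ε ∧
    ∀ G, C.fn i G ↔ P.Accepts (C.ins i) fun j => C.fn j G)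

/-- The special gates that are not of one of the other kinds. -/
noncomputable def Circuit.proper (C : Circuit n s R ε) : Finset (Fin s) :=
  @Finset.filter _ (fun i => ¬ C.IsPlain i) (Classical.decPred _) C.special

theorem Circuit.mem_proper {C : Circuit n s R ε} {i : Fin s} :
    i ∈ C.proper ↔ i ∈ C.special ∧ ¬ C.IsPlain i := by
  unfold Circuit.proper
  simp only [Finset.mem_filter]

theorem Circuit.plain_or (C : Circuit n s R ε) (hε : ε ≤ 1) (i : Fin s) :
    C.IsPlain i ∨ (i ∈ C.special ∧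
      ∀ G H, (∀ j ∈ C.ins i, C.fn j G ↔ C.fn j H) → (C.fn i G ↔ C.fn i H)) := by
  rcases C.gate i with h | h | h | h | h
  · exact Or.inl (Or.inl h)
  · obtain ⟨P, h1, h2, h3⟩ := exists_and (C.ins i)
    exact Or.inl (Or.inr ⟨P, by omega, h2.mono hε, fun G => (h G).trans (h3 _).symm⟩)
  · obtain ⟨P, h1, h2, h3⟩ := exists_or (C.ins i)
    exact Or.inl (Or.inr ⟨P, by omega, h2.mono hε, fun G => (h G).trans (h3 _).symm⟩)
  · exact Or.inl (Or.inr h)
  · exact Or.inr h

theorem Circuit.plain_or_proper (C : Circuit n s R ε) (hε : ε ≤ 1) (i : Fin s) :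
    C.IsPlain i ∨ i ∈ C.proper := by
  by_cases h : C.IsPlain i
  · exact Or.inl h
  · rcases C.plain_or hε i with h' | h'
    · exact Or.inl h'
    · exact Or.inr (Circuit.mem_proper.2 ⟨h'.1, h⟩)

theorem Circuit.proper_spec {C : Circuit n s R ε} (hε : ε ≤ 1) {i : Fin s} (hi : i ∈ C.proper) :
    ∀ G H, (∀ j ∈ C.ins i, C.fn j G ↔ C.fn j H) → (C.fn i G ↔ C.fn i H) := by
  rcases C.plain_or hε i with h | h
  · exact absurd h (Circuit.mem_proper.1 hi).2
  · exact h.2

theorem Circuit.ins_subset {C : Circuit n s R ε} {i : Fin s} (hi : i ∈ C.special) :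
    C.ins i ⊆ C.watched := fun _ hj => Finset.mem_biUnion.2 ⟨i, hi, hj⟩

/-- Equal values of the watched gates below `i` give equal values of the proper special
gates up to `i`. -/
theorem Circuit.special_eq (C : Circuit n s R ε) (hε : ε ≤ 1) {x y : SimpleGraph (Fin n)}
    {l : Fin s} (hl : l ∈ C.proper) (h : ∀ j ∈ C.watched, j < l → (C.fn j x ↔ C.fn j y)) :
    C.fn l x ↔ C.fn l y :=
  C.proper_spec hε hl x y fun j hj => h j
    (C.ins_subset (Circuit.mem_proper.1 hl).1 hj) (C.lt l j hj)

/-- As long as the proper special gates keep their values, all gates are monotone. -/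
theorem Circuit.mono' (C : Circuit n s R ε) (hε : ε ≤ 1) (Q : Fin s → Prop)
    (hQ : ∀ i, Q i → ∀ j ∈ C.ins i, Q j) {x y : SimpleGraph (Fin n)} (hxy : x ≤ y)
    (hsp : ∀ l ∈ C.proper, Q l → (C.fn l x ↔ C.fn l y)) :
    ∀ i, Q i → C.fn i x → C.fn i y := by
  suffices H : ∀ m : ℕ, ∀ i : Fin s, i.1 < m → Q i → C.fn i x → C.fn i y by
    exact fun i => H s i i.2
  intro m
  induction m with
  | zero =>
    intro i hi
    omega
  | succ m ih =>
    intro i hi hQi hx
    have ih' : ∀ j ∈ C.ins i, C.fn j x → C.fn j y := by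
      intro j hj
      have h1 : j.1 < i.1 := C.lt i j hj
      exact ih j (by omega) (hQ i hQi j hj)
    rcases C.plain_or_proper hε i with (⟨u, v, h⟩ | ⟨P, _, _, h⟩) | h
    · rw [h] at hx ⊢
      exact hxy hx
    · rw [h] at hx ⊢
      exact hx.mono ih'
    · exact (hsp i h hQi).1 hx

/-- The circuit with the proper special gates replaced by their values on `G₀`. -/
theorem Circuit.exists_frozen (C : Circuit n s R ε) (hε : ε ≤ 1) (G₀ : SimpleGraph (Fin n)) :
    ∃ f : Fin s → SimpleGraph (Fin n) → Prop, ∀ i,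
      (∃ u v, (∀ G, C.fn i G ↔ G.Adj u v) ∧ ∀ G, f i G ↔ G.Adj u v) ∨
      (∃ P : Program (Fin s), P.num ≤ R ∧ P.Margin (C.ins i) ε ∧
        (∀ G, C.fn i G ↔ P.Accepts (C.ins i) fun j => C.fn j G) ∧
        ∀ G, f i G ↔ P.Accepts (C.ins i) fun j => f j G) ∨
      (i ∈ C.proper ∧ ∀ G, f i G ↔ C.fn i G₀) := by
  classical
  let F : (i : Fin s) → ((j : Fin s) → j < i → SimpleGraph (Fin n) → Prop) →
      SimpleGraph (Fin n) → Prop := fun i rec H =>
    if hA : ∃ u v, ∀ G, C.fn i G ↔ G.Adj u v then H.Adj hA.choose hA.choose_spec.choose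
    else if hP : ∃ P : Program (Fin s), P.num ≤ R ∧ P.Margin (C.ins i) ε ∧
      ∀ G, C.fn i G ↔ P.Accepts (C.ins i) fun j => C.fn j G then
      hP.choose.Accepts (C.ins i) fun j => ∃ hj : j < i, rec j hj H
    else C.fn i G₀
  have wf : WellFounded ((· < ·) : Fin s → Fin s → Prop) := wellFounded_lt
  refine ⟨wf.fix F, fun i => ?_⟩
  have heq : wf.fix F i = F i fun j _ => wf.fix F j := wf.fix_eq F i
  by_cases hA : ∃ u v, ∀ G, C.fn i G ↔ G.Adj u v
  · refine Or.inl ⟨hA.choose, hA.choose_spec.choose, hA.choose_spec.choose_spec, fun G => ?_⟩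
    rw [heq]
    show (if hA : ∃ u v, ∀ G, C.fn i G ↔ G.Adj u v then _ else _) ↔ _
    rw [dif_pos hA]
  · by_cases hP : ∃ P : Program (Fin s), P.num ≤ R ∧ P.Margin (C.ins i) ε ∧
        ∀ G, C.fn i G ↔ P.Accepts (C.ins i) fun j => C.fn j G
    · refine Or.inr (Or.inl ⟨hP.choose, hP.choose_spec.1, hP.choose_spec.2.1,
        hP.choose_spec.2.2, fun G => ?_⟩)
      rw [heq]
      show (if hA : ∃ u v, ∀ G, C.fn i G ↔ G.Adj u v then _ else _) ↔ _
      rw [dif_neg hA]
      show (if hP : ∃ P : Program (Fin s), P.num ≤ R ∧ P.Margin (C.ins i) ε ∧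
        ∀ G, C.fn i G ↔ P.Accepts (C.ins i) fun j => C.fn j G then _ else _) ↔ _
      rw [dif_pos hP]
      exact Program.accepts_congr fun j hj => ⟨fun ⟨_, h⟩ => h, fun h => ⟨C.lt i j hj, h⟩⟩
    · refine Or.inr (Or.inr ⟨?_, fun G => ?_⟩)
      · rcases C.plain_or_proper hε i with (h | h) | h
        · exact absurd h hA
        · exact absurd h hP
        · exact h
      · rw [heq]
        show (if hA : ∃ u v, ∀ G, C.fn i G ↔ G.Adj u v then _ else _) ↔ _
        rw [dif_neg hA]
        show (if hP : ∃ P : Program (Fin s), P.num ≤ R ∧ P.Margin (C.ins i) ε ∧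
          ∀ G, C.fn i G ↔ P.Accepts (C.ins i) fun j => C.fn j G then _ else _) ↔ _
        rw [dif_neg hP]

/-- **Detector.** For every graph `G` the change of a gate in a set `I` (which contains the
watched gates) is detected by a circuit without special gates. -/
theorem Circuit.exists_detector (C : Circuit n s R ε) (hε : ε ≤ 1) (I : Finset (Fin s))
    (hI : C.watched ⊆ I) (G : SimpleGraph (Fin n)) :
    ∃ (f : Fin (s + 1) → SimpleGraph (Fin n) → Prop), (∀ i, Plain R ε f i) ∧
      (¬ f (Fin.last s) G) ∧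
      (∀ H, G ≤ H → (f (Fin.last s) H ↔ ∃ i ∈ I, ¬ (C.fn i G ↔ C.fn i H))) := by
  classical
  obtain ⟨f, hf⟩ := C.exists_frozen hε G
  -- the frozen circuit agrees with the circuit as long as the special gates keep their values
  have hfH : ∀ (H : SimpleGraph (Fin n)), ∀ m : ℕ, ∀ i : Fin s, i.1 < m →
      (∀ l ∈ C.proper, l ≤ i → (C.fn l H ↔ C.fn l G)) → (f i H ↔ C.fn i H) := by
    intro H m
    induction m with
    | zero =>
      intro i hi
      omega
    | succ m ih =>
      intro i hi h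
      rcases hf i with ⟨u, v, h1, h2⟩ | ⟨P, -, -, h1, h2⟩ | ⟨h1, h2⟩
      · rw [h1, h2]
      · rw [h1, h2]
        refine Program.accepts_congr fun j hj => ih j ?_ fun l hl hlj => h l hl ?_
        · have h3 : j.1 < i.1 := C.lt i j hj
          omega
        · exact hlj.trans (C.lt i j hj).le
      · rw [h2]
        exact (h i h1 le_rfl).symm
  have hfH' : ∀ (H : SimpleGraph (Fin n)) (i : Fin s),
      (∀ l ∈ C.proper, l ≤ i → (C.fn l H ↔ C.fn l G)) → (f i H ↔ C.fn i H) :=
    fun H i => hfH H (i.1 + 1) i (Nat.lt_succ_self _)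
  have hfG : ∀ i : Fin s, f i G ↔ C.fn i G := fun i => hfH' G i fun l _ _ => Iff.rfl
  -- monotone
  have hmon : ∀ (H : SimpleGraph (Fin n)), G ≤ H → ∀ i : Fin s, f i G → f i H := by
    intro H hGH
    suffices hm : ∀ m : ℕ, ∀ i : Fin s, i.1 < m → f i G → f i H by
      exact fun i => hm s i i.2
    intro m
    induction m with
    | zero =>
      intro i hi
      omega
    | succ m ih =>
      intro i hi hx
      rcases hf i with ⟨u, v, h1, h2⟩ | ⟨P, -, -, h1, h2⟩ | ⟨h1, h2⟩
      · rw [h2] at hx ⊢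
        exact hGH hx
      · rw [h2] at hx ⊢
        refine hx.mono fun j hj => ih j ?_
        have h3 : j.1 < i.1 := C.lt i j hj
        omega
      · rw [h2] at hx ⊢
        exact hx
  -- the detector
  let Z : Finset (Fin s) := I.filter fun i => ¬ C.fn i G
  obtain ⟨g, hg1, hg2⟩ : ∃ g : Fin (s + 1) → SimpleGraph (Fin n) → Prop,
      (∀ i, g (Fin.castSucc i) = f i) ∧ g (Fin.last s) = fun H => ∃ j ∈ Z, f j H :=
    ⟨Fin.snoc (α := fun _ => SimpleGraph (Fin n) → Prop) f fun H => ∃ j ∈ Z, f j H,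
      fun i => Fin.snoc_castSucc _ _ _, Fin.snoc_last _ _⟩
  have hgs : ∀ H, g (Fin.last s) H ↔ ∃ i ∈ I, ¬ C.fn i G ∧ f i H := by
    intro H
    rw [hg2]
    constructor
    · rintro ⟨j, hj, h⟩
      obtain ⟨h1, h2⟩ := Finset.mem_filter.1 hj
      exact ⟨j, h1, h2, h⟩
    · rintro ⟨j, h1, h2, h⟩
      exact ⟨j, Finset.mem_filter.2 ⟨h1, h2⟩, h⟩
  refine ⟨g, fun i => ?_, ?_, ?_⟩
  · refine Fin.lastCases ?_ (fun i => ?_) i
    · obtain ⟨P, h1, h2, h3⟩ := exists_or (Z.map (Fin.castSuccEmb (n := s)))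
      refine Or.inr (Or.inr ⟨P, Z.map Fin.castSuccEmb, by omega, ?_, h2.mono hε, fun H => ?_⟩)
      · intro j hj
        obtain ⟨j', -, rfl⟩ := Finset.mem_map.1 hj
        exact Fin.castSucc_lt_last j'
      · rw [h3, hg2]
        constructor
        · rintro ⟨j, hj, h⟩
          refine ⟨Fin.castSucc j, Finset.mem_map_of_mem Fin.castSuccEmb hj, ?_⟩
          rw [hg1]
          exact h
        · rintro ⟨j, hj, h⟩
          obtain ⟨j', hj', rfl⟩ := Finset.mem_map.1 hj
          refine ⟨j', hj', ?_⟩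
          have h' : g (Fin.castSucc j') H := h
          rwa [hg1] at h'
    · rcases hf i with ⟨u, v, h1, h2⟩ | ⟨P, h1, h2, h3, h4⟩ | ⟨h1, h2⟩
      · exact Or.inl ⟨u, v, fun H => by rw [hg1]; exact h2 H⟩
      · refine Or.inr (Or.inr ⟨P.map Fin.castSuccEmb, (C.ins i).map Fin.castSuccEmb, h1, ?_,
          h2.map _, fun H => ?_⟩)
        · intro j hj
          obtain ⟨j', hj', rfl⟩ := Finset.mem_map.1 hj
          exact Fin.castSucc_lt_castSucc_iff.mpr (C.lt i j' hj')
        · rw [hg1, Program.map_accepts, h4]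
          refine Program.accepts_congr fun j _ => ?_
          show f j H ↔ g (Fin.castSucc j) H
          rw [hg1]
      · exact Or.inr (Or.inl ⟨C.fn i G, fun H => by rw [hg1]; exact h2 H⟩)
  · intro h
    obtain ⟨i, _, h2, h3⟩ := (hgs _).1 h
    exact h2 ((hfG i).1 h3)
  · intro H hGH
    rw [hgs]
    constructor
    · rintro ⟨i, hiI, h1, h2⟩
      by_contra hcon
      push Not at hcon
      -- all special gates agree
      have h3 : ∀ l ∈ C.proper, (C.fn l H ↔ C.fn l G) := fun l hl =>
        (C.special_eq hε hl fun j hj _ => hcon j (hI hj)).symm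
      have h4 := (hfH' H i fun l hl _ => h3 l hl).1 h2
      exact h1 ((hcon i hiI).2 h4)
    · intro h
      by_contra hcon
      push Not at hcon
      -- the first change
      have h3 : ∀ m : ℕ, ∀ l ∈ C.proper, l.1 < m → (C.fn l H ↔ C.fn l G) := by
        intro m
        induction m with
        | zero =>
          intro l _ hl
          omega
        | succ m ih =>
          intro l hl hlm
          refine (C.special_eq hε hl fun j hj hjl => ?_).symm
          have hjl' : j.1 < l.1 := hjl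
          have h4 : f j H ↔ C.fn j H := hfH' H j fun l' hl' hl'j => by
            have : l'.1 ≤ j.1 := hl'j
            exact ih l' hl' (by omega)
          constructor
          · intro h5
            exact h4.1 (hmon H hGH j ((hfG j).2 h5))
          · intro h5
            by_contra h6
            exact hcon j (hI hj) h6 (h4.2 h5)
      obtain ⟨i, hiI, hne⟩ := h
      apply hne
      have h4 : f i H ↔ C.fn i H := hfH' H i fun l hl _ => h3 s l hl l.2
      constructor
      · intro h5
        exact h4.1 (hmon H hGH i ((hfG i).2 h5))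
      · intro h5
        by_contra h6
        exact hcon i hiI h6 (h4.2 h5)

end Pool.Agent.H58.LG
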