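import Pool.Agent.H58.LG.Node

/-! Near nonnegativity of the kernel at all products, and the inequality at a node. -/

set_option autoImplicit false
set_option linter.unusedSectionVars false

namespace Pool.Agent.H58.LG

open Finset

variable {ι α γ : Type*} [Fintype ι] [DecidableEq ι] [Fintype α] [DecidableEq α] [Fintype γ]
  [DecidableEq γ]

theorem card_agr (T : Finset ι) (b : ι → α) :
    (agr T b).card * Fintype.card α ^ T.card = Fintype.card α ^ Fintype.card ι := by
  classical
  have h1 : agr T b = Fintype.piFinset fun i => if i ∈ T then {b i} else (univ : Finset α) := by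
    ext x
    rw [mem_agr, Fintype.mem_piFinset]
    refine forall_congr' fun i => ?_
    by_cases hi : i ∈ T
    · simp [hi]
    · simp [hi]
  rw [h1, Fintype.card_piFinset]
  have h2 : ∀ i : ι, (if i ∈ T then {b i} else (univ : Finset α)).card =
      if i ∈ T then 1 else Fintype.card α := by
    intro i
    split_ifs
    · simp
    · exact Finset.card_univ
  rw [Finset.prod_congr rfl fun i _ => h2 i]
  have h3 : Fintype.card α ^ T.card = ∏ i : ι, if i ∈ T then Fintype.card α else 1 := by
    rw [Finset.prod_ite_mem, Finset.univ_inter, Finset.prod_const]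
  rw [h3, ← Finset.prod_mul_distrib]
  have h4 : ∀ i : ι, (if i ∈ T then 1 else Fintype.card α) *
      (if i ∈ T then Fintype.card α else 1) = Fintype.card α := by
    intro i
    split_ifs <;> simp
  rw [Finset.prod_congr rfl fun i _ => h4 i, Finset.prod_const, Finset.card_univ]

theorem lam_eq (I : Finset ι) (D : ℕ) (f : (ι → α) → ℝ) (g : (ι → α → γ) → ℝ) :
    Lam I D f g = ∑ x, f x * ∑ y, g y * KK I D (zz x y) := by
  unfold Lam
  refine Finset.sum_congr rfl fun x _ => ?_
  rw [Finset.mul_sum]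
  exact Finset.sum_congr rfl fun y _ => by ring

/-- near nonnegativity of the kernel -/
theorem nonneg_part [Nonempty γ] {p t : ℕ} (hp : 1 ≤ p) (htp : t ≤ p) {I : Finset ι}
    {d D : ℕ} (hdD : d ≤ D) (hID : 2 * (I.card + d + D) ≤ Fintype.card γ) {x0 : ι → α}
    {κ κ1 η : ℝ} (hκ : 0 < κ) (hκ1 : 0 < κ1) (hη : 0 < η)
    (hκm : 1 ≤ κ * Fintype.card α) (hd : 1 ≤ (κ * Fintype.card α) ^ (d + 1) * (κ1 * η))
    (X : Finset (ι → α)) (hX0 : ∀ x ∈ X, ∀ i ∈ I, x i = x0 i)
    (hXη : η * Fintype.card α ^ Fintype.card ι ≤ X.card * Fintype.card α ^ I.card)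
    {f : (ι → α) → ℝ} {a0 : ℝ} (hf0 : ∀ x, 0 ≤ f x) (hfa : ∀ x, f x ≤ a0)
    (hfX : ∀ x, x ∉ X → f x = 0)
    {g : (ι → α → γ) → ℝ} {b0 : ℝ} (Y : Finset (ι → α → γ)) (ha0 : 0 ≤ a0) (hb0 : 0 ≤ b0)
    (hg0 : ∀ y, 0 ≤ g y) (hgb : ∀ y, g y ≤ b0) (hgY : ∀ y, y ∉ Y → g y = 0)
    (hY : (Fintype.card (ι → α → γ) : ℝ) ≤ 2 ^ t * Y.card) {h ρ : ℝ} (hh0 : 0 ≤ h)
    (hh : 128 * p * κ ≤ h ^ 2) (hρ : Fintype.card ι * h ≤ ρ) (hρ1 : ρ ≤ 1 / 8) :
    -(a0 * b0 * (X.card * Y.card * wt (Fintype.card γ) I.card *
      (err (Fintype.card ι) d D t p ρ + κ1 * (1 + Fintype.card ι * 4) ^ D))) ≤ Lam I D f g := by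
  classical
  have hρ0 : 0 ≤ ρ := le_trans (by positivity) hρ
  have hw : 0 < wt (Fintype.card γ) I.card := wt_pos (by omega)
  have herr := err_nonneg (Fintype.card ι) d D t p hρ0
  obtain ⟨w, hwd⟩ : ∃ w, w = wt (Fintype.card γ) I.card := ⟨_, rfl⟩
  obtain ⟨E, hE⟩ : ∃ E, E = err (Fintype.card ι) d D t p ρ := ⟨_, rfl⟩
  obtain ⟨Z, hZ⟩ : ∃ Z : ℝ, Z = (1 + Fintype.card ι * 4) ^ D := ⟨_, rfl⟩
  have hZ0 : 0 < Z := by rw [hZ]; positivity
  rw [← hwd] at hw ⊢
  rw [← hE] at herr ⊢
  rw [← hZ]
  obtain ⟨l, hl⟩ : ∃ l : (ι → α) → ℝ, ∀ x, l x = ∑ y, g y * KK I D (zz x y) := ⟨_, fun _ => rfl⟩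
  rw [lam_eq]
  simp only [← hl]
  have hYc : (0 : ℝ) ≤ Y.card := Nat.cast_nonneg _
  have hXc : (0 : ℝ) ≤ X.card := Nat.cast_nonneg _
  have hgsum : ∑ y, g y ≤ b0 * Y.card := by
    have e1 : ∑ y, g y = ∑ y ∈ Y, g y := by
      symm
      refine Finset.sum_subset (Finset.subset_univ _) fun y _ hy => hgY y hy
    rw [e1]
    refine (Finset.sum_le_sum fun y _ => hgb y).trans ?_
    rw [Finset.sum_const, nsmul_eq_mul, mul_comm]
  have hlsup : ∀ x, |l x| ≤ b0 * Y.card * w * Z := by
    intro x
    rw [hl]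
    refine (Finset.abs_sum_le_sum_abs _ _).trans ?_
    have e1 : ∀ y ∈ (univ : Finset (ι → α → γ)), |g y * KK I D (zz x y)| ≤ g y * (w * Z) := by
      intro y _
      rw [abs_mul, abs_of_nonneg (hg0 y), hwd, hZ]
      exact mul_le_mul_of_nonneg_left (abs_KK_le (by omega) _) (hg0 y)
    refine (Finset.sum_le_sum e1).trans ?_
    rw [← Finset.sum_mul, mul_assoc (b0 * (Y.card : ℝ))]
    exact mul_le_mul_of_nonneg_right hgsum (by positivity)
  obtain ⟨fs, hfs⟩ : ∃ fs : (ι → α) → ℝ, ∀ x, fs x =
    if l x < -(b0 * Y.card * w * E) then f x else 0 := ⟨_, fun _ => rfl⟩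
  have hfs0 : ∀ x, 0 ≤ fs x := by
    intro x
    rw [hfs]
    split_ifs
    · exact hf0 x
    · exact le_rfl
  have hfsf : ∀ x, fs x ≤ f x := by
    intro x
    rw [hfs]
    split_ifs
    · exact le_rfl
    · exact hf0 x
  have hfsum : ∑ x, f x ≤ a0 * X.card := by
    have e1 : ∑ x, f x = ∑ x ∈ X, f x := by
      symm
      refine Finset.sum_subset (Finset.subset_univ _) fun x _ hx => hfX x hx
    rw [e1]
    refine (Finset.sum_le_sum fun x _ => hfa x).trans ?_
    rw [Finset.sum_const, nsmul_eq_mul, mul_comm]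
  rcases le_or_gt (∑ x, fs x) (κ1 * (a0 * X.card)) with hc | hc
  · have e1 : ∀ x, f x * l x ≥ -(f x * (b0 * Y.card * w * E)) - fs x * (b0 * Y.card * w * Z) := by
      intro x
      rw [hfs]
      split_ifs with h1
      · have h2 := (abs_le.mp (hlsup x)).1
        have h3 := mul_le_mul_of_nonneg_left h2 (hf0 x)
        have h4 : 0 ≤ f x * (b0 * Y.card * w * E) := mul_nonneg (hf0 x) (by positivity)
        linarith
      · push Not at h1
        have h3 := mul_le_mul_of_nonneg_left h1 (hf0 x)
        linarith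
    have e2 : ∑ x, f x * l x ≥
        -((∑ x, f x) * (b0 * Y.card * w * E)) - (∑ x, fs x) * (b0 * Y.card * w * Z) := by
      rw [Finset.sum_mul, Finset.sum_mul, ← Finset.sum_neg_distrib, ← Finset.sum_sub_distrib]
      exact Finset.sum_le_sum fun x _ => e1 x
    have e3 : (∑ x, f x) * (b0 * Y.card * w * E) ≤ (a0 * X.card) * (b0 * Y.card * w * E) :=
      mul_le_mul_of_nonneg_right hfsum (by positivity)
    have e4 : (∑ x, fs x) * (b0 * Y.card * w * Z) ≤ (κ1 * (a0 * X.card)) * (b0 * Y.card * w * Z) :=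
      mul_le_mul_of_nonneg_right hc (by positivity)
    have e5 : a0 * b0 * (X.card * Y.card * w * (E + κ1 * Z)) =
        (a0 * X.card) * (b0 * Y.card * w * E) + (κ1 * (a0 * X.card)) * (b0 * Y.card * w * Z) := by
      ring
    rw [e5]
    linarith
  · exfalso
    obtain ⟨J, b, hJI, hJ1, hJ2⟩ := select (F := I) hκ x0 hfs0
    have ha0' : 0 < a0 := by
      rcases ha0.eq_or_lt with h0 | h0
      · exfalso
        rw [← h0, zero_mul, mul_zero] at hc
        have h1 : ∑ x, fs x ≤ 0 :=
          Finset.sum_nonpos fun x _ => (hfsf x).trans ((hfa x).trans h0.symm.le)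
        linarith
      · exact h0
    have hXpos : (0 : ℝ) < X.card := by
      rcases hXc.eq_or_lt with h0 | h0
      · exfalso
        rw [← h0, mul_zero, mul_zero] at hc
        have h1 : ∑ x, fs x ≤ ∑ x, f x := Finset.sum_le_sum fun x _ => hfsf x
        rw [← h0, mul_zero] at hfsum
        linarith
      · exact h0
    obtain ⟨M1, hM1⟩ : ∃ M1, M1 = ∑ x ∈ agr J b, fs x := ⟨_, rfl⟩
    rw [← hM1] at hJ1 hJ2
    have hκJ : 0 < κ ^ J.card := by positivity
    have hM1pos : κ ^ J.card * (κ1 * (a0 * X.card)) < M1 :=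
      lt_of_lt_of_le (mul_lt_mul_of_pos_left hc hκJ) hJ1
    have hM10 : 0 < M1 := lt_of_le_of_lt (by positivity) hM1pos
    obtain ⟨x1, hx1⟩ : ∃ x1 : ι → α, x1 = fun i => if i ∈ J then b i else x0 i := ⟨_, rfl⟩
    have hsupp : ∀ x ∈ agr J b, fs x ≠ 0 → x ∈ agr (I ∪ J) x1 := by
      intro x hx hne
      have hxX : x ∈ X := by
        by_contra hcon
        have := hfX x hcon
        exact hne (le_antisymm ((hfsf x).trans this.le) (hfs0 x))
      rw [mem_agr] at hx ⊢
      intro i hi
      rw [hx1]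
      simp only
      by_cases hiJ : i ∈ J
      · rw [if_pos hiJ]
        exact hx i hiJ
      · rw [if_neg hiJ]
        exact hX0 x hxX i ((Finset.mem_union.mp hi).resolve_right hiJ)
    have hJd : J.card ≤ d := by
      by_contra hcon
      push Not at hcon
      have h1 : M1 ≤ a0 * (agr (I ∪ J) x1).card := by
        have h2 : M1 ≤ ∑ x ∈ agr (I ∪ J) x1, fs x := by
          rw [hM1, ← Finset.sum_filter_add_sum_filter_not (agr J b) (fun x => fs x ≠ 0)]
          rw [Finset.sum_eq_zero (s := (agr J b).filter fun x => ¬ fs x ≠ 0) (fun x hx => by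
            have := (Finset.mem_filter.mp hx).2
            push Not at this
            exact this), add_zero]
          refine Finset.sum_le_sum_of_subset_of_nonneg ?_ fun x _ _ => hfs0 x
          intro x hx
          obtain ⟨h3, h4⟩ := Finset.mem_filter.mp hx
          exact hsupp x h3 h4
        refine h2.trans ?_
        refine (Finset.sum_le_sum fun x _ => (hfsf x).trans (hfa x)).trans ?_
        rw [Finset.sum_const, nsmul_eq_mul, mul_comm]
      have h2 : ((agr (I ∪ J) x1).card : ℝ) * Fintype.card α ^ (I.card + J.card) =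
          Fintype.card α ^ Fintype.card ι := by
        have h3 := card_agr (I ∪ J) x1
        rw [Finset.card_union_of_disjoint hJI.symm] at h3
        exact_mod_cast h3
      obtain ⟨m, hm⟩ : ∃ m : ℝ, m = Fintype.card α := ⟨_, rfl⟩
      have hm0 : 0 < m := by
        rcases (Nat.cast_nonneg (α := ℝ) (Fintype.card α)).eq_or_lt with h3 | h3
        · exfalso
          rw [← h3, mul_zero] at hκm
          linarith
        · rw [hm]; exact h3
      rw [← hm] at h2 hκm hd hXη
      -- (κ m) ^ |J| κ1 η < 1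
      have h3 : κ ^ J.card * (κ1 * (a0 * X.card)) * m ^ (I.card + J.card) <
          a0 * m ^ Fintype.card ι := by
        have h4 : 0 < m ^ (I.card + J.card) := by positivity
        calc κ ^ J.card * (κ1 * (a0 * X.card)) * m ^ (I.card + J.card) <
              M1 * m ^ (I.card + J.card) := mul_lt_mul_of_pos_right hM1pos h4
          _ ≤ (a0 * (agr (I ∪ J) x1).card) * m ^ (I.card + J.card) :=
              mul_le_mul_of_nonneg_right h1 h4.le
          _ = a0 * m ^ Fintype.card ι := by rw [mul_assoc, h2]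
      have h5 : a0 * m ^ Fintype.card ι * ((κ * m) ^ J.card * (κ1 * η)) <
          a0 * m ^ Fintype.card ι := by
        calc a0 * m ^ Fintype.card ι * ((κ * m) ^ J.card * (κ1 * η)) =
              (κ ^ J.card * (κ1 * a0)) * m ^ J.card * (η * m ^ Fintype.card ι) := by
                rw [mul_pow]; ring
          _ ≤ (κ ^ J.card * (κ1 * a0)) * m ^ J.card * (X.card * m ^ I.card) :=
              mul_le_mul_of_nonneg_left hXη (by positivity)
          _ = κ ^ J.card * (κ1 * (a0 * X.card)) * m ^ (I.card + J.card) := by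
              rw [pow_add]; ring
          _ < _ := h3
      have h6 : (κ * m) ^ (d + 1) ≤ (κ * m) ^ J.card := pow_le_pow_right₀ hκm hcon
      have h7 : 1 ≤ (κ * m) ^ J.card * (κ1 * η) :=
        hd.trans (mul_le_mul_of_nonneg_right h6 (by positivity))
      have h8 : 0 < a0 * m ^ Fintype.card ι := by positivity
      nlinarith
    obtain ⟨f', hf'⟩ : ∃ f' : (ι → α) → ℝ, f' = fun x => if x ∈ agr J b then fs x else 0 :=
      ⟨_, rfl⟩
    have hf'sum : ∑ x, f' x = M1 := by
      rw [hf', hM1]
      simp only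
      rw [Finset.sum_ite_mem, Finset.univ_inter]
    have hf'0 : ∀ x, 0 ≤ f' x := by
      intro x
      rw [hf']
      simp only
      split_ifs
      · exact hfs0 x
      · exact le_rfl
    have h1 := piece (f := f') (g := g) (x1 := x1) hp htp hJI hdD hJd hID hκ.le hf'0
      (fun x hx i hi => by
        rw [hf'] at hx
        simp only at hx
        by_cases hxa : x ∈ agr J b
        · rw [if_pos hxa] at hx
          exact (mem_agr.mp (hsupp x hxa hx)) i hi
        · rw [if_neg hxa] at hx
          exact absurd rfl hx)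
      (by rw [hf'sum, hf']; exact hJ2) Y hb0 hg0 hgb hgY hY hh0 hh hρ hρ1
    rw [hf'sum, lam_eq, ← hwd, ← hE] at h1
    simp only [← hl] at h1
    have h2 : ∑ x, f' x * l x < -(M1 * (b0 * Y.card) * w * E) := by
      have h3 : ∀ x, f' x * l x ≤ f' x * (-(b0 * Y.card * w * E)) := by
        intro x
        simp only [hf', hfs]
        split_ifs with h4 h5
        · exact mul_le_mul_of_nonneg_left h5.le (hf0 x)
        · simp
        · simp
      have h4 : ∃ x ∈ (univ : Finset (ι → α)), f' x * l x < f' x * (-(b0 * Y.card * w * E)) := by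
        have h5 : ∃ x ∈ (univ : Finset (ι → α)), f' x ≠ 0 := by
          by_contra hcon
          push Not at hcon
          rw [Finset.sum_eq_zero hcon] at hf'sum
          linarith
        obtain ⟨x, _, hx⟩ := h5
        refine ⟨x, Finset.mem_univ _, ?_⟩
        have h6 : 0 < f' x := lt_of_le_of_ne (hf'0 x) (Ne.symm hx)
        refine mul_lt_mul_of_pos_left ?_ h6
        by_contra hcon
        apply hx
        rw [hf']
        simp only
        rw [hfs, if_neg hcon]
        simp
      have h5 := Finset.sum_lt_sum (fun x _ => h3 x) h4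
      rw [← Finset.sum_mul, hf'sum] at h5
      refine h5.trans_le (le_of_eq ?_)
      ring
    linarith

/-- the inequality at a node -/
theorem node [Nonempty γ] {C R : Type*} [Fintype C] [Fintype R]
    {p t : ℕ} (hp : 1 ≤ p) (htp : t ≤ p) {I : Finset ι}
    {d d' D : ℕ} (hdD : d ≤ D) (hdD' : d' ≤ D) (hId : I.card ≤ d)
    (hID : 2 * (d + d' + D) ≤ Fintype.card γ) {x0 : ι → α}
    {κ κ1 η : ℝ} (hκ : 0 < κ) (hκ1 : 0 < κ1) (hη : 0 < η)
    (hκm : 1 ≤ κ * Fintype.card α) (hd : 1 ≤ (κ * Fintype.card α) ^ (d' + 1) * (κ1 * η))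
    (X : Finset (ι → α)) (hXne : X.Nonempty) (hX0 : ∀ x ∈ X, ∀ i ∈ I, x i = x0 i)
    (hXs : Spread I κ X.card (fun x => if x ∈ X then 1 else 0))
    (hXη : η * Fintype.card α ^ Fintype.card ι ≤ X.card * Fintype.card α ^ I.card)
    (Y : Finset (ι → α → γ)) (hYI : ∀ y ∈ Y, Set.InjOn (zz x0 y) I)
    (hY : (Fintype.card (ι → α → γ) : ℝ) ≤ 2 ^ t * Y.card) {h ρ : ℝ} (hh0 : 0 ≤ h)
    (hh : 128 * p * κ ≤ h ^ 2) (hρ : Fintype.card ι * h ≤ ρ) (hρ1 : ρ ≤ 1 / 8)
    (U : C → (ι → α) → Prop) (V : C → (ι → α → γ) → Prop) (w : C → (ι → α → γ) → ℝ)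
    (hw0 : ∀ c, ∀ y ∈ Y, 0 ≤ w c y) (hw1 : ∀ c, ∀ y ∈ Y, w c y ≤ 1)
    (hdead : ∀ c, ∀ x ∈ X, U c x → ∃ J : Finset ι, J.card ≤ d ∧ ∀ y ∈ Y, V c y →
      ¬ Set.InjOn (zz x y) J)
    (A : R → (ι → α) → ℝ) (B : R → (ι → α → γ) → ℝ) (hA : ∀ r, ∀ x ∈ X, 0 ≤ A r x)
    (hB : ∀ r, ∀ y ∈ Y, 0 ≤ B r y) {ε : ℝ} (hε : 0 ≤ ε)
    (hrel : ∀ x ∈ X, ∀ y ∈ Y, (∑ c, @ite ℝ (U c x ∧ V c y) (Classical.dec _) (w c y) 0) =
      ε + ∑ r, A r x * B r y) :
    1 / 2 * ε ≤ Fintype.card C * ((1 + Fintype.card ι) ^ d * (4 * ρ ^ (D + 1 - d))) +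
      Fintype.card R * (Fintype.card C * (err (Fintype.card ι) d' D t p ρ +
        κ1 * (1 + Fintype.card ι * 4) ^ D)) := by
  classical
  have hρ0 : 0 ≤ ρ := le_trans (by positivity) hρ
  obtain ⟨W, hWd⟩ : ∃ W, W = wt (Fintype.card γ) I.card := ⟨_, rfl⟩
  have hW : 0 < W := by rw [hWd]; exact wt_pos (by omega)
  have hXc : (0 : ℝ) < X.card := by exact_mod_cast Finset.card_pos.mpr hXne
  have hYne : Y.Nonempty := by
    rw [← Finset.card_pos]
    by_contra hcon
    have h0 : Y.card = 0 := by omega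
    rw [h0, Nat.cast_zero, mul_zero] at hY
    obtain ⟨x, -⟩ := hXne
    have : Nonempty (ι → α → γ) := ⟨fun _ _ => Classical.arbitrary γ⟩
    have h1 : (0 : ℝ) < Fintype.card (ι → α → γ) := by exact_mod_cast Fintype.card_pos
    linarith
  have hYc : (0 : ℝ) < Y.card := by exact_mod_cast Finset.card_pos.mpr hYne
  have hYp : 1 * (Fintype.card (ι → α → γ) : ℝ) ≤ 2 ^ p * Y.card := by
    rw [one_mul]
    refine hY.trans (mul_le_mul_of_nonneg_right ?_ hYc.le)
    exact pow_le_pow_right₀ (by norm_num) htp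
  obtain ⟨E, hE⟩ : ∃ E, E = err (Fintype.card ι) d' D t p ρ +
    κ1 * (1 + (Fintype.card ι : ℝ) * 4) ^ D := ⟨_, rfl⟩
  have hE0 : 0 ≤ E := by
    rw [hE]
    have := err_nonneg (Fintype.card ι) d' D t p hρ0
    positivity
  rw [← hE]
  -- indicator functions
  have hXsum : ∑ x : ι → α, (if x ∈ X then (1 : ℝ) else 0) = X.card := by
    rw [Finset.sum_ite_mem, Finset.univ_inter, Finset.sum_const, nsmul_eq_mul, mul_one]
  have hYsum : ∑ y : ι → α → γ, (if y ∈ Y then (1 : ℝ) else 0) = Y.card := by
    rw [Finset.sum_ite_mem, Finset.univ_inter, Finset.sum_const, nsmul_eq_mul, mul_one]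
  -- the identity
  have hid : ∑ c, Lam I D (fun x => if x ∈ X ∧ U c x then 1 else 0)
      (fun y => if y ∈ Y ∧ V c y then w c y else 0) =
      ε * Lam I D (fun x => if x ∈ X then 1 else 0) (fun y => if y ∈ Y then 1 else 0) +
      ∑ r, Lam I D (fun x => if x ∈ X then A r x else 0)
        (fun y => if y ∈ Y then B r y else 0) := by
    unfold Lam
    rw [Finset.sum_comm, Finset.mul_sum, Finset.sum_comm (s := (univ : Finset R)),
      ← Finset.sum_add_distrib]
    refine Finset.sum_congr rfl fun x _ => ?_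
    rw [Finset.sum_comm, Finset.mul_sum, Finset.sum_comm (s := (univ : Finset R)),
      ← Finset.sum_add_distrib]
    refine Finset.sum_congr rfl fun y _ => ?_
    rw [← Finset.sum_mul, ← Finset.sum_mul, ← mul_assoc, ← add_mul]
    congr 1
    by_cases hx : x ∈ X
    · by_cases hy : y ∈ Y
      · simp only [hx, hy, true_and, if_true, one_mul, mul_one]
        rw [← hrel x hx y hy]
        refine Finset.sum_congr rfl fun c _ => ?_
        by_cases h1 : U c x
        · by_cases h2 : V c y
          · simp [h1, h2]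
          · simp [h1, h2]
        · simp [h1]
      · simp [hy]
    · simp [hx]
  -- the dead parts
  have h1 : ∀ c, Lam I D (fun x => if x ∈ X ∧ U c x then 1 else 0)
      (fun y => if y ∈ Y ∧ V c y then w c y else 0) ≤
      (1 + Fintype.card ι) ^ d * (4 * ρ ^ (D + 1 - d)) * (X.card * Y.card * W) := by
    intro c
    have e1 := dead_part (I := I) (x0 := x0) (b0 := 1) (A := X.card) (G := Y.card)
      (f := fun x => if x ∈ X ∧ U c x then 1 else 0)
      (g := fun y => if y ∈ Y ∧ V c y then w c y else 0) hp hdD (by omega) hκ.le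
      (fun x => by split_ifs <;> norm_num)
      (fun x hx => by
        have h3 : x ∈ X ∧ U c x := by
          by_contra hcon
          rw [if_neg hcon] at hx
          exact hx rfl
        exact hX0 x h3.1)
      (hXs.mono fun x => by
        by_cases h3 : x ∈ X <;> by_cases h4 : U c x <;> simp [h3, h4])
      (fun y => by
        split_ifs with h3
        · exact hw0 c y h3.1
        · exact le_rfl)
      (fun y => by
        split_ifs with h3
        · exact hw1 c y h3.1
        · norm_num)
      (by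
        rw [← hYsum]
        refine Finset.sum_le_sum fun y _ => ?_
        by_cases h3 : y ∈ Y
        · by_cases h4 : V c y
          · simp only [h3, h4, and_self, if_true]
            exact hw1 c y h3
          · simp [h3, h4]
        · simp [h3])
      hYp hh0 hh hρ (by linarith)
      (fun x hx => by
        have h3 : x ∈ X ∧ U c x := by
          by_contra hcon
          rw [if_neg hcon] at hx
          exact hx rfl
        obtain ⟨J, hJ1, hJ2⟩ := hdead c x h3.1 h3.2
        refine ⟨J, hJ1, fun y hy => ?_⟩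
        have h4 : y ∈ Y ∧ V c y := by
          by_contra hcon
          rw [if_neg hcon] at hy
          exact hy rfl
        exact hJ2 y h4.1 h4.2)
    refine (le_abs_self _).trans (e1.trans (le_of_eq ?_))
    rw [hWd]
    ring
  -- the constant part
  have h2 : 1 / 2 * (X.card * Y.card * W) ≤
      Lam I D (fun x : ι → α => if x ∈ X then (1 : ℝ) else 0)
        (fun y : ι → α → γ => if y ∈ Y then 1 else 0) := by
    have e1 := main_part (I := I) (x0 := x0) (b0 := 1)
      (f := fun x => if x ∈ X then 1 else 0)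
      (g := fun y => if y ∈ Y then 1 else 0) hp
      (univ.filter fun S : Finset ι => Disjoint S I ∧ S.card ≤ D)
      (by
        rw [Finset.mem_filter]
        exact ⟨Finset.mem_univ _, Finset.disjoint_empty_left _, by simp⟩)
      (fun S hS => by
        obtain ⟨-, e2, e3⟩ := Finset.mem_filter.mp hS
        exact ⟨e2, by omega⟩) hκ.le
      (fun x => by split_ifs <;> norm_num)
      (fun x hx => by
        have h3 : x ∈ X := by
          by_contra hcon
          rw [if_neg hcon] at hx
          exact hx rfl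
        exact hX0 x h3)
      (by rw [hXsum]; exact hXs)
      (fun y => by split_ifs <;> norm_num)
      (fun y => by split_ifs <;> norm_num)
      (fun y hy => by
        have h3 : y ∈ Y := by
          by_contra hcon
          rw [if_neg hcon] at hy
          exact hy rfl
        exact hYI y h3)
      (by rw [hYsum]; exact hYp) hh0 hh hρ hρ1
    rw [hXsum, hYsum, ← hWd, swap3 _ (fun S z => PP I S z)] at e1
    exact e1
  -- the products
  have h3 : ∀ r, -(Fintype.card C * (X.card * Y.card * W * E)) ≤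
      Lam I D (fun x => if x ∈ X then A r x else 0) (fun y => if y ∈ Y then B r y else 0) := by
    intro r
    obtain ⟨xm, hxm, hxmax⟩ := Finset.exists_max_image X (A r) hXne
    obtain ⟨ym, hym, hymax⟩ := Finset.exists_max_image Y (B r) hYne
    have e1 := nonneg_part (I := I) (x0 := x0) (a0 := A r xm) (b0 := B r ym)
      (f := fun x => if x ∈ X then A r x else 0)
      (g := fun y => if y ∈ Y then B r y else 0) hp htp hdD' (by omega) hκ hκ1 hη hκm hd X hX0
      hXη
      (fun x => by
        split_ifs with h3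
        · exact hA r x h3
        · exact le_rfl)
      (fun x => by
        split_ifs with h3
        · exact hxmax x h3
        · exact hA r xm hxm)
      (fun x hx => if_neg hx) Y (hA r xm hxm) (hB r ym hym)
      (fun y => by
        split_ifs with h3
        · exact hB r y h3
        · exact le_rfl)
      (fun y => by
        split_ifs with h3
        · exact hymax y h3
        · exact hB r ym hym)
      (fun y hy => if_neg hy) hY hh0 hh hρ hρ1
    rw [← hWd, ← hE] at e1
    refine le_trans ?_ e1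
    have e2 : A r xm * B r ym ≤ Fintype.card C := by
      have e3 : A r xm * B r ym ≤ ∑ r, A r xm * B r ym :=
        Finset.single_le_sum (f := fun r => A r xm * B r ym)
          (fun r _ => mul_nonneg (hA r xm hxm) (hB r ym hym)) (Finset.mem_univ r)
      have e4 : ∑ r, A r xm * B r ym ≤
          ∑ c, @ite ℝ (U c xm ∧ V c ym) (Classical.dec _) (w c ym) 0 := by
        rw [hrel xm hxm ym hym]
        linarith
      have e5 : ∑ c, @ite ℝ (U c xm ∧ V c ym) (Classical.dec _) (w c ym) 0 ≤
          ∑ _c : C, (1 : ℝ) := by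
        refine Finset.sum_le_sum fun c _ => ?_
        split_ifs
        · exact hw1 c ym hym
        · norm_num
      rw [Finset.sum_const, Finset.card_univ, nsmul_eq_mul, mul_one] at e5
      linarith
    have e3 : 0 ≤ X.card * Y.card * W * E := by positivity
    have e4 := mul_le_mul_of_nonneg_right e2 e3
    linarith
  -- conclusion
  have h4 : ε * (1 / 2 * (X.card * Y.card * W)) - Fintype.card R *
      (Fintype.card C * (X.card * Y.card * W * E)) ≤
      Fintype.card C * ((1 + Fintype.card ι) ^ d * (4 * ρ ^ (D + 1 - d)) *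
        (X.card * Y.card * W)) := by
    have e1 : ∑ c, Lam I D (fun x => if x ∈ X ∧ U c x then 1 else 0)
      (fun y => if y ∈ Y ∧ V c y then w c y else 0) ≤
        Fintype.card C * ((1 + Fintype.card ι) ^ d * (4 * ρ ^ (D + 1 - d)) *
        (X.card * Y.card * W)) := by
      refine (Finset.sum_le_sum fun c _ => h1 c).trans (le_of_eq ?_)
      rw [Finset.sum_const, Finset.card_univ, nsmul_eq_mul]
    have e2 : ∑ r : R, -(Fintype.card C * (X.card * Y.card * W * E)) ≤
        ∑ r, Lam I D (fun x => if x ∈ X then A r x else 0)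
          (fun y => if y ∈ Y then B r y else 0) := Finset.sum_le_sum fun r _ => h3 r
    rw [Finset.sum_const, Finset.card_univ, nsmul_eq_mul] at e2
    rw [hid] at e1
    have e3 := mul_le_mul_of_nonneg_left h2 hε
    linarith
  have h5 : (0 : ℝ) < X.card * Y.card * W := by positivity
  have h6 : 1 / 2 * ε * (X.card * Y.card * W) ≤
      (Fintype.card C * ((1 + Fintype.card ι) ^ d * (4 * ρ ^ (D + 1 - d))) +
      Fintype.card R * (Fintype.card C * E)) * (X.card * Y.card * W) := by
    linarith
  exact le_of_mul_le_mul_right h6 h5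

end Pool.Agent.H58.LG
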