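import Mathlib

/-! The pseudo-distribution of the pigeonhole principle. -/

set_option autoImplicit false
set_option linter.unusedSectionVars false

namespace Pool.Agent.H58.LG

open Finset

/-- `1 / wt q s` is the probability that `s` random elements of a set with `q` elements are
distinct -/
noncomputable def wt (q s : ℕ) : ℝ := ∏ j ∈ range s, (q : ℝ) / (q - j)

theorem wt_zero (q : ℕ) : wt q 0 = 1 := by simp [wt]

theorem wt_succ (q s : ℕ) : wt q (s + 1) = wt q s * ((q : ℝ) / (q - s)) := by
  unfold wt
  rw [Finset.prod_range_succ]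

theorem wt_pos {q s : ℕ} (h : s ≤ q) : 0 < wt q s := by
  unfold wt
  refine Finset.prod_pos fun j hj => ?_
  have h1 := Finset.mem_range.mp hj
  have h2 : (j : ℝ) < q := by exact_mod_cast h1.trans_le h
  have h3 : (0 : ℝ) < q := lt_of_le_of_lt (Nat.cast_nonneg j) h2
  exact div_pos h3 (by linarith)

theorem wt_add_le {q r s : ℕ} (h : 2 * (r + s) ≤ q) : wt q (r + s) ≤ 2 ^ s * wt q r := by
  induction s with
  | zero => simp
  | succ s ih =>
    rw [← add_assoc, wt_succ]
    have h1 := ih (by omega)
    have h2 : (q : ℝ) / (q - ((r + s : ℕ) : ℝ)) ≤ 2 := by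
      have h3 : (2 : ℝ) * ((r + s : ℕ) : ℝ) + 2 ≤ q := by
        have : 2 * (r + s) + 2 ≤ q := by omega
        exact_mod_cast this
      have h4 : (0 : ℝ) ≤ ((r + s : ℕ) : ℝ) := Nat.cast_nonneg _
      rw [div_le_iff₀ (by linarith)]
      linarith
    have h3 : (0 : ℝ) ≤ (q : ℝ) / (q - ((r + s : ℕ) : ℝ)) := by
      have h3 : (2 : ℝ) * ((r + s : ℕ) : ℝ) + 2 ≤ q := by
        have : 2 * (r + s) + 2 ≤ q := by omega
        exact_mod_cast this
      have h4 : (0 : ℝ) ≤ ((r + s : ℕ) : ℝ) := Nat.cast_nonneg _
      exact div_nonneg (Nat.cast_nonneg _) (by linarith)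
    have h4 : 0 < wt q r := wt_pos (by omega)
    calc wt q (r + s) * ((q : ℝ) / (q - ((r + s : ℕ) : ℝ))) ≤
          (2 ^ s * wt q r) * ((q : ℝ) / (q - ((r + s : ℕ) : ℝ))) := mul_le_mul_of_nonneg_right h1 h3
      _ ≤ (2 ^ s * wt q r) * 2 := mul_le_mul_of_nonneg_left h2 (by positivity)
      _ = _ := by ring

theorem one_le_wt {q s : ℕ} (h : s ≤ q) : 1 ≤ wt q s := by
  induction s with
  | zero => rw [wt_zero]
  | succ s ih =>
    rw [wt_succ]
    have h2 : (s : ℝ) < q := by exact_mod_cast h
    have h3 : (0 : ℝ) ≤ s := Nat.cast_nonneg s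
    have h4 : 1 ≤ (q : ℝ) / (q - s) := by
      rw [le_div_iff₀ (by linarith)]
      linarith
    have h5 := ih (by omega)
    nlinarith

variable {ι γ : Type*} [Fintype ι] [DecidableEq ι] [Fintype γ] [DecidableEq γ]

open Classical in
/-- density of the uniform distribution on the injections of `T` -/
noncomputable def DD (T : Finset ι) (z : ι → γ) : ℝ :=
  if Set.InjOn z T then wt (Fintype.card γ) T.card else 0

/-- its pure parts, given the values on `I` -/
noncomputable def PP (I S : Finset ι) (z : ι → γ) : ℝ :=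
  ∑ T ∈ S.powerset, (-1 : ℝ) ^ (S.card + T.card) * DD (I ∪ T) z

/-- the kernel -/
noncomputable def KK (I : Finset ι) (D : ℕ) (z : ι → γ) : ℝ :=
  ∑ S ∈ univ.filter (fun S : Finset ι => Disjoint S I ∧ S.card ≤ D), PP I S z

theorem DD_nonneg {T : Finset ι} {z : ι → γ} (h : T.card ≤ Fintype.card γ) : 0 ≤ DD T z := by
  unfold DD
  split_ifs
  · exact (wt_pos h).le
  · exact le_rfl

theorem DD_le {T : Finset ι} {z : ι → γ} (h : T.card ≤ Fintype.card γ) :
    DD T z ≤ wt (Fintype.card γ) T.card := by
  unfold DD
  split_ifs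
  · exact le_rfl
  · exact (wt_pos h).le

theorem DD_congr {T : Finset ι} {z z' : ι → γ} (h : ∀ i ∈ T, z i = z' i) : DD T z = DD T z' := by
  unfold DD
  have : Set.InjOn z T ↔ Set.InjOn z' T := Set.EqOn.injOn_iff fun i hi => h i hi
  simp only [this]

theorem DD_of_not {T T' : Finset ι} {z : ι → γ} (h : ¬ Set.InjOn z T) (hT : T ⊆ T') :
    DD T' z = 0 := by
  unfold DD
  rw [if_neg]
  exact fun h' => h (h'.mono (by exact_mod_cast hT))

theorem DD_upd {T : Finset ι} {i : ι} (hi : i ∉ T) (z : ι → γ) (c : γ) :
    DD T (Function.update z i c) = DD T z := by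
  refine DD_congr fun j hj => ?_
  rw [Function.update_of_ne]
  rintro rfl
  exact hi hj

theorem sum_DD_upd {T : Finset ι} {i : ι} (hi : i ∉ T) (hT : T.card + 1 ≤ Fintype.card γ)
    (z : ι → γ) :
    ∑ c : γ, DD (insert i T) (Function.update z i c) = Fintype.card γ * DD T z := by
  have hinj : ∀ c : γ, Set.InjOn (Function.update z i c) (insert i T : Finset ι) ↔
      Set.InjOn z T ∧ c ∉ T.image z := by
    intro c
    have hi' : i ∉ (T : Set ι) := by exact_mod_cast hi
    rw [Finset.coe_insert, Set.injOn_insert hi', Function.update_self]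
    have e1 : Set.InjOn (Function.update z i c) T ↔ Set.InjOn z T :=
      Set.EqOn.injOn_iff fun j hj => Function.update_of_ne (by rintro rfl; exact hi' hj) _ _
    have e2 : Function.update z i c '' (T : Set ι) = z '' T := by
      refine Set.image_congr fun j hj => Function.update_of_ne (by rintro rfl; exact hi' hj) _ _
    rw [e1, e2, Finset.mem_image]
    simp only [Set.mem_image, Finset.mem_coe]
  by_cases hz : Set.InjOn z T
  · have h1 : ∀ c : γ, DD (insert i T) (Function.update z i c) =
        if c ∉ T.image z then wt (Fintype.card γ) (T.card + 1) else 0 := by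
      intro c
      unfold DD
      simp only [hinj, hz, true_and, Finset.card_insert_of_notMem hi]
    rw [Finset.sum_congr rfl fun c _ => h1 c, ← Finset.sum_filter, Finset.sum_const, nsmul_eq_mul]
    have h2 : ((univ : Finset γ).filter fun c => c ∉ T.image z).card =
        Fintype.card γ - T.card := by
      rw [Finset.filter_not, Finset.card_sdiff_of_subset (Finset.filter_subset _ _),
        Finset.card_univ]
      congr 1
      rw [Finset.filter_mem_eq_inter, Finset.univ_inter, Finset.card_image_of_injOn hz]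
    rw [h2, wt_succ]
    unfold DD
    rw [if_pos hz, Nat.cast_sub (by omega)]
    have h3 : ((T.card : ℕ) : ℝ) < (Fintype.card γ : ℝ) := by exact_mod_cast hT
    have h4 : ((Fintype.card γ : ℝ) - (T.card : ℝ)) ≠ 0 := by
      intro h
      linarith
    field_simp
  · rw [DD_of_not hz (Finset.Subset.refl T), mul_zero]
    refine Finset.sum_eq_zero fun c _ => ?_
    unfold DD
    rw [if_neg]
    rw [hinj]
    exact fun h => hz h.1

theorem PP_congr {I S : Finset ι} {z z' : ι → γ} (h : ∀ i ∈ I ∪ S, z i = z' i) :
    PP I S z = PP I S z' := by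
  unfold PP
  refine Finset.sum_congr rfl fun T hT => ?_
  rw [DD_congr fun i hi => h i ?_]
  rcases Finset.mem_union.mp hi with h1 | h1
  · exact Finset.mem_union_left _ h1
  · exact Finset.mem_union_right _ (Finset.mem_powerset.mp hT h1)

theorem PP_of_not {I S : Finset ι} {z : ι → γ} (h : ¬ Set.InjOn z I) : PP I S z = 0 := by
  unfold PP
  refine Finset.sum_eq_zero fun T _ => ?_
  rw [DD_of_not h Finset.subset_union_left, mul_zero]

theorem PP_empty (I : Finset ι) (z : ι → γ) : PP I ∅ z = DD I z := by
  unfold PP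
  simp

theorem PP_pure {I S : Finset ι} (hIS : Disjoint S I) (h : I.card + S.card ≤ Fintype.card γ)
    {i : ι} (hi : i ∈ S) (z : ι → γ) : ∑ c : γ, PP I S (Function.update z i c) = 0 := by
  obtain ⟨S', hiS', rfl⟩ : ∃ S', i ∉ S' ∧ S = insert i S' :=
    ⟨S.erase i, Finset.notMem_erase _ _, (Finset.insert_erase hi).symm⟩
  have hiI : i ∉ I := Finset.disjoint_left.mp hIS hi
  rw [Finset.card_insert_of_notMem hiS'] at h
  unfold PP
  rw [Finset.sum_comm, Finset.sum_powerset_insert hiS', ← Finset.sum_add_distrib]
  refine Finset.sum_eq_zero fun T hT => ?_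
  have hTS := Finset.mem_powerset.mp hT
  have hiT : i ∉ T := fun h' => hiS' (hTS h')
  have hiIT : i ∉ I ∪ T := by
    rw [Finset.mem_union]
    tauto
  have hc : (I ∪ T).card + 1 ≤ Fintype.card γ := by
    have h1 := Finset.card_union_le I T
    have h2 := Finset.card_le_card hTS
    omega
  rw [← Finset.mul_sum, ← Finset.mul_sum, Finset.union_insert]
  rw [sum_DD_upd hiIT hc]
  simp only [DD_upd hiIT, Finset.sum_const, Finset.card_univ, nsmul_eq_mul]
  rw [Finset.card_insert_of_notMem hiT]
  ring

theorem PP_insert {I S : Finset ι} {j : ι} (hj : j ∉ S) (z : ι → γ) :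
    PP I (insert j S) z = - PP I S z + PP (insert j I) S z := by
  unfold PP
  rw [Finset.sum_powerset_insert hj, ← Finset.sum_neg_distrib]
  congr 1
  · refine Finset.sum_congr rfl fun T _ => ?_
    rw [Finset.card_insert_of_notMem hj]
    ring
  · refine Finset.sum_congr rfl fun T hT => ?_
    have hjT : j ∉ T := fun h => hj (Finset.mem_powerset.mp hT h)
    rw [Finset.card_insert_of_notMem hj, Finset.card_insert_of_notMem hjT, Finset.union_insert,
      Finset.insert_union]
    ring

theorem PP_sum {S J : Finset ι} (hJ : Disjoint S J) (z : ι → γ) :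
    ∀ I : Finset ι, ∑ S0 ∈ J.powerset, PP I (S ∪ S0) z = PP (I ∪ J) S z := by
  induction J using Finset.induction_on with
  | empty =>
    intro I
    simp
  | insert j J hjJ ih =>
    intro I
    have hjS : j ∉ S := fun h => Finset.disjoint_left.mp hJ h (Finset.mem_insert_self _ _)
    have hJ' : Disjoint S J := Finset.disjoint_of_subset_right (Finset.subset_insert _ _) hJ
    rw [Finset.sum_powerset_insert hjJ, ← Finset.sum_add_distrib]
    have h1 : ∀ S0 ∈ J.powerset, PP I (S ∪ S0) z + PP I (S ∪ insert j S0) z =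
        PP (insert j I) (S ∪ S0) z := by
      intro S0 hS0
      have h2 : j ∉ S ∪ S0 := by
        rw [Finset.mem_union]
        rintro (h | h)
        · exact hjS h
        · exact hjJ (Finset.mem_powerset.mp hS0 h)
      rw [Finset.union_insert, PP_insert h2]
      ring
    rw [Finset.sum_congr rfl h1, ih hJ']
    congr 1
    rw [Finset.insert_union, Finset.union_insert]

theorem DD_union_le {I T : Finset ι} (h : 2 * (I.card + T.card) ≤ Fintype.card γ) (z : ι → γ) :
    DD (I ∪ T) z ≤ 2 ^ T.card * DD I z := by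
  by_cases hz : Set.InjOn z (I ∪ T : Finset ι)
  · have hzI : Set.InjOn z I := hz.mono (by exact_mod_cast Finset.subset_union_left)
    unfold DD
    rw [if_pos hz, if_pos hzI]
    obtain ⟨e, he⟩ : ∃ e, (I ∪ T).card = I.card + e ∧ e ≤ T.card := by
      have h1 := Finset.card_union_le I T
      have h2 : I.card ≤ (I ∪ T).card := Finset.card_le_card Finset.subset_union_left
      exact ⟨(I ∪ T).card - I.card, by omega, by omega⟩
    rw [he.1]
    refine (wt_add_le (by omega)).trans ?_
    refine mul_le_mul_of_nonneg_right ?_ (wt_pos (by omega)).le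
    exact pow_le_pow_right₀ (by norm_num) he.2
  · rw [DD_of_not hz (Finset.Subset.refl _)]
    have := DD_nonneg (T := I) (z := z) (by omega)
    positivity

theorem abs_PP_le {I S : Finset ι} (h : 2 * (I.card + S.card) ≤ Fintype.card γ) (z : ι → γ) :
    |PP I S z| ≤ 4 ^ S.card * DD I z := by
  unfold PP
  refine (Finset.abs_sum_le_sum_abs _ _).trans ?_
  have h1 : ∀ T ∈ S.powerset, |(-1 : ℝ) ^ (S.card + T.card) * DD (I ∪ T) z| ≤
      2 ^ S.card * DD I z := by
    intro T hT
    have hTS := Finset.card_le_card (Finset.mem_powerset.mp hT)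
    have h0 : (I ∪ T).card ≤ Fintype.card γ := by
      have := Finset.card_union_le I T
      omega
    rw [abs_mul, abs_pow, abs_neg, abs_one, one_pow, one_mul, abs_of_nonneg (DD_nonneg h0)]
    refine (DD_union_le (by omega) z).trans ?_
    refine mul_le_mul_of_nonneg_right ?_ (DD_nonneg (by omega))
    exact pow_le_pow_right₀ (by norm_num) hTS
  refine (Finset.sum_le_sum h1).trans ?_
  rw [Finset.sum_const, Finset.card_powerset, nsmul_eq_mul]
  have h2 : (4 : ℝ) ^ S.card = 2 ^ S.card * 2 ^ S.card := by
    rw [← mul_pow]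
    norm_num
  rw [h2]
  push_cast
  linarith

/-- splitting of the kernel -/
theorem KK_split {I J : Finset ι} (hIJ : Disjoint J I) (D : ℕ) (z : ι → γ) :
    KK I D z =
      ∑ S ∈ univ.filter (fun S : Finset ι => Disjoint S (I ∪ J) ∧ S.card + J.card ≤ D),
        PP (I ∪ J) S z +
      ∑ S ∈ univ.filter (fun S : Finset ι => Disjoint S I ∧ S.card ≤ D ∧
        D < (S \ J).card + J.card), PP I S z := by
  unfold KK
  rw [← Finset.sum_filter_add_sum_filter_not (univ.filter fun S : Finset ι =>
    Disjoint S I ∧ S.card ≤ D) (fun S => (S \ J).card + J.card ≤ D)]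
  congr 1
  · rw [Finset.filter_filter]
    rw [← Finset.sum_fiberwise_of_maps_to (s := univ.filter fun S : Finset ι =>
      (Disjoint S I ∧ S.card ≤ D) ∧ (S \ J).card + J.card ≤ D)
      (t := univ.filter (fun S : Finset ι => Disjoint S (I ∪ J) ∧ S.card + J.card ≤ D))
      (g := fun S => S \ J) (f := fun S => PP I S z)]
    · refine Finset.sum_congr rfl fun S1 hS1 => ?_
      obtain ⟨-, hS1a, hS1b⟩ := Finset.mem_filter.mp hS1
      rw [Finset.disjoint_union_right] at hS1a
      rw [← PP_sum hS1a.2 z I]
      refine Finset.sum_nbij' (fun S => S ∩ J) (fun S0 => S1 ∪ S0) ?_ ?_ ?_ ?_ ?_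
      · intro S _
        exact Finset.mem_powerset.mpr Finset.inter_subset_right
      · intro S0 hS0
        have hS0' := Finset.mem_powerset.mp hS0
        have e1 : (S1 ∪ S0) \ J = S1 := by
          rw [Finset.union_sdiff_distrib, Finset.sdiff_eq_empty_iff_subset.mpr hS0',
            Finset.union_empty, Finset.sdiff_eq_self_of_disjoint hS1a.2]
        rw [Finset.mem_filter, Finset.mem_filter]
        refine ⟨⟨Finset.mem_univ _, ⟨?_, ?_⟩, ?_⟩, e1⟩
        · rw [Finset.disjoint_union_left]
          exact ⟨hS1a.1, Finset.disjoint_of_subset_left hS0' hIJ⟩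
        · have := Finset.card_union_le S1 S0
          have := Finset.card_le_card hS0'
          omega
        · rw [e1]
          exact hS1b
      · intro S hS
        obtain ⟨-, hS2⟩ := Finset.mem_filter.mp hS
        rw [← hS2]
        exact Finset.sdiff_union_inter S J
      · intro S0 hS0
        have hS0' := Finset.mem_powerset.mp hS0
        rw [Finset.union_inter_distrib_right, Finset.disjoint_iff_inter_eq_empty.mp hS1a.2,
          Finset.empty_union]
        exact Finset.inter_eq_left.mpr hS0'
      · intro S hS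
        obtain ⟨-, hS2⟩ := Finset.mem_filter.mp hS
        congr 1
        rw [← hS2]
        exact (Finset.sdiff_union_inter S J).symm
    · intro S hS
      obtain ⟨-, ⟨h1, h2⟩, h3⟩ := Finset.mem_filter.mp hS
      rw [Finset.mem_filter]
      refine ⟨Finset.mem_univ _, ?_, h3⟩
      rw [Finset.disjoint_union_right]
      exact ⟨Finset.disjoint_of_subset_left Finset.sdiff_subset h1, Finset.sdiff_disjoint⟩
  · rw [Finset.filter_filter]
    refine Finset.sum_congr ?_ fun _ _ => rfl
    ext S
    simp only [Finset.mem_filter, Finset.mem_univ, true_and, not_le]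
    tauto

/-- the kernel at a colouring which is not injective on a small set -/
theorem KK_of_not {I J : Finset ι} (D : ℕ) {z : ι → γ} (hz : ¬ Set.InjOn z J) :
    KK I D z =
      ∑ S ∈ univ.filter (fun S : Finset ι => Disjoint S I ∧ S.card ≤ D ∧
        D < (S \ (J \ I)).card + (J \ I).card), PP I S z := by
  rw [KK_split (show Disjoint (J \ I) I from Finset.sdiff_disjoint) D z]
  rw [Finset.sum_eq_zero, zero_add]
  intro S _
  refine PP_of_not fun h => hz (h.mono ?_)
  have : J ⊆ I ∪ J \ I := by
    intro i hi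
    by_cases h : i ∈ I
    · exact Finset.mem_union_left _ h
    · exact Finset.mem_union_right _ (Finset.mem_sdiff.mpr ⟨hi, h⟩)
  exact_mod_cast this

end Pool.Agent.H58.LG
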