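import Pool.Agent.H58.LG.Lev
import Pool.Agent.H58.LG.Psd

/-! Spread functions: decay of correlations, selection of a spread part, sums over small sets. -/

set_option autoImplicit false
set_option linter.unusedSectionVars false

namespace Pool.Agent.H58.LG

open Finset

variable {ι α γ : Type*} [Fintype ι] [DecidableEq ι] [Fintype α] [DecidableEq α] [Fintype γ]
  [DecidableEq γ]

/-- the transversals which agree with `b` on `T` -/
def agr (T : Finset ι) (b : ι → α) : Finset (ι → α) := univ.filter fun x => ∀ i ∈ T, x i = b i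

theorem mem_agr {T : Finset ι} {b x : ι → α} : x ∈ agr T b ↔ ∀ i ∈ T, x i = b i := by
  simp [agr]

/-- `f` is spread outside `F`, relative to the mass `A` -/
def Spread (F : Finset ι) (κ A : ℝ) (f : (ι → α) → ℝ) : Prop :=
  ∀ T : Finset ι, Disjoint T F → ∀ b : ι → α, ∑ x ∈ agr T b, f x ≤ κ ^ T.card * A

theorem Spread.mono {F : Finset ι} {κ A : ℝ} {f f' : (ι → α) → ℝ} (h : Spread F κ A f)
    (hf : ∀ x, f' x ≤ f x) : Spread F κ A f' :=
  fun T hT b => (Finset.sum_le_sum fun x _ => hf x).trans (h T hT b)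

/-- decay of correlations -/
theorem decay [Nonempty γ] {p : ℕ} (hp : 1 ≤ p) {F S : Finset ι} (hSF : Disjoint S F)
    {Φ : (ι → γ) → ℝ} (hΦ : Pure S Φ) (hdep : ∀ z z', (∀ i ∈ F ∪ S, z i = z' i) → Φ z = Φ z')
    {M : ℝ} (hM0 : 0 ≤ M) (hM : ∀ z, |Φ z| ≤ M) {x0 : ι → α} {f : (ι → α) → ℝ} {κ A : ℝ}
    (hκ : 0 ≤ κ) (hf0 : ∀ x, 0 ≤ f x) (hfF : ∀ x, f x ≠ 0 → ∀ i ∈ F, x i = x0 i)
    (hsp : Spread F κ A f) {g : (ι → α → γ) → ℝ} {b0 G : ℝ}
    (hg0 : ∀ y, 0 ≤ g y) (hgb : ∀ y, g y ≤ b0) (hG : ∑ y, g y ≤ G)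
    (hb : b0 * Fintype.card (ι → α → γ) ≤ 2 ^ p * G) {h : ℝ} (hh0 : 0 ≤ h)
    (hh : 8 * p * κ ≤ h ^ 2) :
    |∑ x, ∑ y, f x * g y * Φ (zz x y)| ≤ 2 * A * G * M * h ^ S.card := by
  classical
  have hA : ∑ x, f x ≤ A := by
    have := hsp ∅ (Finset.disjoint_empty_left _) x0
    rw [Finset.card_empty, pow_zero, one_mul] at this
    have e : agr (∅ : Finset ι) x0 = univ := by
      ext x
      simp [mem_agr]
    rwa [e] at this
  have hA0 : 0 ≤ A := (Finset.sum_nonneg fun x _ => hf0 x).trans hA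
  have hG0 : 0 ≤ G := (Finset.sum_nonneg fun y _ => hg0 y).trans hG
  obtain ⟨β, hβ⟩ : ∃ β : (ι → α) → ℝ, ∀ x, β x = ∑ y, g y * Φ (zz x y) := ⟨_, fun _ => rfl⟩
  obtain ⟨π, hπ⟩ : ∃ π : (ι → α) → ι → α, ∀ x, π x = fun i => if i ∈ S then x i else x0 i :=
    ⟨_, fun _ => rfl⟩
  have hπs : ∀ x ∈ (univ : Finset (ι → α)), π x ∈ slice S x0 := by
    intro x _
    rw [mem_slice]
    intro i hi
    rw [hπ]
    simp only
    rw [if_neg hi]
  obtain ⟨a, ha⟩ : ∃ a : (ι → α) → ℝ, ∀ b, a b = ∑ x ∈ univ.filter (fun x => π x = b), f x :=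
    ⟨_, fun _ => rfl⟩
  have h1 : ∑ x, ∑ y, f x * g y * Φ (zz x y) = ∑ b ∈ slice S x0, a b * β b := by
    have e1 : ∀ x : ι → α, ∑ y, f x * g y * Φ (zz x y) = f x * β (π x) := by
      intro x
      by_cases hx : f x = 0
      · rw [hx, zero_mul]
        exact Finset.sum_eq_zero fun y _ => by rw [zero_mul, zero_mul]
      · rw [hβ, Finset.mul_sum]
        refine Finset.sum_congr rfl fun y _ => ?_
        rw [mul_assoc]
        congr 2
        refine hdep _ _ fun i hi => ?_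
        unfold zz
        congr 1
        rw [hπ]
        simp only
        by_cases hiS : i ∈ S
        · rw [if_pos hiS]
        · rw [if_neg hiS]
          exact hfF x hx i ((Finset.mem_union.mp hi).resolve_right hiS)
    rw [Finset.sum_congr rfl fun x _ => e1 x]
    rw [← Finset.sum_fiberwise_of_maps_to hπs fun x => f x * β (π x)]
    refine Finset.sum_congr rfl fun b _ => ?_
    rw [ha, Finset.sum_mul]
    refine Finset.sum_congr rfl fun x hx => ?_
    rw [(Finset.mem_filter.mp hx).2]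
  have ha0 : ∀ b, 0 ≤ a b := fun b => by rw [ha]; exact Finset.sum_nonneg fun x _ => hf0 x
  have haκ : ∀ b ∈ slice S x0, a b ≤ κ ^ S.card * A := by
    intro b _
    rw [ha]
    refine le_trans ?_ (hsp S hSF b)
    refine Finset.sum_le_sum_of_subset_of_nonneg ?_ fun x _ _ => hf0 x
    intro x hx
    rw [mem_agr]
    intro i hi
    rw [← (Finset.mem_filter.mp hx).2, hπ]
    simp only
    rw [if_pos hi]
  have haA : ∑ b ∈ slice S x0, a b ≤ A := by
    have : ∑ b ∈ slice S x0, a b = ∑ x, f x := by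
      simp only [ha]
      exact Finset.sum_fiberwise_of_maps_to hπs f
    rw [this]
    exact hA
  have h2 : ∑ b ∈ slice S x0, a b ^ 2 ≤ κ ^ S.card * A ^ 2 := by
    calc ∑ b ∈ slice S x0, a b ^ 2 ≤ ∑ b ∈ slice S x0, (κ ^ S.card * A) * a b := by
          refine Finset.sum_le_sum fun b hb => ?_
          rw [sq]
          exact mul_le_mul_of_nonneg_right (haκ b hb) (ha0 b)
      _ = (κ ^ S.card * A) * ∑ b ∈ slice S x0, a b := by rw [Finset.mul_sum]
      _ ≤ (κ ^ S.card * A) * A := mul_le_mul_of_nonneg_left haA (by positivity)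
      _ = _ := by ring
  have h3 : ∑ b ∈ slice S x0, β b ^ 2 ≤ 2 * G ^ 2 * M ^ 2 * (8 * p) ^ S.card := by
    simp only [hβ]
    exact level hp hΦ hM x0 g hg0 hgb hG hb
  rw [h1]
  have h4 : (∑ b ∈ slice S x0, a b * β b) ^ 2 ≤ (2 * A * G * M * h ^ S.card) ^ 2 := by
    calc (∑ b ∈ slice S x0, a b * β b) ^ 2
        ≤ (∑ b ∈ slice S x0, a b ^ 2) * ∑ b ∈ slice S x0, β b ^ 2 :=
          Finset.sum_mul_sq_le_sq_mul_sq _ _ _
      _ ≤ (κ ^ S.card * A ^ 2) * (2 * G ^ 2 * M ^ 2 * (8 * p) ^ S.card) :=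
          mul_le_mul h2 h3 (by positivity) (by positivity)
      _ = 2 * A ^ 2 * G ^ 2 * M ^ 2 * (8 * p * κ) ^ S.card := by
          rw [mul_pow (8 * (p : ℝ)) κ]
          ring
      _ ≤ 2 * A ^ 2 * G ^ 2 * M ^ 2 * (h ^ 2) ^ S.card := by
          refine mul_le_mul_of_nonneg_left ?_ (by positivity)
          exact pow_le_pow_left₀ (by positivity) hh _
      _ ≤ 4 * A ^ 2 * G ^ 2 * M ^ 2 * (h ^ 2) ^ S.card := by
          have : 0 ≤ A ^ 2 * G ^ 2 * M ^ 2 * (h ^ 2) ^ S.card := by positivity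
          linarith
      _ = _ := by
          rw [← pow_mul, mul_comm 2 S.card, pow_mul]
          ring
  exact abs_le_of_sq_le_sq h4 (by positivity)

/-- selection of a spread part -/
theorem select {F : Finset ι} {κ : ℝ} (hκ : 0 < κ) (x0 : ι → α) {f : (ι → α) → ℝ}
    (hf0 : ∀ x, 0 ≤ f x) :
    ∃ (J : Finset ι) (b : ι → α), Disjoint J F ∧ κ ^ J.card * ∑ x, f x ≤ ∑ x ∈ agr J b, f x ∧
      Spread (F ∪ J) κ (∑ x ∈ agr J b, f x) (fun x => if x ∈ agr J b then f x else 0) := by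
  classical
  obtain ⟨J, hJ, hmax⟩ := Finset.exists_max_image
    (univ.filter fun J : Finset ι => Disjoint J F ∧ ∃ b : ι → α,
      κ ^ J.card * ∑ x, f x ≤ ∑ x ∈ agr J b, f x) (fun J => J.card)
    ⟨∅, by
      rw [Finset.mem_filter]
      refine ⟨Finset.mem_univ _, Finset.disjoint_empty_left _, x0, ?_⟩
      have e : agr (∅ : Finset ι) x0 = univ := by
        ext x
        simp [mem_agr]
      rw [e, Finset.card_empty, pow_zero, one_mul]⟩
  obtain ⟨-, hJF, b, hb⟩ := Finset.mem_filter.mp hJ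
  refine ⟨J, b, hJF, hb, fun T hT c => ?_⟩
  rw [Finset.disjoint_union_right] at hT
  rw [← Finset.sum_filter, Finset.filter_mem_eq_inter]
  rcases T.eq_empty_or_nonempty with h0 | h0
  · subst h0
    rw [Finset.card_empty, pow_zero, one_mul]
    exact Finset.sum_le_sum_of_subset_of_nonneg Finset.inter_subset_right fun x _ _ => hf0 x
  · obtain ⟨d, hd⟩ : ∃ d : ι → α, d = fun i => if i ∈ J then b i else c i := ⟨_, rfl⟩
    have h1 : agr T c ∩ agr J b ⊆ agr (J ∪ T) d := by
      intro x hx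
      obtain ⟨hx1, hx2⟩ := Finset.mem_inter.mp hx
      rw [mem_agr] at hx1 hx2 ⊢
      intro i hi
      rw [hd]
      simp only
      by_cases hiJ : i ∈ J
      · rw [if_pos hiJ]
        exact hx2 i hiJ
      · rw [if_neg hiJ]
        exact hx1 i ((Finset.mem_union.mp hi).resolve_left hiJ)
    have hcard : (J ∪ T).card = J.card + T.card :=
      Finset.card_union_of_disjoint hT.2.symm
    have h2 : ∑ x ∈ agr (J ∪ T) d, f x < κ ^ (J ∪ T).card * ∑ x, f x := by
      by_contra hcon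
      push Not at hcon
      have h3 := hmax (J ∪ T) (by
        rw [Finset.mem_filter]
        refine ⟨Finset.mem_univ _, ?_, d, hcon⟩
        rw [Finset.disjoint_union_left]
        exact ⟨hJF, hT.1⟩)
      rw [hcard] at h3
      have := Finset.card_pos.mpr h0
      omega
    calc ∑ x ∈ agr T c ∩ agr J b, f x ≤ ∑ x ∈ agr (J ∪ T) d, f x :=
          Finset.sum_le_sum_of_subset_of_nonneg h1 fun x _ _ => hf0 x
      _ ≤ κ ^ (J ∪ T).card * ∑ x, f x := h2.le
      _ = κ ^ T.card * (κ ^ J.card * ∑ x, f x) := by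
          rw [hcard, pow_add]
          ring
      _ ≤ κ ^ T.card * ∑ x ∈ agr J b, f x := mul_le_mul_of_nonneg_left hb (by positivity)

/-- sums over small sets -/
theorem sum_small (D : ℕ) {a : ℝ} (ha : 0 ≤ a) :
    ∑ S ∈ univ.filter (fun S : Finset ι => S.card ≤ D), a ^ S.card ≤
      (1 + Fintype.card ι * a) ^ D := by
  rw [Finset.sum_filter, ← Finset.powerset_univ, Finset.sum_powerset_apply_card
    (fun j => if j ≤ D then a ^ j else 0)]
  have h1 : ∀ j : ℕ, (univ : Finset ι).card.choose j • (if j ≤ D then a ^ j else 0) ≤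
      if j ≤ D then (D.choose j : ℝ) * (Fintype.card ι * a) ^ j else 0 := by
    intro j
    rw [Finset.card_univ, nsmul_eq_mul]
    split_ifs with h
    · have h2 : ((Fintype.card ι).choose j : ℝ) ≤ (Fintype.card ι : ℝ) ^ j := by
        exact_mod_cast Nat.choose_le_pow (Fintype.card ι) j
      have h3 : (1 : ℝ) ≤ D.choose j := by
        exact_mod_cast Nat.choose_pos h
      have h4 : 0 ≤ (Fintype.card ι * a) ^ j := by positivity
      calc ((Fintype.card ι).choose j : ℝ) * a ^ j ≤ (Fintype.card ι : ℝ) ^ j * a ^ j :=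
            mul_le_mul_of_nonneg_right h2 (by positivity)
        _ = 1 * (Fintype.card ι * a) ^ j := by rw [mul_pow, one_mul]
        _ ≤ _ := mul_le_mul_of_nonneg_right h3 h4
    · simp
  refine (Finset.sum_le_sum fun j _ => h1 j).trans ?_
  rw [← Finset.sum_filter]
  have e : (1 + (Fintype.card ι : ℝ) * a) ^ D =
      ∑ j ∈ range (D + 1), (D.choose j : ℝ) * (Fintype.card ι * a) ^ j := by
    rw [add_comm (1 : ℝ), add_pow]
    refine Finset.sum_congr rfl fun j _ => ?_
    rw [one_pow, mul_one, mul_comm]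
  rw [e]
  have h2 : (range ((univ : Finset ι).card + 1)).filter (fun j => j ≤ D) ⊆ range (D + 1) := by
    intro j hj
    rw [Finset.mem_range]
    have := (Finset.mem_filter.mp hj).2
    omega
  exact Finset.sum_le_sum_of_subset_of_nonneg h2 fun j _ _ => by positivity

theorem geom_le {ρ : ℝ} (h0 : 0 ≤ ρ) (h1 : ρ ≤ 1 / 2) (n : ℕ) : ∑ i ∈ range n, ρ ^ i ≤ 2 := by
  induction n with
  | zero => simp
  | succ n ih =>
    rw [Finset.sum_range_succ']
    have : ∑ i ∈ range n, ρ ^ (i + 1) = ρ * ∑ i ∈ range n, ρ ^ i := by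
      rw [Finset.mul_sum]
      exact Finset.sum_congr rfl fun i _ => by ring
    rw [this, pow_zero]
    have h2 : 0 ≤ ∑ i ∈ range n, ρ ^ i := Finset.sum_nonneg fun i _ => by positivity
    nlinarith

/-- sums over large sets -/
theorem sum_large (s0 : ℕ) {h ρ : ℝ} (hh : 0 ≤ h) (hρ : Fintype.card ι * h ≤ ρ) (hρ1 : ρ ≤ 1 / 2) :
    ∑ S ∈ univ.filter (fun S : Finset ι => s0 ≤ S.card), h ^ S.card ≤ 2 * ρ ^ s0 := by
  have hρ0 : 0 ≤ ρ := le_trans (by positivity) hρ
  rw [Finset.sum_filter, ← Finset.powerset_univ, Finset.sum_powerset_apply_card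
    (fun j => if s0 ≤ j then h ^ j else 0)]
  have h1 : ∀ j : ℕ, (univ : Finset ι).card.choose j • (if s0 ≤ j then h ^ j else 0) ≤
      if s0 ≤ j then ρ ^ j else 0 := by
    intro j
    rw [Finset.card_univ, nsmul_eq_mul]
    split_ifs with hj
    · have h2 : ((Fintype.card ι).choose j : ℝ) ≤ (Fintype.card ι : ℝ) ^ j := by
        exact_mod_cast Nat.choose_le_pow (Fintype.card ι) j
      calc ((Fintype.card ι).choose j : ℝ) * h ^ j ≤ (Fintype.card ι : ℝ) ^ j * h ^ j :=
            mul_le_mul_of_nonneg_right h2 (by positivity)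
        _ = (Fintype.card ι * h) ^ j := by rw [mul_pow]
        _ ≤ ρ ^ j := pow_le_pow_left₀ (by positivity) hρ j
    · simp
  refine (Finset.sum_le_sum fun j _ => h1 j).trans ?_
  rw [← Finset.sum_filter]
  obtain ⟨n, hn⟩ : ∃ n, n = (univ : Finset ι).card + 1 := ⟨_, rfl⟩
  rw [← hn]
  have h2 : ∑ j ∈ (range n).filter (fun j => s0 ≤ j), ρ ^ j ≤ ∑ i ∈ range n, ρ ^ (s0 + i) := by
    have h3 : (range n).filter (fun j => s0 ≤ j) ⊆ (range n).image (fun i => s0 + i) := by
      intro j hj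
      obtain ⟨h4, h5⟩ := Finset.mem_filter.mp hj
      rw [Finset.mem_image]
      exact ⟨j - s0, Finset.mem_range.mpr (by have := Finset.mem_range.mp h4; omega), by omega⟩
    refine (Finset.sum_le_sum_of_subset_of_nonneg h3 fun j _ _ => by positivity).trans ?_
    rw [Finset.sum_image fun a _ b _ h => by simpa using h]
  refine h2.trans ?_
  have h3 : ∑ i ∈ range n, ρ ^ (s0 + i) = ρ ^ s0 * ∑ i ∈ range n, ρ ^ i := by
    rw [Finset.mul_sum]
    exact Finset.sum_congr rfl fun i _ => by rw [pow_add]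
  rw [h3]
  have := geom_le hρ0 hρ1 n
  have h4 : 0 ≤ ρ ^ s0 := by positivity
  nlinarith

end Pool.Agent.H58.LG
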