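import Pool.Agent.H58.LG.Main

/-!
Quantified circuits.
-/

set_option linter.unusedSectionVars false

set_option autoImplicit false

namespace Pool.Agent.H58.LG

open Finset

/-- A circuit whose gates are indexed by any finite type. -/
theorem exists_circuit {n R : ℕ} {ε : ℝ} {T : Type} [Fintype T] [DecidableEq T]
    (fn : T → SimpleGraph (Fin n) → Prop) (ins : T → Finset T) (special : Finset T)
    (rank : T → ℕ) (hrank : ∀ i, ∀ j ∈ ins i, rank j < rank i)
    (gate : ∀ i, (∃ u v, ∀ G, fn i G ↔ G.Adj u v) ∨ (∀ G, fn i G ↔ ∀ j ∈ ins i, fn j G) ∨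
      (∀ G, fn i G ↔ ∃ j ∈ ins i, fn j G) ∨
      (∃ P : Program T, P.num ≤ R ∧ P.Margin (ins i) ε ∧
        ∀ G, fn i G ↔ P.Accepts (ins i) fun j => fn j G) ∨
      (i ∈ special ∧ ∀ G H, (∀ j ∈ ins i, fn j G ↔ fn j H) → (fn i G ↔ fn i H))) :
    ∃ (C : Circuit n (Fintype.card T) R ε) (e : T ≃ Fin (Fintype.card T)),
      (∀ i, C.fn (e i) = fn i) ∧ (∀ i, C.ins (e i) = (ins i).map e.toEmbedding) ∧
      C.special = special.map e.toEmbedding := by
  classical
  set N := Fintype.card T with hN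
  let g : T → ℕ ×ₗ Fin N := fun t => toLex (rank t, Fintype.equivFin T t)
  have hg : Function.Injective g := by
    intro a b hab
    have h1 : (rank a, Fintype.equivFin T a) = (rank b, Fintype.equivFin T b) :=
      toLex.injective hab
    exact (Fintype.equivFin T).injective (Prod.ext_iff.1 h1).2
  have hF : (univ.image g).card = N := by
    rw [Finset.card_image_of_injective _ hg, Finset.card_univ]
  let h : T ≃ (univ.image g : Finset (ℕ ×ₗ Fin N)) := Equiv.ofBijective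
    (fun t => ⟨g t, Finset.mem_image_of_mem _ (Finset.mem_univ t)⟩) ⟨fun a b hab =>
      hg (Subtype.ext_iff.1 hab), fun b => by
        obtain ⟨t, _, ht⟩ := Finset.mem_image.1 b.2
        exact ⟨t, Subtype.ext ht⟩⟩
  let e : T ≃ Fin N := h.trans ((univ.image g).orderIsoOfFin hF).symm.toEquiv
  have he : ∀ i j, rank j < rank i → e j < e i := by
    intro i j hij
    show ((univ.image g).orderIsoOfFin hF).symm (h j) < ((univ.image g).orderIsoOfFin hF).symm (h i)
    rw [OrderIso.lt_iff_lt]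
    show g j < g i
    exact Prod.Lex.toLex_lt_toLex.2 (Or.inl hij)
  have key : ∀ (i : T) (G : SimpleGraph (Fin n)) (p : Prop → Prop),
      (∀ j ∈ (ins i).map e.toEmbedding, p (fn (e.symm j) G)) ↔ ∀ j ∈ ins i, p (fn j G) := by
    intro i G p
    constructor
    · intro hh j hj
      have := hh (e j) (Finset.mem_map_of_mem e.toEmbedding hj)
      rwa [Equiv.symm_apply_apply] at this
    · intro hh j hj
      obtain ⟨j', hj', rfl⟩ := Finset.mem_map.1 hj
      show p (fn (e.symm (e j')) G)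
      rw [Equiv.symm_apply_apply]
      exact hh j' hj'
  refine ⟨⟨fun i => fn (e.symm i), fun i => (ins (e.symm i)).map e.toEmbedding,
    special.map e.toEmbedding, ?_, ?_⟩, e, ?_, ?_, rfl⟩
  · intro i j hj
    obtain ⟨j', hj', rfl⟩ := Finset.mem_map.1 hj
    have := he (e.symm i) j' (hrank _ _ hj')
    rwa [Equiv.apply_symm_apply] at this
  · intro i
    rcases gate (e.symm i) with h1 | h1 | h1 | ⟨P, h1, h2, h3⟩ | ⟨h1, h2⟩
    · exact Or.inl h1
    · refine Or.inr (Or.inl fun G => ?_)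
      rw [h1]
      exact (key _ G id).symm
    · refine Or.inr (Or.inr (Or.inl fun G => ?_))
      rw [h1]
      constructor
      · rintro ⟨j, hj, h2⟩
        refine ⟨e j, Finset.mem_map_of_mem e.toEmbedding hj, ?_⟩
        rw [Equiv.symm_apply_apply]
        exact h2
      · rintro ⟨j, hj, h2⟩
        obtain ⟨j', hj', rfl⟩ := Finset.mem_map.1 hj
        refine ⟨j', hj', ?_⟩
        have h3 : fn (e.symm (e j')) G := h2
        rwa [Equiv.symm_apply_apply] at h3
    · refine Or.inr (Or.inr (Or.inr (Or.inl ⟨P.map e.toEmbedding, h1, h2.map _, fun G => ?_⟩)))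
      rw [h3, Program.map_accepts]
      refine Program.accepts_congr fun j _ => ?_
      show fn j G ↔ fn (e.symm (e j)) G
      rw [Equiv.symm_apply_apply]
    · refine Or.inr (Or.inr (Or.inr (Or.inr ⟨?_, fun G H h3 => h2 G H fun j hj => ?_⟩)))
      · rw [Finset.mem_map]
        exact ⟨e.symm i, h1, by simp⟩
      · have := h3 (e j) (Finset.mem_map_of_mem e.toEmbedding hj)
        rwa [Equiv.symm_apply_apply] at this
  · intro i
    show fn (e.symm (e i)) = fn i
    rw [Equiv.symm_apply_apply]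
  · intro i
    show (ins (e.symm (e i))).map e.toEmbedding = _
    rw [Equiv.symm_apply_apply]

/-- Two circuits side by side and the OR or the AND of their outputs. -/
theorem join_circuit {n s₁ s₂ R : ℕ} {ε : ℝ} (C₁ : Circuit n s₁ R ε) (C₂ : Circuit n s₂ R ε)
    (o₁ : Fin s₁) (o₂ : Fin s₂) (b : Bool) :
    ∃ (N : ℕ) (C : Circuit n N R ε) (o : Fin N), N = s₁ + s₂ + 1 ∧
      (∀ G, C.fn o G ↔ if b then (C₁.fn o₁ G ∨ C₂.fn o₂ G) else (C₁.fn o₁ G ∧ C₂.fn o₂ G)) ∧
      ∀ w ∈ C.watched, (∃ i ∈ C₁.watched, C.fn w = C₁.fn i) ∨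
        (∃ i ∈ C₂.watched, C.fn w = C₂.fn i) := by
  classical
  let T := (Fin s₁ ⊕ Fin s₂) ⊕ Unit
  let fn : T → SimpleGraph (Fin n) → Prop := Sum.elim (Sum.elim C₁.fn C₂.fn)
    (fun _ G => if b then (C₁.fn o₁ G ∨ C₂.fn o₂ G) else (C₁.fn o₁ G ∧ C₂.fn o₂ G))
  let a₁ : Fin s₁ ↪ T := ⟨fun i => Sum.inl (Sum.inl i), fun i j h => Sum.inl.inj (Sum.inl.inj h)⟩
  let a₂ : Fin s₂ ↪ T := ⟨fun i => Sum.inl (Sum.inr i), fun i j h => Sum.inr.inj (Sum.inl.inj h)⟩
  let ins : T → Finset T := Sum.elim (Sum.elim (fun i => (C₁.ins i).map a₁)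
    (fun i => (C₂.ins i).map a₂)) (fun _ => {a₁ o₁, a₂ o₂})
  let special : Finset T := C₁.special.map a₁ ∪ C₂.special.map a₂
  let rank : T → ℕ := Sum.elim (Sum.elim (fun i => i.1) (fun i => i.1)) (fun _ => s₁ + s₂)
  have k₁ : ∀ (I : Finset (Fin s₁)) (G : SimpleGraph (Fin n)),
      (∀ j ∈ I.map a₁, fn j G) ↔ ∀ j ∈ I, C₁.fn j G := by
    intro I G
    simp only [Finset.mem_map, forall_exists_index, and_imp, forall_apply_eq_imp_iff₂]
    rfl
  have k₂ : ∀ (I : Finset (Fin s₂)) (G : SimpleGraph (Fin n)),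
      (∀ j ∈ I.map a₂, fn j G) ↔ ∀ j ∈ I, C₂.fn j G := by
    intro I G
    simp only [Finset.mem_map, forall_exists_index, and_imp, forall_apply_eq_imp_iff₂]
    rfl
  have k₃ : ∀ (I : Finset (Fin s₁)) (G : SimpleGraph (Fin n)),
      (∃ j ∈ I.map a₁, fn j G) ↔ ∃ j ∈ I, C₁.fn j G := by
    intro I G
    simp only [Finset.mem_map, exists_exists_and_eq_and]
    rfl
  have k₄ : ∀ (I : Finset (Fin s₂)) (G : SimpleGraph (Fin n)),
      (∃ j ∈ I.map a₂, fn j G) ↔ ∃ j ∈ I, C₂.fn j G := by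
    intro I G
    simp only [Finset.mem_map, exists_exists_and_eq_and]
    rfl
  obtain ⟨C, e, h1, h2, h3⟩ := exists_circuit (R := R) (ε := ε) fn ins special rank (by
    rintro ((i | i) | u) j hj
    · obtain ⟨j', hj', rfl⟩ := Finset.mem_map.1 hj
      exact C₁.lt i j' hj'
    · obtain ⟨j', hj', rfl⟩ := Finset.mem_map.1 hj
      exact C₂.lt i j' hj'
    · have hj' : j ∈ ({a₁ o₁, a₂ o₂} : Finset T) := hj
      rw [Finset.mem_insert, Finset.mem_singleton] at hj'
      rcases hj' with rfl | rfl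
      · show o₁.1 < s₁ + s₂
        have := o₁.2
        omega
      · show o₂.1 < s₁ + s₂
        have := o₂.2
        omega) (by
    rintro ((i | i) | u)
    · rcases C₁.gate i with h | h | h | ⟨P, g1, g2, g3⟩ | ⟨h, h'⟩
      · exact Or.inl h
      · exact Or.inr (Or.inl fun G => (h G).trans (k₁ _ G).symm)
      · exact Or.inr (Or.inr (Or.inl fun G => (h G).trans (k₃ _ G).symm))
      · refine Or.inr (Or.inr (Or.inr (Or.inl ⟨P.map a₁, g1, g2.map _, fun G => ?_⟩)))
        refine (g3 G).trans ?_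
        exact (Program.map_accepts P a₁ (C₁.ins i) fun j => fn j G).symm
      · refine Or.inr (Or.inr (Or.inr (Or.inr ⟨?_, fun G H hh => h' G H fun j hj => ?_⟩)))
        · exact Finset.mem_union_left _ (Finset.mem_map_of_mem a₁ h)
        · exact hh (a₁ j) (Finset.mem_map_of_mem a₁ hj)
    · rcases C₂.gate i with h | h | h | ⟨P, g1, g2, g3⟩ | ⟨h, h'⟩
      · exact Or.inl h
      · exact Or.inr (Or.inl fun G => (h G).trans (k₂ _ G).symm)
      · exact Or.inr (Or.inr (Or.inl fun G => (h G).trans (k₄ _ G).symm))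
      · refine Or.inr (Or.inr (Or.inr (Or.inl ⟨P.map a₂, g1, g2.map _, fun G => ?_⟩)))
        refine (g3 G).trans ?_
        exact (Program.map_accepts P a₂ (C₂.ins i) fun j => fn j G).symm
      · refine Or.inr (Or.inr (Or.inr (Or.inr ⟨?_, fun G H hh => h' G H fun j hj => ?_⟩)))
        · exact Finset.mem_union_right _ (Finset.mem_map_of_mem a₂ h)
        · exact hh (a₂ j) (Finset.mem_map_of_mem a₂ hj)
    · have e1 : ∀ G, fn (Sum.inr u) G ↔
          if b then (C₁.fn o₁ G ∨ C₂.fn o₂ G) else (C₁.fn o₁ G ∧ C₂.fn o₂ G) := fun G => Iff.rfl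
      have e2 : ∀ j, j ∈ ins (Sum.inr u) ↔ j = a₁ o₁ ∨ j = a₂ o₂ := by
        intro j
        show j ∈ ({a₁ o₁, a₂ o₂} : Finset T) ↔ _
        rw [Finset.mem_insert, Finset.mem_singleton]
      have e3 : ∀ G, fn (a₁ o₁) G ↔ C₁.fn o₁ G := fun G => Iff.rfl
      have e4 : ∀ G, fn (a₂ o₂) G ↔ C₂.fn o₂ G := fun G => Iff.rfl
      cases b
      · refine Or.inr (Or.inl fun G => ?_)
        rw [e1]
        simp only [Bool.false_eq_true, if_false]
        constructor
        · rintro ⟨h5, h6⟩ j hj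
          rcases (e2 j).1 hj with rfl | rfl
          · exact h5
          · exact h6
        · intro h5
          exact ⟨h5 _ ((e2 _).2 (Or.inl rfl)), h5 _ ((e2 _).2 (Or.inr rfl))⟩
      · refine Or.inr (Or.inr (Or.inl fun G => ?_))
        rw [e1]
        simp only [if_true]
        constructor
        · rintro (h5 | h5)
          · exact ⟨_, (e2 _).2 (Or.inl rfl), h5⟩
          · exact ⟨_, (e2 _).2 (Or.inr rfl), h5⟩
        · rintro ⟨j, hj, h5⟩
          rcases (e2 j).1 hj with rfl | rfl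
          · exact Or.inl h5
          · exact Or.inr h5)
  have hcard : Fintype.card T = s₁ + s₂ + 1 := by
    simp [T]
  refine ⟨_, C, e (Sum.inr ()), hcard, fun G => ?_, fun w hw => ?_⟩
  · rw [h1]
    exact Iff.rfl
  · obtain ⟨l, hl, hwl⟩ := Finset.mem_biUnion.1 hw
    rw [h3] at hl
    obtain ⟨l', hl', rfl⟩ := Finset.mem_map.1 hl
    have hwl' : w ∈ C.ins (e l') := hwl
    rw [h2] at hwl'
    obtain ⟨w', hw', rfl⟩ := Finset.mem_map.1 hwl'
    show (∃ i ∈ C₁.watched, C.fn (e w') = C₁.fn i) ∨ (∃ i ∈ C₂.watched, C.fn (e w') = C₂.fn i)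
    rw [h1]
    rcases Finset.mem_union.1 hl' with h | h
    · obtain ⟨i, hi, rfl⟩ := Finset.mem_map.1 h
      obtain ⟨i', hi', rfl⟩ := Finset.mem_map.1 (show w' ∈ (C₁.ins i).map a₁ from hw')
      exact Or.inl ⟨i', C₁.ins_subset hi hi', rfl⟩
    · obtain ⟨i, hi, rfl⟩ := Finset.mem_map.1 h
      obtain ⟨i', hi', rfl⟩ := Finset.mem_map.1 (show w' ∈ (C₂.ins i).map a₂ from hw')
      exact Or.inr ⟨i', C₂.ins_subset hi hi', rfl⟩

/-- A quantified circuit as one circuit. -/
theorem quant_circuit {n s R : ℕ} {ε : ℝ} : ∀ (q : ℕ) (Q : Fin q → Bool)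
    (C : (Fin q → Bool) → Circuit n s R ε) (out : (Fin q → Bool) → Fin s),
    ∃ (N : ℕ) (C' : Circuit n N R ε) (o : Fin N), N + 1 = 2 ^ q * (s + 1) ∧
      (∀ G, C'.fn o G ↔ Quantified q Q fun y => (C y).fn (out y) G) ∧
      ∀ w ∈ C'.watched, ∃ y, ∃ i ∈ (C y).watched, C'.fn w = (C y).fn i
  | 0, Q, C, out => by
    refine ⟨s, C Fin.elim0, out Fin.elim0, by rw [pow_zero, one_mul], fun G => Iff.rfl,
      fun w hw => ⟨Fin.elim0, w, hw, rfl⟩⟩
  | q + 1, Q, C, out => by
    obtain ⟨N₁, C₁, o₁, h1, h2, h3⟩ := quant_circuit q (fun i => Q i.succ)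
      (fun y => C (Fin.cons true y)) (fun y => out (Fin.cons true y))
    obtain ⟨N₂, C₂, o₂, k1, k2, k3⟩ := quant_circuit q (fun i => Q i.succ)
      (fun y => C (Fin.cons false y)) (fun y => out (Fin.cons false y))
    obtain ⟨N, C', o, g1, g2, g3⟩ := join_circuit C₁ C₂ o₁ o₂ (Q 0)
    refine ⟨N, C', o, ?_, fun G => ?_, fun w hw => ?_⟩
    · rw [g1, pow_succ]
      have : 2 ^ q * 2 * (s + 1) = 2 ^ q * (s + 1) + 2 ^ q * (s + 1) := by ring
      omega
    · rw [g2, h2, k2]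
      show _ ↔ (if Q 0 then ∃ b, Quantified q (fun i => Q i.succ)
          (fun y => (C (Fin.cons b y)).fn (out (Fin.cons b y)) G)
        else ∀ b, Quantified q (fun i => Q i.succ)
          (fun y => (C (Fin.cons b y)).fn (out (Fin.cons b y)) G))
      by_cases hQ : Q 0 = true
      · rw [if_pos hQ, if_pos hQ]
        constructor
        · rintro (h | h)
          · exact ⟨true, h⟩
          · exact ⟨false, h⟩
        · rintro ⟨b, h⟩
          cases b
          · exact Or.inr h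
          · exact Or.inl h
      · rw [if_neg hQ, if_neg hQ]
        constructor
        · rintro ⟨h, h'⟩ b
          cases b
          · exact h'
          · exact h
        · intro h
          exact ⟨h true, h false⟩
    · rcases g3 w hw with ⟨i, hi, h⟩ | ⟨i, hi, h⟩
      · obtain ⟨y, i', hi', h'⟩ := h3 i hi
        exact ⟨Fin.cons true y, i', hi', h.trans h'⟩
      · obtain ⟨y, i', hi', h'⟩ := k3 i hi
        exact ⟨Fin.cons false y, i', hi', h.trans h'⟩

/-- The steps of a chain at which a watched gate changes its value. -/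
theorem card_changes_le {n s R : ℕ} {ε : ℝ} (C : Circuit n s R ε) (hε : ε ≤ 1) {r t A : ℕ} (hr : C.special.card ≤ r)
    (ht : ∀ i ∈ C.special, (C.ins i).card ≤ t) {y : ℕ → SimpleGraph (Fin n)} (hy : Monotone y) :
    (@Finset.filter _ (fun a => ∃ i ∈ C.watched, ¬ (C.fn i (y a) ↔ C.fn i (y (a + 1))))
      (Classical.decPred _) (range A)).card ≤ t * 2 ^ r := by
  obtain ⟨g, hg, _, _, hg3⟩ := exists_subchain C C.watched y
    (fun J => @Finset.filter _ (fun j => ∃ i ∈ C.watched,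
      ¬ (C.fn i (y j) ↔ C.fn i (y (j + 1)))) (Classical.decPred _) (range J))
    (fun J => rfl) A
  exact (changes_le_few C hε hr ht (y := fun a => y (g a)) (fun a b hab => hy (hg hab)) hg3).trans
    (Nat.mul_le_mul_left _ (Nat.sub_le _ _))

/-- The lower bound for quantified circuits. -/
theorem quant_main {n L l k s q r t : ℕ} (hL : 1 ≤ L) (hLl : L ≤ l) (hnL : n ≤ 2 ^ L)
    (hk1 : 11 * l * L ≤ k) (hk2 : 2 * k ≤ n) (hln : (110 * l * L) ^ 22 ≤ n)
    (hs : 2 ^ q * (s + 1) ≤ 2 ^ l) (Q : Fin q → Bool)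
    (C : (Fin q → Bool) → Circuit n s (2 ^ l) (1 / 2 ^ l))
    (out : (Fin q → Bool) → Fin s) (hr : ∀ y, (C y).special.card ≤ r)
    (ht : ∀ y, ∀ i ∈ (C y).special, ((C y).ins i).card ≤ t)
    (hC : (∀ G : SimpleGraph (Fin n),
        Quantified q Q (fun y => (C y).fn (out y) G) ↔ ¬ G.CliqueFree k) ∨
      (∀ G : SimpleGraph (Fin n),
        Quantified q Q (fun y => (C y).fn (out y) G) ↔ G.CliqueFree k)) :
    n ^ 2 ≤ (110 * l * L) ^ 22 * (t * 2 ^ (q + r)) := by
  classical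
  have hε : (1 : ℝ) / 2 ^ l ≤ 1 := by
    rw [div_le_one (by positivity)]
    exact one_le_pow₀ (by norm_num)
  obtain ⟨N, C', o, h1, h2, h3⟩ := quant_circuit q Q C out
  obtain ⟨A, hA, y, hy, hAy⟩ := main hL hLl hnL hk1 hk2 hln (show N ≤ 2 ^ l by omega) C' o (by
    rcases hC with hC | hC
    · exact Or.inl fun G => (h2 G).trans (hC G)
    · exact Or.inr fun G => (h2 G).trans (hC G))
  refine hA.trans (Nat.mul_le_mul_left _ ?_)
  let D : (Fin q → Bool) → Finset ℕ := fun z => @Finset.filter _ (fun a => ∃ i ∈ (C z).watched,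
    ¬ ((C z).fn i (y a) ↔ (C z).fn i (y (a + 1)))) (Classical.decPred _) (range A)
  have hD : range A ⊆ (univ : Finset (Fin q → Bool)).biUnion D := by
    intro a ha
    obtain ⟨w, hw, hne⟩ := hAy a (Finset.mem_range.1 ha)
    obtain ⟨z, i, hi, h4⟩ := h3 w hw
    rw [h4] at hne
    exact Finset.mem_biUnion.2 ⟨z, Finset.mem_univ _,
      (@Finset.mem_filter _ _ (Classical.decPred _) _ _).2 ⟨ha, i, hi, hne⟩⟩
  calc A = (range A).card := (Finset.card_range A).symm
    _ ≤ ((univ : Finset (Fin q → Bool)).biUnion D).card := Finset.card_le_card hD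
    _ ≤ ∑ z : Fin q → Bool, (D z).card := Finset.card_biUnion_le
    _ ≤ ∑ _z : Fin q → Bool, t * 2 ^ r := Finset.sum_le_sum fun z _ =>
        card_changes_le (C z) hε (hr z) (ht z) hy
    _ = 2 ^ q * (t * 2 ^ r) := by
        rw [Finset.sum_const, Finset.card_univ, Fintype.card_fun, Fintype.card_bool,
          Fintype.card_fin, smul_eq_mul]
    _ = t * 2 ^ (q + r) := by ring

/-- The main theorem and two corollaries. -/
theorem main_all {n L l k s : ℕ} (hL : 1 ≤ L) (hLl : L ≤ l) (hnL : n ≤ 2 ^ L)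
    (hk1 : 11 * l * L ≤ k) (hk2 : 2 * k ≤ n) (hln : (110 * l * L) ^ 22 ≤ n)
    (hs : s ≤ 2 ^ l) (C : Circuit n s (2 ^ l) (1 / 2 ^ l)) (out : Fin s)
    (hC : (∀ G : SimpleGraph (Fin n), C.fn out G ↔ ¬ G.CliqueFree k) ∨
      (∀ G : SimpleGraph (Fin n), C.fn out G ↔ G.CliqueFree k)) :
    (∃ A : ℕ, n ^ 2 ≤ (110 * l * L) ^ 22 * A ∧
      ∃ y : ℕ → SimpleGraph (Fin n), Monotone y ∧
        ∀ a < A, ∃ i ∈ C.watched, ¬ (C.fn i (y a) ↔ C.fn i (y (a + 1)))) ∧
    (∀ (d : ℕ) (lev : Fin s → ℕ), (∀ i, ∀ j ∈ C.ins i, lev j ≤ lev i) →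
      (∀ i ∈ C.special, ∀ j ∈ C.ins i, lev j < lev i) → (∀ j ∈ C.watched, lev j < d) →
      n ^ 2 ≤ (110 * l * L) ^ 22 *
        ∏ a ∈ range d, (1 + (C.watched.filter fun j => lev j = a).card)) := by
  have hε : (1 : ℝ) / 2 ^ l ≤ 1 := by
    rw [div_le_one (by positivity)]
    exact one_le_pow₀ (by norm_num)
  obtain ⟨A, hA, y, hy, hAy⟩ := main hL hLl hnL hk1 hk2 hln hs C out hC
  refine ⟨⟨A, hA, y, hy, hAy⟩, fun d lev h1 h2 h3 => ?_⟩
  have h4 := changes_le_levels C hε lev h1 h2 h3 hy hAy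
  exact hA.trans (Nat.mul_le_mul_left _ (by omega))

end Pool.Agent.H58.LG
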