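import Pool.Agent.H58.LG.Defs

/-! Complete graphs and complete multipartite graphs. -/

set_option autoImplicit false

namespace Pool.Agent.H58.LG

/-- The graph whose edges are the pairs of distinct elements of `K`. -/
def complete {v : ℕ} (K : Finset (Fin v)) : SimpleGraph (Fin v) where
  Adj a b := a ≠ b ∧ a ∈ K ∧ b ∈ K
  symm := ⟨fun _ _ h => ⟨h.1.symm, h.2.2, h.2.1⟩⟩
  loopless := ⟨fun _ h => h.1 rfl⟩

/-- The complete multipartite graph of a colouring: the edges are the pairs of vertices with
different colours. -/
def multipartite {v q : ℕ} (c : Fin v → Fin q) : SimpleGraph (Fin v) where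
  Adj a b := c a ≠ c b
  symm := ⟨fun _ _ h => h.symm⟩
  loopless := ⟨fun _ h => h rfl⟩

open Classical in
/-- The fraction of the `k`-sets `K` such that the property `f` holds for the graph `complete K`. -/
noncomputable def cliquesAccepted {v : ℕ} (k : ℕ) (f : SimpleGraph (Fin v) → Prop) : ℝ :=
  (((Finset.univ : Finset (Fin v)).powersetCard k).filter fun K => f (complete K)).card /
    ((Finset.univ : Finset (Fin v)).powersetCard k).card

open Classical in
/-- The fraction of the colourings `c` with `q` colours such that the property `f` does not hold
for the complete multipartite graph of `c`. -/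
noncomputable def colouringsRejected {v : ℕ} (q : ℕ) (f : SimpleGraph (Fin v) → Prop) : ℝ :=
  ((Finset.univ : Finset (Fin v → Fin q)).filter fun c => ¬ f (multipartite c)).card /
    (Finset.univ : Finset (Fin v → Fin q)).card

end Pool.Agent.H58.LG
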