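import Pool.Agent.H58.LG.Avg
import Pool.Agent.H58.LG.Circ
import Pool.Agent.H58.LG.SepDefs

/-! Separating cliques from complete multipartite graphs. -/

set_option autoImplicit false
set_option linter.unusedSectionVars false

namespace Pool.Agent.H58.LG

open Finset
open Pool.Agent.H25.NM (nc nc_eq nc_congr nc_mono nc_le_card nc_false nc_true nc_equiv)

/-- a circuit without special gates -/
theorem Circuit.plain {n s R : ℕ} {ε : ℝ} (C : Circuit n s R ε) (hC : C.special = ∅)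
    (i : Fin s) : Plain R (min ε 1) C.fn i := by
  rcases C.gate i with h | h | h | ⟨P, h1, h2, h3⟩ | h
  · exact Or.inl h
  · obtain ⟨P, h1, h2, h3⟩ := exists_and (C.ins i)
    exact Or.inr (Or.inr ⟨P, C.ins i, by omega, C.lt i, h2.mono (min_le_right _ _),
      fun G => (h G).trans (h3 _).symm⟩)
  · obtain ⟨P, h1, h2, h3⟩ := exists_or (C.ins i)
    exact Or.inr (Or.inr ⟨P, C.ins i, by omega, C.lt i, h2.mono (min_le_right _ _),
      fun G => (h G).trans (h3 _).symm⟩)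
  · exact Or.inr (Or.inr ⟨P, C.ins i, h1, C.lt i, h2.mono (min_le_left _ _), h3⟩)
  · rw [hC] at h
    exact absurd h.1 (Finset.notMem_empty i)

/-- the combinatorial form -/
theorem sep_core {v k s R u l q : ℕ} {ε : ℝ} (f : Fin s → SimpleGraph (Fin v) → Prop)
    (hf : ∀ i, Plain R ε f i) (hu : 10 ≤ u) (hl : 2 ≤ l) (hk : 5 * k ≤ 2 ^ u)
    (hkl : 2 * l + 2 ≤ k) (hq : 34 * l + 22 ≤ q) (hs : s ≤ (2 ^ u) ^ l)
    (hN : R + 1 + 2 * s ≤ (2 ^ u) ^ l) (hε : 1 ≤ ε * ((2 : ℝ) ^ u) ^ l)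
    (hv : k * 2 ^ (10 * u) ≤ v) (o : Fin s) :
    nc (fun K : Finset (Fin v) => K ∈ powersetCard k univ ∧ f o (complete K)) * (2 ^ u) ^ 4 <
        2 * v.choose k ∨
      nc (fun c : Fin v → Fin q => ¬ f o (multipartite c)) * 2 ^ (2 ^ (2 * u - 5)) < q ^ v := by
  classical
  by_contra hcon
  push Not at hcon
  obtain ⟨hA, hB⟩ := hcon
  have : Nonempty (Fin q) := ⟨⟨0, by omega⟩⟩
  obtain ⟨m, hm⟩ : ∃ m, m = 2 ^ (10 * u) := ⟨_, rfl⟩
  rw [← hm] at hv
  obtain ⟨φ⟩ : Nonempty (Fin k × Fin m ↪ Fin v) := by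
    rw [Function.Embedding.nonempty_iff_card_le, Fintype.card_prod, Fintype.card_fin,
      Fintype.card_fin, Fintype.card_fin]
    exact hv
  let T : (Fin k → Fin m) → Finset (Fin v) := fun x =>
    univ.map ⟨fun i => φ (i, x i), fun i j h => (Prod.ext_iff.mp (φ.injective h)).1⟩
  have hT : ∀ x, (T x).card = k := fun x => by
    rw [Finset.card_map, Finset.card_univ, Fintype.card_fin]
  obtain ⟨σ, hσ⟩ := exists_perm (fun K => f o (complete K)) T hT
  let ψ : Fin k × Fin m ↪ Fin v := φ.trans σ.toEmbedding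
  obtain ⟨c, hc⟩ := exists_outside (γ := Fin q) ψ fun c => ¬ f o (multipartite c)
  have hcurry := nc_equiv (Equiv.curry (Fin k) (Fin m) (Fin q)).symm
    fun y : Fin k × Fin m → Fin q => ¬ f o (multipartite (Function.extend ψ y c))
  have hch : 0 < v.choose k := Nat.choose_pos (by
    calc k = k * 1 := (mul_one k).symm
      _ ≤ k * m := Nat.mul_le_mul_left _ (by rw [hm]; exact Nat.one_le_two_pow)
      _ ≤ v := hv)
  have hqv : 0 < q ^ v := by
    have : 0 < q := by omega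
    positivity
  rw [Fintype.card_fun, Fintype.card_fun, Fintype.card_prod, Fintype.card_fin, Fintype.card_fin,
    Fintype.card_fin, Fintype.card_fin, ← hcurry] at hc
  refine block (ι := Fin k) (α := Fin m) (γ := Fin q) f hf (by rw [Fintype.card_fin, hm]) hu hl
    (by rw [Fintype.card_fin]; exact hk) (by rw [Fintype.card_fin]; exact hkl)
    (by rw [Fintype.card_fin]; exact hq) hs hN hε
    (fun x => complete ((T x).map σ.toEmbedding))
    (fun y => multipartite (Function.extend ψ ((Equiv.curry (Fin k) (Fin m) (Fin q)).symm y) c))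
    ?_ o ?_ ?_
  · rintro x a b ⟨hab, ha, hb⟩
    rw [Finset.mem_map] at ha hb
    obtain ⟨a', ha', rfl⟩ := ha
    obtain ⟨b', hb', rfl⟩ := hb
    obtain ⟨i, -, rfl⟩ := Finset.mem_map.mp ha'
    obtain ⟨j, -, rfl⟩ := Finset.mem_map.mp hb'
    have hij : i ≠ j := by
      intro h
      exact hab (by rw [h])
    refine ⟨{i, j}, Finset.card_le_two, fun y hy hinj => hij ?_⟩
    refine hinj (by simp) (by simp) ?_
    by_contra hz
    refine hy ?_
    show Function.extend ψ ((Equiv.curry (Fin k) (Fin m) (Fin q)).symm y) c (ψ (i, x i)) ≠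
      Function.extend ψ ((Equiv.curry (Fin k) (Fin m) (Fin q)).symm y) c (ψ (j, x j))
    rw [ψ.injective.extend_apply, ψ.injective.extend_apply]
    exact hz
  · rw [Fintype.card_fun, Fintype.card_fin, Fintype.card_fin]
    have h1 : 2 * m ^ k ≤
        nc (fun x : Fin k → Fin m => f o (complete ((T x).map σ.toEmbedding))) * (2 ^ u) ^ 4 := by
      refine Nat.le_of_mul_le_mul_right ?_ hch
      calc 2 * m ^ k * v.choose k = 2 * v.choose k * m ^ k := by ring
        _ ≤ nc (fun K : Finset (Fin v) => K ∈ powersetCard k univ ∧ f o (complete K)) *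
            (2 ^ u) ^ 4 * m ^ k := Nat.mul_le_mul_right _ hA
        _ = nc (fun K : Finset (Fin v) => K ∈ powersetCard k univ ∧ f o (complete K)) * m ^ k *
            (2 ^ u) ^ 4 := by ring
        _ ≤ nc (fun x : Fin k → Fin m => f o (complete ((T x).map σ.toEmbedding))) *
            v.choose k * (2 ^ u) ^ 4 := Nat.mul_le_mul_right _ hσ
        _ = _ := by ring
    exact_mod_cast h1
  · have e1 : Fintype.card (Fin k → Fin m → Fin q) = q ^ (k * m) := by
      rw [Fintype.card_fun, Fintype.card_fun, Fintype.card_fin, Fintype.card_fin,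
        Fintype.card_fin, ← pow_mul, mul_comm]
    rw [e1]
    have h1 : q ^ (k * m) ≤ nc (fun y : Fin k → Fin m → Fin q => ¬ f o (multipartite
        (Function.extend ψ ((Equiv.curry (Fin k) (Fin m) (Fin q)).symm y) c))) *
          2 ^ (2 ^ (2 * u - 5)) := by
      refine Nat.le_of_mul_le_mul_right ?_ hqv
      calc q ^ (k * m) * q ^ v ≤ q ^ (k * m) *
            (nc (fun c : Fin v → Fin q => ¬ f o (multipartite c)) * 2 ^ (2 ^ (2 * u - 5))) :=
            Nat.mul_le_mul_left _ hB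
        _ = nc (fun c : Fin v → Fin q => ¬ f o (multipartite c)) * q ^ (k * m) *
            2 ^ (2 ^ (2 * u - 5)) := by ring
        _ ≤ nc (fun y : Fin k → Fin m → Fin q => ¬ f o (multipartite
            (Function.extend ψ ((Equiv.curry (Fin k) (Fin m) (Fin q)).symm y) c))) * q ^ v *
            2 ^ (2 ^ (2 * u - 5)) := Nat.mul_le_mul_right _ hc
        _ = _ := by ring
    exact_mod_cast h1

/-- **Separation.** -/
theorem sep {v k q s R M : ℕ} {ε : ℝ} (hq : 90 ≤ q) (hqk : q < k) (hv : (10 * k) ^ 11 ≤ v)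
    (hM : 3 * s + R + 1 ≤ M) (hMv : M ^ 750 < v ^ q) (hεM : 1 ≤ ε * M) (C : Circuit v s R ε)
    (hC : C.special = ∅) (o : Fin s) :
    (nc (fun K : Finset (Fin v) => K ∈ powersetCard k univ ∧ C.fn o (complete K)) : ℝ) <
        2 * (v : ℝ) ^ (-(1 / 3) : ℝ) * v.choose k ∨
      (nc (fun c : Fin v → Fin q => ¬ C.fn o (multipartite c)) : ℝ) <
        (2 : ℝ) ^ (-((v : ℝ) ^ (1 / 6 : ℝ) / 32)) * (q : ℝ) ^ v := by
  classical
  -- the power of two
  obtain ⟨u, hu1, hu2⟩ : ∃ u, k * 2 ^ (10 * u) ≤ v ∧ v < k * 2 ^ (10 * (u + 1)) := by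
    have h0 : ∃ u, v < k * 2 ^ (10 * (u + 1)) := by
      refine ⟨v, ?_⟩
      calc v < 2 ^ v := Nat.lt_two_pow_self
        _ ≤ 2 ^ (10 * (v + 1)) := Nat.pow_le_pow_right (by norm_num) (by omega)
        _ = 1 * 2 ^ (10 * (v + 1)) := (one_mul _).symm
        _ ≤ k * 2 ^ (10 * (v + 1)) := Nat.mul_le_mul_right _ (by omega)
    refine ⟨Nat.find h0, ?_, Nat.find_spec h0⟩
    rcases Nat.eq_zero_or_pos (Nat.find h0) with h | h
    · rw [h, mul_zero, pow_zero, mul_one]
      calc k ≤ 10 * k := by omega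
        _ = (10 * k) ^ 1 := (pow_one _).symm
        _ ≤ (10 * k) ^ 11 := Nat.pow_le_pow_right (by omega) (by norm_num)
        _ ≤ v := hv
    · obtain ⟨w, hw⟩ : ∃ w, Nat.find h0 = w + 1 := ⟨Nat.find h0 - 1, by omega⟩
      rw [hw]
      have := Nat.find_min h0 (show w < Nat.find h0 by omega)
      omega
  obtain ⟨z, hz⟩ : ∃ z, z = 2 ^ u := ⟨_, rfl⟩
  have hz10 : 2 ^ (10 * u) = z ^ 10 := by rw [hz, ← pow_mul, mul_comm]
  have hz10' : 2 ^ (10 * (u + 1)) = 1024 * z ^ 10 := by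
    rw [mul_add, pow_add, hz10]
    ring
  rw [hz10'] at hu2
  have hkpos : 0 < k := by omega
  -- z ≥ 6 k
  have h6 : 6 * k ≤ z := by
    by_contra hcon
    push Not at hcon
    have h1 : z ^ 10 ≤ (6 * k) ^ 10 := Nat.pow_le_pow_left hcon.le 10
    have h2 : (10 * k) ^ 11 < k * (1024 * (6 * k) ^ 10) := by
      calc (10 * k) ^ 11 ≤ v := hv
        _ < k * (1024 * z ^ 10) := hu2
        _ ≤ k * (1024 * (6 * k) ^ 10) := by gcongr
    have h3 : k * (1024 * (6 * k) ^ 10) = 61917364224 * k ^ 11 := by ring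
    have h4 : (10 * k) ^ 11 = 100000000000 * k ^ 11 := by ring
    rw [h3, h4] at h2
    have h5 : 0 < k ^ 11 := by positivity
    omega
  have hz546 : 546 ≤ z := by omega
  have hv12 : v ≤ z ^ 12 := by
    calc v ≤ k * (1024 * z ^ 10) := hu2.le
      _ ≤ z * (z * z ^ 10) := by
          have h1 : k * (1024 * z ^ 10) * 6 ≤ z * (z * z ^ 10) * 6 := by
            calc k * (1024 * z ^ 10) * 6 = (6 * k) * (1024 * z ^ 10) := by ring
              _ ≤ z * (1024 * z ^ 10) := Nat.mul_le_mul_right _ h6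
              _ ≤ z * ((z * 6) * z ^ 10) := by
                  refine Nat.mul_le_mul_left _ (Nat.mul_le_mul_right _ (by omega))
              _ = _ := by ring
          omega
      _ = z ^ 12 := by ring
  have hu8 : 10 ≤ u := by
    by_contra hcon
    push Not at hcon
    have : 2 ^ u ≤ 2 ^ 9 := Nat.pow_le_pow_right (by norm_num) (by omega)
    omega
  obtain ⟨lam, hlam⟩ : ∃ lam, lam = (q - 22) / 34 := ⟨_, rfl⟩
  have hM1 : 1 ≤ M := by omega
  have hMz : M ≤ z ^ lam := by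
    have h1 : M ^ 750 < (z ^ lam) ^ 750 := by
      calc M ^ 750 < v ^ q := hMv
        _ ≤ (z ^ 12) ^ q := Nat.pow_le_pow_left hv12 q
        _ = z ^ (12 * q) := by rw [← pow_mul]
        _ ≤ z ^ (lam * 750) := Nat.pow_le_pow_right (by omega) (by omega)
        _ = (z ^ lam) ^ 750 := by rw [← pow_mul]
    exact (lt_of_pow_lt_pow_left₀ 750 (Nat.zero_le _) h1).le
  have hMr : (1 : ℝ) ≤ M := by exact_mod_cast hM1
  have hε : (1 : ℝ) ≤ min ε 1 * ((2 : ℝ) ^ u) ^ lam := by
    have h2 : (M : ℝ) ≤ ((z ^ lam : ℕ) : ℝ) := by exact_mod_cast hMz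
    rw [hz] at h2
    push_cast at h2
    have h3 : (1 : ℝ) ≤ min ε 1 * M := by
      rcases min_cases ε 1 with h | h
      · rw [h.1]
        exact hεM
      · rw [h.1, one_mul]
        exact hMr
    have h4 : 0 ≤ min ε 1 := by
      by_contra hcon
      push Not at hcon
      have : min ε 1 * M ≤ 0 := mul_nonpos_of_nonpos_of_nonneg hcon.le (by positivity)
      linarith
    exact h3.trans (mul_le_mul_of_nonneg_left h2 h4)
  have hcore := sep_core (q := q) (k := k) (l := lam) C.fn (C.plain hC) hu8 (by omega)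
    (by omega) (by omega) (by omega) (by rw [← hz]; omega) (by rw [← hz]; omega) hε hu1 o
  rw [← hz] at hcore
  have hv0 : (0 : ℝ) < v := by
    have h1 : 0 < (10 * k) ^ 11 := by positivity
    have : 0 < v := by omega
    exact_mod_cast this
  have hz0 : (0 : ℝ) < z := by
    have : 0 < z := by omega
    exact_mod_cast this
  have hv12r : (v : ℝ) ≤ (z : ℝ) ^ (12 : ℝ) := by
    rw [show (12 : ℝ) = ((12 : ℕ) : ℝ) by norm_num, Real.rpow_natCast]
    exact_mod_cast hv12
  refine hcore.imp (fun h => ?_) fun h => ?_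
  · have h1 : (nc (fun K : Finset (Fin v) => K ∈ powersetCard k univ ∧
        C.fn o (complete K)) : ℝ) * (z : ℝ) ^ 4 < 2 * v.choose k := by exact_mod_cast h
    have h2 : ((z : ℝ) ^ 4)⁻¹ ≤ (v : ℝ) ^ (-(1 / 3) : ℝ) := by
      rw [Real.rpow_neg hv0.le]
      refine inv_anti₀ (by positivity) ?_
      calc (v : ℝ) ^ (1 / 3 : ℝ) ≤ ((z : ℝ) ^ (12 : ℝ)) ^ (1 / 3 : ℝ) :=
            Real.rpow_le_rpow hv0.le hv12r (by norm_num)
        _ = (z : ℝ) ^ (4 : ℝ) := by
            rw [← Real.rpow_mul hz0.le]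
            norm_num
        _ = (z : ℝ) ^ 4 := by
            rw [show (4 : ℝ) = ((4 : ℕ) : ℝ) by norm_num, Real.rpow_natCast]
    calc (nc (fun K : Finset (Fin v) => K ∈ powersetCard k univ ∧ C.fn o (complete K)) : ℝ)
        = nc (fun K : Finset (Fin v) => K ∈ powersetCard k univ ∧ C.fn o (complete K)) *
          (z : ℝ) ^ 4 * ((z : ℝ) ^ 4)⁻¹ := by
          field_simp
      _ < 2 * v.choose k * ((z : ℝ) ^ 4)⁻¹ := by gcongr
      _ ≤ 2 * v.choose k * (v : ℝ) ^ (-(1 / 3) : ℝ) := by gcongr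
      _ = _ := by ring
  · have h1 : (nc (fun c : Fin v → Fin q => ¬ C.fn o (multipartite c)) : ℝ) *
        (2 : ℝ) ^ (2 ^ (2 * u - 5)) < (q : ℝ) ^ v := by exact_mod_cast h
    have h3 : (v : ℝ) ^ (1 / 6 : ℝ) / 32 ≤ ((2 ^ (2 * u - 5) : ℕ) : ℝ) := by
      have h4 : 32 * 2 ^ (2 * u - 5) = z ^ 2 := by
        calc 32 * 2 ^ (2 * u - 5) = 2 ^ 5 * 2 ^ (2 * u - 5) := by norm_num
          _ = 2 ^ (u * 2) := by rw [← pow_add]; congr 1; omega
          _ = z ^ 2 := by rw [hz, pow_mul]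
      have h5 : (32 : ℝ) * ((2 ^ (2 * u - 5) : ℕ) : ℝ) = (z : ℝ) ^ 2 := by exact_mod_cast h4
      have h6 : (v : ℝ) ^ (1 / 6 : ℝ) ≤ (z : ℝ) ^ 2 := by
        calc (v : ℝ) ^ (1 / 6 : ℝ) ≤ ((z : ℝ) ^ (12 : ℝ)) ^ (1 / 6 : ℝ) :=
              Real.rpow_le_rpow hv0.le hv12r (by norm_num)
          _ = (z : ℝ) ^ (2 : ℝ) := by
              rw [← Real.rpow_mul hz0.le]
              norm_num
          _ = (z : ℝ) ^ 2 := by
              rw [show (2 : ℝ) = ((2 : ℕ) : ℝ) by norm_num, Real.rpow_natCast]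
      linarith
    have h2 : ((2 : ℝ) ^ (2 ^ (2 * u - 5)))⁻¹ ≤ (2 : ℝ) ^ (-((v : ℝ) ^ (1 / 6 : ℝ) / 32)) := by
      rw [Real.rpow_neg (by norm_num), ← Real.rpow_natCast]
      refine inv_anti₀ (by positivity) ?_
      exact Real.rpow_le_rpow_of_exponent_le (by norm_num) h3
    obtain ⟨E, hE⟩ : ∃ E : ℝ, E = (2 : ℝ) ^ (2 ^ (2 * u - 5)) := ⟨_, rfl⟩
    have hE0 : 0 < E := by
      rw [hE]
      positivity
    rw [← hE] at h1 h2
    calc (nc (fun c : Fin v → Fin q => ¬ C.fn o (multipartite c)) : ℝ)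
        = nc (fun c : Fin v → Fin q => ¬ C.fn o (multipartite c)) * E * E⁻¹ := by
          field_simp
      _ < (q : ℝ) ^ v * E⁻¹ := by gcongr
      _ ≤ (q : ℝ) ^ v * (2 : ℝ) ^ (-((v : ℝ) ^ (1 / 6 : ℝ) / 32)) := by gcongr
      _ = _ := by ring

end Pool.Agent.H58.LG
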