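import Pool.Agent.H58.LG.Beh
import Pool.Agent.H58.LG.Quant
import Pool.Agent.H58.LG.Sep

/-! Cliques of fixed size: almost `n ^ 2` steps. -/

set_option autoImplicit false
set_option linter.unusedSectionVars false

namespace Pool.Agent.H58.LG

open Finset
open Pool.Agent.H25.NM (nc nc_eq nc_true pre pre_mono)

theorem union_cliqueFree {ι α γ : Type} [Fintype ι] [DecidableEq ι] [Fintype α] [DecidableEq α]
    [Fintype γ] [DecidableEq γ] {n J k : ℕ} (hk : 2 ≤ k) (hγ : Fintype.card γ < k)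
    (φ : Fin J → ι × α ↪ Fin n)
    (hφ : ∀ i j u v u' v', u ≠ v → φ i u = φ j u' → φ i v = φ j v' → i = j)
    (hφ3 : ∀ i j l a a' b b' c c', φ i a = φ l a' → φ i b = φ j b' → φ j c = φ l c' →
        φ i a ≠ φ i b → φ i b ≠ φ j c → φ i a ≠ φ j c → i = j ∧ j = l)
    (ω : Fin J → (ι → α → γ)) : (pre φ mp ω J).CliqueFree k := by
  classical
  intro K hK
  have hedge : ∀ x ∈ K, ∀ y ∈ K, x ≠ y → ∃ (i : Fin J) (a b : ι × α),
      (mp (ω i)).Adj a b ∧ φ i a = x ∧ φ i b = y := by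
    intro x hx y hy hxy
    obtain ⟨i, -, hadj⟩ := hK.isClique (Finset.mem_coe.mpr hx) (Finset.mem_coe.mpr hy) hxy
    rw [SimpleGraph.map_adj] at hadj
    obtain ⟨a, b, hab, ha, hb⟩ := hadj
    exact ⟨i, a, b, hab, ha, hb⟩
  obtain ⟨x, hx, y, hy, hxy⟩ := Finset.one_lt_card.mp (show 1 < K.card by
    rw [hK.card_eq]
    omega)
  obtain ⟨i, a, b, -, ha, hb⟩ := hedge x hx y hy hxy
  have hall : ∀ z ∈ K, ∃ c, φ i c = z := by
    intro z hz
    by_cases hzx : z = x
    · exact ⟨a, ha.trans hzx.symm⟩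
    by_cases hzy : z = y
    · exact ⟨b, hb.trans hzy.symm⟩
    obtain ⟨j, b', c, -, hb', hc⟩ := hedge y hy z hz (Ne.symm hzy)
    obtain ⟨l, a', c', -, ha', hc'⟩ := hedge x hx z hz (Ne.symm hzx)
    obtain ⟨hij, -⟩ := hφ3 i j l a a' b b' c c' (ha.trans ha'.symm) (hb.trans hb'.symm)
      (hc.trans hc'.symm) (by rw [ha, hb]; exact hxy) (by rw [hb, hc]; exact Ne.symm hzy)
      (by rw [ha, hc]; exact Ne.symm hzx)
    exact ⟨c, by rw [hij]; exact hc⟩
  have : Nonempty (ι × α) := ⟨a⟩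
  choose! g hg using hall
  have hinj : Set.InjOn (fun z => ω i (g z).1 (g z).2) (K : Set (Fin n)) := by
    intro z hz z' hz' hzz
    by_contra hne
    obtain ⟨m, e, e', hadj, he, he'⟩ := hedge z (Finset.mem_coe.mp hz) z'
      (Finset.mem_coe.mp hz') hne
    have hee : e ≠ e' := fun h => hne (by rw [← he, ← he', h])
    have h1 := hg z (Finset.mem_coe.mp hz)
    have h2 := hg z' (Finset.mem_coe.mp hz')
    have hmi : m = i := hφ m i e e' (g z) (g z') hee (he.trans h1.symm) (he'.trans h2.symm)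
    subst hmi
    have h3 : e = g z := (φ m).injective (he.trans h1.symm)
    have h4 : e' = g z' := (φ m).injective (he'.trans h2.symm)
    rw [h3, h4] at hadj
    exact hadj hzz
  have h1 := Finset.card_le_card_of_injOn (s := K) (t := (univ : Finset γ))
    (fun z => ω i (g z).1 (g z).2) (fun _ _ => Finset.mem_coe.mpr (Finset.mem_univ _)) hinj
  rw [hK.card_eq, Finset.card_univ] at h1
  omega

/-- the power of two -/
theorem exists_pow {k v : ℕ} (hk : 91 ≤ k) (hv : (10 * k) ^ 11 ≤ v) :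
    ∃ u : ℕ, 10 ≤ u ∧ k * 2 ^ (10 * u) ≤ v ∧ v ≤ (2 ^ u) ^ 12 ∧ 6 * k ≤ 2 ^ u := by
  obtain ⟨u, hu1, hu2⟩ : ∃ u, k * 2 ^ (10 * u) ≤ v ∧ v < k * 2 ^ (10 * (u + 1)) := by
    have h0 : ∃ u, v < k * 2 ^ (10 * (u + 1)) := by
      refine ⟨v, ?_⟩
      calc v < 2 ^ v := Nat.lt_two_pow_self
        _ ≤ 2 ^ (10 * (v + 1)) := Nat.pow_le_pow_right (by norm_num) (by omega)
        _ = 1 * 2 ^ (10 * (v + 1)) := (one_mul _).symm
        _ ≤ k * 2 ^ (10 * (v + 1)) := Nat.mul_le_mul_right _ (by omega)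
    refine ⟨Nat.find h0, ?_, Nat.find_spec h0⟩
    rcases Nat.eq_zero_or_pos (Nat.find h0) with h | h
    · rw [h, mul_zero, pow_zero, mul_one]
      calc k ≤ 10 * k := by omega
        _ = (10 * k) ^ 1 := (pow_one _).symm
        _ ≤ (10 * k) ^ 11 := Nat.pow_le_pow_right (by omega) (by norm_num)
        _ ≤ v := hv
    · obtain ⟨w, hw⟩ : ∃ w, Nat.find h0 = w + 1 := ⟨Nat.find h0 - 1, by omega⟩
      rw [hw]
      have := Nat.find_min h0 (show w < Nat.find h0 by omega)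
      omega
  obtain ⟨z, hz⟩ : ∃ z, z = 2 ^ u := ⟨_, rfl⟩
  have hz10 : 2 ^ (10 * u) = z ^ 10 := by rw [hz, ← pow_mul, mul_comm]
  have hz10' : 2 ^ (10 * (u + 1)) = 1024 * z ^ 10 := by
    rw [mul_add, pow_add, hz10]
    ring
  rw [hz10'] at hu2
  have h6 : 6 * k ≤ z := by
    by_contra hcon
    push Not at hcon
    have h1 : z ^ 10 ≤ (6 * k) ^ 10 := Nat.pow_le_pow_left hcon.le 10
    have h2 : (10 * k) ^ 11 < k * (1024 * (6 * k) ^ 10) := by
      calc (10 * k) ^ 11 ≤ v := hv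
        _ < k * (1024 * z ^ 10) := hu2
        _ ≤ k * (1024 * (6 * k) ^ 10) := by gcongr
    have h3 : k * (1024 * (6 * k) ^ 10) = 61917364224 * k ^ 11 := by ring
    have h4 : (10 * k) ^ 11 = 100000000000 * k ^ 11 := by ring
    rw [h3, h4] at h2
    have h5 : 0 < k ^ 11 := by
      have : 0 < k := by omega
      positivity
    omega
  refine ⟨u, ?_, hu1, ?_, by rw [← hz]; exact h6⟩
  · by_contra hcon
    push Not at hcon
    have : 2 ^ u ≤ 2 ^ 9 := Nat.pow_le_pow_right (by norm_num) (by omega)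
    omega
  · rw [← hz]
    calc v ≤ k * (1024 * z ^ 10) := hu2.le
      _ ≤ z * (z * z ^ 10) := by
          have h1 : k * (1024 * z ^ 10) * 6 ≤ z * (z * z ^ 10) * 6 := by
            calc k * (1024 * z ^ 10) * 6 = (6 * k) * (1024 * z ^ 10) := by ring
              _ ≤ z * (1024 * z ^ 10) := Nat.mul_le_mul_right _ h6
              _ ≤ z * ((z * 6) * z ^ 10) := by
                  refine Nat.mul_le_mul_left _ (Nat.mul_le_mul_right _ (by omega))
              _ = _ := by ring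
          omega
      _ = z ^ 12 := by ring

/-- **Main theorem for cliques of fixed size.** -/
theorem fixed {n k v d s R M : ℕ} {ε : ℝ} (hk : 91 ≤ k) (hv : (10 * k) ^ 11 ≤ v) (hd : 2 ≤ d)
    (hdv : (10 * d ^ 2) ^ 12 ≤ v) (hn : v ^ (d ^ 2 + d + 3) ≤ n)
    (hM : 3 * s + R + 4 ≤ M) (hMv : M ^ 750 < v ^ (k - 1)) (hε : ε ≤ 1) (hεM : 1 ≤ ε * M)
    (C : Circuit n s R ε) (out : Fin s) (hC : (∀ G : SimpleGraph (Fin n), C.fn out G ↔ ¬ G.CliqueFree k) ∨
      (∀ G : SimpleGraph (Fin n), C.fn out G ↔ G.CliqueFree k)) :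
    ∃ y : ℕ → SimpleGraph (Fin n), Monotone y ∧ ∀ a < v ^ (2 * d ^ 2 - d) - 1,
      ∃ i ∈ C.watched, ¬ (C.fn i (y a) ↔ C.fn i (y (a + 1))) := by
  classical
  obtain ⟨u, hu10, hu1, hv12, h6⟩ := exists_pow hk hv
  obtain ⟨z, hz⟩ : ∃ z, z = 2 ^ u := ⟨_, rfl⟩
  obtain ⟨m, hm⟩ : ∃ m, m = 2 ^ (10 * u) := ⟨_, rfl⟩
  have hM1 : 1 ≤ M := by omega
  obtain ⟨lam, hlam⟩ : ∃ lam, lam = (k - 1 - 22) / 34 := ⟨_, rfl⟩
  have hz546 : 546 ≤ z := by omega
  have hMz : M ≤ (2 ^ u) ^ lam := by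
    have h1 : M ^ 750 < ((2 ^ u) ^ lam) ^ 750 := by
      calc M ^ 750 < v ^ (k - 1) := hMv
        _ ≤ ((2 ^ u) ^ 12) ^ (k - 1) := Nat.pow_le_pow_left hv12 _
        _ = (2 ^ u) ^ (12 * (k - 1)) := by rw [← pow_mul]
        _ ≤ (2 ^ u) ^ (lam * 750) := Nat.pow_le_pow_right (by omega) (by omega)
        _ = ((2 ^ u) ^ lam) ^ 750 := by rw [← pow_mul (2 ^ u)]
    exact (lt_of_pow_lt_pow_left₀ 750 (Nat.zero_le _) h1).le
  have hεz : (1 : ℝ) ≤ ε * ((2 : ℝ) ^ u) ^ lam := by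
    have hM0 : (0 : ℝ) < M := by exact_mod_cast hM1
    have hε0 : 0 < ε := by
      by_contra hcon
      push Not at hcon
      have : ε * M ≤ 0 := mul_nonpos_of_nonpos_of_nonneg hcon hM0.le
      linarith
    refine hεM.trans (mul_le_mul_of_nonneg_left ?_ hε0.le)
    exact_mod_cast hMz
  -- blocks
  have hV : Fintype.card (Fin k × Fin m) ≤ v := by
    rw [Fintype.card_prod, Fintype.card_fin, Fintype.card_fin, hm]
    exact hu1
  have hdv' : 10 * d ^ 2 ≤ z := by
    have h1 : (10 * d ^ 2) ^ 12 ≤ z ^ 12 := by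
      rw [hz]
      exact hdv.trans hv12
    exact (Nat.pow_le_pow_iff_left (by norm_num)).mp h1
  have hv2 : 2 ≤ v := by
    have : (10 * k) ^ 1 ≤ (10 * k) ^ 11 := Nat.pow_le_pow_right (by omega) (by norm_num)
    rw [pow_one] at this
    omega
  have hdv2 : d ≤ v := by
    have h1 : (10 * d ^ 2) ^ 1 ≤ (10 * d ^ 2) ^ 12 :=
      Nat.pow_le_pow_right (by positivity) (by norm_num)
    rw [pow_one] at h1
    have h2 : d * 1 ≤ d * d := Nat.mul_le_mul_left _ (by omega)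
    have h3 : d ^ 2 = d * d := sq d
    omega
  obtain ⟨φ, hφ, hφ3⟩ := exists_blocks_free (V := Fin k × Fin m) hV hv2 hd hdv2 hn
  have hJz : 2 * v ^ (2 * d ^ 2 - d) < 2 ^ (2 ^ (2 * u - 5)) := by
    have h77 : ∀ w, 10 ≤ w → 77 * w ≤ 2 ^ w := by
      intro w hw
      induction w, hw using Nat.le_induction with
      | base => norm_num
      | succ w hw ih =>
        rw [pow_succ]
        omega
    calc 2 * v ^ (2 * d ^ 2 - d) ≤ 2 * ((2 ^ u) ^ 12) ^ (2 * d ^ 2 - d) := by gcongr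
      _ = 2 ^ (1 + u * (12 * (2 * d ^ 2 - d))) := by
        rw [← pow_mul, ← pow_mul, pow_add, pow_one]
      _ < 2 ^ (2 ^ (2 * u - 5)) := by
        refine Nat.pow_lt_pow_right (by norm_num) ?_
        have h1 : 32 * 2 ^ (2 * u - 5) = 2 ^ u * 2 ^ u := by
          calc 32 * 2 ^ (2 * u - 5) = 2 ^ 5 * 2 ^ (2 * u - 5) := by norm_num
            _ = 2 ^ (u + u) := by rw [← pow_add]; congr 1; omega
            _ = 2 ^ u * 2 ^ u := pow_add _ _ _
        have h2 : (77 * u) * (10 * d ^ 2) ≤ 2 ^ u * 2 ^ u := by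
          refine Nat.mul_le_mul (h77 u hu10) ?_
          rw [← hz]
          exact hdv'
        have h3 : (77 * u) * (10 * d ^ 2) = 770 * (u * d ^ 2) := by ring
        have h4 : u * (12 * (2 * d ^ 2 - d)) ≤ 24 * (u * d ^ 2) := by
          calc u * (12 * (2 * d ^ 2 - d)) ≤ u * (12 * (2 * d ^ 2)) := by
                gcongr
                exact Nat.sub_le _ _
            _ = 24 * (u * d ^ 2) := by ring
        have h5 : 10 * 4 ≤ u * d ^ 2 := by
          refine Nat.mul_le_mul hu10 ?_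
          calc 4 = 2 ^ 2 := by norm_num
            _ ≤ d ^ 2 := Nat.pow_le_pow_left hd 2
        omega
  generalize v ^ (2 * d ^ 2 - d) = J at *
  -- detectors
  set I : Finset (Fin s) := insert out C.watched with hI
  have hfree : ∀ ω : Fin J → (Fin k → Fin m → Fin (k - 1)), (pre φ mp ω J).CliqueFree k :=
    fun ω => union_cliqueFree (by omega) (by rw [Fintype.card_fin]; omega) φ hφ hφ3 ω
  have hid : ∀ H : SimpleGraph (Fin n), (⊥ : SimpleGraph (Fin n)) ⊔
      H.map (Function.Embedding.refl (Fin n)) = H := by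
    intro H
    rw [bot_sup_eq]
    exact SimpleGraph.map_id H
  have : Nonempty (Fin (k - 1)) := ⟨⟨0, by omega⟩⟩
  obtain ⟨ω, hω1, hω2⟩ := chain (ι := Fin k) (α := Fin m) (γ := Fin (k - 1)) (u := u) (l := lam)
    (s := s + 1) (R := R) (ε := ε)
    (by rw [Fintype.card_fin, hm]) hu10 (by omega)
    (by rw [Fintype.card_fin]; omega) (by rw [Fintype.card_fin]; omega)
    (by rw [Fintype.card_fin]; omega) (by omega) (by omega) hεz ⊥
    (Function.Embedding.refl (Fin n)) φ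
    (fun G H => ∃ i ∈ I, ¬ (C.fn i G ↔ C.fn i H)) (by
      intro G
      obtain ⟨f, hf1, -, hf3⟩ := C.exists_detector hε I (Finset.subset_insert _ _) G
      refine ⟨f, Fin.last s, hf1, fun H hGH => ?_⟩
      rw [hid]
      exact hf3 H hGH)
    (fun G => G.CliqueFree k) (fun x y hxy hy => hy.anti hxy) (by
      intro j x G hG
      refine ⟨out, Finset.mem_insert_self _ _, ?_⟩
      have h1 := tq_not_cliqueFree (φ j) x G
      rcases hC with hC | hC
      · rw [hC, hC]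
        tauto
      · rw [hC, hC]
        tauto) (by
      rw [nc_true fun ω => hfree ω]
      omega) hJz
  exact drop_step C out (k := k) (J := J) hC
    (X := fun j => pre φ mp ω j) (fun a b hab => pre_mono ω hab)
    (fun j hj => hω2 ⟨j, hj⟩)

end Pool.Agent.H58.LG
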