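import Pool.Agent.H58.LG.Fix

/-! Cliques of fixed size: the asymptotic form. -/

set_option autoImplicit false
set_option linter.unusedSectionVars false

namespace Pool.Agent.H58.LG

open Finset Filter

/-- `n ^ a` grows faster than a constant -/
theorem ev_const (C : ℝ) {r : ℝ} (hr : 0 < r) : ∀ᶠ n : ℕ in atTop, C ≤ (n : ℝ) ^ r :=
  ((tendsto_rpow_atTop hr).comp tendsto_natCast_atTop_atTop).eventually_ge_atTop C

/-- the choice of the parameters -/
theorem exists_params {μ : ℝ} (hμ : μ < 2) : ∃ c : ℝ, 0 < c ∧ ∃ n₀ : ℕ, ∀ n ≥ n₀,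
    ∃ v d : ℕ, 2 ≤ d ∧ (10 * d ^ 2) ^ 12 ≤ v ∧ v ^ (d ^ 2 + d + 3) ≤ n ∧
      (n : ℝ) ^ μ ≤ ((v ^ (2 * d ^ 2 - d) - 1 : ℕ) : ℝ) ∧
      ∀ k : ℕ, 91 ≤ k → (k : ℝ) ≤ (n : ℝ) ^ c → (10 * k) ^ 11 ≤ v ∧
        ∀ M : ℕ, (M : ℝ) ≤ (n : ℝ) ^ (c * k) → (8 * M) ^ 750 < v ^ (k - 1) := by
  classical
  -- d
  obtain ⟨d, hd2, hd⟩ : ∃ d : ℕ, 2 ≤ d ∧ max μ 0 * ((d : ℝ) ^ 2 + d + 3) < 2 * (d : ℝ) ^ 2 - d := by
    have hμ' : max μ 0 < 2 := max_lt hμ (by norm_num)
    have hμ0 : 0 ≤ max μ 0 := le_max_right _ _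
    obtain ⟨d, hd⟩ := exists_nat_gt (12 / (2 - max μ 0) + 2)
    have h1 : 0 < 2 - max μ 0 := by linarith
    have h2 : 0 < 12 / (2 - max μ 0) := by positivity
    have hd2 : (2 : ℝ) < d := by linarith
    refine ⟨d, by exact_mod_cast hd2.le, ?_⟩
    have h3 : 12 < (2 - max μ 0) * d := by
      have : 12 / (2 - max μ 0) < d := by linarith
      rwa [div_lt_iff₀' h1] at this
    have h4 : 12 * (d : ℝ) < (2 - max μ 0) * d ^ 2 := by nlinarith
    nlinarith
  obtain ⟨E, hE⟩ : ∃ E, E = d ^ 2 + d + 3 := ⟨_, rfl⟩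
  obtain ⟨F, hF⟩ : ∃ F, F = 2 * d ^ 2 - d := ⟨_, rfl⟩
  have hE0 : (0 : ℝ) < E := by
    have : 0 < E := by omega
    exact_mod_cast this
  have hEr : (E : ℝ) = (d : ℝ) ^ 2 + d + 3 := by rw [hE]; push_cast; ring
  have hFr : (F : ℝ) = 2 * (d : ℝ) ^ 2 - d := by
    rw [hF, Nat.cast_sub (by nlinarith)]
    push_cast
    ring
  rw [← hEr, ← hFr] at hd
  have hμF : max μ 0 < F / E := by rwa [lt_div_iff₀ hE0]
  refine ⟨1 / (1500 * E), by positivity, ?_⟩
  -- conditions for large n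
  have c1 := ev_const (2 * (10 * (d : ℝ) ^ 2) ^ 12) (show 0 < 1 / (E : ℝ) by positivity)
  have c2 := ev_const (2 * 10 ^ 11) (show 0 < 1 / (E : ℝ) - 11 / (1500 * E) by
    rw [sub_pos, div_lt_div_iff₀ (by positivity) hE0]
    nlinarith)
  have c3 := ev_const (2 * 2 ^ (F : ℝ)) (show 0 < (F : ℝ) / E - max μ 0 by linarith)
  have c4 := ev_const 1 (show 0 < (1 : ℝ) by norm_num)
  have c5 := ev_const (2 * 8 ^ (1000 : ℝ)) (show 0 < 1 / (4 * (E : ℝ)) by positivity)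
  obtain ⟨n₀, hn₀⟩ := eventually_atTop.mp ((c1.and c2).and ((c3.and c4).and c5))
  refine ⟨n₀, fun n hn => ?_⟩
  obtain ⟨⟨g1, g2⟩, ⟨g3, g4⟩, g5⟩ := hn₀ n hn
  rw [Real.rpow_one] at g4
  have hn0 : (0 : ℝ) < n := by linarith
  obtain ⟨x, hx⟩ : ∃ x, x = (n : ℝ) ^ (1 / (E : ℝ)) := ⟨_, rfl⟩
  have hx0 : 0 < x := by rw [hx]; positivity
  have hx1 : 2 ≤ x := by
    rw [hx]
    refine le_trans ?_ g1
    have : (1 : ℝ) ≤ (10 * (d : ℝ) ^ 2) ^ 12 := by
      refine one_le_pow₀ ?_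
      have : (2 : ℝ) ≤ d := by exact_mod_cast hd2
      nlinarith
    linarith
  have hxE : x ^ E = n := by
    rw [hx, ← Real.rpow_natCast, ← Real.rpow_mul hn0.le, one_div_mul_cancel hE0.ne',
      Real.rpow_one]
  obtain ⟨v, hv⟩ : ∃ v, v = ⌊x⌋₊ := ⟨_, rfl⟩
  have hvx : (v : ℝ) ≤ x := by
    rw [hv]
    exact Nat.floor_le hx0.le
  have hxv : x / 2 ≤ v := by
    have h1 : x < v + 1 := by
      rw [hv]
      exact Nat.lt_floor_add_one x
    linarith
  refine ⟨v, d, hd2, ?_, ?_, ?_, ?_⟩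
  · have h1 : (((10 * d ^ 2) ^ 12 : ℕ) : ℝ) ≤ v := by
      push_cast
      rw [← hx] at g1
      linarith
    exact_mod_cast h1
  · rw [← hE]
    have h1 : ((v ^ E : ℕ) : ℝ) ≤ n := by
      push_cast
      calc (v : ℝ) ^ E ≤ x ^ E := pow_le_pow_left₀ (by positivity) hvx _
        _ = n := hxE
    exact_mod_cast h1
  · rw [← hF]
    have hv1 : 1 ≤ v := by
      have : (1 : ℝ) ≤ v := by linarith
      exact_mod_cast this
    have hvF : 1 ≤ v ^ F := Nat.one_le_pow _ _ hv1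
    rw [Nat.cast_sub hvF]
    push_cast
    have h1 : (n : ℝ) ^ ((F : ℝ) / E) ≤ 2 ^ (F : ℝ) * (v : ℝ) ^ F := by
      calc (n : ℝ) ^ ((F : ℝ) / E) = x ^ F := by
            rw [hx, ← Real.rpow_natCast, ← Real.rpow_mul hn0.le]
            congr 1
            ring
        _ ≤ (2 * (v : ℝ)) ^ F := pow_le_pow_left₀ hx0.le (by linarith) _
        _ = 2 ^ (F : ℝ) * (v : ℝ) ^ F := by
            rw [mul_pow, Real.rpow_natCast]
    have h2 : (n : ℝ) ^ ((F : ℝ) / E) = (n : ℝ) ^ (max μ 0) * (n : ℝ) ^ ((F : ℝ) / E - max μ 0) := by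
      rw [← Real.rpow_add hn0]
      congr 1
      ring
    have h3 : (n : ℝ) ^ μ ≤ (n : ℝ) ^ (max μ 0) :=
      Real.rpow_le_rpow_of_exponent_le g4 (le_max_left _ _)
    have h4 : (1 : ℝ) ≤ (n : ℝ) ^ (max μ 0) := Real.one_le_rpow g4 (le_max_right _ _)
    have h5 : (n : ℝ) ^ (max μ 0) * (2 * 2 ^ (F : ℝ)) ≤ 2 ^ (F : ℝ) * (v : ℝ) ^ F := by
      refine le_trans ?_ h1
      rw [h2]
      exact mul_le_mul_of_nonneg_left g3 (by positivity)
    have h6 : (0 : ℝ) < 2 ^ (F : ℝ) := by positivity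
    have h7 : (n : ℝ) ^ (max μ 0) * 2 ≤ (v : ℝ) ^ F := by
      refine le_of_mul_le_mul_left ?_ h6
      linarith
    linarith
  · intro k hk hkn
    have hk0 : (0 : ℝ) < k := by
      have : 0 < k := by omega
      exact_mod_cast this
    constructor
    · have h1 : (((10 * k) ^ 11 : ℕ) : ℝ) ≤ v := by
        push_cast
        refine le_trans ?_ hxv
        have h2 : (k : ℝ) ^ 11 ≤ (n : ℝ) ^ (11 / (1500 * (E : ℝ))) := by
          calc (k : ℝ) ^ 11 ≤ ((n : ℝ) ^ (1 / (1500 * (E : ℝ)))) ^ 11 :=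
                pow_le_pow_left₀ hk0.le hkn _
            _ = (n : ℝ) ^ (11 / (1500 * (E : ℝ))) := by
                rw [← Real.rpow_natCast, ← Real.rpow_mul hn0.le]
                congr 1
                push_cast
                ring
        have h3 : x = (n : ℝ) ^ (11 / (1500 * (E : ℝ))) *
            (n : ℝ) ^ (1 / (E : ℝ) - 11 / (1500 * E)) := by
          rw [hx, ← Real.rpow_add hn0]
          congr 1
          ring
        rw [mul_pow, h3]
        have h4 : (0 : ℝ) ≤ (n : ℝ) ^ (11 / (1500 * (E : ℝ))) := by positivity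
        nlinarith [mul_le_mul_of_nonneg_left g2 h4]
      exact_mod_cast h1
    · intro M hM
      have hv0 : (0 : ℝ) < v := by linarith
      have h1 : ((8 * M : ℕ) : ℝ) ^ (750 : ℝ) < (v : ℝ) ^ ((k : ℝ) - 1) := by
        have hk1 : (90 : ℝ) ≤ (k : ℝ) - 1 := by
          have : (91 : ℝ) ≤ k := by exact_mod_cast hk
          linarith
        have h2 : ((8 * M : ℕ) : ℝ) ≤ 8 * (n : ℝ) ^ (1 / (1500 * (E : ℝ)) * k) := by
          push_cast
          linarith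
        have h3 : ((8 * M : ℕ) : ℝ) ^ (750 : ℝ) ≤ 8 ^ (750 : ℝ) * x ^ ((k : ℝ) / 2) := by
          calc ((8 * M : ℕ) : ℝ) ^ (750 : ℝ) ≤
                (8 * (n : ℝ) ^ (1 / (1500 * (E : ℝ)) * k)) ^ (750 : ℝ) :=
                Real.rpow_le_rpow (by positivity) h2 (by norm_num)
            _ = 8 ^ (750 : ℝ) * x ^ ((k : ℝ) / 2) := by
                rw [Real.mul_rpow (by norm_num) (by positivity), hx, ← Real.rpow_mul hn0.le,
                  ← Real.rpow_mul hn0.le]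
                congr 2
                field_simp
                norm_num
        have h4 : x ^ ((k : ℝ) / 2) ≤ x ^ (((k : ℝ) - 1) * (91 / 180)) := by
          refine Real.rpow_le_rpow_of_exponent_le (by linarith) ?_
          linarith
        have h5 : (8 : ℝ) ^ (750 : ℝ) ≤ (8 ^ (25 / 3 : ℝ)) ^ ((k : ℝ) - 1) := by
          rw [← Real.rpow_mul (by norm_num)]
          refine Real.rpow_le_rpow_of_exponent_le (by norm_num) ?_
          linarith
        have h6 : ((8 : ℝ) ^ (25 / 3 : ℝ)) ^ ((k : ℝ) - 1) * x ^ (((k : ℝ) - 1) * (91 / 180)) =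
            (8 ^ (25 / 3 : ℝ) * x ^ (91 / 180 : ℝ)) ^ ((k : ℝ) - 1) := by
          rw [Real.mul_rpow (by positivity) (by positivity), ← Real.rpow_mul hx0.le]
          congr 2
          ring
        have h7 : (8 : ℝ) ^ (25 / 3 : ℝ) * x ^ (91 / 180 : ℝ) < v := by
          refine lt_of_lt_of_le ?_ hxv
          have e1 : x = x ^ (91 / 180 : ℝ) * x ^ (89 / 180 : ℝ) := by
            rw [← Real.rpow_add hx0]
            norm_num
          have e2 : 2 * (8 : ℝ) ^ (1000 : ℝ) ≤ x ^ (89 / 180 : ℝ) := by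
            refine g5.trans ?_
            rw [hx, ← Real.rpow_mul hn0.le]
            refine Real.rpow_le_rpow_of_exponent_le g4 ?_
            rw [div_mul_div_comm, one_mul, div_le_div_iff₀ (by positivity) (by positivity)]
            nlinarith
          have e3 : (8 : ℝ) ^ (25 / 3 : ℝ) < 8 ^ (1000 : ℝ) :=
            Real.rpow_lt_rpow_of_exponent_lt (by norm_num) (by norm_num)
          have e4 : (0 : ℝ) < x ^ (91 / 180 : ℝ) := by positivity
          have e5 := mul_le_mul_of_nonneg_left e2 e4.le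
          rw [← e1] at e5
          have e6 := mul_lt_mul_of_pos_right e3 e4
          generalize (8 : ℝ) ^ (1000 : ℝ) = Q at e5 e6
          generalize (8 : ℝ) ^ (25 / 3 : ℝ) = Q' at e6 ⊢
          generalize x ^ (91 / 180 : ℝ) = y at e5 e6 ⊢
          have e7 : y * (2 * Q) = 2 * (Q * y) := by ring
          linarith
        calc ((8 * M : ℕ) : ℝ) ^ (750 : ℝ) ≤ 8 ^ (750 : ℝ) * x ^ ((k : ℝ) / 2) := h3
          _ ≤ (8 ^ (25 / 3 : ℝ)) ^ ((k : ℝ) - 1) * x ^ (((k : ℝ) - 1) * (91 / 180)) :=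
              mul_le_mul h5 h4 (by positivity) (by positivity)
          _ = (8 ^ (25 / 3 : ℝ) * x ^ (91 / 180 : ℝ)) ^ ((k : ℝ) - 1) := h6
          _ < (v : ℝ) ^ ((k : ℝ) - 1) :=
              Real.rpow_lt_rpow (by positivity) h7 (by linarith)
      have h8 : ((k : ℝ) - 1) = ((k - 1 : ℕ) : ℝ) := by
        rw [Nat.cast_sub (by omega), Nat.cast_one]
      rw [h8, Real.rpow_natCast, show (750 : ℝ) = ((750 : ℕ) : ℝ) by norm_num,
        Real.rpow_natCast] at h1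
      exact_mod_cast h1

/-- **Asymptotic form.** -/
theorem fixed_asymp {μ : ℝ} (hμ : μ < 2) : ∃ c : ℝ, 0 < c ∧ ∃ n₀ : ℕ, ∀ n ≥ n₀, ∀ k : ℕ,
    91 ≤ k → (k : ℝ) ≤ (n : ℝ) ^ c → ∀ M : ℕ, (M : ℝ) ≤ (n : ℝ) ^ (c * k) →
    (∀ (s : ℕ) (C : Circuit n s M (1 / M)) (out : Fin s), s ≤ M →
      ((∀ G : SimpleGraph (Fin n), C.fn out G ↔ ¬ G.CliqueFree k) ∨
        (∀ G : SimpleGraph (Fin n), C.fn out G ↔ G.CliqueFree k)) →
      (∃ A : ℕ, (n : ℝ) ^ μ ≤ A ∧ ∃ y : ℕ → SimpleGraph (Fin n), Monotone y ∧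
          ∀ a < A, ∃ i ∈ C.watched, ¬ (C.fn i (y a) ↔ C.fn i (y (a + 1)))) ∧
      (∀ (d : ℕ) (lev : Fin s → ℕ), (∀ i, ∀ j ∈ C.ins i, lev j ≤ lev i) →
        (∀ i ∈ C.special, ∀ j ∈ C.ins i, lev j < lev i) → (∀ j ∈ C.watched, lev j < d) →
        (n : ℝ) ^ μ ≤ ∏ a ∈ range d, (1 + ((C.watched.filter fun j => lev j = a).card : ℝ)))) ∧
    (∀ (q s r t : ℕ) (Q : Fin q → Bool) (C : (Fin q → Bool) → Circuit n s M (1 / M))
      (out : (Fin q → Bool) → Fin s), 2 ^ q * (s + 1) ≤ M →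
      (∀ y, (C y).special.card ≤ r) → (∀ y, ∀ i ∈ (C y).special, ((C y).ins i).card ≤ t) →
      ((∀ G : SimpleGraph (Fin n),
          Quantified q Q (fun y => (C y).fn (out y) G) ↔ ¬ G.CliqueFree k) ∨
        (∀ G : SimpleGraph (Fin n),
          Quantified q Q (fun y => (C y).fn (out y) G) ↔ G.CliqueFree k)) →
      (n : ℝ) ^ μ ≤ t * 2 ^ (q + r)) := by
  classical
  obtain ⟨c, hc, n₀, h⟩ := exists_params hμ
  refine ⟨c, hc, n₀, fun n hn k hk hkn M hM => ?_⟩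
  obtain ⟨v, d, hd, hdv, hvn, hμv, hkv⟩ := h n hn
  obtain ⟨hv, hMv⟩ := hkv k hk hkn
  have hMv := hMv M hM
  -- one circuit
  have key : ∀ (s : ℕ) (C : Circuit n s M (1 / M)) (out : Fin s), s ≤ M →
      ((∀ G : SimpleGraph (Fin n), C.fn out G ↔ ¬ G.CliqueFree k) ∨
        (∀ G : SimpleGraph (Fin n), C.fn out G ↔ G.CliqueFree k)) →
      ((1 : ℝ) / M ≤ 1) ∧ ∃ y : ℕ → SimpleGraph (Fin n), Monotone y ∧
        ∀ a < v ^ (2 * d ^ 2 - d) - 1, ∃ i ∈ C.watched, ¬ (C.fn i (y a) ↔ C.fn i (y (a + 1))) := by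
    intro s C out hs hC
    have hs0 : 0 < s := lt_of_le_of_lt (Nat.zero_le _) out.2
    have hM1 : 1 ≤ M := by omega
    have hMr : (1 : ℝ) ≤ M := by exact_mod_cast hM1
    have hε : (1 : ℝ) / M ≤ 1 := by
      rw [div_le_one (by linarith)]
      exact hMr
    refine ⟨hε, fixed (M := 8 * M) hk hv hd hdv hvn (by omega) hMv hε ?_ C out hC⟩
    push_cast
    rw [one_div_mul_eq_div, mul_div_assoc, div_self (by linarith)]
    norm_num
  refine ⟨fun s C out hs hC => ?_, fun q s r t Q C out hs hr ht hC => ?_⟩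
  · obtain ⟨hε, y, hy, hAy⟩ := key s C out hs hC
    refine ⟨⟨_, hμv, y, hy, hAy⟩, fun d' lev h1 h2 h3 => ?_⟩
    have h4 := changes_le_levels C hε lev h1 h2 h3 hy hAy
    refine hμv.trans ?_
    have h5 : ((v ^ (2 * d ^ 2 - d) - 1 : ℕ) : ℝ) ≤
        ((∏ a ∈ range d', (1 + (C.watched.filter fun j => lev j = a).card) : ℕ) : ℝ) := by
      exact_mod_cast (Nat.le_succ _).trans h4
    refine h5.trans (le_of_eq ?_)
    push_cast
    rfl
  · obtain ⟨N, C', o, h1, h2, h3⟩ := quant_circuit q Q C out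
    obtain ⟨hε, y, hy, hAy⟩ := key N C' o (by omega) (by
      rcases hC with hC | hC
      · exact Or.inl fun G => (h2 G).trans (hC G)
      · exact Or.inr fun G => (h2 G).trans (hC G))
    obtain ⟨A, hA⟩ : ∃ A, A = v ^ (2 * d ^ 2 - d) - 1 := ⟨_, rfl⟩
    rw [← hA] at hAy hμv
    refine hμv.trans ?_
    let D : (Fin q → Bool) → Finset ℕ := fun z => @Finset.filter _ (fun a => ∃ i ∈ (C z).watched,
      ¬ ((C z).fn i (y a) ↔ (C z).fn i (y (a + 1)))) (Classical.decPred _) (range A)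
    have hD : range A ⊆ (univ : Finset (Fin q → Bool)).biUnion D := by
      intro a ha
      obtain ⟨w, hw, hne⟩ := hAy a (Finset.mem_range.1 ha)
      obtain ⟨z, i, hi, h4⟩ := h3 w hw
      rw [h4] at hne
      exact Finset.mem_biUnion.2 ⟨z, Finset.mem_univ _,
        (@Finset.mem_filter _ _ (Classical.decPred _) _ _).2 ⟨ha, i, hi, hne⟩⟩
    have hfin : A ≤ t * 2 ^ (q + r) := by
      calc A = (range A).card := (Finset.card_range A).symm
        _ ≤ ((univ : Finset (Fin q → Bool)).biUnion D).card := Finset.card_le_card hD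
        _ ≤ ∑ z : Fin q → Bool, (D z).card := Finset.card_biUnion_le
        _ ≤ ∑ _z : Fin q → Bool, t * 2 ^ r := Finset.sum_le_sum fun z _ =>
            card_changes_le (C z) hε (hr z) (ht z) hy
        _ = 2 ^ q * (t * 2 ^ r) := by
            rw [Finset.sum_const, Finset.card_univ, Fintype.card_fun, Fintype.card_bool,
              Fintype.card_fin, smul_eq_mul]
        _ = t * 2 ^ (q + r) := by ring
    exact_mod_cast hfin

end Pool.Agent.H58.LG
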