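import Pool.Agent.H58.LG.Dag
import Pool.Agent.H58.LG.Defs
import Pool.Agent.H58.LPE.Bound

/-! The relation given by a linear programme. -/

set_option autoImplicit false
set_option linter.unusedSectionVars false

namespace Pool.Agent.H58.LG

open Finset

theorem bit_true {P : Prop} (h : P) : bit P = 1 := by unfold bit; rw [if_pos h]

theorem bit_false {P : Prop} (h : ¬ P) : bit P = 0 := by unfold bit; rw [if_neg h]

/-- LP duality at a rejected input. -/
theorem dual {s : ℕ} (P : Program (Fin s)) (S : Finset (Fin s)) {ε : ℝ} (hP : P.Margin S ε)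
    {v : Fin s → Prop} (hv : ¬ P.Accepts S v) {p0 : Fin P.dim → ℝ} (hp0 : P.Feasible p0) :
    ∃ (w : Fin s → ℝ) (c : Fin P.num → ℝ) (c0 : ℝ), (∀ j, 0 ≤ w j ∧ w j ≤ 1) ∧
      (∀ j, j ∉ S → w j = 0) ∧ (∀ r, 0 ≤ c r) ∧ 0 ≤ c0 ∧ ∀ p ∈ P.eqs,
        ∑ j ∈ S, w j * (P.wire j p - bit (v j)) = ε + c0 + ∑ r, c r * P.ineq r p := by
  classical
  let E := (Fin P.dim → ℝ) × (Fin s → ℝ)
  let π : E →ᵃ[ℝ] (Fin P.dim → ℝ) := (LinearMap.fst ℝ (Fin P.dim → ℝ) (Fin s → ℝ)).toAffineMap
  let θ : Fin s → E →ᵃ[ℝ] ℝ := fun j =>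
    ((LinearMap.proj j).comp (LinearMap.snd ℝ (Fin P.dim → ℝ) (Fin s → ℝ))).toAffineMap
  let a : (Fin P.num ⊕ (Fin s ⊕ Fin s)) → E →ᵃ[ℝ] ℝ := fun o =>
    match o with
    | Sum.inl r => (P.ineq r).comp π
    | Sum.inr (Sum.inl j) => θ j
    | Sum.inr (Sum.inr j) =>
      if j ∈ S then θ j - (P.wire j).comp π + AffineMap.const ℝ E (bit (v j)) else 0
  let L : E →ᵃ[ℝ] ℝ := - ∑ j ∈ S, θ j
  have hθ : ∀ j (w : E), θ j w = w.2 j := fun _ _ => rfl
  have hLv : ∀ w : E, L w = - ∑ j ∈ S, w.2 j := by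
    intro w
    show - ((∑ j ∈ S, θ j) w) = _
    congr 1
    have : ∀ T : Finset (Fin s), (∑ j ∈ T, θ j) w = ∑ j ∈ T, w.2 j := by
      intro T
      induction T using Finset.induction_on with
      | empty => simp
      | insert j T hj ih =>
        rw [Finset.sum_insert hj, Finset.sum_insert hj]
        show θ j w + (∑ i ∈ T, θ i) w = _
        rw [ih, hθ]
    exact this S
  have ha1 : ∀ r (w : E), a (Sum.inl r) w = P.ineq r w.1 := fun _ _ => rfl
  have ha2 : ∀ j (w : E), a (Sum.inr (Sum.inl j)) w = w.2 j := fun _ _ => rfl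
  have ha3 : ∀ j (w : E), a (Sum.inr (Sum.inr j)) w =
      if j ∈ S then w.2 j - P.wire j w.1 + bit (v j) else 0 := by
    intro j w
    show (if j ∈ S then θ j - (P.wire j).comp π + AffineMap.const ℝ E (bit (v j)) else 0) w = _
    split_ifs with h
    · rfl
    · rfl
  obtain ⟨c, c0, hc, hc0, hid⟩ := Pool.Agent.H58.LPE.lp_dual (P.eqs.comap π) a L (-ε)
    (p0, fun j => |P.wire j p0| + 1)
    (by
      rw [AffineSubspace.mem_comap]
      exact hp0.1)
    (by
      rintro (r | j | j)
      · rw [ha1]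
        exact hp0.2 r
      · rw [ha2]
        positivity
      · rw [ha3]
        split_ifs with h
        · have h1 := le_abs_self (P.wire j p0)
          have h2 : 0 ≤ bit (v j) := by
            by_cases h3 : v j
            · rw [bit_true h3]; norm_num
            · rw [bit_false h3]
          simp only
          linarith
        · exact le_rfl)
    (by
      rintro ⟨p, q⟩ hp hq
      rw [AffineSubspace.mem_comap] at hp
      have hfeas : P.Feasible p := ⟨hp, fun r => hq (Sum.inl r)⟩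
      have h1 := hP v hv p hfeas
      rw [hLv]
      have h2 : ∑ j ∈ S, max (P.wire j p - bit (v j)) 0 ≤ ∑ j ∈ S, q j := by
        refine Finset.sum_le_sum fun j hj => ?_
        have h3 := hq (Sum.inr (Sum.inl j))
        have h4 := hq (Sum.inr (Sum.inr j))
        rw [ha2] at h3
        rw [ha3, if_pos hj] at h4
        simp only at h3 h4
        exact max_le (by linarith) h3
      simp only
      linarith)
  have hid' : ∀ p ∈ P.eqs, ∀ q : Fin s → ℝ, -ε + ∑ j ∈ S, q j =
      (∑ r, c (Sum.inl r) * P.ineq r p) + ((∑ j, c (Sum.inr (Sum.inl j)) * q j) +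
      ∑ j, c (Sum.inr (Sum.inr j)) * (if j ∈ S then q j - P.wire j p + bit (v j) else 0)) + c0 := by
    intro p hp q
    have h1 := hid (p, q) (by
      rw [AffineSubspace.mem_comap]
      exact hp)
    rw [hLv, Fintype.sum_sum_type, Fintype.sum_sum_type] at h1
    simp only [ha1, ha2, ha3] at h1
    linarith
  -- the multipliers of the wires
  have hμ : ∀ i ∈ S, c (Sum.inr (Sum.inl i)) + c (Sum.inr (Sum.inr i)) = 1 := by
    intro i hi
    have h1 := hid' p0 hp0.1 (fun _ => 0)
    have h2 := hid' p0 hp0.1 (fun j => if j = i then 1 else 0)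
    have e1 : ∑ j ∈ S, (if j = i then (1 : ℝ) else 0) = 1 := by
      rw [Finset.sum_ite_eq' S i, if_pos hi]
    have e2 : ∑ j, c (Sum.inr (Sum.inl j)) * (if j = i then (1 : ℝ) else 0) =
        c (Sum.inr (Sum.inl i)) := by
      simp
    have e3 : ∑ j, c (Sum.inr (Sum.inr j)) * (if j ∈ S then (if j = i then (1 : ℝ) else 0) -
        P.wire j p0 + bit (v j) else 0) = c (Sum.inr (Sum.inr i)) +
        ∑ j, c (Sum.inr (Sum.inr j)) * (if j ∈ S then 0 - P.wire j p0 + bit (v j) else 0) := by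
      have e4 : c (Sum.inr (Sum.inr i)) = ∑ j, (if j = i then c (Sum.inr (Sum.inr j)) else 0) := by
        simp
      rw [e4, ← Finset.sum_add_distrib]
      refine Finset.sum_congr rfl fun j _ => ?_
      by_cases hj : j = i
      · subst hj
        rw [if_pos hi, if_pos hi, if_pos rfl, if_pos rfl]
        ring
      · rw [if_neg hj, if_neg hj, zero_add]
    rw [e1, e2, e3] at h2
    simp only [Finset.sum_const_zero, mul_zero, add_zero, zero_add] at h1
    linarith
  refine ⟨fun j => if j ∈ S then c (Sum.inr (Sum.inr j)) else 0, fun r => c (Sum.inl r), c0,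
    fun j => ?_, fun j hj => if_neg hj, fun r => hc _, hc0, fun p hp => ?_⟩
  · simp only
    split_ifs with h
    · have h1 := hμ j h
      have h2 := hc (Sum.inr (Sum.inl j))
      exact ⟨hc _, by linarith⟩
    · exact ⟨le_rfl, by norm_num⟩
  · have h1 := hid' p hp (fun _ => 0)
    simp only [Finset.sum_const_zero, mul_zero, zero_add, add_zero, zero_sub] at h1
    have e1 : ∑ j, c (Sum.inr (Sum.inr j)) * (if j ∈ S then - P.wire j p + bit (v j) else 0) =
        - ∑ j ∈ S, (if j ∈ S then c (Sum.inr (Sum.inr j)) else 0) *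
          (P.wire j p - bit (v j)) := by
      rw [← Finset.sum_neg_distrib, ← Finset.sum_subset (Finset.subset_univ S)]
      · refine Finset.sum_congr rfl fun j hj => ?_
        rw [if_pos hj, if_pos hj]
        ring
      · intro j _ hj
        rw [if_neg hj, mul_zero]
    rw [e1] at h1
    linarith

variable {ι α γ : Type*} [Fintype ι] [DecidableEq ι] [Fintype α] [DecidableEq α] [Fintype γ]
  [DecidableEq γ]

/-- A linear programme gives the relation between a gate and the gates before it. -/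
theorem rel_of_program {s : ℕ} {ε : ℝ} (P : Program (Fin s)) (S : Finset (Fin s))
    (hP : P.Margin S ε) (U : Fin s → (ι → α) → Prop) (W : Fin s → (ι → α → γ) → Prop) (i : Fin s)
    (hS : ∀ j ∈ S, j < i) (hU : ∀ x, U i x ↔ P.Accepts S (fun j => U j x))
    (hW : ∀ y, W i y ↔ P.Accepts S (fun j => W j y)) :
    Rel (P.num + 1 + 2 * s) ε U (fun j y => ¬ W j y) i := by
  classical
  by_cases hne : ∃ x, U i x
  swap
  · push Not at hne
    exact ⟨fun _ _ => 0, fun _ _ => 0, fun _ _ => 0, fun _ _ _ => ⟨le_rfl, by norm_num⟩,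
      fun _ _ _ => le_rfl, fun _ _ _ => le_rfl, fun x _ hx => absurd hx (hne x)⟩
  obtain ⟨x1, hx1⟩ := hne
  obtain ⟨p1, hp1, -⟩ := (hU x1).mp hx1
  have hdual : ∀ y : ι → α → γ, ∃ (w : Fin s → ℝ) (c : Fin P.num → ℝ) (c0 : ℝ),
      (∀ j, 0 ≤ w j ∧ w j ≤ 1) ∧ (∀ j, j ∉ S → w j = 0) ∧ (∀ r, 0 ≤ c r) ∧ 0 ≤ c0 ∧
        (¬ W i y → ∀ p ∈ P.eqs, ∑ j ∈ S, w j * (P.wire j p - bit (W j y)) =
          ε + c0 + ∑ r, c r * P.ineq r p) := by
    intro y
    by_cases hy : W i y
    · exact ⟨fun _ => 0, fun _ => 0, 0, fun _ => ⟨le_rfl, by norm_num⟩, fun _ _ => rfl,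
        fun _ => le_rfl, le_rfl, fun h => absurd hy h⟩
    · obtain ⟨w, c, c0, h1, h2, h3, h4, h5⟩ := dual P S hP (v := fun j => W j y)
        (fun h => hy ((hW y).mpr h)) hp1
      exact ⟨w, c, c0, h1, h2, h3, h4, fun _ => h5⟩
  choose w c c0 hw hwS hc hc0 hid using hdual
  have hpt : ∀ x : ι → α, ∃ p : Fin P.dim → ℝ, U i x → P.Feasible p ∧
      ∀ j ∈ S, P.wire j p ≤ bit (U j x) := by
    intro x
    by_cases hx : U i x
    · obtain ⟨p, h1, h2⟩ := (hU x).mp hx
      exact ⟨p, fun _ => ⟨h1, h2⟩⟩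
    · exact ⟨p1, fun h => absurd h hx⟩
  choose pt hpt using hpt
  have hcard : Fintype.card (Fin P.num ⊕ (Unit ⊕ (Fin s ⊕ Fin s))) = P.num + 1 + 2 * s := by
    simp only [Fintype.card_sum, Fintype.card_fin, Fintype.card_unit]
    omega
  obtain ⟨e⟩ : Nonempty (Fin (P.num + 1 + 2 * s) ≃ (Fin P.num ⊕ (Unit ⊕ (Fin s ⊕ Fin s)))) :=
    ⟨(Fintype.equivFinOfCardEq hcard).symm⟩
  obtain ⟨A, hA⟩ : ∃ A : (Fin P.num ⊕ (Unit ⊕ (Fin s ⊕ Fin s))) → (ι → α) → ℝ, A = fun o x =>
    match o with
    | Sum.inl r => P.ineq r (pt x)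
    | Sum.inr (Sum.inl _) => 1
    | Sum.inr (Sum.inr (Sum.inl j)) => if j ∈ S then bit (U j x) - P.wire j (pt x) else 0
    | Sum.inr (Sum.inr (Sum.inr j)) => if j ∈ S then bit (¬ U j x) else 0 := ⟨_, rfl⟩
  obtain ⟨B, hB⟩ : ∃ B : (Fin P.num ⊕ (Unit ⊕ (Fin s ⊕ Fin s))) → (ι → α → γ) → ℝ, B = fun o y =>
    match o with
    | Sum.inl r => c y r
    | Sum.inr (Sum.inl _) => c0 y
    | Sum.inr (Sum.inr (Sum.inl j)) => w y j
    | Sum.inr (Sum.inr (Sum.inr j)) => w y j * bit (W j y) := ⟨_, rfl⟩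
  have hbit : ∀ Q : Prop, 0 ≤ bit Q := by
    intro Q
    by_cases h : Q
    · rw [bit_true h]; norm_num
    · rw [bit_false h]
  refine ⟨fun j y => w y j, fun r x => A (e r) x, fun r y => B (e r) y,
    fun j y _ => hw y j, ?_, ?_, ?_⟩
  · intro r x hx
    obtain ⟨h1, h2⟩ := hpt x hx
    have hAo : ∀ o, 0 ≤ A o x := by
      rw [hA]
      rintro (r' | o | j | j)
      · exact h1.2 r'
      · exact zero_le_one
      · show 0 ≤ (if j ∈ S then bit (U j x) - P.wire j (pt x) else 0)
        split_ifs with h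
        · linarith [h2 j h]
        · exact le_rfl
      · show 0 ≤ (if j ∈ S then bit (¬ U j x) else 0)
        split_ifs
        · exact hbit _
        · exact le_rfl
    exact hAo (e r)
  · intro r y _
    have hBo : ∀ o, 0 ≤ B o y := by
      rw [hB]
      rintro (r' | o | j | j)
      · exact hc y r'
      · exact hc0 y
      · exact (hw y j).1
      · exact mul_nonneg (hw y j).1 (hbit _)
    exact hBo (e r)
  · intro x y hx hy
    obtain ⟨h1, h2⟩ := hpt x hx
    have h3 := hid y hy (pt x) h1.1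
    have hsub : ∀ f : Fin s → ℝ, (∀ j, j ∉ S → f j = 0) → ∑ j, f j = ∑ j ∈ S, f j := by
      intro f hf
      symm
      exact Finset.sum_subset (Finset.subset_univ S) fun j _ hj => hf j hj
    have e0 : (∑ j, @ite ℝ ((j < i ∧ U j x) ∧ ¬ W j y) (Classical.dec _) (w y j) 0) =
        ∑ j ∈ S, bit (U j x) * bit (¬ W j y) * w y j := by
      rw [hsub]
      · refine Finset.sum_congr rfl fun j hj => ?_
        by_cases hu : U j x
        · by_cases hv : W j y
          · rw [if_neg (by rintro ⟨-, h⟩; exact h hv), bit_false (not_not.mpr hv)]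
            ring
          · rw [if_pos ⟨⟨hS j hj, hu⟩, hv⟩, bit_true hu, bit_true hv]
            ring
        · rw [if_neg (by rintro ⟨⟨-, h⟩, -⟩; exact hu h), bit_false hu]
          ring
      · intro j hj
        rw [hwS y j hj, ite_self]
    refine e0.trans ?_
    have e1 : ∑ r, A (e r) x * B (e r) y = ∑ o, A o x * B o y :=
      Equiv.sum_comp e fun o => A o x * B o y
    have e2 : ∑ r, A (Sum.inl r) x * B (Sum.inl r) y = ∑ r, c y r * P.ineq r (pt x) := by
      rw [hA, hB]
      exact Finset.sum_congr rfl fun r _ => mul_comm _ _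
    have e3 : ∑ o, A (Sum.inr (Sum.inl o)) x * B (Sum.inr (Sum.inl o)) y = c0 y := by
      rw [hA, hB, Finset.univ_unique, Finset.sum_singleton]
      exact one_mul _
    have e4 : ∑ j, A (Sum.inr (Sum.inr (Sum.inl j))) x * B (Sum.inr (Sum.inr (Sum.inl j))) y =
        ∑ j ∈ S, (bit (U j x) - P.wire j (pt x)) * w y j := by
      rw [hsub]
      · refine Finset.sum_congr rfl fun j hj => ?_
        rw [hA, hB]
        show (if j ∈ S then bit (U j x) - P.wire j (pt x) else 0) * w y j = _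
        rw [if_pos hj]
      · intro j hj
        rw [hA, hB]
        show (if j ∈ S then bit (U j x) - P.wire j (pt x) else 0) * w y j = _
        rw [if_neg hj, zero_mul]
    have e5 : ∑ j, A (Sum.inr (Sum.inr (Sum.inr j))) x * B (Sum.inr (Sum.inr (Sum.inr j))) y =
        ∑ j ∈ S, bit (¬ U j x) * (w y j * bit (W j y)) := by
      rw [hsub]
      · refine Finset.sum_congr rfl fun j hj => ?_
        rw [hA, hB]
        show (if j ∈ S then bit (¬ U j x) else 0) * (w y j * bit (W j y)) = _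
        rw [if_pos hj]
      · intro j hj
        rw [hA, hB]
        show (if j ∈ S then bit (¬ U j x) else 0) * (w y j * bit (W j y)) = _
        rw [if_neg hj, zero_mul]
    rw [e1, Fintype.sum_sum_type, Fintype.sum_sum_type, Fintype.sum_sum_type, e2, e3, e4, e5]
    have e6 : ε + (∑ r, c y r * P.ineq r (pt x) + (c0 y +
        (∑ j ∈ S, (bit (U j x) - P.wire j (pt x)) * w y j +
        ∑ j ∈ S, bit (¬ U j x) * (w y j * bit (W j y))))) =
        ∑ j ∈ S, w y j * (P.wire j (pt x) - bit (W j y)) +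
        (∑ j ∈ S, (bit (U j x) - P.wire j (pt x)) * w y j +
        ∑ j ∈ S, bit (¬ U j x) * (w y j * bit (W j y))) := by
      rw [h3]
      ring
    rw [e6, ← Finset.sum_add_distrib, ← Finset.sum_add_distrib]
    refine Finset.sum_congr rfl fun j _ => ?_
    by_cases hu : U j x
    · by_cases hv : W j y
      · rw [bit_true hu, bit_true hv, bit_false (not_not.mpr hu), bit_false (not_not.mpr hv)]
        ring
      · rw [bit_true hu, bit_false hv, bit_false (not_not.mpr hu), bit_true hv]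
        ring
    · rw [bit_false hu, bit_true hu]
      ring

theorem Rel.mono {s N N' : ℕ} {ε : ℝ} {U : Fin s → (ι → α) → Prop}
    {V : Fin s → (ι → α → γ) → Prop} {i : Fin s} (h : N ≤ N') (H : Rel N ε U V i) :
    Rel N' ε U V i := by
  classical
  obtain ⟨w, A, B, h1, h2, h3, h4⟩ := H
  obtain ⟨c, rfl⟩ := Nat.exists_eq_add_of_le h
  refine ⟨w, Fin.append A (fun _ _ => 0), Fin.append B (fun _ _ => 0), h1, ?_, ?_, ?_⟩
  · intro r x hx
    refine Fin.addCases (fun r => ?_) (fun r => ?_) r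
    · rw [Fin.append_left]
      exact h2 r x hx
    · rw [Fin.append_right]
  · intro r y hy
    refine Fin.addCases (fun r => ?_) (fun r => ?_) r
    · rw [Fin.append_left]
      exact h3 r y hy
    · rw [Fin.append_right]
  · intro x y hx hy
    rw [Fin.sum_univ_add]
    simp only [Fin.append_left, Fin.append_right, mul_zero, Finset.sum_const_zero, add_zero]
    exact h4 x y hx hy

end Pool.Agent.H58.LG
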