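import Pool.Agent.H58.LG.Dec

/-! The kernel evaluated at products of functions. -/

set_option autoImplicit false
set_option linter.unusedSectionVars false

namespace Pool.Agent.H58.LG

open Finset

variable {ι α γ : Type*} [Fintype ι] [DecidableEq ι] [Fintype α] [DecidableEq α] [Fintype γ]
  [DecidableEq γ]

/-- the kernel evaluated at a product -/
noncomputable def Lam (I : Finset ι) (D : ℕ) (f : (ι → α) → ℝ) (g : (ι → α → γ) → ℝ) : ℝ :=
  ∑ x, ∑ y, f x * g y * KK I D (zz x y)

theorem swap3 {σ : Type*} (𝒮 : Finset σ) (P : σ → (ι → γ) → ℝ) (f : (ι → α) → ℝ)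
    (g : (ι → α → γ) → ℝ) :
    ∑ S ∈ 𝒮, ∑ x, ∑ y, f x * g y * P S (zz x y) =
      ∑ x, ∑ y, f x * g y * ∑ S ∈ 𝒮, P S (zz x y) := by
  rw [Finset.sum_comm]
  refine Finset.sum_congr rfl fun x _ => ?_
  rw [Finset.sum_comm]
  refine Finset.sum_congr rfl fun y _ => ?_
  rw [Finset.mul_sum]

theorem pterm [Nonempty γ] {p : ℕ} (hp : 1 ≤ p) {I J S : Finset ι} (hSI : Disjoint S I)
    (hIS : 2 * (I.card + S.card) ≤ Fintype.card γ) {x0 : ι → α} {f : (ι → α) → ℝ} {κ A : ℝ}
    (hκ : 0 ≤ κ) (hf0 : ∀ x, 0 ≤ f x) (hfF : ∀ x, f x ≠ 0 → ∀ i ∈ I ∪ J, x i = x0 i)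
    (hsp : Spread (I ∪ J) κ A f) {g : (ι → α → γ) → ℝ} {b0 G : ℝ}
    (hg0 : ∀ y, 0 ≤ g y) (hgb : ∀ y, g y ≤ b0) (hG : ∑ y, g y ≤ G)
    (hb : b0 * Fintype.card (ι → α → γ) ≤ 2 ^ p * G) {h : ℝ} (hh0 : 0 ≤ h)
    (hh : 128 * p * κ ≤ h ^ 2) :
    |∑ x, ∑ y, f x * g y * PP I S (zz x y)| ≤
      2 * A * G * (wt (Fintype.card γ) I.card * 4 ^ (S ∩ J).card * h ^ (S \ J).card) := by
  have hw : 0 < wt (Fintype.card γ) I.card := wt_pos (by omega)
  have h1 := decay (f := f) (g := g) hp (F := I ∪ J) (S := S \ J) (x0 := x0) (Φ := PP I S)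
    (M := 4 ^ S.card * wt (Fintype.card γ) I.card) (h := h / 4) (κ := κ) (A := A) (b0 := b0)
    (G := G) ?_ ?_ ?_ (by positivity) ?_ hκ hf0 hfF hsp hg0 hgb hG hb (by positivity) ?_
  · refine h1.trans (le_of_eq ?_)
    have h2 : S.card = (S \ J).card + (S ∩ J).card := (Finset.card_sdiff_add_card_inter S J).symm
    have h3 : (4 : ℝ) ^ S.card = 4 ^ (S \ J).card * 4 ^ (S ∩ J).card := by
      rw [h2, pow_add]
    have h4 : (4 : ℝ) ^ (S \ J).card * (h / 4) ^ (S \ J).card = h ^ (S \ J).card := by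
      rw [← mul_pow]
      congr 1
      ring
    rw [h3, ← h4]
    ring
  · rw [Finset.disjoint_union_right]
    exact ⟨Finset.disjoint_of_subset_left Finset.sdiff_subset hSI, Finset.sdiff_disjoint⟩
  · intro i hi z
    exact PP_pure hSI (by omega) (Finset.sdiff_subset hi) z
  · intro z z' hz
    refine PP_congr fun i hi => hz i ?_
    rcases Finset.mem_union.mp hi with h5 | h5
    · exact Finset.mem_union_left _ (Finset.mem_union_left _ h5)
    · by_cases hiJ : i ∈ J
      · exact Finset.mem_union_left _ (Finset.mem_union_right _ hiJ)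
      · exact Finset.mem_union_right _ (Finset.mem_sdiff.mpr ⟨h5, hiJ⟩)
  · intro z
    refine (abs_PP_le hIS z).trans ?_
    exact mul_le_mul_of_nonneg_left (DD_le (by omega)) (by positivity)
  · rw [div_pow]
    linarith

/-- the main part of the kernel -/
theorem main_part [Nonempty γ] {p : ℕ} (hp : 1 ≤ p) {I : Finset ι} (𝒮 : Finset (Finset ι))
    (h𝒮0 : ∅ ∈ 𝒮) (h𝒮 : ∀ S ∈ 𝒮, Disjoint S I ∧ 2 * (I.card + S.card) ≤ Fintype.card γ)
    {x0 : ι → α} {f : (ι → α) → ℝ} {κ : ℝ}
    (hκ : 0 ≤ κ) (hf0 : ∀ x, 0 ≤ f x) (hfF : ∀ x, f x ≠ 0 → ∀ i ∈ I, x i = x0 i)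
    (hsp : Spread I κ (∑ x, f x) f) {g : (ι → α → γ) → ℝ} {b0 : ℝ}
    (hg0 : ∀ y, 0 ≤ g y) (hgb : ∀ y, g y ≤ b0)
    (hgI : ∀ y, g y ≠ 0 → Set.InjOn (zz x0 y) I)
    (hb : b0 * Fintype.card (ι → α → γ) ≤ 2 ^ p * ∑ y, g y) {h ρ : ℝ} (hh0 : 0 ≤ h)
    (hh : 128 * p * κ ≤ h ^ 2) (hρ : Fintype.card ι * h ≤ ρ) (hρ1 : ρ ≤ 1 / 8) :
    1 / 2 * ((∑ x, f x) * (∑ y, g y) * wt (Fintype.card γ) I.card) ≤
      ∑ S ∈ 𝒮, ∑ x, ∑ y, f x * g y * PP I S (zz x y) := by
  have hF0 : 0 ≤ ∑ x, f x := Finset.sum_nonneg fun x _ => hf0 x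
  have hG0 : 0 ≤ ∑ y, g y := Finset.sum_nonneg fun y _ => hg0 y
  have hw : 0 < wt (Fintype.card γ) I.card := wt_pos (by have := (h𝒮 ∅ h𝒮0).2; omega)
  have h1 : ∑ x, ∑ y, f x * g y * PP I ∅ (zz x y) =
      (∑ x, f x) * (∑ y, g y) * wt (Fintype.card γ) I.card := by
    rw [Finset.sum_mul_sum, Finset.sum_mul]
    refine Finset.sum_congr rfl fun x _ => ?_
    rw [Finset.sum_mul]
    refine Finset.sum_congr rfl fun y _ => ?_
    by_cases hx : f x = 0
    · rw [hx]; ring
    by_cases hy : g y = 0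
    · rw [hy]; ring
    congr 1
    rw [PP_empty]
    unfold DD
    rw [if_pos]
    refine (Set.EqOn.injOn_iff fun i hi => ?_).mp (hgI y hy)
    unfold zz
    rw [hfF x hx i hi]
  rw [← Finset.insert_erase h𝒮0, Finset.sum_insert (Finset.notMem_erase _ _), h1]
  have h2 : |∑ S ∈ 𝒮.erase ∅, ∑ x, ∑ y, f x * g y * PP I S (zz x y)| ≤
      1 / 2 * ((∑ x, f x) * (∑ y, g y) * wt (Fintype.card γ) I.card) := by
    refine (Finset.abs_sum_le_sum_abs _ _).trans ?_
    have h3 : ∀ S ∈ 𝒮.erase ∅, |∑ x, ∑ y, f x * g y * PP I S (zz x y)| ≤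
        2 * (∑ x, f x) * (∑ y, g y) * wt (Fintype.card γ) I.card * h ^ S.card := by
      intro S hS
      obtain ⟨h4, h5⟩ := h𝒮 S (Finset.mem_of_mem_erase hS)
      have h6 := pterm (J := ∅) hp h4 h5 hκ hf0 (x0 := x0)
        (by rw [Finset.union_empty]; exact hfF) (by rw [Finset.union_empty]; exact hsp) hg0 hgb
        le_rfl hb hh0 hh
      rw [Finset.inter_empty, Finset.card_empty, pow_zero, mul_one, Finset.sdiff_empty] at h6
      refine h6.trans (le_of_eq ?_)
      ring
    refine (Finset.sum_le_sum h3).trans ?_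
    rw [← Finset.mul_sum]
    have h7 : ∑ S ∈ 𝒮.erase ∅, h ^ S.card ≤ 2 * ρ ^ 1 := by
      refine le_trans ?_ (sum_large (ι := ι) 1 hh0 hρ (by linarith))
      refine Finset.sum_le_sum_of_subset_of_nonneg ?_ fun S _ _ => by positivity
      intro S hS
      rw [Finset.mem_filter]
      refine ⟨Finset.mem_univ _, ?_⟩
      exact Finset.card_pos.mpr (Finset.nonempty_iff_ne_empty.mpr (Finset.ne_of_mem_erase hS))
    have h8 : ∑ S ∈ 𝒮.erase ∅, h ^ S.card ≤ 1 / 4 := by
      rw [pow_one] at h7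
      linarith
    have h9 : 0 ≤ 2 * (∑ x, f x) * (∑ y, g y) * wt (Fintype.card γ) I.card := by positivity
    calc 2 * (∑ x, f x) * (∑ y, g y) * wt (Fintype.card γ) I.card * ∑ S ∈ 𝒮.erase ∅, h ^ S.card
        ≤ 2 * (∑ x, f x) * (∑ y, g y) * wt (Fintype.card γ) I.card * (1 / 4) :=
          mul_le_mul_of_nonneg_left h8 h9
      _ = _ := by ring
  have h3 := (abs_le.mp h2).1
  linarith

/-- the kernel is small at products which see a coincidence of colours -/
theorem dead_part [Nonempty γ] {p : ℕ} (hp : 1 ≤ p) {I : Finset ι} {d D : ℕ} (hdD : d ≤ D)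
    (hID : 2 * (I.card + D) ≤ Fintype.card γ) {x0 : ι → α} {f : (ι → α) → ℝ} {κ A : ℝ}
    (hκ : 0 ≤ κ) (hf0 : ∀ x, 0 ≤ f x) (hfF : ∀ x, f x ≠ 0 → ∀ i ∈ I, x i = x0 i)
    (hsp : Spread I κ A f) {g : (ι → α → γ) → ℝ} {b0 G : ℝ}
    (hg0 : ∀ y, 0 ≤ g y) (hgb : ∀ y, g y ≤ b0) (hG : ∑ y, g y ≤ G)
    (hb : b0 * Fintype.card (ι → α → γ) ≤ 2 ^ p * G) {h ρ : ℝ} (hh0 : 0 ≤ h)
    (hh : 128 * p * κ ≤ h ^ 2) (hρ : Fintype.card ι * h ≤ ρ) (hρ1 : ρ ≤ 1 / 2)
    (hdead : ∀ x, f x ≠ 0 → ∃ J : Finset ι, J.card ≤ d ∧ ∀ y, g y ≠ 0 →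
      ¬ Set.InjOn (zz x y) J) :
    |Lam I D f g| ≤ (1 + Fintype.card ι) ^ d * (4 * A * G * wt (Fintype.card γ) I.card *
      ρ ^ (D + 1 - d)) := by
  classical
  have hρ0 : 0 ≤ ρ := le_trans (by positivity) hρ
  have hw : 0 < wt (Fintype.card γ) I.card := wt_pos (by omega)
  have hA0 : 0 ≤ A := by
    have h1 := hsp ∅ (Finset.disjoint_empty_left _) x0
    rw [Finset.card_empty, pow_zero, one_mul] at h1
    exact (Finset.sum_nonneg fun x _ => hf0 x).trans h1
  have hG0 : 0 ≤ G := (Finset.sum_nonneg fun y _ => hg0 y).trans hG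
  obtain ⟨Jf, hJf⟩ : ∃ Jf : (ι → α) → Finset ι, (∀ x, (Jf x).card ≤ d) ∧ ∀ x, f x ≠ 0 →
      ∀ y, g y ≠ 0 → ¬ Set.InjOn (zz x y) (Jf x) := by
    refine ⟨fun x => if hx : f x ≠ 0 then (hdead x hx).choose else ∅, fun x => ?_, fun x hx => ?_⟩
    · simp only
      split_ifs with hx
      · exact (hdead x hx).choose_spec.1
      · simp
    · simp only [dif_pos hx]
      exact (hdead x hx).choose_spec.2
  have h1 : Lam I D f g = ∑ J ∈ univ.filter (fun J : Finset ι => J.card ≤ d),
      ∑ x, ∑ y, (if Jf x = J then f x else 0) * g y * KK I D (zz x y) := by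
    unfold Lam
    symm
    rw [Finset.sum_comm]
    refine Finset.sum_congr rfl fun x _ => ?_
    rw [Finset.sum_comm]
    refine Finset.sum_congr rfl fun y _ => ?_
    simp only [ite_mul, zero_mul]
    rw [Finset.sum_ite_eq, if_pos]
    rw [Finset.mem_filter]
    exact ⟨Finset.mem_univ _, hJf.1 x⟩
  have h2 : ∀ J ∈ univ.filter (fun J : Finset ι => J.card ≤ d),
      |∑ x, ∑ y, (if Jf x = J then f x else 0) * g y * KK I D (zz x y)| ≤
        4 * A * G * wt (Fintype.card γ) I.card * ρ ^ (D + 1 - d) := by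
    intro J hJ
    have hJd := (Finset.mem_filter.mp hJ).2
    have e1 : ∑ x, ∑ y, (if Jf x = J then f x else 0) * g y * KK I D (zz x y) =
        ∑ S ∈ univ.filter (fun S : Finset ι => Disjoint S I ∧ S.card ≤ D ∧
          D < (S \ (J \ I)).card + (J \ I).card),
          ∑ x, ∑ y, (if Jf x = J then f x else 0) * g y * PP I S (zz x y) := by
      rw [swap3 _ (fun S z => PP I S z) (fun x => if Jf x = J then f x else 0) g]
      refine Finset.sum_congr rfl fun x _ => ?_
      refine Finset.sum_congr rfl fun y _ => ?_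
      by_cases h3 : (if Jf x = J then f x else 0) * g y = 0
      · rw [h3, zero_mul, zero_mul]
      · congr 1
        have h4 : Jf x = J := by
          by_contra h4
          rw [if_neg h4, zero_mul] at h3
          exact h3 rfl
        rw [if_pos h4] at h3
        refine KK_of_not D ?_
        rw [← h4]
        exact hJf.2 x (left_ne_zero_of_mul h3) y (right_ne_zero_of_mul h3)
    rw [e1]
    refine (Finset.abs_sum_le_sum_abs _ _).trans ?_
    have e2 : ∀ S ∈ univ.filter (fun S : Finset ι => Disjoint S I ∧ S.card ≤ D ∧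
          D < (S \ (J \ I)).card + (J \ I).card),
        |∑ x, ∑ y, (if Jf x = J then f x else 0) * g y * PP I S (zz x y)| ≤
          2 * A * G * wt (Fintype.card γ) I.card * h ^ S.card := by
      intro S hS
      obtain ⟨-, h3, h4, -⟩ := Finset.mem_filter.mp hS
      have h5 := pterm (J := ∅) (f := fun x => if Jf x = J then f x else 0) hp h3
        (by omega) hκ (x0 := x0) (A := A)
        (fun x => by
          split_ifs
          · exact hf0 x
          · exact le_rfl)
        (by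
          rw [Finset.union_empty]
          intro x hx
          refine hfF x fun h0 => hx ?_
          simp [h0])
        (by
          rw [Finset.union_empty]
          refine hsp.mono fun x => ?_
          split_ifs
          · exact le_rfl
          · exact hf0 x) hg0 hgb hG hb hh0 hh
      rw [Finset.inter_empty, Finset.card_empty, pow_zero, mul_one, Finset.sdiff_empty] at h5
      refine h5.trans (le_of_eq ?_)
      ring
    refine (Finset.sum_le_sum e2).trans ?_
    rw [← Finset.mul_sum]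
    have e3 : ∑ S ∈ univ.filter (fun S : Finset ι => Disjoint S I ∧ S.card ≤ D ∧
          D < (S \ (J \ I)).card + (J \ I).card), h ^ S.card ≤ 2 * ρ ^ (D + 1 - d) := by
      refine le_trans ?_ (sum_large (ι := ι) (D + 1 - d) hh0 hρ hρ1)
      refine Finset.sum_le_sum_of_subset_of_nonneg ?_ fun S _ _ => by positivity
      intro S hS
      obtain ⟨-, -, -, h4⟩ := Finset.mem_filter.mp hS
      rw [Finset.mem_filter]
      refine ⟨Finset.mem_univ _, ?_⟩
      have h5 := Finset.card_le_card (Finset.sdiff_subset (s := S) (t := J \ I))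
      have h6 := Finset.card_le_card (Finset.sdiff_subset (s := J) (t := I))
      omega
    have e4 : 0 ≤ 2 * A * G * wt (Fintype.card γ) I.card := by positivity
    calc 2 * A * G * wt (Fintype.card γ) I.card * _ ≤
          2 * A * G * wt (Fintype.card γ) I.card * (2 * ρ ^ (D + 1 - d)) :=
            mul_le_mul_of_nonneg_left e3 e4
      _ = _ := by ring
  rw [h1]
  refine (Finset.abs_sum_le_sum_abs _ _).trans ((Finset.sum_le_sum h2).trans ?_)
  rw [Finset.sum_const, nsmul_eq_mul]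
  refine mul_le_mul_of_nonneg_right ?_ (by positivity)
  have h3 := sum_small (ι := ι) d (a := 1) (by norm_num)
  simp only [one_pow, Finset.sum_const, nsmul_eq_mul, mul_one] at h3
  exact h3

/-- the trivial bound -/
theorem abs_KK_le {I : Finset ι} {D : ℕ} (hID : 2 * (I.card + D) ≤ Fintype.card γ) (z : ι → γ) :
    |KK I D z| ≤ wt (Fintype.card γ) I.card * (1 + Fintype.card ι * 4) ^ D := by
  unfold KK
  have hw : 0 < wt (Fintype.card γ) I.card := wt_pos (by omega)
  refine (Finset.abs_sum_le_sum_abs _ _).trans ?_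
  have h1 : ∀ S ∈ univ.filter (fun S : Finset ι => Disjoint S I ∧ S.card ≤ D),
      |PP I S z| ≤ wt (Fintype.card γ) I.card * 4 ^ S.card := by
    intro S hS
    obtain ⟨-, -, h2⟩ := Finset.mem_filter.mp hS
    refine (abs_PP_le (by omega) z).trans ?_
    rw [mul_comm]
    exact mul_le_mul_of_nonneg_right (DD_le (by omega)) (by positivity)
  refine (Finset.sum_le_sum h1).trans ?_
  rw [← Finset.mul_sum]
  refine mul_le_mul_of_nonneg_left ?_ hw.le
  refine le_trans ?_ (sum_small (ι := ι) D (a := 4) (by norm_num))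
  refine Finset.sum_le_sum_of_subset_of_nonneg ?_ fun S _ _ => by positivity
  intro S hS
  rw [Finset.mem_filter] at hS ⊢
  exact ⟨hS.1, hS.2.2⟩

/-- the error of the nonnegativity of the kernel -/
noncomputable def err (k d D t p : ℕ) (ρ : ℝ) : ℝ :=
  4 * 8 ^ d * ρ ^ (D + 1 - d) + 2 ^ t * (1 / 2) ^ p * 2 ^ d * (1 + k * 4) ^ D

theorem err_nonneg (k d D t p : ℕ) {ρ : ℝ} (hρ : 0 ≤ ρ) : 0 ≤ err k d D t p ρ := by
  unfold err
  positivity

/-- near nonnegativity at spread pieces -/
theorem piece [Nonempty γ] {p t : ℕ} (hp : 1 ≤ p) (htp : t ≤ p) {I J : Finset ι}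
    (hJI : Disjoint J I) {d D : ℕ} (hdD : d ≤ D) (hJd : J.card ≤ d)
    (hID : 2 * (I.card + d + D) ≤ Fintype.card γ) {x1 : ι → α} {f : (ι → α) → ℝ} {κ : ℝ}
    (hκ : 0 ≤ κ) (hf0 : ∀ x, 0 ≤ f x) (hfF : ∀ x, f x ≠ 0 → ∀ i ∈ I ∪ J, x i = x1 i)
    (hsp : Spread (I ∪ J) κ (∑ x, f x) f) {g : (ι → α → γ) → ℝ} {b0 : ℝ} (Y : Finset (ι → α → γ))
    (hb0 : 0 ≤ b0)
    (hg0 : ∀ y, 0 ≤ g y) (hgb : ∀ y, g y ≤ b0) (hgY : ∀ y, y ∉ Y → g y = 0)
    (hY : (Fintype.card (ι → α → γ) : ℝ) ≤ 2 ^ t * Y.card) {h ρ : ℝ} (hh0 : 0 ≤ h)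
    (hh : 128 * p * κ ≤ h ^ 2) (hρ : Fintype.card ι * h ≤ ρ) (hρ1 : ρ ≤ 1 / 8) :
    -((∑ x, f x) * (b0 * Y.card) * wt (Fintype.card γ) I.card *
      err (Fintype.card ι) d D t p ρ) ≤ Lam I D f g := by
  classical
  have hρ0 : 0 ≤ ρ := le_trans (by positivity) hρ
  have hw : 0 < wt (Fintype.card γ) I.card := wt_pos (by omega)
  have hF0 : 0 ≤ ∑ x, f x := Finset.sum_nonneg fun x _ => hf0 x
  have hcardF : (I ∪ J).card = I.card + J.card := Finset.card_union_of_disjoint hJI.symm
  have hgG : ∑ y, g y ≤ b0 * Y.card := by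
    have e1 : ∑ y, g y = ∑ y ∈ Y, g y := by
      symm
      refine Finset.sum_subset (Finset.subset_univ _) fun y _ hy => hgY y hy
    rw [e1]
    refine (Finset.sum_le_sum fun y _ => hgb y).trans ?_
    rw [Finset.sum_const, nsmul_eq_mul, mul_comm]
  have hbY : b0 * Fintype.card (ι → α → γ) ≤ 2 ^ p * (b0 * Y.card) := by
    have h1 : (2 : ℝ) ^ t ≤ 2 ^ p := pow_le_pow_right₀ (by norm_num) htp
    have h2 : (0 : ℝ) ≤ Y.card := Nat.cast_nonneg _
    calc b0 * Fintype.card (ι → α → γ) ≤ b0 * (2 ^ t * Y.card) := mul_le_mul_of_nonneg_left hY hb0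
      _ ≤ b0 * (2 ^ p * Y.card) :=
        mul_le_mul_of_nonneg_left (mul_le_mul_of_nonneg_right h1 h2) hb0
      _ = _ := by ring
  -- splitting
  have h1 : Lam I D f g =
      ∑ S ∈ univ.filter (fun S : Finset ι => Disjoint S (I ∪ J) ∧ S.card + J.card ≤ D),
        ∑ x, ∑ y, f x * g y * PP (I ∪ J) S (zz x y) +
      ∑ S ∈ univ.filter (fun S : Finset ι => Disjoint S I ∧ S.card ≤ D ∧
        D < (S \ J).card + J.card), ∑ x, ∑ y, f x * g y * PP I S (zz x y) := by
    unfold Lam
    rw [swap3 _ (fun S z => PP (I ∪ J) S z) f g, swap3 _ (fun S z => PP I S z) f g]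
    rw [← Finset.sum_add_distrib]
    refine Finset.sum_congr rfl fun x _ => ?_
    rw [← Finset.sum_add_distrib]
    refine Finset.sum_congr rfl fun y _ => ?_
    rw [← mul_add, ← KK_split hJI]
  -- the boundary
  have h2 : |∑ S ∈ univ.filter (fun S : Finset ι => Disjoint S I ∧ S.card ≤ D ∧
        D < (S \ J).card + J.card), ∑ x, ∑ y, f x * g y * PP I S (zz x y)| ≤
      (∑ x, f x) * (b0 * Y.card) * wt (Fintype.card γ) I.card *
        (4 * 8 ^ d * ρ ^ (D + 1 - d)) := by
    refine (Finset.abs_sum_le_sum_abs _ _).trans ?_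
    have e1 : ∀ S ∈ univ.filter (fun S : Finset ι => Disjoint S I ∧ S.card ≤ D ∧
        D < (S \ J).card + J.card), |∑ x, ∑ y, f x * g y * PP I S (zz x y)| ≤
        2 * (∑ x, f x) * (b0 * Y.card) * wt (Fintype.card γ) I.card * 4 ^ d *
          h ^ (S \ J).card := by
      intro S hS
      obtain ⟨-, e2, e3, -⟩ := Finset.mem_filter.mp hS
      have e4 := pterm hp e2 (by omega) hκ hf0 hfF hsp hg0 hgb hgG hbY hh0 hh
      have e5 : (4 : ℝ) ^ (S ∩ J).card ≤ 4 ^ d :=
        pow_le_pow_right₀ (by norm_num) ((Finset.card_le_card Finset.inter_subset_right).trans hJd)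
      refine e4.trans ?_
      have e6 : 0 ≤ 2 * (∑ x, f x) * (b0 * Y.card) * wt (Fintype.card γ) I.card *
        h ^ (S \ J).card := by positivity
      calc 2 * (∑ x, f x) * (b0 * Y.card) *
          (wt (Fintype.card γ) I.card * 4 ^ (S ∩ J).card * h ^ (S \ J).card) =
          (2 * (∑ x, f x) * (b0 * Y.card) * wt (Fintype.card γ) I.card *
            h ^ (S \ J).card) * 4 ^ (S ∩ J).card := by ring
        _ ≤ (2 * (∑ x, f x) * (b0 * Y.card) * wt (Fintype.card γ) I.card *
            h ^ (S \ J).card) * 4 ^ d := mul_le_mul_of_nonneg_left e5 e6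
        _ = _ := by ring
    refine (Finset.sum_le_sum e1).trans ?_
    rw [← Finset.mul_sum]
    have e2 : ∑ S ∈ univ.filter (fun S : Finset ι => Disjoint S I ∧ S.card ≤ D ∧
        D < (S \ J).card + J.card), h ^ (S \ J).card ≤ 2 ^ d * (2 * ρ ^ (D + 1 - d)) := by
      have hmaps : ∀ S ∈ univ.filter (fun S : Finset ι => Disjoint S I ∧ S.card ≤ D ∧
          D < (S \ J).card + J.card), S \ J ∈
          univ.filter (fun S : Finset ι => D + 1 - d ≤ S.card) := by
        intro S hS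
        obtain ⟨-, -, -, e3⟩ := Finset.mem_filter.mp hS
        rw [Finset.mem_filter]
        exact ⟨Finset.mem_univ _, by omega⟩
      rw [← Finset.sum_fiberwise_of_maps_to hmaps]
      refine le_trans (Finset.sum_le_sum (g := fun S1 => 2 ^ d * h ^ S1.card) fun S1 _ => ?_) ?_
      · have e3 : ∀ S ∈ (univ.filter (fun S : Finset ι => Disjoint S I ∧ S.card ≤ D ∧
            D < (S \ J).card + J.card)).filter (fun S => S \ J = S1),
            h ^ (S \ J).card = h ^ S1.card := by
          intro S hS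
          rw [(Finset.mem_filter.mp hS).2]
        rw [Finset.sum_congr rfl e3, Finset.sum_const, nsmul_eq_mul]
        refine mul_le_mul_of_nonneg_right ?_ (by positivity)
        have e4 : ((univ.filter (fun S : Finset ι => Disjoint S I ∧ S.card ≤ D ∧
            D < (S \ J).card + J.card)).filter (fun S => S \ J = S1)).card ≤ 2 ^ J.card := by
          rw [← Finset.card_powerset]
          refine Finset.card_le_card_of_injOn (fun S => S ∩ J) ?_ ?_
          · intro S _
            exact Finset.mem_coe.mpr (Finset.mem_powerset.mpr Finset.inter_subset_right)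
          · intro S hS S' hS' hSS
            have e5 := (Finset.mem_filter.mp (Finset.mem_coe.mp hS)).2
            have e6 := (Finset.mem_filter.mp (Finset.mem_coe.mp hS')).2
            simp only at hSS
            rw [← Finset.sdiff_union_inter S J, ← Finset.sdiff_union_inter S' J, e5, e6, hSS]
        have e5 : (2 : ℕ) ^ J.card ≤ 2 ^ d := Nat.pow_le_pow_right (by norm_num) hJd
        exact_mod_cast e4.trans e5
      · rw [← Finset.mul_sum]
        exact mul_le_mul_of_nonneg_left (sum_large (ι := ι) (D + 1 - d) hh0 hρ (by linarith))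
          (by positivity)
    have e3 : 0 ≤ 2 * (∑ x, f x) * (b0 * Y.card) * wt (Fintype.card γ) I.card * 4 ^ d := by
      positivity
    calc 2 * (∑ x, f x) * (b0 * Y.card) * wt (Fintype.card γ) I.card * 4 ^ d * _ ≤
          2 * (∑ x, f x) * (b0 * Y.card) * wt (Fintype.card γ) I.card * 4 ^ d *
          (2 ^ d * (2 * ρ ^ (D + 1 - d))) := mul_le_mul_of_nonneg_left e2 e3
      _ = _ := by
          have : (8 : ℝ) ^ d = 4 ^ d * 2 ^ d := by
            rw [← mul_pow]
            norm_num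
          rw [this]
          ring
  -- the main part
  obtain ⟨g', hg'⟩ : ∃ g' : (ι → α → γ) → ℝ, ∀ y, g' y =
    if Set.InjOn (zz x1 y) (I ∪ J : Finset ι) then g y else 0 := ⟨_, fun _ => rfl⟩
  have hg'0 : ∀ y, 0 ≤ g' y := by
    intro y
    rw [hg']
    split_ifs
    · exact hg0 y
    · exact le_rfl
  have hg'b : ∀ y, g' y ≤ b0 := by
    intro y
    rw [hg']
    split_ifs
    · exact hgb y
    · exact hb0
  have h3 : ∀ S : Finset ι, ∑ x, ∑ y, f x * g y * PP (I ∪ J) S (zz x y) =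
      ∑ x, ∑ y, f x * g' y * PP (I ∪ J) S (zz x y) := by
    intro S
    refine Finset.sum_congr rfl fun x _ => Finset.sum_congr rfl fun y _ => ?_
    by_cases hx : f x = 0
    · rw [hx]; ring
    · rw [hg']
      split_ifs with hi
      · rfl
      · rw [PP_of_not, mul_zero, mul_zero]
        intro hi'
        refine hi ((Set.EqOn.injOn_iff fun i hi => ?_).mp hi')
        unfold zz
        rw [hfF x hx i (by exact_mod_cast hi)]
  have h4 : -((∑ x, f x) * (b0 * Y.card) * wt (Fintype.card γ) I.card *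
      (2 ^ t * (1 / 2) ^ p * 2 ^ d * (1 + Fintype.card ι * 4) ^ D)) ≤
      ∑ S ∈ univ.filter (fun S : Finset ι => Disjoint S (I ∪ J) ∧ S.card + J.card ≤ D),
        ∑ x, ∑ y, f x * g y * PP (I ∪ J) S (zz x y) := by
    rw [Finset.sum_congr rfl fun S _ => h3 S]
    have hG0 : 0 ≤ ∑ y, g' y := Finset.sum_nonneg fun y _ => hg'0 y
    rcases le_or_gt (b0 * Fintype.card (ι → α → γ)) (2 ^ p * ∑ y, g' y) with hc | hc
    · have e1 := main_part (f := f) (g := g') (x0 := x1) hp
        (univ.filter (fun S : Finset ι => Disjoint S (I ∪ J) ∧ S.card + J.card ≤ D))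
        (by
          rw [Finset.mem_filter]
          exact ⟨Finset.mem_univ _, Finset.disjoint_empty_left _, by simp; omega⟩)
        (fun S hS => by
          obtain ⟨-, e2, e3⟩ := Finset.mem_filter.mp hS
          refine ⟨e2, ?_⟩
          rw [hcardF]
          omega) hκ hf0 hfF hsp hg'0 hg'b
        (fun y hy => by
          by_contra hcon
          rw [hg', if_neg hcon] at hy
          exact hy rfl) hc hh0 hh hρ hρ1
      refine le_trans ?_ e1
      have e2 : 0 < wt (Fintype.card γ) (I ∪ J).card := wt_pos (by omega)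
      have e3 : 0 ≤ (∑ x, f x) * (b0 * Y.card) * wt (Fintype.card γ) I.card *
        (2 ^ t * (1 / 2) ^ p * 2 ^ d * (1 + Fintype.card ι * 4) ^ D) := by positivity
      have e4 : 0 ≤ 1 / 2 * ((∑ x, f x) * (∑ y, g' y) * wt (Fintype.card γ) (I ∪ J).card) := by
        positivity
      linarith
    · have e1 : |∑ S ∈ univ.filter (fun S : Finset ι => Disjoint S (I ∪ J) ∧
          S.card + J.card ≤ D), ∑ x, ∑ y, f x * g' y * PP (I ∪ J) S (zz x y)| ≤
          (∑ x, f x) * (∑ y, g' y) * (wt (Fintype.card γ) (I ∪ J).card *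
            (1 + Fintype.card ι * 4) ^ D) := by
        refine (Finset.abs_sum_le_sum_abs _ _).trans ?_
        have e2 : ∀ S ∈ univ.filter (fun S : Finset ι => Disjoint S (I ∪ J) ∧
          S.card + J.card ≤ D), |∑ x, ∑ y, f x * g' y * PP (I ∪ J) S (zz x y)| ≤
          (∑ x, f x) * (∑ y, g' y) * wt (Fintype.card γ) (I ∪ J).card * 4 ^ S.card := by
          intro S hS
          obtain ⟨-, e3, e4⟩ := Finset.mem_filter.mp hS
          have e5 : 2 * ((I ∪ J).card + S.card) ≤ Fintype.card γ := by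
            rw [hcardF]
            omega
          rw [Finset.sum_mul_sum, Finset.sum_mul, Finset.sum_mul]
          refine (Finset.abs_sum_le_sum_abs _ _).trans (Finset.sum_le_sum fun x _ => ?_)
          rw [Finset.sum_mul, Finset.sum_mul]
          refine (Finset.abs_sum_le_sum_abs _ _).trans (Finset.sum_le_sum fun y _ => ?_)
          rw [abs_mul, abs_of_nonneg (mul_nonneg (hf0 x) (hg'0 y)), mul_assoc (f x * g' y)]
          refine mul_le_mul_of_nonneg_left ?_ (mul_nonneg (hf0 x) (hg'0 y))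
          refine (abs_PP_le e5 _).trans ?_
          rw [mul_comm]
          exact mul_le_mul_of_nonneg_right (DD_le (by omega)) (by positivity)
        refine (Finset.sum_le_sum e2).trans ?_
        rw [← Finset.mul_sum, mul_assoc ((∑ x, f x) * (∑ y, g' y))]
        have e3 : 0 < wt (Fintype.card γ) (I ∪ J).card := wt_pos (by omega)
        refine mul_le_mul_of_nonneg_left (mul_le_mul_of_nonneg_left ?_ e3.le) (by positivity)
        refine le_trans ?_ (sum_small (ι := ι) D (a := 4) (by norm_num))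
        refine Finset.sum_le_sum_of_subset_of_nonneg ?_ fun S _ _ => by positivity
        intro S hS
        rw [Finset.mem_filter] at hS ⊢
        exact ⟨hS.1, by omega⟩
      have e2 : wt (Fintype.card γ) (I ∪ J).card ≤ 2 ^ d * wt (Fintype.card γ) I.card := by
        rw [hcardF]
        refine (wt_add_le (by omega)).trans ?_
        exact mul_le_mul_of_nonneg_right (pow_le_pow_right₀ (by norm_num) hJd) hw.le
      have e3 : ∑ y, g' y ≤ (b0 * Y.card) * (2 ^ t * (1 / 2) ^ p) := by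
        have e4 : ∑ y, g' y ≤ (1 / 2) ^ p * (b0 * Fintype.card (ι → α → γ)) := by
          have e5 : (1 / 2 : ℝ) ^ p * 2 ^ p = 1 := by
            rw [← mul_pow]
            norm_num
          have e6 : (0 : ℝ) < (1 / 2) ^ p := by positivity
          calc ∑ y, g' y = (1 / 2) ^ p * (2 ^ p * ∑ y, g' y) := by rw [← mul_assoc, e5, one_mul]
            _ ≤ (1 / 2) ^ p * (b0 * Fintype.card (ι → α → γ)) :=
              mul_le_mul_of_nonneg_left hc.le e6.le
        refine e4.trans ?_
        calc (1 / 2 : ℝ) ^ p * (b0 * Fintype.card (ι → α → γ)) ≤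
            (1 / 2) ^ p * (b0 * (2 ^ t * Y.card)) :=
              mul_le_mul_of_nonneg_left (mul_le_mul_of_nonneg_left hY hb0) (by positivity)
          _ = _ := by ring
      have e4 : (∑ x, f x) * (∑ y, g' y) * (wt (Fintype.card γ) (I ∪ J).card *
            (1 + Fintype.card ι * 4) ^ D) ≤ (∑ x, f x) * (b0 * Y.card) *
            wt (Fintype.card γ) I.card *
            (2 ^ t * (1 / 2) ^ p * 2 ^ d * (1 + Fintype.card ι * 4) ^ D) := by
        calc (∑ x, f x) * (∑ y, g' y) * (wt (Fintype.card γ) (I ∪ J).card *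
              (1 + Fintype.card ι * 4) ^ D)
            ≤ (∑ x, f x) * ((b0 * Y.card) * (2 ^ t * (1 / 2) ^ p)) *
              ((2 ^ d * wt (Fintype.card γ) I.card) * (1 + Fintype.card ι * 4) ^ D) := by
              refine mul_le_mul (mul_le_mul_of_nonneg_left e3 hF0) ?_ ?_ (by positivity)
              · exact mul_le_mul_of_nonneg_right e2 (by positivity)
              · have := (wt_pos (q := Fintype.card γ) (s := (I ∪ J).card) (by omega)).le
                positivity
          _ = _ := by ring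
      have e5 := (abs_le.mp e1).1
      linarith
  rw [h1]
  have h5 := (abs_le.mp h2).1
  unfold err
  have h6 : (∑ x, f x) * (b0 * Y.card) * wt (Fintype.card γ) I.card *
      (4 * 8 ^ d * ρ ^ (D + 1 - d) + 2 ^ t * (1 / 2) ^ p * 2 ^ d *
        (1 + (Fintype.card ι : ℝ) * 4) ^ D) =
      (∑ x, f x) * (b0 * Y.card) * wt (Fintype.card γ) I.card * (4 * 8 ^ d * ρ ^ (D + 1 - d)) +
      (∑ x, f x) * (b0 * Y.card) * wt (Fintype.card γ) I.card *
        (2 ^ t * (1 / 2) ^ p * 2 ^ d * (1 + (Fintype.card ι : ℝ) * 4) ^ D) := by ring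
  rw [h6]
  linarith

end Pool.Agent.H58.LG
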