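import Pool.Agent.H58.LG.SepDefs
import Pool.Agent.H58.LG.Gate

/-! One semidefinite programme separates cliques from multipartite graphs. -/

set_option autoImplicit false
set_option linter.unusedSectionVars false

namespace Pool.Agent.H58.LG

open Finset

/-- cliques are accepted -/
theorem sdp_accept {v k : ℕ} (hk : 1 ≤ k) {G : SimpleGraph (Fin v)} (hG : ¬ G.CliqueFree k) :
    ∃ X : Matrix (Fin v) (Fin v) ℝ, X.PosSemidef ∧ X.trace = 1 ∧ (∑ a, ∑ b, X a b) = k ∧
      ∀ a b, a ≠ b → |X a b| ≤ bit (G.Adj a b) := by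
  classical
  unfold SimpleGraph.CliqueFree at hG
  push Not at hG
  obtain ⟨K, hK⟩ := hG
  have hk0 : (0 : ℝ) < k := by exact_mod_cast hk
  let w : Fin v → ℝ := fun a => if a ∈ K then 1 else 0
  have hw : ∑ a, w a = k := by
    show ∑ a, (if a ∈ K then (1 : ℝ) else 0) = k
    rw [Finset.sum_ite_mem, Finset.univ_inter, Finset.sum_const, nsmul_eq_mul, mul_one, hK.card_eq]
  have hww : ∀ a, w a * w a = w a := by
    intro a
    show (if a ∈ K then (1 : ℝ) else 0) * (if a ∈ K then 1 else 0) = if a ∈ K then 1 else 0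
    split_ifs <;> norm_num
  refine ⟨fun a b => (1 / k : ℝ) * (w a * w b), ?_, ?_, ?_, ?_⟩
  · have h1 : (Matrix.vecMulVec w (star w)).PosSemidef := Matrix.posSemidef_vecMulVec_self_star w
    have h2 := h1.smul (show (0 : ℝ) ≤ 1 / k by positivity)
    exact h2
  · show ∑ a, (1 / k : ℝ) * (w a * w a) = 1
    rw [← Finset.mul_sum, Finset.sum_congr rfl fun a _ => hww a, hw]
    field_simp
  · have : ∀ a, ∑ b, (1 / k : ℝ) * (w a * w b) = (1 / k : ℝ) * (w a * k) := by
      intro a
      rw [← Finset.mul_sum, ← Finset.mul_sum, hw]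
    rw [Finset.sum_congr rfl fun a _ => this a, ← Finset.mul_sum, ← Finset.sum_mul, hw]
    field_simp
  · intro a b hab
    show |(1 / k : ℝ) * ((if a ∈ K then 1 else 0) * (if b ∈ K then 1 else 0))| ≤ _
    by_cases ha : a ∈ K
    · by_cases hb : b ∈ K
      · rw [if_pos ha, if_pos hb, bit_true (hK.isClique ha hb hab), mul_one, mul_one,
          abs_of_nonneg (by positivity), div_le_one hk0]
        exact_mod_cast hk
      · rw [if_neg hb, mul_zero, mul_zero, abs_zero]
        unfold bit
        split_ifs <;> norm_num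
    · rw [if_neg ha, zero_mul, mul_zero, abs_zero]
      unfold bit
      split_ifs <;> norm_num

/-- multipartite graphs are rejected, with a margin -/
theorem sdp_reject {v k q : ℕ} (hq : 1 ≤ q) {G : SimpleGraph (Fin v)} (hG : G.Colorable q)
    (X : Matrix (Fin v) (Fin v) ℝ) (hX : X.PosSemidef) (htr : X.trace = 1)
    (hsum : (k : ℝ) ≤ ∑ a, ∑ b, X a b) :
    ((k : ℝ) - q) / q ≤ ∑ p ∈ (univ : Finset (Fin v)).offDiag,
      max (|X p.1 p.2| - bit (G.Adj p.1 p.2)) 0 := by
  classical
  obtain ⟨C⟩ := hG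
  have hk1 : (0 : ℝ) < (q : ℝ) := by exact_mod_cast hq
  let χ : Fin q → Fin v → ℝ := fun c a => if C a = c then 1 else 0
  have hχ : ∀ a, ∑ c, χ c a = 1 := by
    intro a
    show ∑ c, (if C a = c then (1 : ℝ) else 0) = 1
    simp
  let B : Fin q → Fin q → ℝ := fun c c' => ∑ a, ∑ b, χ c a * (X a b * χ c' b)
  -- the quadratic form of a difference
  have hpos : ∀ c c', 0 ≤ B c c + B c' c' - B c c' - B c' c := by
    intro c c'
    have h1 := hX.re_dotProduct_nonneg (fun a => χ c a - χ c' a)
    have h2 : RCLike.re (star (fun a => χ c a - χ c' a) ⬝ᵥ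
        X.mulVec (fun a => χ c a - χ c' a)) = B c c + B c' c' - B c c' - B c' c := by
      show ∑ a, (χ c a - χ c' a) * ∑ b, X a b * (χ c b - χ c' b) = _
      have h3 : ∀ a, (χ c a - χ c' a) * ∑ b, X a b * (χ c b - χ c' b) =
          (∑ b, χ c a * (X a b * χ c b)) + (∑ b, χ c' a * (X a b * χ c' b)) -
          (∑ b, χ c a * (X a b * χ c' b)) - (∑ b, χ c' a * (X a b * χ c b)) := by
        intro a
        rw [Finset.mul_sum, ← Finset.sum_add_distrib, ← Finset.sum_sub_distrib,
          ← Finset.sum_sub_distrib]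
        exact Finset.sum_congr rfl fun b _ => by ring
      rw [Finset.sum_congr rfl fun a _ => h3 a, Finset.sum_sub_distrib, Finset.sum_sub_distrib,
        Finset.sum_add_distrib]
    rw [h2] at h1
    exact h1
  have hall : ∑ c, ∑ c', B c c' = ∑ a, ∑ b, X a b := by
    have h1 : ∀ c, ∑ c', B c c' = ∑ a, ∑ b, χ c a * X a b := by
      intro c
      show ∑ c', ∑ a, ∑ b, χ c a * (X a b * χ c' b) = _
      rw [Finset.sum_comm]
      refine Finset.sum_congr rfl fun a _ => ?_
      rw [Finset.sum_comm]
      refine Finset.sum_congr rfl fun b _ => ?_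
      rw [← Finset.mul_sum, ← Finset.mul_sum, hχ, mul_one]
    rw [Finset.sum_congr rfl fun c _ => h1 c, Finset.sum_comm]
    refine Finset.sum_congr rfl fun a _ => ?_
    rw [Finset.sum_comm]
    refine Finset.sum_congr rfl fun b _ => ?_
    rw [← Finset.sum_mul, hχ, one_mul]
  have hcs : ∑ a, ∑ b, X a b ≤ (q : ℝ) * ∑ c, B c c := by
    have h1 : 0 ≤ ∑ c, ∑ c', (B c c + B c' c' - B c c' - B c' c) :=
      Finset.sum_nonneg fun c _ => Finset.sum_nonneg fun c' _ => hpos c c'
    have h2 : ∑ c, ∑ c', (B c c + B c' c' - B c c' - B c' c) =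
        2 * ((q : ℝ) * ∑ c, B c c) - 2 * ∑ c, ∑ c', B c c' := by
      simp only [Finset.sum_sub_distrib, Finset.sum_add_distrib, Finset.sum_const,
        Finset.card_univ, Fintype.card_fin, nsmul_eq_mul]
      have h3 : ∑ c, ∑ c', B c' c = ∑ c, ∑ c', B c c' := Finset.sum_comm
      rw [h3, ← Finset.mul_sum]
      ring
    rw [h2, hall] at h1
    linarith
  -- the classes
  have hdiag : ∑ c, B c c = 1 + ∑ p ∈ (univ : Finset (Fin v)).offDiag,
      if C p.1 = C p.2 then X p.1 p.2 else 0 := by
    have h1 : ∑ c, B c c = ∑ a, ∑ b, if C a = C b then X a b else 0 := by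
      show ∑ c, ∑ a, ∑ b, χ c a * (X a b * χ c b) = _
      rw [Finset.sum_comm]
      refine Finset.sum_congr rfl fun a _ => ?_
      rw [Finset.sum_comm]
      refine Finset.sum_congr rfl fun b _ => ?_
      show ∑ c, (if C a = c then (1 : ℝ) else 0) * (X a b * (if C b = c then 1 else 0)) = _
      by_cases h : C a = C b
      · rw [if_pos h, Finset.sum_eq_single (C a)]
        · rw [if_pos rfl, if_pos h.symm]
          ring
        · intro c _ hc
          rw [if_neg (Ne.symm hc), zero_mul]
        · intro h'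
          exact absurd (Finset.mem_univ _) h'
      · rw [if_neg h]
        refine Finset.sum_eq_zero fun c _ => ?_
        by_cases hc : C a = c
        · have hbc : ¬ C b = c := fun h' => h (hc.trans h'.symm)
          rw [if_neg hbc]
          ring
        · rw [if_neg hc]
          ring
    rw [h1, ← htr, ← Finset.sum_product' (s := univ) (t := univ)
      (f := fun a b => if C a = C b then X a b else 0)]
    have h2 : (univ : Finset (Fin v)) ×ˢ (univ : Finset (Fin v)) =
        (univ : Finset (Fin v)).diag ∪ (univ : Finset (Fin v)).offDiag :=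
      (Finset.diag_union_offDiag _).symm
    rw [h2, Finset.sum_union (Finset.disjoint_diag_offDiag _)]
    congr 1
    rw [Finset.sum_diag]
    exact Finset.sum_congr rfl fun a _ => if_pos rfl
  have hle : ∑ p ∈ (univ : Finset (Fin v)).offDiag, (if C p.1 = C p.2 then X p.1 p.2 else 0) ≤
      ∑ p ∈ (univ : Finset (Fin v)).offDiag, max (|X p.1 p.2| - bit (G.Adj p.1 p.2)) 0 := by
    refine Finset.sum_le_sum fun p _ => ?_
    by_cases h : C p.1 = C p.2
    · rw [if_pos h, bit_false (fun h' => C.valid h' h), sub_zero]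
      exact (le_abs_self _).trans (le_max_left _ _)
    · rw [if_neg h]
      exact le_max_right _ _
  rw [div_le_iff₀ hk1]
  rw [hdiag] at hcs
  have h5 := mul_le_mul_of_nonneg_left hle hk1.le
  nlinarith

end Pool.Agent.H58.LG
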