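import Pool.Agent.H58.LG.Sep
import Pool.Agent.H58.LG.Sdp

/-! The statement about fractions. -/

set_option autoImplicit false
set_option linter.unusedSectionVars false

namespace Pool.Agent.H58.LG

open Finset
open Pool.Agent.H25.NM (nc nc_eq)

theorem sep_fraction {v k q s M : ℕ} (hq : 90 ≤ q) (hqk : q < k) (hv : (10 * k) ^ 11 ≤ v)
    (hM : s ≤ M) (hMv : (5 * M) ^ 750 < v ^ q) (C : Circuit v s M (1 / M))
    (hC : C.special = ∅) (o : Fin s) :
    cliquesAccepted k (C.fn o) < 2 * (v : ℝ) ^ (-(1 / 3) : ℝ) ∨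
      colouringsRejected q (C.fn o) < (2 : ℝ) ^ (-((v : ℝ) ^ (1 / 6 : ℝ) / 32)) := by
  classical
  have hkv : k ≤ v := by
    calc k ≤ 10 * k := by omega
      _ = (10 * k) ^ 1 := (pow_one _).symm
      _ ≤ (10 * k) ^ 11 := Nat.pow_le_pow_right (by omega) (by norm_num)
      _ ≤ v := hv
  have hs : 0 < s := lt_of_le_of_lt (Nat.zero_le _) o.2
  have hM0 : (0 : ℝ) < M := by
    have : 0 < M := by omega
    exact_mod_cast this
  have hεM : (1 : ℝ) ≤ 1 / M * ((5 * M : ℕ) : ℝ) := by
    push_cast
    rw [one_div_mul_eq_div, mul_div_assoc, div_self hM0.ne']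
    norm_num
  refine (sep hq hqk hv (by omega) hMv hεM C hC o).imp (fun h => ?_) fun h => ?_
  · unfold cliquesAccepted
    rw [Finset.card_powersetCard, Finset.card_univ, Fintype.card_fin, div_lt_iff₀ (by
      have := Nat.choose_pos hkv
      exact_mod_cast this)]
    refine lt_of_le_of_lt (le_of_eq ?_) h
    rw [nc_eq]
    congr 2
    ext K
    simp only [Finset.mem_filter, Finset.mem_univ, true_and]
  · unfold colouringsRejected
    rw [Finset.card_univ, Fintype.card_fun, Fintype.card_fin, Fintype.card_fin, Nat.cast_pow,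
      div_lt_iff₀ (by
        have : (0 : ℝ) < q := by
          have : 0 < q := by omega
          exact_mod_cast this
        positivity)]
    refine lt_of_le_of_lt (le_of_eq ?_) h
    rw [nc_eq]

end Pool.Agent.H58.LG
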